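import Pool.Agent.W_b5ab1b_h80.Defs

/-!
# From L1 bounds to null sets (helper80)
-/

set_option autoImplicit false

noncomputable section

open scoped Polynomial
open MeasureTheory

namespace Pool.Agent.Wb5ab1b

/-- the bound for a continuous function with values in `[0, 1]` -/
theorem AcA_cont {Y : Type} [MeasurableSpace Y] (ν : Measure (Y × ℝ)) [IsFiniteMeasure ν]
    (M : ℝ) (hν : ν {z | z.2 ∉ Set.Icc (-M) M} = 0) (F : Y × ℝ → ℂ) (hF : Measurable F) (B : ℝ)
    (hB : ∀ᵐ z ∂ν, ‖F z‖ ≤ B) (C : ℝ)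
    (h : ∀ q : ℝ[X], ‖∫ z, F z * ((q.eval z.2 : ℝ) : ℂ) ∂ν‖ ≤ C * nrm M q)
    (q : ℝ → ℝ) (hq : Continuous q) (hq0 : ∀ x, 0 ≤ q x) (hq1 : ∀ x, q x ≤ 1) :
    ‖∫ z, F z * ((q z.2 : ℝ) : ℂ) ∂ν‖ ≤ |C| * ∫ x in Set.Icc (-M) M, q x := by
  have hmem : ∀ᵐ z ∂ν, z.2 ∈ Set.Icc (-M) M := by
    rw [ae_iff]
    exact hν
  refine le_of_forall_pos_le_add fun ε hε => ?_
  obtain ⟨K, hK0, hK⟩ : ∃ K : ℝ, 0 < K ∧
      |C| * (volume.real (Set.Icc (-M) M)) + |B| * ν.real Set.univ ≤ K := by
    refine ⟨|C| * (volume.real (Set.Icc (-M) M)) + |B| * ν.real Set.univ + 1, ?_, by linarith⟩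
    have : 0 ≤ |C| * (volume.real (Set.Icc (-M) M)) := by positivity
    have : 0 ≤ |B| * ν.real Set.univ := by positivity
    linarith
  obtain ⟨p, hp⟩ := exists_polynomial_near_of_continuousOn (-M) M q hq.continuousOn (ε / K)
    (by positivity)
  have hmq : Measurable fun z : Y × ℝ => F z * ((q z.2 : ℝ) : ℂ) :=
    hF.mul (Complex.measurable_ofReal.comp (hq.measurable.comp measurable_snd))
  have hmp : Measurable fun z : Y × ℝ => F z * ((p.eval z.2 : ℝ) : ℂ) :=
    hF.mul (Complex.measurable_ofReal.comp (p.continuous.measurable.comp measurable_snd))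
  have hbq : ∀ᵐ z ∂ν, ‖F z * ((q z.2 : ℝ) : ℂ)‖ ≤ |B| := by
    filter_upwards [hB] with z hz
    rw [norm_mul, Complex.norm_real, Real.norm_eq_abs, abs_of_nonneg (hq0 _)]
    calc ‖F z‖ * q z.2 ≤ |B| * 1 :=
          mul_le_mul (hz.trans (le_abs_self B)) (hq1 _) (hq0 _) (abs_nonneg _)
      _ = |B| := mul_one _
  have hbd : ∀ᵐ z ∂ν, ‖F z * ((q z.2 : ℝ) : ℂ) - F z * ((p.eval z.2 : ℝ) : ℂ)‖ ≤
      |B| * (ε / K) := by
    filter_upwards [hB, hmem] with z hz hz2
    rw [← mul_sub, norm_mul, ← Complex.ofReal_sub, Complex.norm_real, Real.norm_eq_abs]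
    refine mul_le_mul (hz.trans (le_abs_self B)) ?_ (abs_nonneg _) (abs_nonneg _)
    rw [abs_sub_comm]
    exact (hp _ hz2).le
  have hiq : Integrable (fun z => F z * ((q z.2 : ℝ) : ℂ)) ν :=
    (integrable_const |B|).mono' hmq.aestronglyMeasurable hbq
  have hid : Integrable (fun z => F z * ((q z.2 : ℝ) : ℂ) - F z * ((p.eval z.2 : ℝ) : ℂ)) ν :=
    (integrable_const (|B| * (ε / K))).mono' (hmq.sub hmp).aestronglyMeasurable hbd
  have h1 : ∫ z, F z * ((q z.2 : ℝ) : ℂ) ∂ν = ∫ z, F z * ((p.eval z.2 : ℝ) : ℂ) ∂ν +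
      ∫ z, (F z * ((q z.2 : ℝ) : ℂ) - F z * ((p.eval z.2 : ℝ) : ℂ)) ∂ν := by
    have hip : Integrable (fun z => F z * ((p.eval z.2 : ℝ) : ℂ)) ν := by
      have := hiq.sub hid
      refine this.congr (Filter.Eventually.of_forall fun z => ?_)
      simp
    rw [integral_sub hiq hip]
    ring
  have h2 : ‖∫ z, (F z * ((q z.2 : ℝ) : ℂ) - F z * ((p.eval z.2 : ℝ) : ℂ)) ∂ν‖ ≤
      |B| * (ε / K) * ν.real Set.univ := norm_integral_le_of_norm_le_const hbd
  have hiqc : IntegrableOn q (Set.Icc (-M) M) := hq.continuousOn.integrableOn_Icc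
  have h3 : nrm M p ≤ (∫ x in Set.Icc (-M) M, q x) + ε / K * volume.real (Set.Icc (-M) M) := by
    have h4 : nrm M p ≤ ∫ x in Set.Icc (-M) M, (q x + ε / K) := by
      unfold nrm
      apply setIntegral_mono_on (nrm_integrable M p)
        (hiqc.add (integrableOn_const (by
          simp [Real.volume_Icc]))) measurableSet_Icc
      intro x hx
      have h5 := hp x hx
      have h6 : |p.eval x| ≤ |p.eval x - q x| + |q x| := by
        calc |p.eval x| = |(p.eval x - q x) + q x| := by ring_nf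
          _ ≤ _ := abs_add_le _ _
      rw [abs_of_nonneg (hq0 x)] at h6
      show |p.eval x| ≤ q x + ε / K
      linarith
    refine h4.trans (le_of_eq ?_)
    rw [integral_add hiqc (integrableOn_const (by simp [Real.volume_Icc])), setIntegral_const,
      smul_eq_mul]
    ring
  calc ‖∫ z, F z * ((q z.2 : ℝ) : ℂ) ∂ν‖
      ≤ ‖∫ z, F z * ((p.eval z.2 : ℝ) : ℂ) ∂ν‖ +
        ‖∫ z, (F z * ((q z.2 : ℝ) : ℂ) - F z * ((p.eval z.2 : ℝ) : ℂ)) ∂ν‖ := by
        rw [h1]; exact norm_add_le _ _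
    _ ≤ |C| * nrm M p + |B| * (ε / K) * ν.real Set.univ := by
        refine add_le_add ((h p).trans ?_) h2
        exact mul_le_mul_of_nonneg_right (le_abs_self C) (nrm_nonneg _ _)
    _ ≤ |C| * ((∫ x in Set.Icc (-M) M, q x) + ε / K * volume.real (Set.Icc (-M) M)) +
        |B| * (ε / K) * ν.real Set.univ := by
        have := mul_le_mul_of_nonneg_left h3 (abs_nonneg C)
        linarith
    _ = |C| * (∫ x in Set.Icc (-M) M, q x) +
        (|C| * (volume.real (Set.Icc (-M) M)) + |B| * ν.real Set.univ) * (ε / K) := by ring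
    _ ≤ |C| * (∫ x in Set.Icc (-M) M, q x) + K * (ε / K) := by
        have : 0 ≤ ε / K := by positivity
        have := mul_le_mul_of_nonneg_right hK this
        linarith
    _ = |C| * (∫ x in Set.Icc (-M) M, q x) + ε := by
        rw [mul_div_cancel₀ _ hK0.ne']

/-- the functions `max 0 (1 - (j+1) dist(x, D))` -/
def AcA_q (D : Set ℝ) (j : ℕ) (x : ℝ) : ℝ := max 0 (1 - ((j : ℝ) + 1) * Metric.infDist x D)

theorem AcA_q_cont (D : Set ℝ) (j : ℕ) : Continuous (AcA_q D j) := by
  unfold AcA_q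
  exact continuous_const.max (continuous_const.sub (continuous_const.mul
    (Metric.continuous_infDist_pt D)))

theorem AcA_q_nonneg (D : Set ℝ) (j : ℕ) (x : ℝ) : 0 ≤ AcA_q D j x := le_max_left _ _

theorem AcA_q_le (D : Set ℝ) (j : ℕ) (x : ℝ) : AcA_q D j x ≤ 1 := by
  unfold AcA_q
  apply max_le zero_le_one
  have h1 : 0 ≤ Metric.infDist x D := Metric.infDist_nonneg
  have h2 : 0 ≤ ((j : ℝ) + 1) * Metric.infDist x D := by positivity
  linarith

theorem AcA_q_tendsto {D : Set ℝ} (hD : IsClosed D) (hne : D.Nonempty) (x : ℝ) :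
    Filter.Tendsto (fun j => AcA_q D j x) Filter.atTop
      (nhds (D.indicator (fun _ => (1 : ℝ)) x)) := by
  by_cases hx : x ∈ D
  · rw [Set.indicator_of_mem hx]
    have h1 : ∀ j : ℕ, AcA_q D j x = 1 := by
      intro j
      unfold AcA_q
      rw [Metric.infDist_zero_of_mem hx]
      simp
    simp only [h1]
    exact tendsto_const_nhds
  · rw [Set.indicator_of_notMem hx]
    have h1 : 0 < Metric.infDist x D := (hD.notMem_iff_infDist_pos hne).1 hx
    obtain ⟨j0, hj0⟩ := exists_nat_gt (1 / Metric.infDist x D)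
    refine tendsto_const_nhds.congr' ?_
    filter_upwards [Filter.eventually_ge_atTop j0] with j hj
    unfold AcA_q
    have h2 : (j0 : ℝ) ≤ j := by exact_mod_cast hj
    have h3 : 1 < ((j : ℝ) + 1) * Metric.infDist x D := by
      have h4 : 1 / Metric.infDist x D < (j : ℝ) + 1 := by linarith
      rwa [div_lt_iff₀ h1] at h4
    rw [max_eq_left (by linarith)]

/-- From `L^1` bounds to null sets. Let `ν` be a finite measure on `Y × ℝ`, concentrated on
`|x| ≤ M`, `F` a bounded measurable function, with `|∫ F(z) q(z.2)| ≤ C ∫_{[-M,M]} |q|` for all real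
polynomials `q`. Then `∫_{z.2 ∈ D} F = 0` for every compact null set `D`.

Proof. By Weierstrass the inequality holds for all continuous `q` on `ℝ` (approximate uniformly on
`[-M, M]`; both sides are continuous for the uniform norm). Apply it to
`q_j(x) = max 0 (1 - j dist(x, D))` (`Metric.infDist`, or `thickenedIndicator`), which decreases to the
indicator of `D`, and use dominated convergence on both sides. (If `D` is empty there is nothing to
prove.) -/
theorem int_zero_of_bound {Y : Type} [MeasurableSpace Y] (ν : Measure (Y × ℝ)) [IsFiniteMeasure ν]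
    (M : ℝ) (hν : ν {z | z.2 ∉ Set.Icc (-M) M} = 0) (F : Y × ℝ → ℂ) (hF : Measurable F) (B : ℝ)
    (hB : ∀ᵐ z ∂ν, ‖F z‖ ≤ B) (C : ℝ)
    (h : ∀ q : ℝ[X], ‖∫ z, F z * ((q.eval z.2 : ℝ) : ℂ) ∂ν‖ ≤ C * nrm M q)
    (D : Set ℝ) (hD : IsCompact D) (hD0 : volume D = 0) :
    ∫ z in {z | z.2 ∈ D}, F z ∂ν = 0 := by
  rcases D.eq_empty_or_nonempty with hDe | hne
  · subst hDe
    simp
  have hS : MeasurableSet {z : Y × ℝ | z.2 ∈ D} := measurable_snd hD.measurableSet
  have hlim1 : Filter.Tendsto (fun j => ∫ z, F z * ((AcA_q D j z.2 : ℝ) : ℂ) ∂ν) Filter.atTop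
      (nhds (∫ z, F z * ((D.indicator (fun _ => (1 : ℝ)) z.2 : ℝ) : ℂ) ∂ν)) := by
    refine tendsto_integral_of_dominated_convergence (fun _ => |B|) (fun j => ?_)
      (integrable_const _) (fun j => ?_) ?_
    · exact (hF.mul (Complex.measurable_ofReal.comp
        ((AcA_q_cont D j).measurable.comp measurable_snd))).aestronglyMeasurable
    · filter_upwards [hB] with z hz
      rw [norm_mul, Complex.norm_real, Real.norm_eq_abs, abs_of_nonneg (AcA_q_nonneg _ _ _)]
      calc ‖F z‖ * AcA_q D j z.2 ≤ |B| * 1 :=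
            mul_le_mul (hz.trans (le_abs_self B)) (AcA_q_le _ _ _) (AcA_q_nonneg _ _ _)
              (abs_nonneg _)
        _ = |B| := mul_one _
    · refine Filter.Eventually.of_forall fun z => ?_
      exact ((Complex.continuous_ofReal.tendsto _).comp
        (AcA_q_tendsto hD.isClosed hne z.2)).const_mul _
  have hlim2 : Filter.Tendsto (fun j => |C| * ∫ x in Set.Icc (-M) M, AcA_q D j x) Filter.atTop
      (nhds (|C| * ∫ x in Set.Icc (-M) M, D.indicator (fun _ => (1 : ℝ)) x)) := by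
    refine Filter.Tendsto.const_mul _ ?_
    refine tendsto_integral_of_dominated_convergence (fun _ => 1) (fun j => ?_) ?_
      (fun j => ?_) ?_
    · exact (AcA_q_cont D j).aestronglyMeasurable
    · exact integrableOn_const (by simp [Real.volume_Icc])
    · refine Filter.Eventually.of_forall fun x => ?_
      rw [Real.norm_eq_abs, abs_of_nonneg (AcA_q_nonneg _ _ _)]
      exact AcA_q_le _ _ _
    · exact Filter.Eventually.of_forall fun x => AcA_q_tendsto hD.isClosed hne x
  have h0 : ∫ x in Set.Icc (-M) M, D.indicator (fun _ => (1 : ℝ)) x = 0 := by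
    rw [integral_indicator hD.measurableSet, Measure.restrict_restrict hD.measurableSet,
      setIntegral_const]
    have : volume (D ∩ Set.Icc (-M) M) = 0 := measure_mono_null Set.inter_subset_left hD0
    simp [measureReal_def, this]
  rw [h0, mul_zero] at hlim2
  have h1 : ‖∫ z, F z * ((D.indicator (fun _ => (1 : ℝ)) z.2 : ℝ) : ℂ) ∂ν‖ ≤ 0 := by
    refine le_of_tendsto_of_tendsto hlim1.norm hlim2 (Filter.Eventually.of_forall fun j => ?_)
    exact AcA_cont ν M hν F hF B hB C h _ (AcA_q_cont D j) (AcA_q_nonneg D j) (AcA_q_le D j)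
  have h2 : ∫ z in {z | z.2 ∈ D}, F z ∂ν =
      ∫ z, F z * ((D.indicator (fun _ => (1 : ℝ)) z.2 : ℝ) : ℂ) ∂ν := by
    rw [← integral_indicator hS]
    refine integral_congr_ae (Filter.Eventually.of_forall fun z => ?_)
    by_cases hz : z.2 ∈ D
    · have hz' : z ∈ {z : Y × ℝ | z.2 ∈ D} := hz
      simp only [Set.indicator_of_mem hz', Set.indicator_of_mem hz, Complex.ofReal_one, mul_one]
    · have hz' : z ∉ {z : Y × ℝ | z.2 ∈ D} := hz
      simp only [Set.indicator_of_notMem hz', Set.indicator_of_notMem hz, Complex.ofReal_zero,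
        mul_zero]
  rw [h2]
  exact norm_le_zero_iff.1 h1

end Pool.Agent.Wb5ab1b
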