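import Pool.Agent.W_b5ab1b_h80.Dense

/-!
# Vanishing almost everywhere from vanishing integrals (helper80)
-/

set_option autoImplicit false

noncomputable section

open scoped Polynomial
open MeasureTheory

namespace Pool.Agent.Wb5ab1b

theorem AcB_cont {d : Type} [Fintype d] (G : (AddMonoidAlgebra ℂ (d → ℤ))[X]) :
    Continuous fun z : UnitAddTorus d × ℝ => evG z G := by
  have h : ∀ z : UnitAddTorus d × ℝ, evG z G =
      ∑ j ∈ Finset.range (G.natDegree + 1), evT (G.coeff j) z.1 * (z.2 : ℂ) ^ j := by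
    intro z
    unfold evG
    rw [Polynomial.coe_eval₂RingHom, Polynomial.eval₂_eq_sum_range]
    rfl
  simp only [h]
  refine continuous_finsetSum _ fun j _ => ?_
  exact ((evT (G.coeff j)).continuous.comp continuous_fst).mul
    ((Complex.continuous_ofReal.comp continuous_snd).pow j)

theorem AcB_bound {d : Type} [Fintype d] (M : ℝ) (G : (AddMonoidAlgebra ℂ (d → ℤ))[X]) :
    ∃ B : ℝ, 0 ≤ B ∧ ∀ z : UnitAddTorus d × ℝ, z.2 ∈ Set.Icc (-M) M → ‖evG z G‖ ≤ B := by
  have hc : IsCompact ((Set.univ : Set (UnitAddTorus d)) ×ˢ Set.Icc (-M) M) :=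
    isCompact_univ.prod isCompact_Icc
  obtain ⟨B, hB⟩ := hc.exists_bound_of_continuousOn (AcB_cont G).continuousOn
  exact ⟨|B|, abs_nonneg _, fun z hz => (hB z ⟨Set.mem_univ _, hz⟩).trans (le_abs_self _)⟩

/-- If the integral over `{z.2 ∈ D}` of `evG z G` times every polynomial function `evG z H` vanishes, then
`evG z G = 0` almost everywhere on `{z.2 ∈ D}`. Proof: by `dense_evG` the functions `evG · H` are
dense in the continuous functions on torus × `[-M, M]`; so `∫_{z.2 ∈ D} evG z G * φ z = 0` for all continuous `φ`; take `φ = conj (evG z G)`. -/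
theorem ae_zero_of_int {d : Type} [Fintype d] (ν : Measure (UnitAddTorus d × ℝ))
    [IsFiniteMeasure ν] (M : ℝ) (hν : ν {z | z.2 ∉ Set.Icc (-M) M} = 0) (D : Set ℝ) (hD : IsCompact D)
    (G : (AddMonoidAlgebra ℂ (d → ℤ))[X])
    (h : ∀ H : (AddMonoidAlgebra ℂ (d → ℤ))[X], ∫ z in {z | z.2 ∈ D}, evG z (H * G) ∂ν = 0) :
    ∀ᵐ z ∂ν, z.2 ∈ D → evG z G = 0 := by
  have hS : MeasurableSet {z : UnitAddTorus d × ℝ | z.2 ∈ D} :=
    hD.measurableSet.preimage measurable_snd
  have hM : ∀ᵐ z ∂ν, z.2 ∈ Set.Icc (-M) M := hν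
  have hMS : ∀ᵐ z ∂(ν.restrict {z | z.2 ∈ D}), z.2 ∈ Set.Icc (-M) M := ae_restrict_of_ae hM
  obtain ⟨B, hB0, hB⟩ := AcB_bound M G
  have hgm : ∀ H : (AddMonoidAlgebra ℂ (d → ℤ))[X],
      AEStronglyMeasurable (fun z : UnitAddTorus d × ℝ => evG z H) (ν.restrict {z | z.2 ∈ D}) :=
    fun H => (AcB_cont H).aestronglyMeasurable
  have hint : Integrable (fun z : UnitAddTorus d × ℝ => ‖evG z G‖ ^ 2)
      (ν.restrict {z | z.2 ∈ D}) := by
    refine Integrable.of_bound ((hgm G).norm.pow 2) (B ^ 2) ?_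
    filter_upwards [hMS] with z hz
    rw [Real.norm_of_nonneg (by positivity)]
    exact pow_le_pow_left₀ (norm_nonneg _) (hB z hz) 2
  have key : ∀ ε : ℝ, 0 < ε → ∫ z in {z | z.2 ∈ D}, ‖evG z G‖ ^ 2 ∂ν ≤
      ε * (B * (ν.restrict {z | z.2 ∈ D}).real Set.univ) := by
    intro ε hε
    let φ : C(UnitAddTorus d × Set.Icc (-M) M, ℂ) :=
      ⟨fun z => (starRingEnd ℂ) (evG (z.1, (z.2 : ℝ)) G), by
        refine Complex.continuous_conj.comp ((AcB_cont G).comp ?_)
        exact continuous_fst.prodMk (continuous_subtype_val.comp continuous_snd)⟩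
    obtain ⟨H, hH⟩ := dense_evG M φ ε hε
    have hHz : ∀ z : UnitAddTorus d × ℝ, z.2 ∈ Set.Icc (-M) M →
        ‖evG z H - (starRingEnd ℂ) (evG z G)‖ ≤ ε := fun z hz => hH (z.1, ⟨z.2, hz⟩)
    obtain ⟨B2, hB20, hB2⟩ := AcB_bound M (H * G)
    have h1 : Integrable (fun z : UnitAddTorus d × ℝ => evG z (H * G))
        (ν.restrict {z | z.2 ∈ D}) := by
      refine Integrable.of_bound (hgm _) B2 ?_
      filter_upwards [hMS] with z hz using hB2 z hz
    have h2 : ∀ᵐ z ∂(ν.restrict {z | z.2 ∈ D}),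
        ‖((starRingEnd ℂ) (evG z G) - evG z H) * evG z G‖ ≤ ε * B := by
      filter_upwards [hMS] with z hz
      rw [norm_mul, norm_sub_rev]
      exact mul_le_mul (hHz z hz) (hB z hz) (norm_nonneg _) hε.le
    have h3m : AEStronglyMeasurable (fun z : UnitAddTorus d × ℝ =>
        ((starRingEnd ℂ) (evG z G) - evG z H) * evG z G) (ν.restrict {z | z.2 ∈ D}) :=
      (((Complex.continuous_conj.comp (AcB_cont G)).sub (AcB_cont H)).mul
        (AcB_cont G)).aestronglyMeasurable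
    have h3 : Integrable (fun z : UnitAddTorus d × ℝ =>
        ((starRingEnd ℂ) (evG z G) - evG z H) * evG z G) (ν.restrict {z | z.2 ∈ D}) :=
      Integrable.of_bound h3m _ h2
    have h4 : ((∫ z in {z | z.2 ∈ D}, ‖evG z G‖ ^ 2 ∂ν : ℝ) : ℂ) =
        ∫ z in {z | z.2 ∈ D}, ((starRingEnd ℂ) (evG z G) - evG z H) * evG z G ∂ν := by
      rw [← integral_complex_ofReal, ← add_zero (∫ z in {z | z.2 ∈ D},
        ((starRingEnd ℂ) (evG z G) - evG z H) * evG z G ∂ν), ← h H, ← integral_add h3 h1]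
      refine integral_congr_ae (Filter.Eventually.of_forall fun z => ?_)
      show (((‖evG z G‖ ^ 2 : ℝ)) : ℂ) =
        ((starRingEnd ℂ) (evG z G) - evG z H) * evG z G + evG z (H * G)
      rw [map_mul (evG z), Complex.ofReal_pow, ← Complex.conj_mul']
      ring
    have h5 := norm_integral_le_of_norm_le_const h2
    rw [← h4, Complex.norm_real, mul_assoc] at h5
    exact (le_abs_self _).trans h5
  have hzero : ∫ z in {z | z.2 ∈ D}, ‖evG z G‖ ^ 2 ∂ν = 0 := by
    refine le_antisymm ?_ (integral_nonneg fun z => by positivity)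
    refine le_of_forall_pos_le_add fun δ hδ => ?_
    have hc : 0 ≤ B * (ν.restrict {z | z.2 ∈ D}).real Set.univ := by positivity
    have h1 := key (δ / (B * (ν.restrict {z | z.2 ∈ D}).real Set.univ + 1)) (by positivity)
    refine h1.trans ?_
    rw [zero_add, div_mul_eq_mul_div, div_le_iff₀ (by positivity)]
    nlinarith
  rw [integral_eq_zero_iff_of_nonneg (fun z => by positivity) hint] at hzero
  have h6 := (ae_restrict_iff' hS).1 hzero
  filter_upwards [h6] with z hz hzD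
  have h7 := hz hzD
  have h8 : ‖evG z G‖ ^ 2 = 0 := h7
  exact norm_eq_zero.1 (pow_eq_zero_iff two_ne_zero |>.1 h8)

end Pool.Agent.Wb5ab1b
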