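import Pool.Agent.W_b5ab1b_h80.Joint
import Pool.Agent.W_b5ab1b_h80.AcA
import Pool.Agent.W_b5ab1b_h80.AcB

/-!
# Elements of AC vanish on the singular part (helper80)
-/

set_option autoImplicit false

noncomputable section

open scoped Polynomial
open MeasureTheory

namespace Pool.Agent.Wb5ab1b

variable {k : ℕ}

theorem AcC_emb (q : ℝ[X]) :
    emb6X (k := k) (q.map (algebraMap ℝ (Lau6 k))) = toL q := by
  unfold emb6X toL
  rw [Polynomial.coe_mapRingHom, Polynomial.map_map]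
  congr 1
  ext1 r
  show emb6 (algebraMap ℝ (Lau6 k) r) = algebraMap ℝ (Lau k) r
  rw [IsScalarTower.algebraMap_apply ℝ ℂ (Lau6 k), IsScalarTower.algebraMap_apply ℝ ℂ (Lau k)]
  exact (emb6 (k := k)).commutes _

theorem AcC_ev (z : UnitAddTorus (Fin 6 × Fin k) × ℝ) (q : ℝ[X]) :
    evG z (q.map (algebraMap ℝ (Lau6 k))) = ((q.eval z.2 : ℝ) : ℂ) := by
  unfold evG
  rw [Polynomial.coe_eval₂RingHom, Polynomial.eval₂_map]
  have h : (evP z.1 : AddMonoidAlgebra ℂ (Fin 6 × Fin k → ℤ) →+* ℂ).comp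
      (algebraMap ℝ (Lau6 k)) = algebraMap ℝ ℂ := by
    ext1 r
    show evP z.1 (algebraMap ℝ (Lau6 k) r) = algebraMap ℝ ℂ r
    rw [IsScalarTower.algebraMap_apply ℝ ℂ (Lau6 k)]
    exact (evP z.1).commutes _
  rw [h]
  exact Polynomial.eval₂_at_apply (algebraMap ℝ ℂ) z.2

/-- Membership in `AC` kills the singular part. For `H = C W * X^j` (then for all `H` by linearity),
`∫ evG z (H * G) q(z.2) ∂p = E (P.app (emb6X (H * G * toL q)))
= E (emb6 W * (emb6X (X^j * G) • P).app (toL q))`, bounded by `C nrm M q`, because `AC` is a submodule. So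
`int_zero_of_bound` and `ae_zero_of_int` apply. -/
theorem ae_zero_of_mem {β v : Loc k} {M : ℝ}
    (p : Measure (UnitAddTorus (Fin 6 × Fin k) × ℝ)) [IsProbabilityMeasure p]
    (hM : p {z | z.2 ∉ Set.Icc (-M) M} = 0)
    (hp : ∀ G : (Lau6 k)[X], ∫ z, evG z G ∂p = E ((P (bb β) (bb v) 1).app (emb6X G)))
    (G : (Lau6 k)[X]) (hG : emb6X G • P (bb β) (bb v) 1 ∈ AC k M)
    (D : Set ℝ) (hD : IsCompact D) (hD0 : volume D = 0) :
    ∀ᵐ z ∂p, z.2 ∈ D → evG z G = 0 := by
  refine ae_zero_of_int p M hM D hD G fun H => ?_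
  have h1 : emb6X H • (emb6X G • P (bb β) (bb v) 1) ∈ AC k M := Submodule.smul_mem _ _ hG
  obtain ⟨C, hC⟩ := h1 1
  obtain ⟨B, -, hB⟩ := AcB_bound M (H * G)
  refine int_zero_of_bound p M hM (fun z => evG z (H * G)) (AcB_cont (H * G)).measurable B ?_ C ?_
    D hD hD0
  · have hM' : ∀ᵐ z ∂p, z.2 ∈ Set.Icc (-M) M := hM
    filter_upwards [hM'] with z hz using hB z hz
  · intro q
    have h2 : ∫ z, evG z (H * G) * ((q.eval z.2 : ℝ) : ℂ) ∂p =
        ∫ z, evG z (H * G * q.map (algebraMap ℝ (Lau6 k))) ∂p := by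
      refine integral_congr_ae (Filter.Eventually.of_forall fun z => ?_)
      show evG z (H * G) * ((q.eval z.2 : ℝ) : ℂ) =
        evG z (H * G * q.map (algebraMap ℝ (Lau6 k)))
      rw [map_mul (evG z) (H * G), AcC_ev]
    have h3 := hC q
    rw [one_mul, Fn.app_smul, Fn.app_smul] at h3
    rw [h2, hp, map_mul, map_mul, AcC_emb]
    have h4 : emb6X H * emb6X G * toL q = emb6X G * (emb6X H * toL q) := by ring
    rw [h4]
    exact h3

end Pool.Agent.Wb5ab1b
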