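import Pool.Agent.W_b5ab1b_h80.GSh

/-!
# Growth to the left is impossible (helper80)
-/

set_option autoImplicit false

noncomputable section

open scoped Polynomial
open Polynomial (X C)

namespace Pool.Agent.Wb5ab1b

variable {k : ℕ} {𝕂 : Type} [Field 𝕂]

/-- A sum with a term of small degree keeps its exact degree. -/
theorem AlgL_add (d : DegF k 𝕂) {z w : 𝕂} {m : ℤ} (hz : d.L z m) (hz' : ¬ d.L z (m - 1))
    (hw : d.L w (m - 1)) : d.L (z + w) m ∧ ¬ d.L (z + w) (m - 1) := by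
  refine ⟨d.L_add _ _ _ hz (d.L_mono _ _ _ (by omega) hw), fun hh => hz' ?_⟩
  have h1 := d.L_add _ _ _ hh (d.L_neg _ _ hw)
  have h2 : z + w + -w = z := by ring
  rwa [h2] at h1

/-- A coefficient does not raise the degree. -/
theorem AlgL_coef (d : DegF k 𝕂) (F : Lau k) {z : 𝕂} {m : ℤ} (hz : d.L z m) :
    d.L (d.ι F * z) m := by
  by_cases hF : F = 0
  · rw [hF, map_zero, zero_mul]
    exact d.L_zero m
  · exact (d.L_smul F z m hF).2 hz

/-- Multiplication by `x - v`. -/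
theorem AlgL_mulx (d : DegF k 𝕂) (F : Lau k) {z : 𝕂} {m : ℤ} (hz : d.L z m)
    (hz' : ¬ d.L z (m - 1)) :
    d.L ((d.x - d.ι F) * z) (m + 1) ∧ ¬ d.L ((d.x - d.ι F) * z) (m + 1 - 1) := by
  have h1 : (d.x - d.ι F) * z = d.x * z + -(d.ι F * z) := by ring
  rw [h1]
  refine AlgL_add d ((d.L_x z m).2 hz) (fun hh => hz' ?_) (d.L_neg _ _ ?_)
  · refine (d.L_x z (m - 1)).1 ?_
    have h2 : m - 1 + 1 = m + 1 - 1 := by ring
    rwa [h2]
  · have h2 : m + 1 - 1 = m := by ring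
    rw [h2]
    exact AlgL_coef d F hz

/-- Multiplication by `x - v`, bounds only. -/
theorem AlgL_neg (d : DegF k 𝕂) {z : 𝕂} {m : ℤ} (hz : d.L z m)
    (hz' : ¬ d.L z (m - 1)) : d.L (-z) m ∧ ¬ d.L (-z) (m - 1) := by
  refine ⟨d.L_neg _ _ hz, fun hh => hz' ?_⟩
  have h1 := d.L_neg _ _ hh
  rwa [neg_neg] at h1

/-- One step of the growth. -/
theorem AlgL_step (d : DegF k 𝕂) {b v : Lau k} (hb : b ≠ 0) {P S : ℤ → 𝕂} (h : Sol d b v P S)
    (n e : ℤ) (hP : d.L (P n) e) (hP' : ¬ d.L (P n) (e - 1))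
    (hJ : d.L (d.ι (sh n b) * S n) e) (hPp : d.L (P (n + 1)) (e + 1)) :
    (d.L (d.ι (sh (n - 1) b) * S (n - 1)) (e + 1) ∧
        ¬ d.L (d.ι (sh (n - 1) b) * S (n - 1)) (e + 1 - 1)) ∧
      (d.L (P (n - 1)) (e + 2) ∧ ¬ d.L (P (n - 1)) (e + 2 - 1)) := by
  have h1 := h.1 n
  have h2 := h.2 n
  have hb1 : sh (n - 1) b ≠ 0 := sh_ne_zero _ hb
  obtain ⟨hx, hx'⟩ := AlgL_mulx d (sh n v) hP hP'
  have hJ1 : d.L (d.ι (sh (n - 1) b) * S (n - 1)) (e + 1) ∧
        ¬ d.L (d.ι (sh (n - 1) b) * S (n - 1)) (e + 1 - 1) := by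
    have h3 : d.ι (sh (n - 1) b) * S (n - 1) =
        (d.x - d.ι (sh n v)) * P n + -(d.ι (sh n b) * S n) := by
      rw [h1]; ring
    rw [h3]
    refine AlgL_add d hx hx' (d.L_neg _ _ ?_)
    have h4 : e + 1 - 1 = e := by ring
    rwa [h4]
  refine ⟨hJ1, ?_⟩
  have hdiff : d.L (d.ι (sh n b) * S n - d.ι (sh (n - 1) b) * S (n - 1)) (e + 1) ∧
      ¬ d.L (d.ι (sh n b) * S n - d.ι (sh (n - 1) b) * S (n - 1)) (e + 1 - 1) := by
    have h3 : d.ι (sh n b) * S n - d.ι (sh (n - 1) b) * S (n - 1) =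
        -(d.ι (sh (n - 1) b) * S (n - 1)) + d.ι (sh n b) * S n := by ring
    rw [h3]
    obtain ⟨hn, hn'⟩ := AlgL_neg d hJ1.1 hJ1.2
    refine AlgL_add d hn hn' ?_
    have h4 : e + 1 - 1 = e := by ring
    rwa [h4]
  obtain ⟨hy, hy'⟩ := AlgL_mulx d (sh n v) hdiff.1 hdiff.2
  obtain ⟨hy1, hy1'⟩ := AlgL_neg d hy hy'
  have h5 : d.ι (sh (n - 1) b) * P (n - 1) =
      -((d.x - d.ι (sh n v)) * (d.ι (sh n b) * S n - d.ι (sh (n - 1) b) * S (n - 1))) +
        d.ι (sh n b) * P (n + 1) := by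
    rw [← h2]; ring
  have h6 : d.L (d.ι (sh (n - 1) b) * P (n - 1)) (e + 1 + 1) ∧
      ¬ d.L (d.ι (sh (n - 1) b) * P (n - 1)) (e + 1 + 1 - 1) := by
    rw [h5]
    refine AlgL_add d hy1 hy1' ?_
    have h4 : e + 1 + 1 - 1 = e + 1 := by ring
    rw [h4]
    exact AlgL_coef d _ hPp
  have h7 : e + 1 + 1 = e + 2 := by ring
  rw [h7] at h6
  exact ⟨(d.L_smul _ _ _ hb1).1 h6.1, fun hh => h6.2 ((d.L_smul _ _ _ hb1).2 hh)⟩

/-- All the degrees along the growing direction. -/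
theorem AlgL_all (d : DegF k 𝕂) {b v : Lau k} (hb : b ≠ 0) {P S : ℤ → 𝕂} (h : Sol d b v P S)
    (n e : ℤ) (hP : d.L (P n) e) (hP' : ¬ d.L (P n) (e - 1))
    (hJ : d.L (d.ι (sh n b) * S n) e) (hPp : d.L (P (n + 1)) (e + 1)) (m : ℕ) :
    (d.L (P (n - m)) (e + 2 * m) ∧ ¬ d.L (P (n - m)) (e + 2 * m - 1)) ∧
      d.L (d.ι (sh (n - m) b) * S (n - m)) (e + 2 * m) ∧
        d.L (P (n - m + 1)) (e + 2 * m + 1) := by
  induction m with
  | zero =>
    simp only [Nat.cast_zero, sub_zero, mul_zero, add_zero]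
    exact ⟨⟨hP, hP'⟩, hJ, hPp⟩
  | succ m ih =>
    obtain ⟨⟨i1, i2⟩, i3, i4⟩ := ih
    obtain ⟨⟨s1, s2⟩, s3, s4⟩ := AlgL_step d hb h (n - m) (e + 2 * m) i1 i2 i3 i4
    have e1 : n - ((m + 1 : ℕ) : ℤ) = n - m - 1 := by push_cast; ring
    have e2 : e + 2 * ((m + 1 : ℕ) : ℤ) = e + 2 * m + 2 := by push_cast; ring
    have e3 : n - (m : ℤ) - 1 + 1 = n - m := by ring
    rw [e1, e2, e3]
    exact ⟨⟨s3, s4⟩, d.L_mono _ _ _ (by omega) s1, d.L_mono _ _ _ (by omega) i1⟩

/-- Exact degrees along the growing direction (to the left), the mirror image of `grow_right`. Induction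
on `m`; `J_n = b_n S_n`. If `P_n` has exact degree `e`, `J_n` has degree `≤ e` and `P_(n+1)` degree
`≤ e + 1`, then `J_(n-1) = (x - v_n) P_n - J_n` has exact degree `e + 1` and
`b_(n-1) P_(n-1) = b_n P_(n+1) - (x - v_n)(J_n - J_(n-1))` has exact degree `e + 2`. So `P (n - m)` has
exact degree `e + 2m`, and `J (n - m - 1)` has exact degree `e + 2m + 1`. -/
theorem grow_left (d : DegF k 𝕂) {b v : Lau k} (hb : b ≠ 0) {P S : ℤ → 𝕂} (h : Sol d b v P S)
    (n e : ℤ) (hP : d.L (P n) e) (hP' : ¬ d.L (P n) (e - 1))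
    (hJ : d.L (d.ι (sh n b) * S n) e) (hPp : d.L (P (n + 1)) (e + 1)) (m : ℕ) :
    (d.L (P (n - m)) (e + 2 * m) ∧ ¬ d.L (P (n - m)) (e + 2 * m - 1)) ∧
      (d.L (S (n - m - 1)) (e + 2 * m + 1) ∧ ¬ d.L (S (n - m - 1)) (e + 2 * m)) := by
  obtain ⟨⟨i1, i2⟩, i3, i4⟩ := AlgL_all d hb h n e hP hP' hJ hPp m
  obtain ⟨⟨s1, s2⟩, -⟩ := AlgL_step d hb h (n - m) (e + 2 * m) i1 i2 i3 i4
  have hb1 : sh (n - m - 1) b ≠ 0 := sh_ne_zero _ hb
  refine ⟨⟨i1, i2⟩, (d.L_smul _ _ _ hb1).1 s1, fun hh => s2 ?_⟩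
  have h4 : e + 2 * (m : ℤ) + 1 - 1 = e + 2 * m := by ring
  rw [h4]
  exact (d.L_smul _ _ _ hb1).2 hh

/-- Finite sums and degrees. -/
theorem AlgL_sum (d : DegF k 𝕂) (s : Finset ℤ) (f : ℤ → 𝕂) (m : ℤ) (hf : ∀ n ∈ s, d.L (f n) m) :
    d.L (∑ n ∈ s, f n) m := by
  classical
  induction s using Finset.induction_on with
  | empty => rw [Finset.sum_empty]; exact d.L_zero m
  | insert a s ha ih =>
    rw [Finset.sum_insert ha]
    exact d.L_add _ _ _ (hf a (Finset.mem_insert_self _ _))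
      (ih fun n hn => hf n (Finset.mem_insert_of_mem hn))

/-- A sum with one dominant term is not zero. -/
theorem AlgL_dom (d : DegF k 𝕂) (s : Finset ℤ) (f : ℤ → 𝕂) (N g : ℤ) (hN : N ∈ s)
    (h1 : ¬ d.L (f N) g) (h2 : ∀ n ∈ s, n ≠ N → d.L (f n) g)
    (h0 : ∑ n ∈ s, f n = 0) : False := by
  classical
  rw [← Finset.add_sum_erase s f hN] at h0
  have h3 : f N = -∑ n ∈ s.erase N, f n := eq_neg_of_add_eq_zero_left h0
  apply h1
  rw [h3]
  refine d.L_neg _ _ (AlgL_sum d _ _ _ ?_)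
  intro n hn
  rw [Finset.mem_erase] at hn
  exact h2 n hn.2 hn.1

/-- Contradiction with `Rel3`. Let `v₊` (if `v` is not constant) be the largest site such that
`der (v₊, i) v ≠ 0` for some `i`, and `b₊` the same for `b`.
Case 1: `v` is not constant and (`b` is constant or `b₊ ≤ v₊`); take `i` with `der (v₊, i) v ≠ 0`,
`q` very negative, `j = (q, i)`, `N = q - v₊`, `g` the exact degree of `P N` (then `S m` has exact degree
`g - 1 - 2 (m - N)` and `P m` has exact degree `g - 2 (m - N)`). In the sum of `Rel3 j` the terms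
with `P m`, `S m`, `m < N`, vanish; the term with `P N` has exact degree `g`, all the others degree
`≤ g - 1`. So the sum is not `0`.
Case 2: `b` is not constant and (`v` is constant or `v₊ < b₊`); `N = q - b₊`: the term with `S N` has
exact degree `g - 1`, the terms with `P m` have `m ≥ N + 1` and degree `≤ g - 2`, the terms
`S m`, `m > N`, have degree `≤ g - 3`.
(`q` is taken so negative that `q + r + 1 ≤ n`, so all the sites in the sum are in the range of
`grow_left`.) -/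
theorem alg_left (d : DegF k 𝕂) {b v : Lau k} {r : ℕ} (hbr : Within r b) (hvr : Within r v)
    (hb : b ≠ 0) (hnc : ¬ ((∀ l, der l b = 0) ∧ ∀ l, der l v = 0)) {P S : ℤ → 𝕂}
    (h : Sol d b v P S) (h3 : Rel3 d b v r P S)
    (n e : ℤ) (hP : d.L (P n) e) (hP' : ¬ d.L (P n) (e - 1))
    (hJ : d.L (d.ι (sh n b) * S n) e) (hPp : d.L (P (n + 1)) (e + 1)) : False := by
  classical
  -- degrees of all the entries to the left of `n`
  have hPd : ∀ N : ℤ, N ≤ n → d.L (P N) (e + 2 * (n - N)) ∧ ¬ d.L (P N) (e + 2 * (n - N) - 1) := by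
    intro N hN
    have h1 := (grow_left d hb h n e hP hP' hJ hPp (n - N).toNat).1
    have h2 : (((n - N).toNat : ℕ) : ℤ) = n - N := Int.toNat_of_nonneg (by omega)
    rw [h2] at h1
    have h3 : n - (n - N) = N := by ring
    rwa [h3] at h1
  have hSd : ∀ N : ℤ, N + 1 ≤ n →
      d.L (S N) (e + 2 * (n - N) - 1) ∧ ¬ d.L (S N) (e + 2 * (n - N) - 2) := by
    intro N hN
    have h1 := (grow_left d hb h n e hP hP' hJ hPp (n - N - 1).toNat).2
    have h2 : (((n - N - 1).toNat : ℕ) : ℤ) = n - N - 1 := Int.toNat_of_nonneg (by omega)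
    rw [h2] at h1
    have h3 : n - (n - N - 1) - 1 = N := by ring
    have h4 : e + 2 * (n - N - 1) + 1 = e + 2 * (n - N) - 1 := by ring
    have h5 : e + 2 * (n - N - 1) = e + 2 * (n - N) - 2 := by ring
    rw [h3, h4, h5] at h1
    exact h1
  -- the largest site
  set T : ℤ → Prop := fun s => ∃ i : Fin k, der (s, i) v ≠ 0 ∨ der (s, i) b ≠ 0 with hT
  have hTr : ∀ s, T s → |s| ≤ (r : ℤ) := by
    intro s hs
    by_contra hcon
    push Not at hcon
    obtain ⟨i, hi | hi⟩ := hs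
    · exact hi (der_of_within hvr (s, i) hcon)
    · exact hi (der_of_within hbr (s, i) hcon)
  have hTne : ∃ s, T s := by
    by_contra hcon
    push Not at hcon
    apply hnc
    constructor
    · intro l
      by_contra h1
      exact hcon l.1 ⟨l.2, Or.inr h1⟩
    · intro l
      by_contra h1
      exact hcon l.1 ⟨l.2, Or.inl h1⟩
  obtain ⟨sp, hsp, hmax⟩ := Int.exists_greatest_of_bdd (P := T)
    ⟨(r : ℤ), fun z hz => (abs_le.1 (hTr z hz)).2⟩ hTne
  have hspr := hTr sp hsp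
  obtain ⟨hsp1, hsp2⟩ := abs_le.1 hspr
  have hv0 : ∀ s : ℤ, sp < s → ∀ i : Fin k, der (s, i) v = 0 := by
    intro s hs i
    by_contra h1
    have := hmax s ⟨i, Or.inl h1⟩
    omega
  have hb0 : ∀ s : ℤ, sp < s → ∀ i : Fin k, der (s, i) b = 0 := by
    intro s hs i
    by_contra h1
    have := hmax s ⟨i, Or.inr h1⟩
    omega
  set q : ℤ := n - 1 - r with hq
  set N : ℤ := q - sp with hN
  have hNn : N + 1 ≤ n := by omega
  have hqN : q - N = sp := by omega
  -- terms to the left of `N` vanish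
  have hleft : ∀ i : Fin k, ∀ m : ℤ, m < N →
      d.ι (der (q, i) (sh m v)) * P m + d.ι (der (q, i) (sh m b)) * S m = 0 := by
    intro i m hm
    rw [der_sh, der_sh, hv0 (q - m) (by omega) i, hb0 (q - m) (by omega) i]
    simp
  by_cases hcase : ∃ i : Fin k, der (sp, i) v ≠ 0
  · obtain ⟨i, hi⟩ := hcase
    have hsum := h3 (q, i)
    refine AlgL_dom d _ _ N (e + 2 * (n - N) - 1) (by rw [Finset.mem_Icc]; constructor <;> omega)
      ?_ ?_ hsum
    · have hc : der (q, i) (sh N v) ≠ 0 := by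
        rw [der_sh]
        have : q - N = sp := hqN
        simp only [this]
        exact sh_ne_zero _ hi
      intro hh
      have h5 : d.L (d.ι (der (q, i) (sh N b)) * S N) (e + 2 * (n - N) - 1) :=
        AlgL_coef d _ (hSd N hNn).1
      have h6 := d.L_add _ _ _ hh (d.L_neg _ _ h5)
      rw [add_neg_cancel_right] at h6
      exact (hPd N (by omega)).2 ((d.L_smul _ _ _ hc).1 h6)
    · intro m hm hmN
      rw [Finset.mem_Icc] at hm
      rcases lt_or_gt_of_ne hmN with hlt | hgt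
      · rw [hleft i m hlt]; exact d.L_zero _
      · refine d.L_add _ _ _ (AlgL_coef d _ ?_) (AlgL_coef d _ ?_)
        · exact d.L_mono _ _ _ (by omega) (hPd m (by omega)).1
        · exact d.L_mono _ _ _ (by omega) (hSd m (by omega)).1
  · push Not at hcase
    obtain ⟨i, hi⟩ := hsp
    have hi' : der (sp, i) b ≠ 0 := by
      rcases hi with h1 | h1
      · exact absurd (hcase i) h1
      · exact h1
    have hsum := h3 (q, i)
    refine AlgL_dom d _ _ N (e + 2 * (n - N) - 2) (by rw [Finset.mem_Icc]; constructor <;> omega)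
      ?_ ?_ hsum
    · have hc : der (q, i) (sh N b) ≠ 0 := by
        rw [der_sh]
        have : q - N = sp := hqN
        simp only [this]
        exact sh_ne_zero _ hi'
      have hc0 : der (q, i) (sh N v) = 0 := by
        rw [der_sh]
        have : q - N = sp := hqN
        simp only [this, hcase i, map_zero]
      intro hh
      rw [hc0, map_zero, zero_mul, zero_add] at hh
      exact (hSd N (by omega)).2 ((d.L_smul _ _ _ hc).1 hh)
    · intro m hm hmN
      rw [Finset.mem_Icc] at hm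
      rcases lt_or_gt_of_ne hmN with hlt | hgt
      · rw [hleft i m hlt]; exact d.L_zero _
      · refine d.L_add _ _ _ (AlgL_coef d _ ?_) (AlgL_coef d _ ?_)
        · exact d.L_mono _ _ _ (by omega) (hPd m (by omega)).1
        · exact d.L_mono _ _ _ (by omega) (hSd m (by omega)).1

end Pool.Agent.Wb5ab1b
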