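import Pool.Agent.W_b5ab1b_h80.GSh

/-!
# The structure of solutions without growth (helper80)
-/

set_option autoImplicit false

noncomputable section

open scoped Polynomial
open Polynomial (X C)

namespace Pool.Agent.Wb5ab1b

variable {k : ℕ} {𝕂 : Type} [Field 𝕂]

theorem AlgN_exact (d : DegF k 𝕂) {z : 𝕂} (hz : z ≠ 0) :
    ∃ e : ℤ, d.L z e ∧ ¬ d.L z (e - 1) := by
  obtain ⟨m, hm⟩ := d.L_ex z
  obtain ⟨l, hl⟩ := d.L_sep z hz
  have hlm : l ≤ m := by
    by_contra h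
    exact hl (d.L_mono z m l (by omega) hm)
  have key : ∀ t : ℕ, ∀ m' : ℤ, d.L z m' → m' = l + t → ∃ e : ℤ, d.L z e ∧ ¬ d.L z (e - 1) := by
    intro t
    induction t with
    | zero =>
      intro m' h1 h2
      exact absurd (by simpa [h2] using h1) hl
    | succ t ih =>
      intro m' h1 h2
      by_cases h3 : d.L z (m' - 1)
      · exact ih (m' - 1) h3 (by push_cast at h2; omega)
      · exact ⟨m', h1, h3⟩
  exact key (m - l).toNat m hm (by omega)

/-- an element which is not of degree `≤ m` has an exact degree `> m` -/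
theorem AlgN_exact_gt (d : DegF k 𝕂) {z : 𝕂} {m : ℤ} (h : ¬ d.L z m) :
    ∃ e : ℤ, m < e ∧ d.L z e ∧ ¬ d.L z (e - 1) := by
  have hz : z ≠ 0 := by
    rintro rfl
    exact h (d.L_zero m)
  obtain ⟨e, h1, h2⟩ := AlgN_exact d hz
  refine ⟨e, ?_, h1, h2⟩
  by_contra h3
  exact h (d.L_mono z e m (by omega) h1)

theorem AlgN_sub (d : DegF k 𝕂) {z w : 𝕂} {m : ℤ} (hz : d.L z m) (hw : d.L w m) :
    d.L (z - w) m := by
  rw [sub_eq_add_neg]
  exact d.L_add _ _ _ hz (d.L_neg _ _ hw)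

theorem AlgN_ι_mul (d : DegF k 𝕂) (F : Lau k) {z : 𝕂} {m : ℤ} (hz : d.L z m) :
    d.L (d.ι F * z) m := by
  by_cases hF : F = 0
  · rw [hF, map_zero, zero_mul]
    exact d.L_zero m
  · exact (d.L_smul F z m hF).mpr hz

/-- multiplication by `x - v` raises the degree by one -/
theorem AlgN_xv (d : DegF k 𝕂) (F : Lau k) (z : 𝕂) (m : ℤ) :
    d.L ((d.x - d.ι F) * z) (m + 1) ↔ d.L z m := by
  constructor
  · intro h
    by_contra hm
    obtain ⟨e, h1, h2, h3⟩ := AlgN_exact_gt d hm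
    apply h3
    have h4 : d.L (d.x * z) (e - 1 + 1) := by
      have e1 : d.x * z = (d.x - d.ι F) * z + d.ι F * z := by ring
      rw [e1, sub_add_cancel]
      exact d.L_add _ _ _ (d.L_mono _ (m + 1) e (by omega) h) (AlgN_ι_mul d F h2)
    exact (d.L_x z (e - 1)).mp h4
  · intro h
    rw [sub_mul]
    exact AlgN_sub d ((d.L_x z m).mpr h) (d.L_mono _ m (m + 1) (by omega) (AlgN_ι_mul d F h))

theorem AlgN_ι_ne (d : DegF k 𝕂) {F : Lau k} (hF : F ≠ 0) : d.ι F ≠ 0 := by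
  intro h
  obtain ⟨m, hm⟩ := d.L_sep 1 one_ne_zero
  apply hm
  rw [← d.L_smul F 1 m hF, h, zero_mul]
  exact d.L_zero m

theorem AlgN_eq_zero (d : DegF k 𝕂) {z : 𝕂} (h : ∀ m, d.L z m) : z = 0 := by
  by_contra hz
  obtain ⟨m, hm⟩ := d.L_sep z hz
  exact hm (h m)

/-- Write `J_n = b_n S_n`. The hypotheses `hR`, `hL` say that there is no growth.
(A) If `J_(n-1)` has degree `≤ m` then `P_n` has degree `≤ m - 1`. Otherwise `P_n` has an exact degree
`e ≥ m` (`L_ex`, `L_sep`, `L_mono`: the set of all `m` with `L z m` is a proper nonempty up-set of `ℤ`).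
If `P_(n-1)` has degree `≤ e + 1`: `hR`. If not, `P_(n-1)` has an exact degree `e' ≥ e + 2`, and `hL` at
`n - 1` gives a contradiction (`J_(n-1)` has degree `≤ e ≤ e'`, `P_n` degree `e ≤ e' + 1`).
(B) If `J_n` has degree `≤ m` then `P_n` has degree `≤ m - 1` (mirror image: use `hL` at `n` and
`hR` at `n + 1`).
(C) If `J_n` and `J_(n-1)` have degree `≤ m`, then `J_n - J_(n-1)` has degree `≤ m - 2`: by the second
relation of `Sol`, `(x - v_n)(J_n - J_(n-1)) = b_n P_(n+1) - b_(n-1) P_(n-1)` has degree `≤ m - 1` by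
(A) at `n + 1` and (B) at `n - 1`; and if `(x - v) z` has degree `≤ m - 1` then `z` has degree `≤ m - 2`.
If all `J_n` are `0` then `P_n` has degree `≤ m` for all `m`, so `P_n = 0` (`L_sep`), against `hne`. Take
`n` with `J_n ≠ 0` and let `m` be the maximum of the exact degrees of `J_n`, `J_(n-1)` (or of `J_n` alone if
`J_(n-1) = 0`); by (C) the difference has degree `≤ m - 2`, so both have exact degree `m`. So all
the `J_n` have the same exact degree `ε`. Finally
`(x - v_n) P_n = J_n + J_(n-1) = 2 J_(n-1) + (J_n - J_(n-1))` has exact degree `ε` (`2 = ι 2`, `L_smul`), so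
`P_n` has exact degree `ε - 1`. -/
theorem alg_struct (d : DegF k 𝕂) {b v : Lau k} (hb : b ≠ 0) {P S : ℤ → 𝕂} (h : Sol d b v P S)
    (hR : ∀ n e : ℤ, d.L (P n) e → ¬ d.L (P n) (e - 1) →
      d.L (d.ι (sh (n - 1) b) * S (n - 1)) e → d.L (P (n - 1)) (e + 1) → False)
    (hL : ∀ n e : ℤ, d.L (P n) e → ¬ d.L (P n) (e - 1) →
      d.L (d.ι (sh n b) * S n) e → d.L (P (n + 1)) (e + 1) → False)
    (hne : ∃ n, P n ≠ 0 ∨ S n ≠ 0) :
    ∃ ε : ℤ, ∀ n, (d.L (d.ι (sh n b) * S n) ε ∧ ¬ d.L (d.ι (sh n b) * S n) (ε - 1)) ∧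
      (d.L (P n) (ε - 1) ∧ ¬ d.L (P n) (ε - 2)) ∧
      d.L (d.ι (sh n b) * S n - d.ι (sh (n - 1) b) * S (n - 1)) (ε - 2) := by
  obtain ⟨J, hJ⟩ : ∃ J : ℤ → 𝕂, ∀ n, J n = d.ι (sh n b) * S n := ⟨_, fun n => rfl⟩
  obtain ⟨h1, h2⟩ := h
  simp only [← hJ] at h1 h2 hR hL ⊢
  -- (A)
  have hA : ∀ n m : ℤ, d.L (J (n - 1)) m → d.L (P n) (m - 1) := by
    intro n m hm
    by_contra hn
    obtain ⟨e, he1, he2, he3⟩ := AlgN_exact_gt d hn
    have hJe : d.L (J (n - 1)) e := d.L_mono _ m e (by omega) hm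
    have h3 : ¬ d.L (P (n - 1)) (e + 1) := fun h4 => hR n e he2 he3 hJe h4
    obtain ⟨e', he1', he2', he3'⟩ := AlgN_exact_gt d h3
    refine hL (n - 1) e' he2' he3' (d.L_mono _ e e' (by omega) hJe) ?_
    rw [sub_add_cancel]
    exact d.L_mono _ e (e' + 1) (by omega) he2
  -- (B)
  have hB : ∀ n m : ℤ, d.L (J n) m → d.L (P n) (m - 1) := by
    intro n m hm
    by_contra hn
    obtain ⟨e, he1, he2, he3⟩ := AlgN_exact_gt d hn
    have hJe : d.L (J n) e := d.L_mono _ m e (by omega) hm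
    have h3 : ¬ d.L (P (n + 1)) (e + 1) := fun h4 => hL n e he2 he3 hJe h4
    obtain ⟨e', he1', he2', he3'⟩ := AlgN_exact_gt d h3
    refine hR (n + 1) e' he2' he3' ?_ ?_
    · rw [add_sub_cancel_right]
      exact d.L_mono _ e e' (by omega) hJe
    · rw [add_sub_cancel_right]
      exact d.L_mono _ e (e' + 1) (by omega) he2
  -- (C)
  have hC : ∀ n m : ℤ, d.L (J n) m → d.L (J (n - 1)) m → d.L (J n - J (n - 1)) (m - 2) := by
    intro n m hm hm'
    rw [← AlgN_xv d (sh n v), ← h2 n]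
    have e1 : m - 2 + 1 = m - 1 := by ring
    rw [e1]
    have a1 : d.L (P (n + 1)) (m - 1) := hA (n + 1) m (by rw [add_sub_cancel_right]; exact hm)
    have a2 : d.L (P (n - 1)) (m - 1) := hB (n - 1) m hm'
    exact AlgN_sub d (AlgN_ι_mul d _ a1) (AlgN_ι_mul d _ a2)
  -- neighbours
  have hD1 : ∀ n e : ℤ, (d.L (J n) e ∧ ¬ d.L (J n) (e - 1)) →
      (d.L (J (n - 1)) e ∧ ¬ d.L (J (n - 1)) (e - 1)) := by
    rintro n e ⟨g1, g2⟩
    have g3 : d.L (J (n - 1)) e := by
      by_contra hn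
      obtain ⟨e', k1, k2, k3⟩ := AlgN_exact_gt d hn
      apply k3
      have k4 := hC n e' (d.L_mono _ e e' (by omega) g1) k2
      have e2 : J (n - 1) = J n - (J n - J (n - 1)) := by ring
      rw [e2]
      exact AlgN_sub d (d.L_mono _ e (e' - 1) (by omega) g1)
        (d.L_mono _ (e' - 2) (e' - 1) (by omega) k4)
    refine ⟨g3, fun g4 => g2 ?_⟩
    have k4 := hC n e g1 g3
    have e2 : J n = (J n - J (n - 1)) + J (n - 1) := by ring
    rw [e2]
    exact d.L_add _ _ _ (d.L_mono _ (e - 2) (e - 1) (by omega) k4) g4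
  have hD2 : ∀ n e : ℤ, (d.L (J (n - 1)) e ∧ ¬ d.L (J (n - 1)) (e - 1)) →
      (d.L (J n) e ∧ ¬ d.L (J n) (e - 1)) := by
    rintro n e ⟨g1, g2⟩
    have g3 : d.L (J n) e := by
      by_contra hn
      obtain ⟨e', k1, k2, k3⟩ := AlgN_exact_gt d hn
      apply k3
      have k4 := hC n e' k2 (d.L_mono _ e e' (by omega) g1)
      have e2 : J n = (J n - J (n - 1)) + J (n - 1) := by ring
      rw [e2]
      exact d.L_add _ _ _ (d.L_mono _ (e' - 2) (e' - 1) (by omega) k4)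
        (d.L_mono _ e (e' - 1) (by omega) g1)
    refine ⟨g3, fun g4 => g2 ?_⟩
    have k4 := hC n e g3 g1
    have e2 : J (n - 1) = J n - (J n - J (n - 1)) := by ring
    rw [e2]
    exact AlgN_sub d g4 (d.L_mono _ (e - 2) (e - 1) (by omega) k4)
  -- some `J n` is not zero
  have hex : ∃ n, J n ≠ 0 := by
    by_contra hall
    push Not at hall
    obtain ⟨n, hn⟩ := hne
    rcases hn with hn | hn
    · apply hn
      apply AlgN_eq_zero d
      intro m
      have := hB n (m + 1) (by rw [hall n]; exact d.L_zero _)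
      rwa [add_sub_cancel_right] at this
    · have := hall n
      rw [hJ] at this
      rcases mul_eq_zero.mp this with h5 | h5
      · exact AlgN_ι_ne d (sh_ne_zero n hb) h5
      · exact hn h5
  obtain ⟨n₀, hn₀⟩ := hex
  obtain ⟨ε, hε⟩ := AlgN_exact d hn₀
  have hall : ∀ n, d.L (J n) ε ∧ ¬ d.L (J n) (ε - 1) := by
    intro n
    induction n using Int.inductionOn' (b := n₀) with
    | zero => exact hε
    | succ n _ ih =>
      apply hD2
      rw [add_sub_cancel_right]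
      exact ih
    | pred n _ ih => exact hD1 n ε ih
  refine ⟨ε, fun n => ?_⟩
  have hdiff := hC n ε (hall n).1 (hall (n - 1)).1
  have e0 : ε - 1 + 1 = ε := by ring
  have e0' : ε - 2 + 1 = ε - 1 := by ring
  refine ⟨hall n, ⟨?_, ?_⟩, hdiff⟩
  · rw [← AlgN_xv d (sh n v), h1 n, e0]
    exact d.L_add _ _ _ (hall n).1 (hall (n - 1)).1
  · rw [← AlgN_xv d (sh n v), h1 n, e0']
    intro h5
    apply (hall (n - 1)).2
    have h2ne : (2 : Lau k) ≠ 0 := by
      have e2 : (2 : Lau k) = algebraMap ℂ (Lau k) 2 := (map_ofNat _ 2).symm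
      rw [e2]
      exact (map_ne_zero_iff _ (algebraMap ℂ (Lau k)).injective).mpr two_ne_zero
    rw [← d.L_smul 2 _ _ h2ne]
    have e1 : d.ι 2 * J (n - 1) = (J n + J (n - 1)) - (J n - J (n - 1)) := by
      rw [map_ofNat]
      ring
    rw [e1]
    exact AlgN_sub d h5 (d.L_mono _ (ε - 2) (ε - 1) (by omega) hdiff)

end Pool.Agent.Wb5ab1b
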