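import Pool.Agent.W_b5ab1b_h80.GSh

/-!
# Growth to the right is impossible (helper80)
-/

set_option autoImplicit false

noncomputable section

open scoped Polynomial
open Polynomial (X C)

namespace Pool.Agent.Wb5ab1b

variable {k : ℕ} {𝕂 : Type} [Field 𝕂]

theorem AlgR_L_smul (d : DegF k 𝕂) (F : Lau k) {z : 𝕂} {m : ℤ} (h : d.L z m) :
    d.L (d.ι F * z) m := by
  by_cases hF : F = 0
  · rw [hF, map_zero, zero_mul]; exact d.L_zero m
  · exact (d.L_smul F z m hF).mpr h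

theorem AlgR_L_sub (d : DegF k 𝕂) {z w : 𝕂} {m : ℤ} (h : d.L z m) (h' : d.L w m) :
    d.L (z - w) m := by
  rw [sub_eq_add_neg]
  exact d.L_add _ _ _ h (d.L_neg _ _ h')

theorem AlgR_L_sum (d : DegF k 𝕂) {α : Type*} (s : Finset α) (f : α → 𝕂) (m : ℤ)
    (h : ∀ a ∈ s, d.L (f a) m) : d.L (∑ a ∈ s, f a) m := by
  classical
  induction s using Finset.induction_on with
  | empty => rw [Finset.sum_empty]; exact d.L_zero m
  | insert a s ha ih =>
    rw [Finset.sum_insert ha]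
    exact d.L_add _ _ _ (h a (Finset.mem_insert_self a s))
      (ih fun c hc => h c (Finset.mem_insert_of_mem hc))

/-- Multiplication by `x - ι F` raises the exact degree by one. -/
theorem AlgR_mul_exact (d : DegF k 𝕂) (F : Lau k) {z : 𝕂} {m : ℤ} (h : d.L z m)
    (h' : ¬ d.L z (m - 1)) :
    d.L ((d.x - d.ι F) * z) (m + 1) ∧ ¬ d.L ((d.x - d.ι F) * z) m := by
  refine ⟨?_, ?_⟩
  · rw [sub_mul]
    exact AlgR_L_sub d ((d.L_x z m).mpr h) (d.L_mono _ _ _ (by omega) (AlgR_L_smul d F h))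
  · intro h1
    rw [sub_mul] at h1
    have h2 := d.L_add _ _ _ h1 (AlgR_L_smul d F h)
    rw [sub_add_cancel] at h2
    have h3 := (d.L_x z (m - 1)).mp (by rw [sub_add_cancel]; exact h2)
    exact h' h3

theorem AlgR_exact_add (d : DegF k 𝕂) {z w : 𝕂} {m : ℤ} (h : d.L z m)
    (h' : ¬ d.L z (m - 1)) (hw : d.L w (m - 1)) :
    d.L (z + w) m ∧ ¬ d.L (z + w) (m - 1) := by
  refine ⟨d.L_add _ _ _ h (d.L_mono _ _ _ (by omega) hw), ?_⟩
  intro h1
  have h2 := AlgR_L_sub d h1 hw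
  rw [add_sub_cancel_right] at h2
  exact h' h2

theorem AlgR_step (d : DegF k 𝕂) {b v : Lau k} (hb : b ≠ 0) {P S : ℤ → 𝕂} (h : Sol d b v P S)
    (n e : ℤ) (hP : d.L (P n) e) (hP' : ¬ d.L (P n) (e - 1))
    (hJ : d.L (d.ι (sh (n - 1) b) * S (n - 1)) e) (hPm : d.L (P (n - 1)) (e + 1)) :
    (d.L (S n) (e + 1) ∧ ¬ d.L (S n) e) ∧
      (d.L (P (n + 1)) (e + 2) ∧ ¬ d.L (P (n + 1)) (e + 2 - 1)) ∧
        d.L (d.ι (sh n b) * S n) (e + 2) ∧ d.L (P n) (e + 2 + 1) := by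
  have hbn : sh n b ≠ 0 := sh_ne_zero n hb
  have hx := AlgR_mul_exact d (sh n v) hP hP'
  have hJn : d.ι (sh n b) * S n =
      (d.x - d.ι (sh n v)) * P n + -(d.ι (sh (n - 1) b) * S (n - 1)) := by
    rw [h.1 n]; ring
  have hJn2 : d.L (d.ι (sh n b) * S n) (e + 1) ∧ ¬ d.L (d.ι (sh n b) * S n) (e + 1 - 1) := by
    rw [hJn]
    refine AlgR_exact_add d hx.1 ?_ ?_
    · rw [add_sub_cancel_right]; exact hx.2
    · rw [add_sub_cancel_right]; exact d.L_neg _ _ hJ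
  have hS : d.L (S n) (e + 1) ∧ ¬ d.L (S n) e := by
    refine ⟨(d.L_smul _ _ _ hbn).mp hJn2.1, fun h1 => hJn2.2 ?_⟩
    rw [add_sub_cancel_right]
    exact (d.L_smul _ _ _ hbn).mpr h1
  have hD : d.L (d.ι (sh n b) * S n - d.ι (sh (n - 1) b) * S (n - 1)) (e + 1) ∧
      ¬ d.L (d.ι (sh n b) * S n - d.ι (sh (n - 1) b) * S (n - 1)) (e + 1 - 1) := by
    rw [sub_eq_add_neg]
    refine AlgR_exact_add d hJn2.1 hJn2.2 ?_
    rw [add_sub_cancel_right]; exact d.L_neg _ _ hJ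
  have hxD := AlgR_mul_exact d (sh n v) hD.1 hD.2
  have hPn : d.ι (sh n b) * P (n + 1) =
      (d.x - d.ι (sh n v)) * (d.ι (sh n b) * S n - d.ι (sh (n - 1) b) * S (n - 1)) +
        d.ι (sh (n - 1) b) * P (n - 1) := by
    rw [← h.2 n]; ring
  have hPn2 : d.L (d.ι (sh n b) * P (n + 1)) (e + 2) ∧
      ¬ d.L (d.ι (sh n b) * P (n + 1)) (e + 2 - 1) := by
    rw [hPn]
    have e2 : e + 1 + 1 = e + 2 := by ring
    have e3 : e + 2 - 1 = e + 1 := by ring
    rw [e2] at hxD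
    refine AlgR_exact_add d hxD.1 ?_ ?_
    · rw [e3]; exact hxD.2
    · rw [e3]; exact AlgR_L_smul d _ hPm
  refine ⟨hS, ⟨(d.L_smul _ _ _ hbn).mp hPn2.1, fun h1 => hPn2.2 ((d.L_smul _ _ _ hbn).mpr h1)⟩,
    d.L_mono _ _ _ (by omega) hJn2.1, d.L_mono _ _ _ (by omega) hP⟩

theorem AlgR_iter (d : DegF k 𝕂) {b v : Lau k} (hb : b ≠ 0) {P S : ℤ → 𝕂} (h : Sol d b v P S)
    (n e : ℤ) (hP : d.L (P n) e) (hP' : ¬ d.L (P n) (e - 1))
    (hJ : d.L (d.ι (sh (n - 1) b) * S (n - 1)) e) (hPm : d.L (P (n - 1)) (e + 1)) (m : ℕ) :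
    d.L (P (n + m)) (e + 2 * m) ∧ ¬ d.L (P (n + m)) (e + 2 * m - 1) ∧
      d.L (d.ι (sh (n + m - 1) b) * S (n + m - 1)) (e + 2 * m) ∧
        d.L (P (n + m - 1)) (e + 2 * m + 1) := by
  induction m with
  | zero => simpa using ⟨hP, hP', hJ, hPm⟩
  | succ m ih =>
    obtain ⟨h1, h2, h3, h4⟩ := ih
    obtain ⟨-, ⟨h5, h6⟩, h7, h8⟩ := AlgR_step d hb h (n + m) (e + 2 * m) h1 h2 h3 h4
    have e1 : n + ((m + 1 : ℕ) : ℤ) = n + m + 1 := by push_cast; ring
    have e2 : e + 2 * ((m + 1 : ℕ) : ℤ) = e + 2 * m + 2 := by push_cast; ring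
    rw [e1, e2, add_sub_cancel_right]
    exact ⟨h5, h6, h7, h8⟩

/-- Exact degrees along the growing direction. Induction on `m`; write `J_n = b_n S_n`. If `P_n` has exact
degree `e`, `J_(n-1)` has degree `≤ e` and `P_(n-1)` degree `≤ e + 1`, then
`J_n = (x - v_n) P_n - J_(n-1)` has exact degree `e + 1`, and
`b_n P_(n+1) = b_(n-1) P_(n-1) + (x - v_n)(J_n - J_(n-1))` has exact degree `e + 2` (`L_smul` with
`b_n ≠ 0`); so the three hypotheses hold at `n + 1` with `e + 2`. (If `v_n = 0` then `ι v_n = 0`.) -/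
theorem grow_right (d : DegF k 𝕂) {b v : Lau k} (hb : b ≠ 0) {P S : ℤ → 𝕂} (h : Sol d b v P S)
    (n e : ℤ) (hP : d.L (P n) e) (hP' : ¬ d.L (P n) (e - 1))
    (hJ : d.L (d.ι (sh (n - 1) b) * S (n - 1)) e) (hPm : d.L (P (n - 1)) (e + 1)) (m : ℕ) :
    (d.L (P (n + m)) (e + 2 * m) ∧ ¬ d.L (P (n + m)) (e + 2 * m - 1)) ∧
      (d.L (S (n + m)) (e + 2 * m + 1) ∧ ¬ d.L (S (n + m)) (e + 2 * m)) := by
  obtain ⟨h1, h2, h3, h4⟩ := AlgR_iter d hb h n e hP hP' hJ hPm m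
  obtain ⟨⟨h5, h6⟩, -⟩ := AlgR_step d hb h (n + m) (e + 2 * m) h1 h2 h3 h4
  exact ⟨⟨h1, h2⟩, h5, h6⟩

theorem AlgR_minSite {F : Lau k} (hF : ∃ l, der l F ≠ 0) :
    ∃ (s : ℤ) (i : Fin k), der (s, i) F ≠ 0 ∧ ∀ s' < s, ∀ i', der (s', i') F = 0 := by
  have hfin : ((fun l : ℤ × Fin k => l.1) '' {l | der l F ≠ 0}).Finite := (der_finite F).image _
  obtain ⟨l0, hl0⟩ := hF
  have hne : ((fun l : ℤ × Fin k => l.1) '' {l | der l F ≠ 0}).Nonempty := ⟨l0.1, l0, hl0, rfl⟩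
  obtain ⟨s, hs, hmin⟩ := Set.exists_min_image _ id hfin hne
  obtain ⟨l, hl, rfl⟩ := hs
  refine ⟨l.1, l.2, hl, ?_⟩
  intro s' hs' i'
  by_contra hne'
  have := hmin s' ⟨(s', i'), hne', rfl⟩
  simp only [id] at this
  omega

theorem AlgR_case1 (d : DegF k 𝕂) {b v : Lau k} {r : ℕ} (hbr : Within r b)
    (hb : b ≠ 0) {P S : ℤ → 𝕂} (h : Sol d b v P S) (h3 : Rel3 d b v r P S)
    (n e : ℤ) (hP : d.L (P n) e) (hP' : ¬ d.L (P n) (e - 1))
    (hJ : d.L (d.ι (sh (n - 1) b) * S (n - 1)) e) (hPm : d.L (P (n - 1)) (e + 1))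
    (s : ℤ) (i : Fin k) (hs : der (s, i) b ≠ 0) (hsb : ∀ s' < s, ∀ i', der (s', i') b = 0)
    (hsv : ∀ s' < s, ∀ i', der (s', i') v = 0) : False := by
  have hsr : |s| ≤ (r : ℤ) := by
    by_contra hlt
    exact hs (der_of_within hbr (s, i) (not_le.mp hlt))
  rw [abs_le] at hsr
  have hrel := h3 (n + r, i)
  have hNmem : n + r - s ∈ Finset.Icc (n + r - r : ℤ) (n + r + r) := by
    rw [Finset.mem_Icc]; omega
  rw [← Finset.add_sum_erase _ _ hNmem] at hrel
  have hg : ∀ t : ℤ, n ≤ t → (d.L (P t) (e + 2 * (t - n)) ∧ ¬ d.L (P t) (e + 2 * (t - n) - 1)) ∧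
      (d.L (S t) (e + 2 * (t - n) + 1) ∧ ¬ d.L (S t) (e + 2 * (t - n))) := by
    intro t ht
    have h1 := grow_right d hb h n e hP hP' hJ hPm (t - n).toNat
    have e1 : (((t - n).toNat : ℕ) : ℤ) = t - n := Int.toNat_of_nonneg (by omega)
    rw [e1, show n + (t - n) = t by ring] at h1
    exact h1
  have hlead : d.L (d.ι (der (n + r, i) (sh (n + r - s) b)) * S (n + r - s))
      (e + 2 * (n + r - s - n)) := by
    have h4 : d.ι (der (n + r, i) (sh (n + r - s) b)) * S (n + r - s) =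
        -(d.ι (der (n + r, i) (sh (n + r - s) v)) * P (n + r - s)) -
          ∑ t ∈ (Finset.Icc (n + r - r : ℤ) (n + r + r)).erase (n + r - s),
            (d.ι (der (n + r, i) (sh t v)) * P t + d.ι (der (n + r, i) (sh t b)) * S t) := by
      have := hrel
      linear_combination this
    rw [h4]
    refine AlgR_L_sub d (d.L_neg _ _ (AlgR_L_smul d _ (hg _ (by omega)).1.1)) ?_
    refine AlgR_L_sum d _ _ _ ?_
    intro t ht
    rw [Finset.mem_erase, Finset.mem_Icc] at ht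
    obtain ⟨htN, ht1, ht2⟩ := ht
    rcases lt_or_gt_of_ne htN with hlt | hgt
    · refine d.L_add _ _ _ (AlgR_L_smul d _ (d.L_mono _ _ _ ?_ (hg t (by omega)).1.1))
        (AlgR_L_smul d _ (d.L_mono _ _ _ ?_ (hg t (by omega)).2.1))
      · omega
      · omega
    · rw [der_sh, der_sh, hsb (n + r - t) (by omega) i, hsv (n + r - t) (by omega) i, map_zero,
        map_zero, zero_mul, zero_mul, add_zero]
      exact d.L_zero _
  rw [der_sh] at hlead
  have e2 : ((n + r : ℤ), i).1 - (n + r - s) = s := by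
    change (n + r : ℤ) - (n + r - s) = s
    ring
  rw [e2] at hlead
  have h5 := (d.L_smul _ _ _ (sh_ne_zero (n + r - s) hs)).mp hlead
  exact (hg (n + r - s) (by omega)).2.2 h5

theorem AlgR_case2 (d : DegF k 𝕂) {b v : Lau k} {r : ℕ} (hvr : Within r v)
    (hb : b ≠ 0) {P S : ℤ → 𝕂} (h : Sol d b v P S) (h3 : Rel3 d b v r P S)
    (n e : ℤ) (hP : d.L (P n) e) (hP' : ¬ d.L (P n) (e - 1))
    (hJ : d.L (d.ι (sh (n - 1) b) * S (n - 1)) e) (hPm : d.L (P (n - 1)) (e + 1))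
    (s : ℤ) (i : Fin k) (hs : der (s, i) v ≠ 0) (hsv : ∀ s' < s, ∀ i', der (s', i') v = 0)
    (hsb : ∀ s' ≤ s, ∀ i', der (s', i') b = 0) : False := by
  have hsr : |s| ≤ (r : ℤ) := by
    by_contra hlt
    exact hs (der_of_within hvr (s, i) (not_le.mp hlt))
  rw [abs_le] at hsr
  have hrel := h3 (n + r, i)
  have hNmem : n + r - s ∈ Finset.Icc (n + r - r : ℤ) (n + r + r) := by
    rw [Finset.mem_Icc]; omega
  rw [← Finset.add_sum_erase _ _ hNmem] at hrel
  have hg : ∀ t : ℤ, n ≤ t → (d.L (P t) (e + 2 * (t - n)) ∧ ¬ d.L (P t) (e + 2 * (t - n) - 1)) ∧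
      (d.L (S t) (e + 2 * (t - n) + 1) ∧ ¬ d.L (S t) (e + 2 * (t - n))) := by
    intro t ht
    have h1 := grow_right d hb h n e hP hP' hJ hPm (t - n).toNat
    have e1 : (((t - n).toNat : ℕ) : ℤ) = t - n := Int.toNat_of_nonneg (by omega)
    rw [e1, show n + (t - n) = t by ring] at h1
    exact h1
  have hzero : d.ι (der (n + r, i) (sh (n + r - s) b)) = 0 := by
    rw [der_sh, hsb _ _ i, map_zero, map_zero]
    change (n + r : ℤ) - (n + r - s) ≤ s
    omega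
  have hlead : d.L (d.ι (der (n + r, i) (sh (n + r - s) v)) * P (n + r - s))
      (e + 2 * (n + r - s - n) - 1) := by
    have h4 : d.ι (der (n + r, i) (sh (n + r - s) v)) * P (n + r - s) =
        -(∑ t ∈ (Finset.Icc (n + r - r : ℤ) (n + r + r)).erase (n + r - s),
            (d.ι (der (n + r, i) (sh t v)) * P t + d.ι (der (n + r, i) (sh t b)) * S t)) := by
      have := hrel
      simp only [hzero, zero_mul, add_zero] at this
      linear_combination this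
    rw [h4]
    refine d.L_neg _ _ ?_
    refine AlgR_L_sum d _ _ _ ?_
    intro t ht
    rw [Finset.mem_erase, Finset.mem_Icc] at ht
    obtain ⟨htN, ht1, ht2⟩ := ht
    rcases lt_or_gt_of_ne htN with hlt | hgt
    · refine d.L_add _ _ _ (AlgR_L_smul d _ (d.L_mono _ _ _ ?_ (hg t (by omega)).1.1))
        (AlgR_L_smul d _ (d.L_mono _ _ _ ?_ (hg t (by omega)).2.1))
      · omega
      · omega
    · rw [der_sh, der_sh, hsb (n + r - t) (by omega) i, hsv (n + r - t) (by omega) i, map_zero,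
        map_zero, zero_mul, zero_mul, add_zero]
      exact d.L_zero _
  rw [der_sh] at hlead
  have e2 : ((n + r : ℤ), i).1 - (n + r - s) = s := by
    change (n + r : ℤ) - (n + r - s) = s
    ring
  rw [e2] at hlead
  have h5 := (d.L_smul _ _ _ (sh_ne_zero (n + r - s) hs)).mp hlead
  exact (hg (n + r - s) (by omega)).1.2 h5

/-- Contradiction with `Rel3`. Let `v₋` (if `v` is not constant) be the smallest site such that
`der (v₋, i) v ≠ 0` for some `i`, and `b₋` the same for `b`.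
Case 1: `b` is not constant and (`v` is constant or `b₋ ≤ v₋`); take `i` with `der (b₋, i) b ≠ 0`, `q` large,
`j = (q, i)`, `N = q - b₋`. By `der_sh`, in the sum of `Rel3 j` the terms with `P m` or `S m`, `m > N`,
vanish; the term with `S N` has a nonzero coefficient and exact degree `g + 1`, where `g` is the exact
degree of `P N`; all the other terms have degree `≤ g`. So the sum is not `0`.
Case 2: `v` is not constant and (`b` is constant or `v₋ < b₋`); `N = q - v₋`: the term with `P N` has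
exact degree `g`, the terms with `S m` have `m ≤ N - 1` and degree `≤ g - 1`, the terms `P m`, `m < N`,
have degree `≤ g - 2`.
(`q` is taken so large that `q - r ≥ n`, so all the sites in the sum are in the range of
`grow_right`.) -/
theorem alg_right (d : DegF k 𝕂) {b v : Lau k} {r : ℕ} (hbr : Within r b) (hvr : Within r v)
    (hb : b ≠ 0) (hnc : ¬ ((∀ l, der l b = 0) ∧ ∀ l, der l v = 0)) {P S : ℤ → 𝕂}
    (h : Sol d b v P S) (h3 : Rel3 d b v r P S)
    (n e : ℤ) (hP : d.L (P n) e) (hP' : ¬ d.L (P n) (e - 1))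
    (hJ : d.L (d.ι (sh (n - 1) b) * S (n - 1)) e) (hPm : d.L (P (n - 1)) (e + 1)) : False := by
  by_cases hb' : ∃ l, der l b ≠ 0
  · obtain ⟨sb, ib, hsb, hsb'⟩ := AlgR_minSite hb'
    by_cases hv' : ∃ l, der l v ≠ 0
    · obtain ⟨sv, iv, hsv, hsv'⟩ := AlgR_minSite hv'
      rcases le_or_gt sb sv with hle | hlt
      · exact AlgR_case1 d hbr hb h h3 n e hP hP' hJ hPm sb ib hsb hsb'
          (fun s' hs' => hsv' s' (by omega))
      · exact AlgR_case2 d hvr hb h h3 n e hP hP' hJ hPm sv iv hsv hsv'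
          (fun s' hs' => hsb' s' (by omega))
    · push Not at hv'
      exact AlgR_case1 d hbr hb h h3 n e hP hP' hJ hPm sb ib hsb hsb'
        (fun s' _ i' => hv' (s', i'))
  · push Not at hb'
    have hv' : ∃ l, der l v ≠ 0 := by
      by_contra hcon
      push Not at hcon
      exact hnc ⟨hb', hcon⟩
    obtain ⟨sv, iv, hsv, hsv'⟩ := AlgR_minSite hv'
    exact AlgR_case2 d hvr hb h h3 n e hP hP' hJ hPm sv iv hsv hsv'
      (fun s' _ i' => hb' (s', i'))

end Pool.Agent.Wb5ab1b
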