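import Pool.Agent.W_b5ab1b_h80.GSh

/-!
# Solutions without growth do not exist (helper80)
-/

set_option autoImplicit false

noncomputable section

open scoped Polynomial
open Polynomial (X C)

namespace Pool.Agent.Wb5ab1b

variable {k : ℕ} {𝕂 : Type} [Field 𝕂]

theorem AlgT_ι_ne (d : DegF k 𝕂) {z : 𝕂} {m : ℤ} (hz : ¬ d.L z m) {F : Lau k} (hF : F ≠ 0) :
    d.ι F ≠ 0 := by
  intro h
  apply hz
  rw [← d.L_smul F z m hF, h, zero_mul]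
  exact d.L_zero m

theorem AlgT_L_mul (d : DegF k 𝕂) (F : Lau k) {z : 𝕂} {m : ℤ} (hz : d.L z m) :
    d.L (d.ι F * z) m := by
  by_cases hF : F = 0
  · rw [hF, map_zero, zero_mul]
    exact d.L_zero m
  · exact (d.L_smul F z m hF).2 hz

theorem AlgT_L_sub (d : DegF k 𝕂) {z w : 𝕂} {m : ℤ} (hz : d.L z m) (hw : d.L w m) :
    d.L (z - w) m := by
  rw [sub_eq_add_neg]
  exact d.L_add _ _ _ hz (d.L_neg _ _ hw)

theorem AlgT_fix (d : DegF k 𝕂) {l : ℤ × Fin k} {n : ℤ} {F : Lau k}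
    (h : der (l.1 - n, l.2) F = 0) : d.τ l (d.ι (sh n F)) = d.ι (sh n F) := by
  rw [d.τ_ι, (sc_eq_iff l (sh n F)).2]
  rw [der_sh, h, map_zero]

theorem AlgT_ne {l : ℤ × Fin k} {n : ℤ} {F : Lau k} (h : der (l.1 - n, l.2) F ≠ 0) :
    sc l (sh n F) ≠ sh n F := by
  intro h1
  rw [sc_eq_iff, der_sh] at h1
  exact sh_ne_zero n h h1

/-- all variables beyond the last site are fixed -/
theorem AlgT_step (d : DegF k 𝕂) {b v : Lau k} (hb : b ≠ 0) {P S : ℤ → 𝕂}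
    (h : Sol d b v P S) {z : 𝕂} {m : ℤ} (hz : ¬ d.L z m) {s : ℤ}
    (hsv : ∀ p : ℤ × Fin k, s < p.1 → der p v = 0) (hsb : ∀ p : ℤ × Fin k, s < p.1 → der p b = 0)
    (l : ℤ × Fin k) (h0 : d.τ l (P 0) = P 0) (h1 : d.τ l (P 1) = P 1)
    (h2 : d.τ l (d.ι (sh 0 b) * S 0) = d.ι (sh 0 b) * S 0) (n : ℕ) (hl : (n : ℤ) + s < l.1) :
    d.τ l (P n) = P n ∧ d.τ l (P (n + 1)) = P (n + 1) ∧
      d.τ l (d.ι (sh n b) * S n) = d.ι (sh n b) * S n := by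
  induction n with
  | zero =>
    refine ⟨?_, ?_, ?_⟩
    · simpa using h0
    · simpa using h1
    · simpa using h2
  | succ n ih =>
    push_cast at hl
    obtain ⟨i1, i2, i3⟩ := ih (by linarith)
    push_cast
    have hv : d.τ l (d.ι (sh ((n : ℤ) + 1) v)) = d.ι (sh ((n : ℤ) + 1) v) :=
      AlgT_fix d (hsv _ (by show s < l.1 - ((n : ℤ) + 1); linarith))
    have hb1 : d.τ l (d.ι (sh ((n : ℤ) + 1) b)) = d.ι (sh ((n : ℤ) + 1) b) :=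
      AlgT_fix d (hsb _ (by show s < l.1 - ((n : ℤ) + 1); linarith))
    have hb0 : d.τ l (d.ι (sh (n : ℤ) b)) = d.ι (sh (n : ℤ) b) :=
      AlgT_fix d (hsb _ (by show s < l.1 - (n : ℤ); linarith))
    have hA := h.1 ((n : ℤ) + 1)
    have hB := h.2 ((n : ℤ) + 1)
    rw [add_sub_cancel_right] at hA hB
    have hJ : d.ι (sh ((n : ℤ) + 1) b) * S ((n : ℤ) + 1) =
        (d.x - d.ι (sh ((n : ℤ) + 1) v)) * P ((n : ℤ) + 1) - d.ι (sh (n : ℤ) b) * S (n : ℤ) := by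
      rw [hA]; ring
    have hJτ : d.τ l (d.ι (sh ((n : ℤ) + 1) b) * S ((n : ℤ) + 1)) =
        d.ι (sh ((n : ℤ) + 1) b) * S ((n : ℤ) + 1) := by
      rw [hJ, map_sub, map_mul, map_sub, d.τ_x, hv, i2, i3]
    refine ⟨i2, ?_, hJτ⟩
    have hP : d.ι (sh ((n : ℤ) + 1) b) * P ((n : ℤ) + 1 + 1) =
        d.ι (sh (n : ℤ) b) * P (n : ℤ) + (d.x - d.ι (sh ((n : ℤ) + 1) v)) *
          (d.ι (sh ((n : ℤ) + 1) b) * S ((n : ℤ) + 1) - d.ι (sh (n : ℤ) b) * S (n : ℤ)) := by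
      rw [← hB]; ring
    have hPτ := congrArg (d.τ l) hP
    rw [map_add, map_mul, map_mul, map_mul, map_sub, map_sub, hb1, hb0, i1, i3, hJτ, d.τ_x, hv,
      ← hP] at hPτ
    exact mul_left_cancel₀ (AlgT_ι_ne d hz (sh_ne_zero _ hb)) hPτ

/-- Write `J_n = b_n S_n`. Let `s` be the largest site such that `der (s, i) v ≠ 0` or
`der (s, i) b ≠ 0` for some `i` (it exists by `hnc`, `hbr`, `hvr`).
(1) For `n ≥ 1` and `l` with `l.1 > n - 1 + s` and `l` outside of the finite set of variables which occur in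
`P 0`, `P 1`, `J 0` (`τ_fin`): `τ l` fixes `P (n-1)`, `P n`, `J (n-1)`; induction on `n` with the
relations of `Sol` (`J_n = (x - v_n) P_n - J_(n-1)`,
`P_(n+1) = (b_(n-1) P_(n-1) + (x - v_n)(J_n - J_(n-1)))/b_n`) and `sc_eq_iff`, `der_sh`.
(2) Case `der (s, i) v ≠ 0` for some `i`. Take `n` large, `l = (n + s, i)`. By (1) `τ l` fixes `P n` and
`J (n-1)`. `(x - v_n) P_n - 2 J_(n-1) = J_n - J_(n-1)` has degree `≤ ε - 2`; apply `τ l` and subtract: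
`(τ v_n - v_n) P_n` has degree `≤ ε - 2`, but `τ v_n - v_n = ι(sc l v_n - v_n)` with
`sc l v_n ≠ v_n` (`sc_eq_iff`, `der_sh`), so `P_n` has degree `≤ ε - 2`, a contradiction.
(3) Otherwise `der (s, i) v = 0` for all `i` and `der (s, i) b ≠ 0` for some `i`; `l = (n + s, i)`, `n`
large. `τ l` fixes `P n`, `J (n-1)`, `v_n` (no variable at the site `n + s` occurs in it), so also `J n` and
`b_n P_(n+1)`. `x P_(n+1) - 2 J_n = (J_(n+1) - J_n) + v_(n+1) P_(n+1)` has degree `≤ ε - 1`; apply `τ l`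
and subtract: `P_(n+1) - τ P_(n+1)` has degree `≤ ε - 2`. From `b_n P_(n+1) = τ(b_n) τ(P_(n+1))`,
`(b_n - τ b_n) P_(n+1) = τ b_n (τ P_(n+1) - P_(n+1))` has degree `≤ ε - 2`, so `P_(n+1)` has degree
`≤ ε - 2`, a contradiction. -/
theorem alg_tau (d : DegF k 𝕂) {b v : Lau k} {r : ℕ} (hbr : Within r b) (hvr : Within r v)
    (hb : b ≠ 0) (hnc : ¬ ((∀ l, der l b = 0) ∧ ∀ l, der l v = 0)) {P S : ℤ → 𝕂}
    (h : Sol d b v P S) (ε : ℤ)
    (hs : ∀ n, (d.L (d.ι (sh n b) * S n) ε ∧ ¬ d.L (d.ι (sh n b) * S n) (ε - 1)) ∧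
      (d.L (P n) (ε - 1) ∧ ¬ d.L (P n) (ε - 2)) ∧
      d.L (d.ι (sh n b) * S n - d.ι (sh (n - 1) b) * S (n - 1)) (ε - 2)) : False := by
  -- the last site
  obtain ⟨s, ⟨i, hi⟩, hmax⟩ : ∃ s : ℤ, (∃ i : Fin k, der (s, i) v ≠ 0 ∨ der (s, i) b ≠ 0) ∧
      ∀ t : ℤ, (∃ i : Fin k, der (t, i) v ≠ 0 ∨ der (t, i) b ≠ 0) → t ≤ s := by
    refine Int.exists_greatest_of_bdd ⟨(r : ℤ), ?_⟩ ?_
    · rintro t ⟨i, hi⟩
      by_contra hlt
      have h1 : (r : ℤ) < |((t, i) : ℤ × Fin k).1| := lt_of_lt_of_le (not_le.1 hlt) (le_abs_self _)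
      rcases hi with hi | hi
      · exact hi (der_of_within hvr _ h1)
      · exact hi (der_of_within hbr _ h1)
    · by_contra hne
      apply hnc
      constructor
      · intro l
        by_contra h1
        exact hne ⟨l.1, l.2, Or.inr h1⟩
      · intro l
        by_contra h1
        exact hne ⟨l.1, l.2, Or.inl h1⟩
  have hsv : ∀ p : ℤ × Fin k, s < p.1 → der p v = 0 := by
    intro p hp
    by_contra h1
    exact absurd (hmax p.1 ⟨p.2, Or.inl h1⟩) (not_le.2 hp)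
  have hsb : ∀ p : ℤ × Fin k, s < p.1 → der p b = 0 := by
    intro p hp
    by_contra h1
    exact absurd (hmax p.1 ⟨p.2, Or.inr h1⟩) (not_le.2 hp)
  -- the exceptional variables
  have hfin : ({l | d.τ l (P 0) ≠ P 0} ∪ {l | d.τ l (P 1) ≠ P 1} ∪
      {l | d.τ l (d.ι (sh 0 b) * S 0) ≠ d.ι (sh 0 b) * S 0}).Finite :=
    ((d.τ_fin _).union (d.τ_fin _)).union (d.τ_fin _)
  obtain ⟨B, hB⟩ := (hfin.image Prod.fst).bddAbove
  have hbig : ∃ n : ℕ, B < (n : ℤ) + 1 + s := by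
    refine ⟨(B - s).toNat, ?_⟩
    have := Int.self_le_toNat (B - s)
    linarith
  obtain ⟨n, hn⟩ := hbig
  have key : ∀ j : Fin k, d.τ ((n : ℤ) + 1 + s, j) (P n) = P n ∧
      d.τ ((n : ℤ) + 1 + s, j) (P (n + 1)) = P (n + 1) ∧
      d.τ ((n : ℤ) + 1 + s, j) (d.ι (sh n b) * S n) = d.ι (sh n b) * S n := by
    intro j
    have hout : ∀ z : 𝕂, {l | d.τ l z ≠ z} ⊆ ({l | d.τ l (P 0) ≠ P 0} ∪ {l | d.τ l (P 1) ≠ P 1} ∪
      {l | d.τ l (d.ι (sh 0 b) * S 0) ≠ d.ι (sh 0 b) * S 0}) →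
        d.τ ((n : ℤ) + 1 + s, j) z = z := by
      intro z hz
      by_contra hne
      have h1 : (((n : ℤ) + 1 + s, j) : ℤ × Fin k).1 ≤ B := hB ⟨_, hz hne, rfl⟩
      exact absurd h1 (not_le.2 hn)
    refine AlgT_step d hb h (hs 0).2.1.2 hsv hsb _ (hout _ ?_) (hout _ ?_) (hout _ ?_) n ?_
    · exact fun l hl => Or.inl (Or.inl hl)
    · exact fun l hl => Or.inl (Or.inr hl)
    · exact fun l hl => Or.inr hl
    · show (n : ℤ) + s < (n : ℤ) + 1 + s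
      linarith
  have hA := h.1 ((n : ℤ) + 1)
  have hB' := h.2 ((n : ℤ) + 1)
  have hs1 := hs ((n : ℤ) + 1)
  rw [add_sub_cancel_right] at hA hB' hs1
  by_cases hv : ∃ i : Fin k, der (s, i) v ≠ 0
  · -- case (2)
    obtain ⟨i, hi⟩ := hv
    obtain ⟨-, k2, k3⟩ := key i
    have h1 : d.ι (sh ((n : ℤ) + 1) b) * S ((n : ℤ) + 1) - d.ι (sh (n : ℤ) b) * S (n : ℤ) =
        (d.x - d.ι (sh ((n : ℤ) + 1) v)) * P ((n : ℤ) + 1) -
          2 * (d.ι (sh (n : ℤ) b) * S (n : ℤ)) := by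
      rw [hA]; ring
    have h2 := hs1.2.2
    rw [h1] at h2
    have h3 := (d.τ_L ((n : ℤ) + 1 + s, i) _ _).2 h2
    rw [map_sub, map_mul, map_mul, k3, map_sub, d.τ_x, k2, map_ofNat, d.τ_ι] at h3
    have h4 := AlgT_L_sub d h2 h3
    have h5 : (d.x - d.ι (sh ((n : ℤ) + 1) v)) * P ((n : ℤ) + 1) -
          2 * (d.ι (sh (n : ℤ) b) * S (n : ℤ)) -
        ((d.x - d.ι (sc ((n : ℤ) + 1 + s, i) (sh ((n : ℤ) + 1) v))) * P ((n : ℤ) + 1) -
          2 * (d.ι (sh (n : ℤ) b) * S (n : ℤ))) =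
        d.ι (sc ((n : ℤ) + 1 + s, i) (sh ((n : ℤ) + 1) v) - sh ((n : ℤ) + 1) v) *
          P ((n : ℤ) + 1) := by
      rw [map_sub]; ring
    rw [h5, d.L_smul _ _ _ (sub_ne_zero.2 (AlgT_ne (by
      show der ((n : ℤ) + 1 + s - ((n : ℤ) + 1), i) v ≠ 0
      rw [add_sub_cancel_left]
      exact hi)))] at h4
    exact hs1.2.1.2 h4
  · -- case (3)
    have hv0 : ∀ j : Fin k, der (s, j) v = 0 := by
      intro j
      by_contra h1
      exact hv ⟨j, h1⟩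
    have hi' : der (s, i) b ≠ 0 := by
      rcases hi with hi | hi
      · exact absurd (hv0 i) hi
      · exact hi
    obtain ⟨k1, k2, k3⟩ := key i
    set l : ℤ × Fin k := ((n : ℤ) + 1 + s, i) with hl
    have hvτ : d.τ l (d.ι (sh ((n : ℤ) + 1) v)) = d.ι (sh ((n : ℤ) + 1) v) := by
      apply AlgT_fix
      show der ((n : ℤ) + 1 + s - ((n : ℤ) + 1), i) v = 0
      rw [add_sub_cancel_left]
      exact hv0 i
    have hb0 : d.τ l (d.ι (sh (n : ℤ) b)) = d.ι (sh (n : ℤ) b) :=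
      AlgT_fix d (hsb _ (by show s < (n : ℤ) + 1 + s - (n : ℤ); linarith))
    have hJ : d.ι (sh ((n : ℤ) + 1) b) * S ((n : ℤ) + 1) =
        (d.x - d.ι (sh ((n : ℤ) + 1) v)) * P ((n : ℤ) + 1) - d.ι (sh (n : ℤ) b) * S (n : ℤ) := by
      rw [hA]; ring
    have hJτ : d.τ l (d.ι (sh ((n : ℤ) + 1) b) * S ((n : ℤ) + 1)) =
        d.ι (sh ((n : ℤ) + 1) b) * S ((n : ℤ) + 1) := by
      rw [hJ, map_sub, map_mul, map_sub, d.τ_x, hvτ, k2, k3]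
    have hP : d.ι (sh ((n : ℤ) + 1) b) * P ((n : ℤ) + 1 + 1) =
        d.ι (sh (n : ℤ) b) * P (n : ℤ) + (d.x - d.ι (sh ((n : ℤ) + 1) v)) *
          (d.ι (sh ((n : ℤ) + 1) b) * S ((n : ℤ) + 1) - d.ι (sh (n : ℤ) b) * S (n : ℤ)) := by
      rw [← hB']; ring
    have hPτ : d.ι (sc l (sh ((n : ℤ) + 1) b)) * d.τ l (P ((n : ℤ) + 1 + 1)) =
        d.ι (sh ((n : ℤ) + 1) b) * P ((n : ℤ) + 1 + 1) := by
      rw [← d.τ_ι, ← map_mul, hP, map_add, map_mul, map_mul, map_sub, map_sub, hb0, k1, k3, hJτ,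
        d.τ_x, hvτ]
    -- the relation of the next site
    have hA2 := h.1 ((n : ℤ) + 1 + 1)
    have hs2 := hs ((n : ℤ) + 1 + 1)
    rw [add_sub_cancel_right] at hA2 hs2
    have h1 : d.x * P ((n : ℤ) + 1 + 1) - 2 * (d.ι (sh ((n : ℤ) + 1) b) * S ((n : ℤ) + 1)) =
        (d.ι (sh ((n : ℤ) + 1 + 1) b) * S ((n : ℤ) + 1 + 1) -
          d.ι (sh ((n : ℤ) + 1) b) * S ((n : ℤ) + 1)) +
        d.ι (sh ((n : ℤ) + 1 + 1) v) * P ((n : ℤ) + 1 + 1) := by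
      have h2 : d.x * P ((n : ℤ) + 1 + 1) = (d.x - d.ι (sh ((n : ℤ) + 1 + 1) v)) *
          P ((n : ℤ) + 1 + 1) + d.ι (sh ((n : ℤ) + 1 + 1) v) * P ((n : ℤ) + 1 + 1) := by ring
      rw [h2, hA2]; ring
    have h2 : d.L (d.x * P ((n : ℤ) + 1 + 1) -
        2 * (d.ι (sh ((n : ℤ) + 1) b) * S ((n : ℤ) + 1))) (ε - 1) := by
      rw [h1]
      exact d.L_add _ _ _ (d.L_mono _ _ _ (by linarith) hs2.2.2) (AlgT_L_mul d _ hs2.2.1.1)
    have h3 := (d.τ_L l _ _).2 h2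
    rw [map_sub, map_mul, map_mul (d.τ l) 2, hJτ, d.τ_x, map_ofNat] at h3
    have h4 := AlgT_L_sub d h3 h2
    have h5 : d.x * d.τ l (P ((n : ℤ) + 1 + 1)) -
        2 * (d.ι (sh ((n : ℤ) + 1) b) * S ((n : ℤ) + 1)) - (d.x * P ((n : ℤ) + 1 + 1) -
        2 * (d.ι (sh ((n : ℤ) + 1) b) * S ((n : ℤ) + 1))) =
        d.x * (d.τ l (P ((n : ℤ) + 1 + 1)) - P ((n : ℤ) + 1 + 1)) := by ring
    have h6 : d.L (d.τ l (P ((n : ℤ) + 1 + 1)) - P ((n : ℤ) + 1 + 1)) (ε - 2) := by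
      rw [← d.L_x, ← h5]
      have e : ε - 2 + 1 = ε - 1 := by ring
      rw [e]
      exact h4
    have h7 := AlgT_L_mul d (sc l (sh ((n : ℤ) + 1) b)) h6
    have h8 : d.ι (sc l (sh ((n : ℤ) + 1) b)) *
        (d.τ l (P ((n : ℤ) + 1 + 1)) - P ((n : ℤ) + 1 + 1)) =
        d.ι (sh ((n : ℤ) + 1) b - sc l (sh ((n : ℤ) + 1) b)) * P ((n : ℤ) + 1 + 1) := by
      rw [mul_sub, hPτ, map_sub]; ring
    rw [h8, d.L_smul _ _ _ (sub_ne_zero.2 (Ne.symm (AlgT_ne (by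
      show der ((n : ℤ) + 1 + s - ((n : ℤ) + 1), i) b ≠ 0
      rw [add_sub_cancel_left]
      exact hi'))))] at h7
    exact hs2.2.1.2 h7

end Pool.Agent.Wb5ab1b
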