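import Mathlib

/-!
# MP_b5ab1b_al (helper80): Jacobi elements of the group ring of A wr Z, definitions

* `Jg α β v`, `J b v`, `ent b v m n`: banded operators on functions `ℤ → R` and the entries of
  polynomials in them.
* `Fn R`: the linear functionals `R[X] → R` as a module over `R[X]`.
* `Lau k`: Laurent polynomials in the variables `(site, coordinate)`, `ev θ` evaluation on the torus,
  `E` constant coefficient (= mean value), `der` partial derivatives.
* `AC k M`: the functionals whose mean values against every Laurent polynomial are bounded by the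
  `L^1` norm of the polynomial on `[-M, M]` (absolutely continuous modulo nothing).
* `Wr A`, `jacobiElement u f`, `IsSpectralMeasure`.
-/

set_option autoImplicit false

noncomputable section

open scoped Polynomial
open MeasureTheory

namespace Pool.Agent.Wb5ab1b

/-! ## Banded operators over a commutative ring -/

section Jac

variable {R : Type} [CommRing R]

/-- `(Jg α β v ψ)(n) = α n ψ(n+1) + v n ψ(n) + β (n-1) ψ(n-1)`; matrix entries
`(n, n+1) = α n`, `(n+1, n) = β n`, `(n, n) = v n`. -/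
def Jg (α β v : ℤ → R) : (ℤ → R) →ₗ[R] (ℤ → R) where
  toFun ψ := fun n => α n * ψ (n + 1) + v n * ψ n + β (n - 1) * ψ (n - 1)
  map_add' ψ φ := by
    funext n
    simp only [Pi.add_apply]
    ring
  map_smul' c ψ := by
    funext n
    simp only [Pi.smul_apply, smul_eq_mul, RingHom.id_apply]
    ring

/-- The entry `(m, n)` of `(Jg α β v)^j`. -/
def pwg (α β v : ℤ → R) (j : ℕ) (m n : ℤ) : R := ((Jg α β v) ^ j) (Pi.single n 1) m

/-- The operator with entries `(n, n+1) = 1`, `(n+1, n) = b n`, `(n, n) = v n`. -/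
def J (b v : ℤ → R) : (ℤ → R) →ₗ[R] (ℤ → R) := Jg (fun _ => 1) b v

/-- The entry `(m, n)` of `(J b v)^j`. -/
def pw (b v : ℤ → R) (j : ℕ) (m n : ℤ) : R := ((J b v) ^ j) (Pi.single n 1) m

/-- The entry `(m, n)` of `g(J b v)`, linear in the polynomial `g`. -/
def ent (b v : ℤ → R) (m n : ℤ) : R[X] →ₗ[R] R :=
  (LinearMap.proj m : (ℤ → R) →ₗ[R] R) ∘ₗ
    (LinearMap.applyₗ (R := R) (Pi.single n 1 : ℤ → R)) ∘ₗ
      (Polynomial.aeval (J b v) : R[X] →ₐ[R] Module.End R (ℤ → R)).toLinearMap

end Jac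

/-- Linear functionals on `R[X]`, as a module over `R[X]`: `(G • Φ) g = Φ (G g)`. -/
def Fn (R : Type) [CommRing R] : Type := R[X] →ₗ[R] R

section FnModule

variable {R : Type} [CommRing R]

instance : AddCommGroup (Fn R) := inferInstanceAs (AddCommGroup (R[X] →ₗ[R] R))

/-- Application of a functional. -/
def Fn.app (Φ : Fn R) (g : R[X]) : R := (show R[X] →ₗ[R] R from Φ) g

instance : Module R[X] (Fn R) where
  smul G Φ := ((show R[X] →ₗ[R] R from Φ) ∘ₗ LinearMap.mulLeft R G : R[X] →ₗ[R] R)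
  one_smul Φ := by
    apply LinearMap.ext; intro g
    show (show R[X] →ₗ[R] R from Φ) (1 * g) = (show R[X] →ₗ[R] R from Φ) g
    rw [one_mul]
  mul_smul G H Φ := by
    apply LinearMap.ext; intro g
    show (show R[X] →ₗ[R] R from Φ) (G * H * g) = (show R[X] →ₗ[R] R from Φ) (H * (G * g))
    congr 1
    ring
  smul_zero G := by
    apply LinearMap.ext; intro g
    rfl
  smul_add G Φ Ψ := by
    apply LinearMap.ext; intro g
    rfl
  add_smul G H Φ := by
    apply LinearMap.ext; intro g
    show (show R[X] →ₗ[R] R from Φ) ((G + H) * g) =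
      (show R[X] →ₗ[R] R from Φ) (G * g) + (show R[X] →ₗ[R] R from Φ) (H * g)
    rw [add_mul, map_add]
  zero_smul Φ := by
    apply LinearMap.ext; intro g
    show (show R[X] →ₗ[R] R from Φ) (0 * g) = 0
    rw [zero_mul, map_zero]

theorem Fn.app_smul (G : R[X]) (Φ : Fn R) (g : R[X]) : (G • Φ).app g = Φ.app (G * g) := rfl

theorem Fn.app_add (Φ Ψ : Fn R) (g : R[X]) : (Φ + Ψ).app g = Φ.app g + Ψ.app g := rfl

/-- The diagonal entry `(n, n)` as a functional. -/
def P (b v : ℤ → R) (n : ℤ) : Fn R := ent b v n n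

/-- The entry `(n, n+1)` as a functional. -/
def S (b v : ℤ → R) (n : ℤ) : Fn R := ent b v n (n + 1)

theorem P_app (b v : ℤ → R) (n : ℤ) (g : R[X]) : (P b v n).app g = ent b v n n g := rfl

theorem S_app (b v : ℤ → R) (n : ℤ) (g : R[X]) : (S b v n).app g = ent b v n (n + 1) g := rfl

end FnModule

/-! ## Laurent polynomials on the torus -/

/-- Laurent polynomials in the variables indexed by (site, coordinate). -/
abbrev Lau (k : ℕ) : Type := AddMonoidAlgebra ℂ ((ℤ × Fin k) →₀ ℤ)

/-- Laurent polynomials at one site. -/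
abbrev Loc (k : ℕ) : Type := AddMonoidAlgebra ℂ (Fin k → ℤ)

/-- The character of the torus. -/
def chr {k : ℕ} (θ : ℤ × Fin k → ℝ) : Multiplicative ((ℤ × Fin k) →₀ ℤ) →* ℂ where
  toFun η := Complex.exp (2 * Real.pi * Complex.I * ((Multiplicative.toAdd η).sum fun j e => (e : ℝ) * θ j : ℝ))
  map_one' := by simp
  map_mul' a b := by
    rw [← Complex.exp_add, ← mul_add, toAdd_mul, Finsupp.sum_add_index' (by simp)
      (by intro j x y; push_cast; ring)]
    push_cast
    rfl

/-- Evaluation of a Laurent polynomial at the point `θ` of the torus. -/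
def ev {k : ℕ} (θ : ℤ × Fin k → ℝ) : Lau k →ₐ[ℂ] ℂ := AddMonoidAlgebra.lift ℂ ℂ _ (chr θ)

/-- Mean value over the torus = constant coefficient. -/
def E {k : ℕ} (F : Lau k) : ℂ := F.coeff 0

/-- The character of the one-site torus. -/
def chr1 {k : ℕ} (x : Fin k → ℝ) : Multiplicative (Fin k → ℤ) →* ℂ where
  toFun a := Complex.exp (2 * Real.pi * Complex.I * ((∑ i, ((Multiplicative.toAdd a) i : ℝ) * x i : ℝ)))
  map_one' := by simp
  map_mul' a b := by
    rw [← Complex.exp_add, ← mul_add, toAdd_mul]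
    congr 2
    rw [← Complex.ofReal_add, ← Finset.sum_add_distrib]
    congr 1
    apply Finset.sum_congr rfl
    intro i _
    rw [Pi.add_apply]
    push_cast
    ring

/-- Evaluation of a one-site Laurent polynomial. -/
def ev1 {k : ℕ} (x : Fin k → ℝ) : Loc k →ₐ[ℂ] ℂ := AddMonoidAlgebra.lift ℂ ℂ _ (chr1 x)

/-- Partial derivative of one-site Laurent polynomials: `x^a ↦ 2πi a_i x^a`. -/
def dl {k : ℕ} (i : Fin k) (F : Loc k) : Loc k :=
  F.coeff.sum fun a c => AddMonoidAlgebra.single a (2 * Real.pi * Complex.I * (a i : ℂ) * c)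

/-- Partial derivative of Laurent polynomials. -/
def der {k : ℕ} (j : ℤ × Fin k) (F : Lau k) : Lau k :=
  F.coeff.sum fun η c => AddMonoidAlgebra.single η (2 * Real.pi * Complex.I * (η j : ℂ) * c)

/-- The embedding of the exponents of site `n`. -/
def siteHom {k : ℕ} (n : ℤ) : (Fin k → ℤ) →+ ((ℤ × Fin k) →₀ ℤ) where
  toFun a := ∑ i, Finsupp.single (n, i) (a i)
  map_zero' := by simp
  map_add' a b := by simp [Finsupp.single_add, Finset.sum_add_distrib]

/-- The one-site Laurent polynomial `F` placed at site `n`. -/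
def site {k : ℕ} (n : ℤ) : Loc k →ₐ[ℂ] Lau k := AddMonoidAlgebra.mapDomainAlgHom ℂ ℂ (siteHom n)

/-- Real polynomials as polynomials with Laurent coefficients. -/
def toL {k : ℕ} (q : ℝ[X]) : (Lau k)[X] := q.map (algebraMap ℝ (Lau k))

/-- The `L^1` norm of a real polynomial on `[-M, M]`. -/
def nrm (M : ℝ) (q : ℝ[X]) : ℝ := ∫ x in Set.Icc (-M) M, |q.eval x|

theorem nrm_nonneg (M : ℝ) (q : ℝ[X]) : 0 ≤ nrm M q :=
  integral_nonneg fun _ => abs_nonneg _

theorem nrm_integrable (M : ℝ) (q : ℝ[X]) :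
    IntegrableOn (fun x => |q.eval x|) (Set.Icc (-M) M) :=
  (q.continuous.abs).continuousOn.integrableOn_Icc

theorem nrm_X_pow_mul (M : ℝ) (i : ℕ) (q : ℝ[X]) :
    nrm M (Polynomial.X ^ i * q) ≤ |M| ^ i * nrm M q := by
  unfold nrm
  rw [← integral_const_mul]
  apply setIntegral_mono_on (nrm_integrable M _)
    ((nrm_integrable M q).const_mul _) measurableSet_Icc
  intro x hx
  rw [Polynomial.eval_mul, Polynomial.eval_pow, Polynomial.eval_X, abs_mul, abs_pow]
  apply mul_le_mul_of_nonneg_right _ (abs_nonneg _)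
  apply pow_le_pow_left₀ (abs_nonneg _)
  rw [abs_le]
  have h1 := le_abs_self M
  constructor <;> linarith [hx.1, hx.2]

theorem E_add {k : ℕ} (F G : Lau k) : E (F + G) = E F + E G := by
  simp [E]

theorem E_zero {k : ℕ} : E (0 : Lau k) = 0 := by
  simp [E]

theorem E_sum {k : ℕ} {ι : Type} (s : Finset ι) (F : ι → Lau k) :
    E (∑ i ∈ s, F i) = ∑ i ∈ s, E (F i) := by
  classical
  induction s using Finset.induction_on with
  | empty => simp [E_zero]
  | insert a s ha ih => rw [Finset.sum_insert ha, Finset.sum_insert ha, E_add, ih]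

theorem toL_X_pow_mul {k : ℕ} (i : ℕ) (q : ℝ[X]) :
    toL (k := k) (Polynomial.X ^ i * q) = Polynomial.X ^ i * toL q := by
  simp [toL, Polynomial.map_mul]

/-- The functionals which are bounded, after multiplication with any Laurent polynomial and taking the
mean value, by the `L^1` norm on `[-M, M]`. -/
def AC (k : ℕ) (M : ℝ) : Submodule (Lau k)[X] (Fn (Lau k)) where
  carrier := {Φ | ∀ W : Lau k, ∃ C : ℝ, ∀ q : ℝ[X],
    ‖E (W * Φ.app (toL q))‖ ≤ C * nrm M q}
  add_mem' := by
    intro Φ Ψ hΦ hΨ W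
    obtain ⟨C1, h1⟩ := hΦ W
    obtain ⟨C2, h2⟩ := hΨ W
    refine ⟨C1 + C2, fun q => ?_⟩
    rw [Fn.app_add, mul_add, E_add, add_mul]
    exact (norm_add_le _ _).trans (add_le_add (h1 q) (h2 q))
  zero_mem' := by
    intro W
    refine ⟨0, fun q => ?_⟩
    have h : (0 : Fn (Lau k)).app (toL q) = 0 := rfl
    rw [h, mul_zero, E_zero, norm_zero, zero_mul]
  smul_mem' := by
    intro G Φ hΦ W
    choose C hC using fun i : ℕ => hΦ (W * G.coeff i)
    refine ⟨∑ i ∈ G.support, |C i| * |M| ^ i, fun q => ?_⟩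
    have key : (G • Φ).app (toL q) =
        ∑ i ∈ G.support, G.coeff i * Φ.app (toL (Polynomial.X ^ i * q)) := by
      rw [Fn.app_smul]
      conv_lhs => rw [G.as_sum_support_C_mul_X_pow]
      rw [Finset.sum_mul]
      show (show (Lau k)[X] →ₗ[Lau k] Lau k from Φ) _ = _
      rw [map_sum]
      apply Finset.sum_congr rfl
      intro i _
      rw [toL_X_pow_mul, mul_assoc, ← Polynomial.smul_eq_C_mul, map_smul, smul_eq_mul]
      rfl
    rw [key, Finset.mul_sum, E_sum, Finset.sum_mul]
    refine (norm_sum_le _ _).trans (Finset.sum_le_sum fun i _ => ?_)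
    rw [← mul_assoc]
    refine (hC i _).trans ?_
    calc C i * nrm M (Polynomial.X ^ i * q) ≤ |C i| * nrm M (Polynomial.X ^ i * q) :=
          mul_le_mul_of_nonneg_right (le_abs_self _) (nrm_nonneg _ _)
      _ ≤ |C i| * (|M| ^ i * nrm M q) :=
          mul_le_mul_of_nonneg_left (nrm_X_pow_mul M i q) (abs_nonneg _)
      _ = |C i| * |M| ^ i * nrm M q := by ring

/-! ## Jacobi operators with independent coefficients -/

/-- The sequence of copies of a one-site Laurent polynomial. -/
def bb {k : ℕ} (F : Loc k) : ℤ → Lau k := fun n => site n F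

/-- The standing hypotheses: on the torus `β` is real and `≥ 0`, `v` is real, `|v| ≤ a`, `β ≤ c²` and
`a + 2c ≤ M`. -/
def Good (k : ℕ) (β v : Loc k) (M : ℝ) : Prop :=
  (∀ x : Fin k → ℝ, (ev1 x β).im = 0 ∧ 0 ≤ (ev1 x β).re) ∧ (∀ x : Fin k → ℝ, (ev1 x v).im = 0) ∧
    ∃ a c : ℝ, 0 ≤ a ∧ 0 ≤ c ∧ (∀ x : Fin k → ℝ, |(ev1 x v).re| ≤ a) ∧
      (∀ x : Fin k → ℝ, (ev1 x β).re ≤ c ^ 2) ∧ a + 2 * c ≤ M

/-- Laurent polynomials in the variables of the sites `0, ..., 5`. -/
abbrev Lau6 (k : ℕ) : Type := AddMonoidAlgebra ℂ (Fin 6 × Fin k → ℤ)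

/-- Exponents at the sites `0, ..., 5` as exponents at all sites. -/
def hom6 {k : ℕ} : (Fin 6 × Fin k → ℤ) →+ ((ℤ × Fin k) →₀ ℤ) where
  toFun a := ∑ p, Finsupp.single (((p.1 : ℕ) : ℤ), p.2) (a p)
  map_zero' := by simp
  map_add' a b := by simp [Finsupp.single_add, Finset.sum_add_distrib]

/-- The inclusion of the Laurent polynomials at the sites `0, ..., 5`. -/
def emb6 {k : ℕ} : Lau6 k →ₐ[ℂ] Lau k := AddMonoidAlgebra.mapDomainAlgHom ℂ ℂ hom6

/-- The inclusion, on polynomials. -/
def emb6X {k : ℕ} : (Lau6 k)[X] →+* (Lau k)[X] :=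
  Polynomial.mapRingHom (emb6 (k := k) : Lau6 k →+* Lau k)

/-- Exponents at the site `n` among the sites `0, ..., 5`. -/
def siteHom6 {k : ℕ} (n : Fin 6) : (Fin k → ℤ) →+ (Fin 6 × Fin k → ℤ) where
  toFun a := fun p => if p.1 = n then a p.2 else 0
  map_zero' := by ext p; simp
  map_add' a b := by ext p; by_cases h : p.1 = n <;> simp [h]

/-- The one-site Laurent polynomial at site `n` as an element of `Lau6`. -/
def site6 {k : ℕ} (n : Fin 6) : Loc k →ₐ[ℂ] Lau6 k :=
  AddMonoidAlgebra.mapDomainAlgHom ℂ ℂ (siteHom6 n)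

/-- The character of the torus with exponents `a`, as a continuous function. -/
def chrT {d : Type} [Fintype d] : Multiplicative (d → ℤ) →* C(UnitAddTorus d, ℂ) where
  toFun a := UnitAddTorus.mFourier (Multiplicative.toAdd a)
  map_one' := UnitAddTorus.mFourier_zero
  map_mul' a b := by
    ext x
    exact UnitAddTorus.mFourier_add

/-- A Laurent polynomial as a continuous function on the torus. -/
def evT {d : Type} [Fintype d] : AddMonoidAlgebra ℂ (d → ℤ) →ₐ[ℂ] C(UnitAddTorus d, ℂ) :=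
  AddMonoidAlgebra.lift ℂ (C(UnitAddTorus d, ℂ)) _ chrT

/-- Evaluation of a Laurent polynomial at a point of the torus. -/
def evP {d : Type} [Fintype d] (y : UnitAddTorus d) : AddMonoidAlgebra ℂ (d → ℤ) →ₐ[ℂ] ℂ :=
  (ContinuousMap.evalAlgHom ℂ ℂ y).comp evT

/-- Evaluation of a polynomial with Laurent coefficients at a point of torus × real line. -/
def evG {d : Type} [Fintype d] (p : UnitAddTorus d × ℝ) :
    (AddMonoidAlgebra ℂ (d → ℤ))[X] →+* ℂ :=
  Polynomial.eval₂RingHom (evP p.1 : AddMonoidAlgebra ℂ (d → ℤ) →+* ℂ) (p.2 : ℂ)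

/-! ## The group ring -/

/-- The shift automorphisms of the lamp group `⊕_ℤ A`: `n` moves the lamp at `m` to `n + m`. -/
def shiftAut (A : Type) [AddCommGroup A] :
    Multiplicative ℤ →* MulAut (Multiplicative (ℤ →₀ A)) where
  toFun n := AddEquiv.toMultiplicative
    (Finsupp.domCongr (Equiv.addLeft (Multiplicative.toAdd n)))
  map_one' := by
    ext x : 1
    apply Multiplicative.toAdd.injective
    apply Finsupp.ext
    intro m
    simp [Finsupp.domCongr]
    rfl
  map_mul' a b := by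
    ext x : 1
    apply Multiplicative.toAdd.injective
    apply Finsupp.ext
    intro m
    simp [Finsupp.domCongr]
    congr 1

/-- The restricted wreath product `A ≀ ℤ`. -/
abbrev Wr (A : Type) [AddCommGroup A] : Type :=
  Multiplicative (ℤ →₀ A) ⋊[shiftAut A] Multiplicative ℤ

/-- The lamp `a` at the origin. -/
def lamp {A : Type} [AddCommGroup A] (a : A) : Wr A :=
  SemidirectProduct.inl (Multiplicative.ofAdd (Finsupp.single 0 a))

/-- The embedding of the group ring `ℝ[A]` at the origin. -/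
def emb {A : Type} [AddCommGroup A] (u : AddMonoidAlgebra ℝ A) : MonoidAlgebra ℝ (Wr A) :=
  u.coeff.sum fun a c => MonoidAlgebra.single (lamp a) c

/-- The involution of `ℝ[A]`. -/
def inv' {A : Type} [AddCommGroup A] (u : AddMonoidAlgebra ℝ A) : AddMonoidAlgebra ℝ A :=
  u.coeff.sum fun a c => AddMonoidAlgebra.single (-a) c

/-- The generator `t` of `ℤ`. -/
def tt (A : Type) [AddCommGroup A] : Wr A := SemidirectProduct.inr (Multiplicative.ofAdd 1)

/-- The Jacobi element `u t + t⁻¹ u* + f` of the group ring of `A ≀ ℤ`. -/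
def jacobiElement {A : Type} [AddCommGroup A] (u f : AddMonoidAlgebra ℝ A) :
    MonoidAlgebra ℝ (Wr A) :=
  emb u * MonoidAlgebra.single (tt A) 1 + MonoidAlgebra.single (tt A)⁻¹ 1 * emb (inv' u) + emb f

/-- `μ` is the spectral measure of the element `T` of a real group ring: a probability measure with
bounded support whose moments are the coefficients of `T ^ n` at the identity. -/
def IsSpectralMeasure {Γ : Type} [Group Γ] (T : MonoidAlgebra ℝ Γ) (μ : Measure ℝ) : Prop :=
  IsProbabilityMeasure μ ∧ (∃ M : ℝ, μ (Set.Icc (-M) M)ᶜ = 0) ∧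
    ∀ n : ℕ, ∫ x, x ^ n ∂μ = (T ^ n).coeff 1

end Pool.Agent.Wb5ab1b
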