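import Pool.Agent.W_b5ab1b_h80.Jac1

/-!
# Constant coefficients (helper80)
-/

set_option autoImplicit false

noncomputable section

open MeasureTheory

namespace Pool.Agent.Wb5ab1b

theorem Degen_pw_zero (v : ℝ) (n : ℕ) (m : ℤ) :
    pw (fun _ => (0 : ℝ)) (fun _ => v) n m m = v ^ n := by
  induction n with
  | zero => rw [pw_eq, pwg_zero, if_pos rfl, pow_zero]
  | succ n ih =>
    rw [Jac1_succ, pw_lower, ih]
    ring

/-- the parametrisation of the spectrum -/
def Degen_g (s v θ : ℝ) : ℝ := v + 2 * s * Real.cos θ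

theorem Degen_g_cont (s v : ℝ) : Continuous (Degen_g s v) := by
  unfold Degen_g
  fun_prop

theorem Degen_cos_int (k : ℤ) :
    ∫ θ in (0 : ℝ)..Real.pi, Real.cos ((k : ℝ) * θ) = if k = 0 then Real.pi else 0 := by
  by_cases hk : k = 0
  · subst hk
    simp
  · rw [if_neg hk]
    have hk' : (k : ℝ) ≠ 0 := by exact_mod_cast hk
    rw [intervalIntegral.integral_comp_mul_left (fun x => Real.cos x) hk', integral_cos,
      Real.sin_int_mul_pi, mul_zero, Real.sin_zero, sub_zero, smul_zero]

theorem Degen_entry (s v : ℝ) (n : ℕ) (m m' : ℤ) :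
    pwg (fun _ => s) (fun _ => s) (fun _ => v) n m m' =
      Real.pi⁻¹ * ∫ θ in (0 : ℝ)..Real.pi, Degen_g s v θ ^ n * Real.cos (((m - m' : ℤ) : ℝ) * θ) := by
  have hg := Degen_g_cont s v
  induction n generalizing m with
  | zero =>
    rw [pwg_zero]
    simp only [pow_zero, one_mul]
    rw [Degen_cos_int]
    by_cases h : m = m'
    · rw [if_pos h, if_pos (sub_eq_zero.2 h), inv_mul_cancel₀ Real.pi_ne_zero]
    · rw [if_neg h, if_neg (fun hh => h (sub_eq_zero.1 hh)), mul_zero]
  | succ n ih =>
    rw [pwg_succ, ih, ih, ih]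
    have e : ∀ θ : ℝ, Degen_g s v θ ^ (n + 1) * Real.cos (((m - m' : ℤ) : ℝ) * θ) =
        s * (Degen_g s v θ ^ n * Real.cos (((m + 1 - m' : ℤ) : ℝ) * θ)) +
        v * (Degen_g s v θ ^ n * Real.cos (((m - m' : ℤ) : ℝ) * θ)) +
        s * (Degen_g s v θ ^ n * Real.cos (((m - 1 - m' : ℤ) : ℝ) * θ)) := by
      intro θ
      have h1 : (((m + 1 - m' : ℤ) : ℝ) * θ) = ((m - m' : ℤ) : ℝ) * θ + θ := by
        push_cast
        ring
      have h2 : (((m - 1 - m' : ℤ) : ℝ) * θ) = ((m - m' : ℤ) : ℝ) * θ - θ := by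
        push_cast
        ring
      rw [h1, h2, Real.cos_add, Real.cos_sub, pow_succ]
      unfold Degen_g
      ring
    simp_rw [e]
    rw [intervalIntegral.integral_add, intervalIntegral.integral_add,
      intervalIntegral.integral_const_mul, intervalIntegral.integral_const_mul,
      intervalIntegral.integral_const_mul]
    · ring
    all_goals
      apply Continuous.intervalIntegrable
      fun_prop

theorem Degen_moment {b : ℝ} (hb : 0 ≤ b) (v : ℝ) (n : ℕ) (m : ℤ) :
    Real.pi⁻¹ * ∫ θ in (0 : ℝ)..Real.pi, Degen_g (Real.sqrt b) v θ ^ n =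
      pw (fun _ => b) (fun _ => v) n m m := by
  have h1 := (gauge (fun _ => Real.sqrt b) (fun _ => Real.sqrt b) (fun _ => v) n m m le_rfl).1
  rw [Finset.Ico_self, Finset.prod_empty, one_mul, Degen_entry] at h1
  simp only [sub_self, Int.cast_zero, zero_mul, Real.cos_zero, mul_one] at h1
  rw [h1]
  simp only [Real.mul_self_sqrt hb]

/-- the preimage of a null set is a null set -/
theorem Degen_null {s : ℝ} (hs : 0 < s) (v : ℝ) {N : Set ℝ} (hN : volume N = 0) :
    volume (Set.Icc 0 Real.pi ∩ Degen_g s v ⁻¹' N) = 0 := by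
  have h1 : Set.Icc 0 Real.pi ∩ Degen_g s v ⁻¹' N ⊆ ({0, Real.pi} : Set ℝ) ∪
      (fun x => Real.arccos ((x - v) / (2 * s))) '' (N ∩ Set.Ioo (v - 2 * s) (v + 2 * s)) := by
    rintro θ ⟨⟨h2, h3⟩, h4⟩
    rcases eq_or_lt_of_le h2 with h5 | h5
    · exact Or.inl (Or.inl h5.symm)
    rcases eq_or_lt_of_le h3 with h6 | h6
    · exact Or.inl (Or.inr h6)
    refine Or.inr ⟨Degen_g s v θ, ⟨h4, ?_, ?_⟩, ?_⟩
    · have h7 : -1 < Real.cos θ := by
        rw [← Real.cos_pi]
        exact Real.cos_lt_cos_of_nonneg_of_le_pi h2 le_rfl h6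
      unfold Degen_g
      nlinarith
    · have h7 : Real.cos θ < 1 := by
        rw [← Real.cos_zero]
        exact Real.cos_lt_cos_of_nonneg_of_le_pi le_rfl h3 h5
      unfold Degen_g
      nlinarith
    · have h7 : (Degen_g s v θ - v) / (2 * s) = Real.cos θ := by
        unfold Degen_g
        field_simp
        ring
      simp only [h7]
      exact Real.arccos_cos h2 h3
  refine measure_mono_null h1 (measure_union_null ?_ ?_)
  · exact (Set.toFinite ({0, Real.pi} : Set ℝ)).measure_zero volume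
  · refine MeasureTheory.addHaar_image_eq_zero_of_differentiableOn_of_addHaar_eq_zero volume ?_
      (measure_mono_null Set.inter_subset_left hN)
    rintro x ⟨-, h2, h3⟩
    have h4 : (x - v) / (2 * s) ≠ -1 := by
      rw [Ne, div_eq_iff (by positivity)]
      intro h
      linarith
    have h5 : (x - v) / (2 * s) ≠ 1 := by
      rw [Ne, div_eq_iff (by positivity)]
      intro h
      linarith
    refine DifferentiableAt.differentiableWithinAt ?_
    have h6 : DifferentiableAt ℝ (fun y : ℝ => (y - v) / (2 * s)) x :=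
      (differentiableAt_id.sub_const v).div_const _
    exact DifferentiableAt.comp (f := fun y : ℝ => (y - v) / (2 * s)) x
      (Real.differentiableAt_arccos.2 ⟨h4, h5⟩) h6

/-- The spectral measure of the Jacobi operator with constant coefficients.
For `b = 0` take the Dirac measure at `v` and `F = {v}`: `(J^n)_{mm} = v^n`, since `(J^n)_{m m'} = 0` for
`m' < m` (induction with `pwg_succ`).
For `b > 0` let `s = √b`; take for `μ` the image of `π⁻¹ dθ` on `[0, π]` under `g θ = v + 2 s cos θ`, and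
`F = ∅`. Moments: with `gauge` for `α = β = s`, `(J^n)_{mm}` is the diagonal entry of
`pwg s s v`; and `pwg s s v n m m' = π⁻¹ ∫_0^π (v + 2 s cos θ)^n cos((m - m') θ) dθ` by induction on `n`
(`pwg_succ`, `2 cos θ cos(mθ) = cos((m+1)θ) + cos((m-1)θ)`; `∫_0^π cos(mθ) = 0` for `m ≠ 0`).
Absolute continuity: if `N` is a null set, then `{θ ∈ (0, π) | g θ ∈ N}` is contained in the image of
`N ∩ (v - 2s, v + 2s)` under the differentiable function `arccos((x - v)/(2s))`, so it is a null set
(`MeasureTheory.addHaar_image_eq_zero_of_differentiableOn_of_addHaar_eq_zero`). -/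
theorem degen (b v M : ℝ) (hb : 0 ≤ b) (hM : |v| + 2 * Real.sqrt b ≤ M) :
    ∃ μ : Measure ℝ, IsProbabilityMeasure μ ∧ μ (Set.Icc (-M) M)ᶜ = 0 ∧
      (∀ (n : ℕ) (m : ℤ), ∫ x, x ^ n ∂μ = pw (fun _ => b) (fun _ => v) n m m) ∧
      ∃ F : Finset ℝ, (μ.restrict (F : Set ℝ)ᶜ).AbsolutelyContinuous volume := by
  rcases eq_or_lt_of_le hb with h0 | h0
  · subst h0
    rw [Real.sqrt_zero, mul_zero, add_zero] at hM
    refine ⟨Measure.dirac v, inferInstance, ?_, ?_, {v}, ?_⟩
    · rw [Measure.dirac_apply' _ measurableSet_Icc.compl]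
      have h1 : v ∉ (Set.Icc (-M) M)ᶜ := fun h => h (abs_le.1 hM)
      simp [h1]
    · intro n m
      rw [integral_dirac, Degen_pw_zero]
    · have h1 : (Measure.dirac v).restrict ((({v} : Finset ℝ) : Set ℝ))ᶜ = 0 := by
        rw [Measure.restrict_eq_zero, Measure.dirac_apply' _ (by measurability)]
        simp
      rw [h1]
      exact Measure.AbsolutelyContinuous.zero volume
  set s := Real.sqrt b with hs
  have hs0 : 0 < s := Real.sqrt_pos.2 h0
  have hgm : Measurable (Degen_g s v) := (Degen_g_cont s v).measurable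
  set ν : Measure ℝ := ENNReal.ofReal Real.pi⁻¹ • volume.restrict (Set.Icc 0 Real.pi) with hν
  have hprob : IsProbabilityMeasure ν := by
    constructor
    rw [hν, Measure.smul_apply, Measure.restrict_apply_univ, Real.volume_Icc, smul_eq_mul,
      ← ENNReal.ofReal_mul (inv_nonneg.2 Real.pi_pos.le), sub_zero,
      inv_mul_cancel₀ Real.pi_ne_zero, ENNReal.ofReal_one]
  refine ⟨ν.map (Degen_g s v), Measure.isProbabilityMeasure_map hgm.aemeasurable, ?_, ?_, ∅, ?_⟩
  · rw [Measure.map_apply hgm measurableSet_Icc.compl]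
    have h1 : Degen_g s v ⁻¹' (Set.Icc (-M) M)ᶜ = ∅ := by
      ext θ
      simp only [Set.mem_preimage, Set.mem_compl_iff, Set.mem_empty_iff_false, iff_false,
        not_not]
      rw [Set.mem_Icc, ← abs_le]
      refine le_trans ?_ hM
      unfold Degen_g
      refine (abs_add_le _ _).trans ?_
      have h2 : |2 * s * Real.cos θ| ≤ 2 * s := by
        rw [abs_mul, abs_of_pos (by positivity : (0 : ℝ) < 2 * s)]
        have := Real.abs_cos_le_one θ
        nlinarith
      linarith
    rw [h1, measure_empty]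
  · intro n m
    rw [integral_map hgm.aemeasurable (by fun_prop), hν, integral_smul_measure,
      ENNReal.toReal_ofReal (inv_nonneg.2 Real.pi_pos.le), integral_Icc_eq_integral_Ioc,
      ← intervalIntegral.integral_of_le Real.pi_pos.le, smul_eq_mul, hs]
    exact Degen_moment hb v n m
  · rw [Finset.coe_empty, Set.compl_empty, Measure.restrict_univ]
    refine Measure.AbsolutelyContinuous.mk fun N hN hN0 => ?_
    rw [Measure.map_apply hgm hN, hν, Measure.smul_apply,
      Measure.restrict_apply (hgm hN), Set.inter_comm, Degen_null hs0 v hN0, smul_zero]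

end Pool.Agent.Wb5ab1b
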