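import Pool.Agent.W_b5ab1b_h80.Defs

/-!
# Polynomial functions are dense on torus x interval (helper80)
-/

set_option autoImplicit false

noncomputable section

open scoped Polynomial
open MeasureTheory

namespace Pool.Agent.Wb5ab1b

/-- The characters on the product. -/
def Dense_ch {d : Type} [Fintype d] (M : ℝ) (a : d → ℤ) :
    C(UnitAddTorus d × Set.Icc (-M) M, ℂ) :=
  (UnitAddTorus.mFourier a).comp ContinuousMap.fst

/-- The coordinate on the product. -/
def Dense_x {d : Type} [Fintype d] (M : ℝ) : C(UnitAddTorus d × Set.Icc (-M) M, ℂ) where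
  toFun z := ((z.2 : ℝ) : ℂ)
  continuous_toFun := by fun_prop

/-- The star subalgebra generated by the characters and the coordinate. -/
def Dense_alg (d : Type) [Fintype d] (M : ℝ) :
    StarSubalgebra ℂ C(UnitAddTorus d × Set.Icc (-M) M, ℂ) where
  toSubalgebra := Algebra.adjoin ℂ (Set.range (Dense_ch M) ∪ {Dense_x M})
  star_mem' := by
    change Algebra.adjoin ℂ (Set.range (Dense_ch M) ∪ {Dense_x M}) ≤
      star (Algebra.adjoin ℂ (Set.range (Dense_ch M) ∪ {Dense_x M}))
    refine Algebra.adjoin_le ?_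
    rintro _ (⟨n, rfl⟩ | rfl)
    · refine Algebra.subset_adjoin (Or.inl ⟨-n, ?_⟩)
      ext1 z
      simp only [Dense_ch, ContinuousMap.comp_apply, ContinuousMap.star_apply,
        UnitAddTorus.mFourier_neg, starRingEnd_apply]
    · refine Algebra.subset_adjoin (Or.inr ?_)
      rw [Set.mem_singleton_iff]
      ext1 z
      simp [Dense_x, ContinuousMap.star_apply]

theorem Dense_ev_single {d : Type} [Fintype d] (y : UnitAddTorus d) (a : d → ℤ) :
    evP y (AddMonoidAlgebra.single a 1) = UnitAddTorus.mFourier a y := by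
  unfold evP evT
  rw [AlgHom.comp_apply, AddMonoidAlgebra.lift_single, one_smul]
  rfl

theorem Dense_mem {d : Type} [Fintype d] (M : ℝ)
    (f : C(UnitAddTorus d × Set.Icc (-M) M, ℂ)) (hf : f ∈ Dense_alg d M) :
    ∃ H : (AddMonoidAlgebra ℂ (d → ℤ))[X],
      ∀ z : UnitAddTorus d × Set.Icc (-M) M, evG (z.1, (z.2 : ℝ)) H = f z := by
  have hf' : f ∈ Algebra.adjoin ℂ (Set.range (Dense_ch (d := d) M) ∪ {Dense_x M}) := hf
  induction hf' using Algebra.adjoin_induction with
  | mem g hg =>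
    rcases hg with ⟨n, rfl⟩ | rfl
    · refine ⟨Polynomial.C (AddMonoidAlgebra.single n 1), fun z => ?_⟩
      simp only [evG, Polynomial.coe_eval₂RingHom, Polynomial.eval₂_C]
      exact Dense_ev_single z.1 n
    · refine ⟨Polynomial.X, fun z => ?_⟩
      simp only [evG, Polynomial.coe_eval₂RingHom, Polynomial.eval₂_X]
      rfl
  | algebraMap c =>
    refine ⟨Polynomial.C (algebraMap ℂ _ c), fun z => ?_⟩
    simp only [evG, Polynomial.coe_eval₂RingHom, Polynomial.eval₂_C]
    exact (evP z.1).commutes c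
  | add g h _ _ hg hh =>
    obtain ⟨G, hG⟩ := hg ‹_›
    obtain ⟨H, hH⟩ := hh ‹_›
    exact ⟨G + H, fun z => by rw [map_add, hG, hH]; rfl⟩
  | mul g h _ _ hg hh =>
    obtain ⟨G, hG⟩ := hg ‹_›
    obtain ⟨H, hH⟩ := hh ‹_›
    exact ⟨G * H, fun z => by rw [map_mul, hG, hH]; rfl⟩

theorem Dense_sep {d : Type} [Fintype d] (M : ℝ) : (Dense_alg d M).SeparatesPoints := by
  classical
  rintro ⟨x, s⟩ ⟨y, t⟩ hxy
  by_cases hst : s = t
  · have hxy' : x ≠ y := by
      rintro rfl
      exact hxy (by rw [hst])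
    rw [Ne, funext_iff, not_forall] at hxy'
    obtain ⟨i, hi⟩ := hxy'
    refine ⟨_, ⟨Dense_ch M (Pi.single i 1), Algebra.subset_adjoin (Or.inl ⟨_, rfl⟩), rfl⟩, ?_⟩
    show UnitAddTorus.mFourier (Pi.single i 1) x ≠ UnitAddTorus.mFourier (Pi.single i 1) y
    rw [UnitAddTorus.mFourier_single, UnitAddTorus.mFourier_single, fourier_one, fourier_one]
    intro h
    exact hi (AddCircle.injective_toCircle one_ne_zero (Circle.coe_injective h))
  · refine ⟨_, ⟨Dense_x M, Algebra.subset_adjoin (Or.inr rfl), rfl⟩, ?_⟩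
    show ((s : ℝ) : ℂ) ≠ ((t : ℝ) : ℂ)
    rw [Ne, Complex.ofReal_inj, Subtype.coe_inj]
    exact hst

/-- Stone-Weierstrass. The functions `z ↦ evG (z.1, z.2) H` form a star subalgebra of
`C(UnitAddTorus d × Set.Icc (-M) M, ℂ)` (the conjugate of `Σ F_j x^j` is `Σ F_j^* x^j`, where `*`
conjugates the coefficients and negates the exponents; the conjugate of `mFourier a` is
`mFourier (-a)`), and it separates the points: the coordinate `x`, and the functions `mFourier (Pi.single i 1)`
(compare `UnitAddTorus.mFourierSubalgebra_separatesPoints`). Use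
`ContinuousMap.starSubalgebra_topologicalClosure_eq_top_of_separatesPoints`. -/
theorem dense_evG {d : Type} [Fintype d] (M : ℝ)
    (φ : C(UnitAddTorus d × Set.Icc (-M) M, ℂ)) (ε : ℝ) (hε : 0 < ε) :
    ∃ H : (AddMonoidAlgebra ℂ (d → ℤ))[X],
      ∀ z : UnitAddTorus d × Set.Icc (-M) M, ‖evG (z.1, (z.2 : ℝ)) H - φ z‖ ≤ ε := by
  have h1 := ContinuousMap.starSubalgebra_topologicalClosure_eq_top_of_separatesPoints
    (Dense_alg d M) (Dense_sep M)
  have h2 : φ ∈ (Dense_alg d M).topologicalClosure := by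
    rw [h1]
    exact StarSubalgebra.mem_top
  have h3 : φ ∈ closure (Dense_alg d M : Set C(UnitAddTorus d × Set.Icc (-M) M, ℂ)) := h2
  obtain ⟨g, hg, hd⟩ := Metric.mem_closure_iff.1 h3 ε hε
  obtain ⟨H, hH⟩ := Dense_mem M g hg
  refine ⟨H, fun z => ?_⟩
  rw [hH]
  have h4 := ContinuousMap.dist_apply_le_dist (f := φ) (g := g) z
  rw [dist_comm, dist_eq_norm] at h4
  exact h4.trans hd.le

end Pool.Agent.Wb5ab1b
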