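import Pool.Agent.W_b5ab1b_h80.Jac1

/-!
# Elimination (helper80)
-/

set_option autoImplicit false

noncomputable section

open scoped Polynomial

namespace Pool.Agent.Wb5ab1b

/-- The cubic polynomial of the elimination, `x` is the spectral variable; sites `0, 1, 2`. -/
def cubic {A : Type} [CommRing A] (x b1 v1 v2 b2 b0' b1' b2' v0' v1' v2' : A) : A :=
  (b2' * (x - v2) + b2 * v2') * v0' * b1' * (x - v1) ^ 2
    - 2 * (x - v1) * (b1' * (x - v1) + b1 * v1') * (b2' * (x - v2) + b2 * v2') * v0'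
    - b0' * (b1' * (x - v1) + b1 * v1') * (b2' * (x - v2) + b2 * v2')
    + b1 ^ 2 * v0' * v1' * b2'

section Abstract

variable {A : Type} [CommRing A] {V : Type} [AddCommGroup V] [Module A V] (N : Submodule A V)

/-- The elimination identity. -/
theorem elim (x b0 b1 b2 v1 v2 b0' b1' b2' v0' v1' v2' : A) (P0 P1 P2 J0 J1 J2 : V)
    (r1 : (x - v1) • P1 = J1 + J0) (r2 : (x - v2) • P2 = J2 + J1)
    (r3 : b1 • P2 - b0 • P0 = (x - v1) • (J1 - J0))
    (n0 : (b0 * v0') • P0 + b0' • J0 ∈ N) (n1 : (b1 * v1') • P1 + b1' • J1 ∈ N)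
    (n2 : (b2 * v2') • P2 + b2' • J2 ∈ N) :
    cubic x b1 v1 v2 b2 b0' b1' b2' v0' v1' v2' • P1 ∈ N := by
  obtain rfl : J0 = (x - v1) • P1 - J1 := by rw [r1]; abel
  obtain rfl : J2 = (x - v2) • P2 - J1 := by rw [r2]; abel
  have key : cubic x b1 v1 v2 b2 b0' b1' b2' v0' v1' v2' • P1 =
      (b1' * b1 * v0') • ((b2 * v2') • P2 + b2' • ((x - v2) • P2 - J1))
      - (b1' * (b2' * (x - v2) + b2 * v2')) • ((b0 * v0') • P0 + b0' • ((x - v1) • P1 - J1))
      - (2 * (b2' * (x - v2) + b2 * v2') * v0' * (x - v1) - v0' * b1 * b2'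
          + (b2' * (x - v2) + b2 * v2') * b0') •
          ((b1 * v1') • P1 + b1' • J1)
      - (b1' * v0' * (b2' * (x - v2) + b2 * v2')) •
          ((b1 • P2 - b0 • P0) - (x - v1) • (J1 - ((x - v1) • P1 - J1))) := by
    unfold cubic
    module
  rw [key, r3, sub_self, smul_zero, sub_zero]
  exact N.sub_mem (N.sub_mem (N.smul_mem _ n2) (N.smul_mem _ n0)) (N.smul_mem _ n1)

/-- The relation between neighbours. -/
theorem elim_chain (x b0 b1 v1 b0' b1' v0' v1' : A) (P0 P1 J0 J1 : V)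
    (r1 : (x - v1) • P1 = J1 + J0)
    (n0 : (b0 * v0') • P0 + b0' • J0 ∈ N) (n1 : (b1 * v1') • P1 + b1' • J1 ∈ N) :
    (b0' * (b1' * (x - v1) + b1 * v1')) • P1 + (b1' * b0 * v0') • P0 ∈ N := by
  obtain rfl : J0 = (x - v1) • P1 - J1 := by rw [r1]; abel
  have key : (b0' * (b1' * (x - v1) + b1 * v1')) • P1 + (b1' * b0 * v0') • P0 =
      b1' • ((b0 * v0') • P0 + b0' • ((x - v1) • P1 - J1))
        + b0' • ((b1 * v1') • P1 + b1' • J1) := by
    module
  rw [key]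
  exact N.add_mem (N.smul_mem _ n0) (N.smul_mem _ n1)

/-- The case of constant `v`. -/
theorem elim_const (x v b0' b1' : A) (P1 J0 J1 : V) (r1 : (x - v) • P1 = J1 + J0)
    (n0 : b0' • J0 ∈ N) (n1 : b1' • J1 ∈ N) : (b0' * b1' * (x - v)) • P1 ∈ N := by
  have key : (b0' * b1' * (x - v)) • P1 = b0' • (b1' • J1) + b1' • (b0' • J0) := by
    rw [mul_smul, r1]
    module
  rw [key]
  exact N.add_mem (N.smul_mem _ n1) (N.smul_mem _ n0)

end Abstract

end Pool.Agent.Wb5ab1b
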