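import Pool.Agent.W_b5ab1b_h80.KI
import Pool.Agent.W_b5ab1b_h80.Elim

/-!
# Polynomials which carry the diagonal entry at site `1` into `AC` (helper80)
-/

set_option autoImplicit false

noncomputable section

open scoped Polynomial
open Polynomial (X C)

namespace Pool.Agent.Wb5ab1b

variable {k : ℕ}

/-- The cubic polynomial with the sites `a, b, c` (three consecutive sites among `0, ..., 5`). -/
def cub6 (β v : Loc k) (i : Fin k) (a b c : Fin 6) : (Lau6 k)[X] :=
  cubic X (C (site6 b β)) (C (site6 b v)) (C (site6 c v)) (C (site6 c β))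
    (C (site6 a (dl i β))) (C (site6 b (dl i β))) (C (site6 c (dl i β)))
    (C (site6 a (dl i v))) (C (site6 b (dl i v))) (C (site6 c (dl i v)))

/-- The factor of the passage from site `1` to site `4`. -/
def kap6 (β v : Loc k) (i : Fin k) : Lau6 k :=
  (site6 2 (dl i β) * site6 1 β * site6 1 (dl i v)) *
    (site6 3 (dl i β) * site6 2 β * site6 2 (dl i v)) *
      (site6 4 (dl i β) * site6 3 β * site6 3 (dl i v))

theorem emb6_single (a : Fin 6 × Fin k → ℤ) (c : ℂ) :
    emb6 (AddMonoidAlgebra.single a c) = AddMonoidAlgebra.single (hom6 a) c := by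
  show AddMonoidAlgebra.mapDomain _ _ = _
  rw [AddMonoidAlgebra.mapDomain_single]

theorem site6_single (n : Fin 6) (a : Fin k → ℤ) (c : ℂ) :
    site6 n (AddMonoidAlgebra.single a c) = AddMonoidAlgebra.single (siteHom6 n a) c := by
  show AddMonoidAlgebra.mapDomain _ _ = _
  rw [AddMonoidAlgebra.mapDomain_single]

theorem hom6_siteHom6 (n : Fin 6) (a : Fin k → ℤ) :
    hom6 (siteHom6 n a) = siteHom (((n : ℕ) : ℤ)) a := by
  show ∑ p : Fin 6 × Fin k, Finsupp.single (((p.1 : ℕ) : ℤ), p.2)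
      (if p.1 = n then a p.2 else 0) = ∑ i, Finsupp.single (((n : ℕ) : ℤ), i) (a i)
  rw [Fintype.sum_prod_type, Finset.sum_eq_single n]
  · simp
  · intro b _ hb
    simp [hb]
  · simp

theorem emb6_site6 (n : Fin 6) (F : Loc k) : emb6 (site6 n F) = site (((n : ℕ) : ℤ)) F := by
  induction F using AddMonoidAlgebra.induction_linear with
  | zero => simp
  | add f g hf hg => rw [map_add, map_add, map_add, hf, hg]
  | single a c => rw [site6_single, emb6_single, hom6_siteHom6, site_single]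

theorem emb6X_C (F : Lau6 k) : emb6X (C F) = C (emb6 F) := by
  simp [emb6X]

theorem emb6X_X : emb6X (k := k) X = X := by
  simp [emb6X]

theorem map_cubic {A B : Type} [CommRing A] [CommRing B] (f : A →+* B)
    (x b1 v1 v2 b2 b0' b1' b2' v0' v1' v2' : A) :
    f (cubic x b1 v1 v2 b2 b0' b1' b2' v0' v1' v2') =
      cubic (f x) (f b1) (f v1) (f v2) (f b2) (f b0') (f b1') (f b2') (f v0') (f v1') (f v2') := by
  simp [cubic, map_ofNat]

theorem KI' {β v : Loc k} {M : ℝ} (h : Good k β v M) (n : ℤ) (i : Fin k) :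
    (C (site n β) * C (site n (dl i v))) • P (bb β) (bb v) n +
      C (site n (dl i β)) • (C (site n β) • S (bb β) (bb v) n) ∈ AC k M := by
  have h1 := (AC k M).smul_mem (C (site n β)) (KI h n i)
  rw [smul_add, ← mul_smul, ← mul_smul] at h1
  rw [← mul_smul, mul_comm (C (site n (dl i β)))]
  exact h1

/-- The cubic at three consecutive sites. -/
theorem cubic_mem {β v : Loc k} {M : ℝ} (h : Good k β v M) (n : ℤ) (i : Fin k) :
    cubic X (C (site n β)) (C (site n v)) (C (site (n + 1) v)) (C (site (n + 1) β))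
      (C (site (n - 1) (dl i β))) (C (site n (dl i β))) (C (site (n + 1) (dl i β)))
      (C (site (n - 1) (dl i v))) (C (site n (dl i v))) (C (site (n + 1) (dl i v))) •
        P (bb β) (bb v) n ∈ AC k M := by
  have r2 := rel_P (bb β) (bb v) (n + 1)
  rw [show n + 1 - 1 = n by ring] at r2
  exact elim (AC k M) X (C (site (n - 1) β)) _ _ _ _ _ _ _ _ _ _ _ _ _ _ _ _
    (rel_P (bb β) (bb v) n) r2 (rel_S (bb β) (bb v) n) (KI' h (n - 1) i) (KI' h n i) (KI' h (n + 1) i)

/-- The relation between neighbours. -/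
theorem chain_mem {β v : Loc k} {M : ℝ} (h : Good k β v M) (n : ℤ) (i : Fin k) :
    (C (site (n - 1) (dl i β)) * (C (site n (dl i β)) * (X - C (site n v)) +
      C (site n β) * C (site n (dl i v)))) • P (bb β) (bb v) n +
    (C (site n (dl i β)) * C (site (n - 1) β) * C (site (n - 1) (dl i v))) •
      P (bb β) (bb v) (n - 1) ∈ AC k M :=
  elim_chain (AC k M) X _ _ _ _ _ _ _ _ _ _ _ (rel_P (bb β) (bb v) n) (KI' h (n - 1) i) (KI' h n i)

theorem elimA {β v : Loc k} {M : ℝ} (h : Good k β v M) (i : Fin k) :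
    emb6X (cub6 β v i 0 1 2) • P (bb β) (bb v) 1 ∈ AC k M := by
  have h1 := cubic_mem h 1 i
  unfold cub6
  rw [map_cubic]
  simp only [emb6X_C, emb6X_X, emb6_site6]
  exact h1

theorem elimB {β v : Loc k} {M : ℝ} (h : Good k β v M) (i : Fin k) :
    emb6X (C (kap6 β v i) * cub6 β v i 3 4 5) • P (bb β) (bb v) 1 ∈ AC k M := by
  have h4 := cubic_mem h 4 i
  have c2 := chain_mem h 2 i
  have c3 := chain_mem h 3 i
  have c4 := chain_mem h 4 i
  rw [map_mul, emb6X_C]
  unfold cub6 kap6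
  rw [map_cubic]
  simp only [emb6X_C, emb6X_X, emb6_site6, map_mul]
  norm_num only at h4 c2 c3 c4
  have key : ∀ (N : Submodule (Lau k)[X] (Fn (Lau k))) (Q p2 p3 p4 a2 a3 a4 : (Lau k)[X])
      (P1 P2 P3 P4 : Fn (Lau k)), Q • P4 ∈ N → a2 • P2 + p2 • P1 ∈ N → a3 • P3 + p3 • P2 ∈ N →
      a4 • P4 + p4 • P3 ∈ N → (p2 * p3 * p4 * Q) • P1 ∈ N := by
    intro N Q p2 p3 p4 a2 a3 a4 P1 P2 P3 P4 hQ h2 h3 h4
    have e : (p2 * p3 * p4 * Q) • P1 = (p3 * p4 * Q) • (a2 • P2 + p2 • P1)
        - (a2 * p4 * Q) • (a3 • P3 + p3 • P2) + (a2 * a3 * Q) • (a4 • P4 + p4 • P3)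
        - (a2 * a3 * a4) • (Q • P4) := by
      module
    rw [e]
    exact N.sub_mem (N.add_mem (N.sub_mem (N.smul_mem _ h2) (N.smul_mem _ h3)) (N.smul_mem _ h4))
      (N.smul_mem _ hQ)
  have := key (AC k M) _ _ _ _ _ _ _ _ _ _ _ h4 c2 c3 c4
  exact this

theorem elimC {β v : Loc k} {M : ℝ} (h : Good k β v M) (i : Fin k) (hv : dl i v = 0) :
    emb6X (C (site6 0 (dl i β)) * C (site6 1 (dl i β)) * (X - C (site6 1 v))) •
      P (bb β) (bb v) 1 ∈ AC k M := by
  have h0 := KI' h 0 i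
  have h1 := KI' h 1 i
  rw [hv, map_zero, map_zero, mul_zero, zero_smul, zero_add] at h0 h1
  have := elim_const (AC k M) X (C (site 1 v)) _ _ _ _ _ (rel_P (bb β) (bb v) 1) h0 h1
  simp only [map_mul, map_sub, emb6X_C, emb6X_X, emb6_site6]
  exact this

theorem elimD {β v : Loc k} {M : ℝ} (h : Good k β v M) (i : Fin k) (hb : dl i β = 0) :
    emb6X (C (site6 1 (dl i v))) • P (bb β) (bb v) 1 ∈ AC k M := by
  have h1 := KI h 1 i
  rw [hb, map_zero, map_zero, zero_smul, add_zero] at h1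
  simp only [emb6X_C, emb6_site6]
  exact h1

end Pool.Agent.Wb5ab1b
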