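import Pool.Agent.W_b5ab1b_h80.Defs

/-!
# Traces of functions of matrices which differ by a matrix of small rank (helper80)
-/

set_option autoImplicit false

noncomputable section

open scoped Polynomial

namespace Pool.Agent.Wb5ab1b

/-- Orthogonal diagonalisation of a real symmetric matrix. -/
theorem Fin1_diag {ι : Type} [Fintype ι] [DecidableEq ι] (A : Matrix ι ι ℝ) (hA : A.IsHermitian) :
    ∃ (l : ι → ℝ) (U : Matrix ι ι ℝ), U.transpose * U = 1 ∧ U * U.transpose = 1 ∧
      A = U * Matrix.diagonal l * U.transpose := by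
  refine ⟨hA.eigenvalues, (hA.eigenvectorUnitary : Matrix ι ι ℝ), ?_, ?_, ?_⟩
  · have := Unitary.coe_star_mul_self hA.eigenvectorUnitary
    rwa [Matrix.star_eq_conjTranspose, Matrix.conjTranspose_eq_transpose_of_trivial] at this
  · have := Unitary.coe_mul_star_self hA.eigenvectorUnitary
    rwa [Unitary.coe_star, Matrix.star_eq_conjTranspose,
      Matrix.conjTranspose_eq_transpose_of_trivial] at this
  · have := hA.spectral_theorem
    rw [Unitary.conjStarAlgAut_apply, Matrix.star_eq_conjTranspose,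
      Matrix.conjTranspose_eq_transpose_of_trivial] at this
    exact this

/-- The quadratic form of a diagonalised matrix. -/
theorem Fin1_quad {ι : Type} [Fintype ι] [DecidableEq ι] (U : Matrix ι ι ℝ) (l : ι → ℝ)
    (w : ι → ℝ) :
    dotProduct w ((U * Matrix.diagonal l * U.transpose).mulVec w) =
      ∑ i, l i * (U.transpose.mulVec w i) ^ 2 := by
  rw [← Matrix.mulVec_mulVec, ← Matrix.mulVec_mulVec, Matrix.dotProduct_mulVec,
    ← Matrix.mulVec_transpose, dotProduct]
  refine Finset.sum_congr rfl fun i _ => ?_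
  rw [Matrix.mulVec_diagonal]
  ring

/-- Polynomials of a diagonalised matrix. -/
theorem Fin1_aeval {ι : Type} [Fintype ι] [DecidableEq ι] (U : Matrix ι ι ℝ) (l : ι → ℝ)
    (h1 : U.transpose * U = 1) (h2 : U * U.transpose = 1) (Q : ℝ[X]) :
    Polynomial.aeval (U * Matrix.diagonal l * U.transpose) Q =
      U * Matrix.diagonal (fun i => Q.eval (l i)) * U.transpose := by
  have hpow : ∀ k : ℕ, (U * Matrix.diagonal l * U.transpose) ^ k =
      U * Matrix.diagonal (fun i => l i ^ k) * U.transpose := by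
    intro k
    induction k with
    | zero => simp [h2]
    | succ k ih =>
      rw [pow_succ, ih]
      calc U * Matrix.diagonal (fun i => l i ^ k) * U.transpose *
            (U * Matrix.diagonal l * U.transpose)
          = U * Matrix.diagonal (fun i => l i ^ k) * (U.transpose * U) *
              Matrix.diagonal l * U.transpose := by simp only [Matrix.mul_assoc]
        _ = U * (Matrix.diagonal (fun i => l i ^ k) * Matrix.diagonal l) * U.transpose := by
              rw [h1, Matrix.mul_one]; simp only [Matrix.mul_assoc]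
        _ = U * Matrix.diagonal (fun i => l i ^ (k + 1)) * U.transpose := by
              rw [Matrix.diagonal_mul_diagonal]; simp only [pow_succ]
  induction Q using Polynomial.induction_on' with
  | add p q hp hq =>
    rw [map_add, hp, hq, ← Matrix.add_mul, ← Matrix.mul_add, Matrix.diagonal_add]
    simp only [Polynomial.eval_add]
  | monomial k a =>
    rw [Polynomial.aeval_monomial, hpow, Algebra.algebraMap_eq_smul_one, Matrix.smul_mul,
      Matrix.one_mul, ← Matrix.smul_mul, ← Matrix.mul_smul, ← Matrix.diagonal_smul]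
    congr 2
    congr 1
    funext i
    simp

/-- Trace of a polynomial of a diagonalised matrix. -/
theorem Fin1_trace {ι : Type} [Fintype ι] [DecidableEq ι] (U : Matrix ι ι ℝ) (l : ι → ℝ)
    (h1 : U.transpose * U = 1) (h2 : U * U.transpose = 1) (Q : ℝ[X]) :
    (Polynomial.aeval (U * Matrix.diagonal l * U.transpose) Q).trace =
      ∑ i, Q.eval (l i) := by
  rw [Fin1_aeval U l h1 h2 Q, Matrix.trace_mul_comm, ← Matrix.mul_assoc, h1, Matrix.one_mul,
    Matrix.trace_diagonal]

/-- Parseval. -/
theorem Fin1_norm {ι : Type} [Fintype ι] [DecidableEq ι] (U : Matrix ι ι ℝ)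
    (h2 : U * U.transpose = 1) (w : ι → ℝ) :
    dotProduct w w = ∑ i, (U.transpose.mulVec w i) ^ 2 := by
  have h := Fin1_quad U (fun _ => 1) w
  have h3 : U * Matrix.diagonal (fun _ => (1 : ℝ)) * U.transpose = 1 := by
    rw [Matrix.diagonal_one, Matrix.mul_one, h2]
  rw [h3, Matrix.one_mulVec] at h
  rw [h]
  simp

/-- The eigenvalues are bounded by the norm. -/
theorem Fin1_bd {ι : Type} [Fintype ι] [DecidableEq ι] (U : Matrix ι ι ℝ) (l : ι → ℝ)
    (h1 : U.transpose * U = 1) (h2 : U * U.transpose = 1) (M : ℝ)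
    (hM : ∀ x : ι → ℝ, |dotProduct x ((U * Matrix.diagonal l * U.transpose).mulVec x)| ≤
      M * dotProduct x x) (i : ι) : |l i| ≤ M := by
  have h := hM (U.mulVec (Pi.single i 1))
  rw [Fin1_quad, Fin1_norm U h2, Matrix.mulVec_mulVec, h1, Matrix.one_mulVec] at h
  have e1 : ∑ j, l j * (Pi.single i (1 : ℝ) : ι → ℝ) j ^ 2 = l i := by
    rw [Finset.sum_eq_single i]
    · simp
    · intro j _ hj
      simp [Pi.single_eq_of_ne hj]
    · simp
  have e2 : ∑ j, (Pi.single i (1 : ℝ) : ι → ℝ) j ^ 2 = 1 := by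
    rw [Finset.sum_eq_single i]
    · simp
    · intro j _ hj
      simp [Pi.single_eq_of_ne hj]
    · simp
  rw [e1, e2, mul_one] at h
  exact h

/-- Interlacing: the counting functions differ by at most the rank of the difference. -/
theorem Fin1_count {ι : Type} [Fintype ι] [DecidableEq ι] (A B : Matrix ι ι ℝ)
    (U V : Matrix ι ι ℝ) (l m : ι → ℝ)
    (h2 : U * U.transpose = 1) (h2' : V * V.transpose = 1)
    (hA : A = U * Matrix.diagonal l * U.transpose)
    (hB : B = V * Matrix.diagonal m * V.transpose)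
    (r : ℕ) (hr : (A - B).rank ≤ r) (x : ℝ) :
    (Finset.univ.filter (fun i => l i ≤ x)).card ≤
      (Finset.univ.filter (fun i => m i ≤ x)).card + r := by
  classical
  -- the map
  let L1 : (ι → ℝ) →ₗ[ℝ] ({i : ι // ¬ l i ≤ x} → ℝ) :=
    LinearMap.funLeft ℝ ℝ (fun i : {i : ι // ¬ l i ≤ x} => (i : ι)) ∘ₗ U.transpose.mulVecLin
  let L2 : (ι → ℝ) →ₗ[ℝ] ({i : ι // m i ≤ x} → ℝ) :=
    LinearMap.funLeft ℝ ℝ (fun i : {i : ι // m i ≤ x} => (i : ι)) ∘ₗ V.transpose.mulVecLin
  let L3 : (ι → ℝ) →ₗ[ℝ] (LinearMap.range (A - B).mulVecLin) := (A - B).mulVecLin.rangeRestrict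
  let L : (ι → ℝ) →ₗ[ℝ] (({i : ι // ¬ l i ≤ x} → ℝ) × ({i : ι // m i ≤ x} → ℝ) ×
    (LinearMap.range (A - B).mulVecLin)) := L1.prod (L2.prod L3)
  have hinj : Function.Injective L := by
    rw [← LinearMap.ker_eq_bot, LinearMap.ker_eq_bot']
    intro w hw
    have e := congrArg Prod.fst hw
    have e' := congrArg (fun z => z.2.1) hw
    have e'' := congrArg (fun z => z.2.2) hw
    have f1 : ∀ i, ¬ l i ≤ x → U.transpose.mulVec w i = 0 := by
      intro i hi
      exact congrFun e ⟨i, hi⟩
    have f2 : ∀ i, m i ≤ x → V.transpose.mulVec w i = 0 := by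
      intro i hi
      exact congrFun e' ⟨i, hi⟩
    have f3 : (A - B).mulVec w = 0 := by
      have := congrArg Subtype.val e''
      exact this
    rw [Matrix.sub_mulVec, sub_eq_zero] at f3
    have g1 : dotProduct w (A.mulVec w) ≤ x * dotProduct w w := by
      rw [Fin1_norm U h2, hA, Fin1_quad, Finset.mul_sum]
      refine Finset.sum_le_sum fun i _ => ?_
      by_cases hi : l i ≤ x
      · exact mul_le_mul_of_nonneg_right hi (sq_nonneg _)
      · rw [f1 i hi]; simp
    have g2 : dotProduct w (B.mulVec w) - x * dotProduct w w =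
        ∑ i, (m i - x) * (V.transpose.mulVec w i) ^ 2 := by
      rw [Fin1_norm V h2', hB, Fin1_quad, Finset.mul_sum, ← Finset.sum_sub_distrib]
      refine Finset.sum_congr rfl fun i _ => ?_
      ring
    have g3 : ∀ i ∈ Finset.univ, 0 ≤ (m i - x) * (V.transpose.mulVec w i) ^ 2 := by
      intro i _
      by_cases hi : m i ≤ x
      · rw [f2 i hi]; simp
      · exact mul_nonneg (by linarith) (sq_nonneg _)
    have g4 : ∑ i, (m i - x) * (V.transpose.mulVec w i) ^ 2 = 0 := by
      apply le_antisymm
      · rw [← g2, ← f3]; linarith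
      · exact Finset.sum_nonneg g3
    have g5 := (Finset.sum_eq_zero_iff_of_nonneg g3).1 g4
    have g6 : V.transpose.mulVec w = 0 := by
      funext i
      by_cases hi : m i ≤ x
      · exact f2 i hi
      · have := g5 i (Finset.mem_univ i)
        rcases mul_eq_zero.1 this with h | h
        · exact absurd (by linarith) hi
        · exact pow_eq_zero_iff (two_ne_zero) |>.1 h
    have : V.mulVec (V.transpose.mulVec w) = 0 := by rw [g6, Matrix.mulVec_zero]
    rwa [Matrix.mulVec_mulVec, h2', Matrix.one_mulVec] at this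
  have hdim := LinearMap.finrank_le_finrank_of_injective hinj
  rw [Module.finrank_prod, Module.finrank_prod, Module.finrank_fintype_fun_eq_card,
    Module.finrank_fintype_fun_eq_card, Module.finrank_fintype_fun_eq_card] at hdim
  have hr' : Module.finrank ℝ (LinearMap.range (A - B).mulVecLin) ≤ r := hr
  have c1 : Fintype.card {i : ι // m i ≤ x} = (Finset.univ.filter (fun i => m i ≤ x)).card :=
    Fintype.card_subtype _
  have c2 : Fintype.card {i : ι // ¬ l i ≤ x} = (Finset.univ.filter (fun i => ¬ l i ≤ x)).card :=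
    Fintype.card_subtype _
  have c3 := Finset.card_filter_add_card_filter_not (s := (Finset.univ : Finset ι))
    (p := fun i => l i ≤ x)
  rw [Finset.card_univ] at c3
  omega

/-- Layer cake. -/
theorem Fin1_layer (Q : ℝ[X]) (M t : ℝ) (ht : |t| ≤ M) :
    Q.eval t = Q.eval M - ∫ x in Set.Icc (-M) M, Q.derivative.eval x * (if t ≤ x then 1 else 0) := by
  have h1 := abs_le.1 ht
  have h2 : (fun x => Q.derivative.eval x * (if t ≤ x then (1 : ℝ) else 0)) =
      (Set.Ici t).indicator (fun x => Q.derivative.eval x) := by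
    funext x
    by_cases hx : t ≤ x
    · simp [hx]
    · simp [hx]
  rw [h2, MeasureTheory.setIntegral_indicator measurableSet_Ici]
  have h3 : Set.Icc (-M) M ∩ Set.Ici t = Set.Icc t M := by
    ext y
    simp only [Set.mem_inter_iff, Set.mem_Icc, Set.mem_Ici]
    constructor
    · rintro ⟨⟨_, hb⟩, hc⟩
      exact ⟨hc, hb⟩
    · rintro ⟨ha, hb⟩
      exact ⟨⟨by linarith, hb⟩, ha⟩
  rw [h3, MeasureTheory.integral_Icc_eq_integral_Ioc, ← intervalIntegral.integral_of_le h1.2]
  rw [intervalIntegral.integral_eq_sub_of_hasDerivAt (f := fun x => Q.eval x)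
    (fun x _ => Q.hasDerivAt x) ((Q.derivative.continuous).intervalIntegrable _ _)]
  ring

theorem Fin1_int (q : ℝ[X]) (M t : ℝ) :
    MeasureTheory.IntegrableOn (fun x => q.eval x * (if t ≤ x then (1 : ℝ) else 0))
      (Set.Icc (-M) M) := by
  have h2 : (fun x => q.eval x * (if t ≤ x then (1 : ℝ) else 0)) =
      (Set.Ici t).indicator (fun x => q.eval x) := by
    funext x
    by_cases hx : t ≤ x
    · simp [hx]
    · simp [hx]
  rw [h2]
  exact (q.continuous.continuousOn.integrableOn_compact isCompact_Icc).indicator measurableSet_Ici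

/-- Krein's inequality for symmetric matrices. Let `λ_i(A)` be the eigenvalues
(`Matrix.IsHermitian.eigenvalues`), they are in `[-M, M]`, and `N_A(x) = #{i | λ_i(A) ≤ x}`.
(1) `|N_A(x) - N_B(x)| ≤ r`: let `V` be the span of the eigenvectors of `A` with eigenvalue `≤ x`, of
dimension `N_A(x)`; `V ⊓ ker (A - B)` has dimension `≥ N_A(x) - r`, and on it
`⟪B w, w⟫ = ⟪A w, w⟫ ≤ x ⟪w, w⟫`, so it meets the span of the eigenvectors of `B` with eigenvalue `> x`
only in `0`; hence `N_A(x) - r ≤ N_B(x)`. Exchange `A` and `B` for the other inequality.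
(2) With `q = Q.derivative`: `Q(λ) = Q(M) - ∫_{-M}^M q(x) 1_{λ ≤ x} dx` for `λ ∈ [-M, M]`, so
`trace (Q(A)) = Σ Q(λ_i(A)) = N Q(M) - ∫_{-M}^M q(x) N_A(x) dx`, and the difference is bounded by
`∫ |q| |N_A - N_B| ≤ r ∫ |q|`. -/
theorem trace_poly_sub_le {ι : Type} [Fintype ι] [DecidableEq ι] (A B : Matrix ι ι ℝ)
    (hA : A.IsHermitian) (hB : B.IsHermitian) (M : ℝ)
    (hAM : ∀ x : ι → ℝ, |dotProduct x (A.mulVec x)| ≤ M * dotProduct x x)
    (hBM : ∀ x : ι → ℝ, |dotProduct x (B.mulVec x)| ≤ M * dotProduct x x)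
    (r : ℕ) (hr : (A - B).rank ≤ r) (Q : ℝ[X]) :
    |(Polynomial.aeval A Q).trace - (Polynomial.aeval B Q).trace| ≤ r * nrm M Q.derivative := by
  obtain ⟨l, U, h1, h2, eA⟩ := Fin1_diag A hA
  obtain ⟨m, V, h1', h2', eB⟩ := Fin1_diag B hB
  have bA : ∀ i, |l i| ≤ M := Fin1_bd U l h1 h2 M (by rw [← eA]; exact hAM)
  have bB : ∀ i, |m i| ≤ M := Fin1_bd V m h1' h2' M (by rw [← eB]; exact hBM)
  have cA : ∀ x, (Finset.univ.filter (fun i => l i ≤ x)).card ≤
      (Finset.univ.filter (fun i => m i ≤ x)).card + r :=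
    Fin1_count A B U V l m h2 h2' eA eB r hr
  have hr' : (B - A).rank ≤ r := by
    have e : (B - A).mulVecLin = -(A - B).mulVecLin := by
      rw [← neg_sub A B]
      apply LinearMap.ext
      intro v
      simp
    rw [Matrix.rank, e, LinearMap.range_neg]
    exact hr
  have cB : ∀ x, (Finset.univ.filter (fun i => m i ≤ x)).card ≤
      (Finset.univ.filter (fun i => l i ≤ x)).card + r :=
    Fin1_count B A V U m l h2' h2 eB eA r hr'
  have tA : (Polynomial.aeval A Q).trace = ∑ i, Q.eval (l i) := by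
    rw [eA]; exact Fin1_trace U l h1 h2 Q
  have tB : (Polynomial.aeval B Q).trace = ∑ i, Q.eval (m i) := by
    rw [eB]; exact Fin1_trace V m h1' h2' Q
  have key : (Polynomial.aeval A Q).trace - (Polynomial.aeval B Q).trace =
      ∫ x in Set.Icc (-M) M, Q.derivative.eval x *
        (((Finset.univ.filter (fun i => m i ≤ x)).card : ℝ) -
          ((Finset.univ.filter (fun i => l i ≤ x)).card : ℝ)) := by
    have e : (fun x => Q.derivative.eval x *
        (((Finset.univ.filter (fun i => m i ≤ x)).card : ℝ) -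
          ((Finset.univ.filter (fun i => l i ≤ x)).card : ℝ))) =
        fun x => (∑ i, Q.derivative.eval x * (if m i ≤ x then (1 : ℝ) else 0)) -
          ∑ i, Q.derivative.eval x * (if l i ≤ x then (1 : ℝ) else 0) := by
      funext x
      rw [← Finset.mul_sum, ← Finset.mul_sum, Finset.sum_boole, Finset.sum_boole]
      ring
    rw [e, MeasureTheory.integral_sub, MeasureTheory.integral_finsetSum,
      MeasureTheory.integral_finsetSum, tA, tB]
    · have f1 : ∑ i, Q.eval (l i) = ∑ i, (Q.eval M - ∫ x in Set.Icc (-M) M,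
          Q.derivative.eval x * (if l i ≤ x then (1 : ℝ) else 0)) :=
        Finset.sum_congr rfl fun i _ => Fin1_layer Q M (l i) (bA i)
      have f2 : ∑ i, Q.eval (m i) = ∑ i, (Q.eval M - ∫ x in Set.Icc (-M) M,
          Q.derivative.eval x * (if m i ≤ x then (1 : ℝ) else 0)) :=
        Finset.sum_congr rfl fun i _ => Fin1_layer Q M (m i) (bB i)
      rw [f1, f2, Finset.sum_sub_distrib, Finset.sum_sub_distrib]
      ring
    · intro i _
      exact Fin1_int _ _ _
    · intro i _
      exact Fin1_int _ _ _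
    · exact MeasureTheory.integrable_finsetSum _ fun i _ => Fin1_int _ _ _
    · exact MeasureTheory.integrable_finsetSum _ fun i _ => Fin1_int _ _ _
  rw [key]
  rw [← Real.norm_eq_abs]
  refine le_trans (MeasureTheory.norm_integral_le_integral_norm _) ?_
  have hI := nrm_integrable M Q.derivative
  rw [nrm, ← MeasureTheory.integral_const_mul]
  refine MeasureTheory.integral_mono_of_nonneg ?_ (hI.const_mul _) ?_
  · exact Filter.Eventually.of_forall fun x => norm_nonneg _
  · refine Filter.Eventually.of_forall fun x => ?_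
    show ‖Q.derivative.eval x *
        (((Finset.univ.filter (fun i => m i ≤ x)).card : ℝ) -
          ((Finset.univ.filter (fun i => l i ≤ x)).card : ℝ))‖ ≤ (r : ℝ) * |Q.derivative.eval x|
    rw [Real.norm_eq_abs, abs_mul, mul_comm]
    refine mul_le_mul_of_nonneg_right ?_ (abs_nonneg _)
    have h1 : ((Finset.univ.filter (fun i => l i ≤ x)).card : ℝ) ≤
      ((Finset.univ.filter (fun i => m i ≤ x)).card : ℝ) + r := by exact_mod_cast cA x
    have h2 : ((Finset.univ.filter (fun i => m i ≤ x)).card : ℝ) ≤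
      ((Finset.univ.filter (fun i => l i ≤ x)).card : ℝ) + r := by exact_mod_cast cB x
    rw [abs_le]
    constructor <;> linarith

end Pool.Agent.Wb5ab1b
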