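import Pool.Agent.W_b5ab1b_h80.Defs

/-!
# Positivity of the diagonal entries (helper80)
-/

set_option autoImplicit false

noncomputable section

open scoped Polynomial

namespace Pool.Agent.Wb5ab1b

theorem Fin1b_aeval_diagonal {ι : Type} [Fintype ι] [DecidableEq ι] (d : ι → ℝ) (q : ℝ[X]) :
    Polynomial.aeval (Matrix.diagonal d) q = Matrix.diagonal (fun i => q.eval (d i)) := by
  have h1 : Polynomial.aeval (Matrix.diagonalAlgHom ℝ d) q =
      Matrix.diagonalAlgHom ℝ (Polynomial.aeval d q) :=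
    Polynomial.aeval_algHom_apply (Matrix.diagonalAlgHom ℝ) d q
  have h2 : Polynomial.aeval d q = fun i => q.eval (d i) := by
    funext i
    have h3 : Polynomial.aeval (Pi.evalAlgHom ℝ (fun _ : ι => ℝ) i d) q =
        Pi.evalAlgHom ℝ (fun _ : ι => ℝ) i (Polynomial.aeval d q) :=
      Polynomial.aeval_algHom_apply (Pi.evalAlgHom ℝ (fun _ : ι => ℝ) i) d q
    rw [Pi.evalAlgHom_apply, Pi.evalAlgHom_apply, Polynomial.coe_aeval_eq_eval] at h3
    exact h3.symm
  rw [h2] at h1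
  exact h1

theorem Fin1b_eig {ι : Type} [Fintype ι] [DecidableEq ι] (A : Matrix ι ι ℝ)
    (hA : A.IsHermitian) (M : ℝ)
    (hAM : ∀ x : ι → ℝ, |dotProduct x (A.mulVec x)| ≤ M * dotProduct x x) (i : ι) :
    hA.eigenvalues i ∈ Set.Icc (-M) M := by
  have h1 := hAM (⇑(hA.eigenvectorBasis i))
  rw [hA.mulVec_eigenvectorBasis, dotProduct_smul, smul_eq_mul] at h1
  have h2 : dotProduct (⇑(hA.eigenvectorBasis i) : ι → ℝ) (⇑(hA.eigenvectorBasis i)) = 1 := by
    have h3 := hA.eigenvectorBasis.orthonormal.1 i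
    have h4 := EuclideanSpace.real_norm_sq_eq (hA.eigenvectorBasis i)
    rw [h3] at h4
    unfold dotProduct
    rw [one_pow] at h4
    rw [h4]
    exact Finset.sum_congr rfl fun j _ => by ring
  rw [h2, mul_one, mul_one] at h1
  exact abs_le.1 h1

/-- Positivity: if `q ≥ 0` on `[-M, M]` then the diagonal entries of `q(A)` are `≥ 0`
(diagonalise `A`: the entry is `Σ_i q(λ_i) u_i(n)^2`). -/
theorem diag_poly_nonneg {ι : Type} [Fintype ι] [DecidableEq ι] (A : Matrix ι ι ℝ)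
    (hA : A.IsHermitian) (M : ℝ)
    (hAM : ∀ x : ι → ℝ, |dotProduct x (A.mulVec x)| ≤ M * dotProduct x x)
    (q : ℝ[X]) (hq : ∀ x ∈ Set.Icc (-M) M, 0 ≤ q.eval x) (n : ι) :
    0 ≤ (Polynomial.aeval A q) n n := by
  have h1 : Polynomial.aeval A q =
      Unitary.conjStarAlgAut ℝ _ hA.eigenvectorUnitary
        (Matrix.diagonal (fun i => q.eval (hA.eigenvalues i))) := by
    have h2 := Polynomial.aeval_algHom_apply
      ((Unitary.conjStarAlgAut ℝ (Matrix ι ι ℝ) hA.eigenvectorUnitary).toAlgEquiv.toAlgHom)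
      (Matrix.diagonal hA.eigenvalues) q
    rw [Fin1b_aeval_diagonal] at h2
    have h3 := hA.spectral_theorem
    conv_lhs => rw [h3]
    exact h2
  rw [h1, Unitary.conjStarAlgAut_apply, Matrix.mul_apply]
  refine Finset.sum_nonneg fun i _ => ?_
  rw [Matrix.mul_diagonal]
  have h4 : (star (hA.eigenvectorUnitary : Matrix ι ι ℝ)) i n =
      (hA.eigenvectorUnitary : Matrix ι ι ℝ) n i := rfl
  have h5 := hq _ (Fin1b_eig A hA M hAM i)
  have h6 : (hA.eigenvectorUnitary : Matrix ι ι ℝ) n i * q.eval (hA.eigenvalues i) *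
      (hA.eigenvectorUnitary : Matrix ι ι ℝ) n i =
      q.eval (hA.eigenvalues i) * ((hA.eigenvectorUnitary : Matrix ι ι ℝ) n i) ^ 2 := by ring
  exact le_of_le_of_eq (mul_nonneg h5 (sq_nonneg _)) h6.symm

end Pool.Agent.Wb5ab1b
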