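import Pool.Agent.W_b5ab1b_h80.Defs

/-!
# Truncation of Jacobi operators (helper80)
-/

set_option autoImplicit false

noncomputable section

open scoped Polynomial

namespace Pool.Agent.Wb5ab1b

/-- The finite symmetric Jacobi matrix on the sites `-L, ..., L`, with off-diagonal entries `√(b n)`. -/
def Tr (b v : ℤ → ℝ) (L : ℕ) : Matrix (Finset.Icc (-(L : ℤ)) L) (Finset.Icc (-(L : ℤ)) L) ℝ :=
  fun m n =>
    if (m : ℤ) = n then v m
    else if (n : ℤ) = m + 1 then Real.sqrt (b m)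
    else if (m : ℤ) = n + 1 then Real.sqrt (b n)
    else 0

/-- Symmetric. -/
theorem Tr_isHermitian (b v : ℤ → ℝ) (L : ℕ) : (Tr b v L).IsHermitian := by
  ext m n
  rw [Matrix.conjTranspose_apply, star_trivial]
  unfold Tr
  by_cases h1 : (m : ℤ) = n
  · have h2 : (n : ℤ) = m := h1.symm
    rw [if_pos h1, if_pos h2, h1]
  · have h2 : ¬ (n : ℤ) = m := fun h => h1 h.symm
    rw [if_neg h1, if_neg h2]
    by_cases h3 : (n : ℤ) = m + 1
    · have h4 : ¬ (m : ℤ) = n + 1 := by omega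
      rw [if_neg h4, if_pos h3, if_pos h3]
    · by_cases h4 : (m : ℤ) = n + 1
      · rw [if_pos h4, if_neg h3, if_pos h4]
      · rw [if_neg h4, if_neg h3, if_neg h3, if_neg h4]

theorem Fin2_ind (L : ℕ) (z : ℤ) (r : ℝ) (hr : 0 ≤ r) :
    ∑ n : Finset.Icc (-(L : ℤ)) L, (if (n : ℤ) = z then r else 0) ≤ r := by
  rw [Finset.sum_coe_sort (Finset.Icc (-(L : ℤ)) L) (fun n => if n = z then r else 0),
    Finset.sum_ite_eq']
  split_ifs
  · exact le_refl r
  · exact hr

theorem Fin2_row (b v : ℤ → ℝ) (L : ℕ) (a c : ℝ) (hc : 0 ≤ c)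
    (hv : ∀ m, |v m| ≤ a) (hbc : ∀ m, b m ≤ c ^ 2) (m : Finset.Icc (-(L : ℤ)) L) :
    ∑ n, |Tr b v L m n| ≤ a + 2 * c := by
  have ha : 0 ≤ a := le_trans (abs_nonneg _) (hv 0)
  have hs : ∀ k, Real.sqrt (b k) ≤ c := by
    intro k
    rw [← Real.sqrt_sq hc]
    exact Real.sqrt_le_sqrt (hbc k)
  have h1 : ∀ n, |Tr b v L m n| ≤ (if (n : ℤ) = m then a else 0) +
      (if (n : ℤ) = m + 1 then c else 0) + (if (n : ℤ) = m - 1 then c else 0) := by
    intro n
    unfold Tr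
    by_cases h1 : (m : ℤ) = n
    · have e1 : (n : ℤ) = m := h1.symm
      have e2 : ¬ (n : ℤ) = m + 1 := by omega
      have e3 : ¬ (n : ℤ) = m - 1 := by omega
      rw [if_pos h1, if_pos e1, if_neg e2, if_neg e3]
      linarith [hv m]
    · have e1 : ¬ (n : ℤ) = m := fun h => h1 h.symm
      by_cases h3 : (n : ℤ) = m + 1
      · have e3 : ¬ (n : ℤ) = m - 1 := by omega
        rw [if_neg h1, if_neg e1, if_pos h3, if_pos h3, if_neg e3,
          abs_of_nonneg (Real.sqrt_nonneg _)]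
        linarith [hs m]
      · by_cases h4 : (m : ℤ) = n + 1
        · have e3 : (n : ℤ) = m - 1 := by omega
          rw [if_neg h1, if_neg e1, if_neg h3, if_neg h3, if_pos h4, if_pos e3,
            abs_of_nonneg (Real.sqrt_nonneg _)]
          linarith [hs n]
        · have e3 : ¬ (n : ℤ) = m - 1 := by omega
          rw [if_neg h1, if_neg e1, if_neg h3, if_neg h3, if_neg h4, if_neg e3, abs_zero]
          norm_num
  refine (Finset.sum_le_sum fun n _ => h1 n).trans ?_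
  rw [Finset.sum_add_distrib, Finset.sum_add_distrib]
  have h2 := Fin2_ind L m a ha
  have h3 := Fin2_ind L (m + 1) c hc
  have h4 := Fin2_ind L (m - 1) c hc
  linarith

/-- Bound of the quadratic form: `|Σ v_m x_m^2 + 2 Σ √b_m x_m x_(m+1)| ≤ a Σ x^2 + c Σ (x_m^2 + x_(m+1)^2)`. -/
theorem Tr_bound (b v : ℤ → ℝ) (L : ℕ) (a c M : ℝ) (hb : ∀ m, 0 ≤ b m) (hc : 0 ≤ c)
    (hv : ∀ m, |v m| ≤ a) (hbc : ∀ m, b m ≤ c ^ 2) (hM : a + 2 * c ≤ M)
    (x : Finset.Icc (-(L : ℤ)) L → ℝ) :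
    |dotProduct x ((Tr b v L).mulVec x)| ≤ M * dotProduct x x := by
  have hsym : ∀ m n, Tr b v L m n = Tr b v L n m := by
    intro m n
    have h1 := congrFun (congrFun (Tr_isHermitian b v L) m) n
    rw [Matrix.conjTranspose_apply, star_trivial] at h1
    exact h1.symm
  have h1 : dotProduct x ((Tr b v L).mulVec x) = ∑ m, ∑ n, x m * Tr b v L m n * x n := by
    unfold dotProduct Matrix.mulVec dotProduct
    refine Finset.sum_congr rfl fun m _ => ?_
    rw [Finset.mul_sum]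
    exact Finset.sum_congr rfl fun n _ => (mul_assoc _ _ _).symm
  have h2 : ∀ m n, |x m * Tr b v L m n * x n| ≤
      |Tr b v L m n| * (x m ^ 2 / 2) + |Tr b v L n m| * (x n ^ 2 / 2) := by
    intro m n
    rw [hsym n m, ← mul_add, abs_mul, abs_mul]
    have h3 : |x m| * |x n| ≤ x m ^ 2 / 2 + x n ^ 2 / 2 := by
      have h4 := sq_nonneg (|x m| - |x n|)
      have h5 := sq_abs (x m)
      have h6 := sq_abs (x n)
      nlinarith
    calc |x m| * |Tr b v L m n| * |x n| = |Tr b v L m n| * (|x m| * |x n|) := by ring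
      _ ≤ _ := mul_le_mul_of_nonneg_left h3 (abs_nonneg _)
  have h3 : ∑ m, ∑ n, |Tr b v L m n| * (x m ^ 2 / 2) ≤ ∑ m, M * (x m ^ 2 / 2) := by
    refine Finset.sum_le_sum fun m _ => ?_
    rw [← Finset.sum_mul]
    refine mul_le_mul_of_nonneg_right ?_ (by positivity)
    exact (Fin2_row b v L a c hc hv hbc m).trans hM
  have h4 : ∑ m, ∑ n, |Tr b v L n m| * (x n ^ 2 / 2) =
      ∑ m, ∑ n, |Tr b v L m n| * (x m ^ 2 / 2) := Finset.sum_comm
  rw [h1]
  calc |∑ m, ∑ n, x m * Tr b v L m n * x n|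
      ≤ ∑ m, |∑ n, x m * Tr b v L m n * x n| := Finset.abs_sum_le_sum_abs _ _
    _ ≤ ∑ m, ∑ n, |x m * Tr b v L m n * x n| :=
        Finset.sum_le_sum fun m _ => Finset.abs_sum_le_sum_abs _ _
    _ ≤ ∑ m, ∑ n, (|Tr b v L m n| * (x m ^ 2 / 2) + |Tr b v L n m| * (x n ^ 2 / 2)) :=
        Finset.sum_le_sum fun m _ => Finset.sum_le_sum fun n _ => h2 m n
    _ = ∑ m, ∑ n, |Tr b v L m n| * (x m ^ 2 / 2) + ∑ m, ∑ n, |Tr b v L n m| * (x n ^ 2 / 2) := by
        rw [← Finset.sum_add_distrib]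
        exact Finset.sum_congr rfl fun m _ => Finset.sum_add_distrib
    _ ≤ ∑ m, M * (x m ^ 2 / 2) + ∑ m, M * (x m ^ 2 / 2) := by
        rw [h4]
        exact add_le_add h3 h3
    _ = M * dotProduct x x := by
        unfold dotProduct
        rw [← Finset.sum_add_distrib, Finset.mul_sum]
        exact Finset.sum_congr rfl fun m _ => by ring

end Pool.Agent.Wb5ab1b
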