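import Pool.Agent.W_b5ab1b_h80.Jac1
import Pool.Agent.W_b5ab1b_h80.Fin2
import Pool.Agent.W_b5ab1b_h80.Fin1b

/-!
# Truncation: powers and positivity (helper80)
-/

set_option autoImplicit false

noncomputable section

open scoped Polynomial

namespace Pool.Agent.Wb5ab1b

theorem Fin2b_single (L : ℕ) (z : ℤ) (hz : |z| ≤ L) (r : ℝ) :
    ∑ n : Finset.Icc (-(L : ℤ)) L, (if (n : ℤ) = z then r else 0) = r := by
  rw [Finset.sum_coe_sort (Finset.Icc (-(L : ℤ)) L) (fun n => if n = z then r else 0),
    Finset.sum_ite_eq', if_pos]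
  rw [Finset.mem_Icc]
  exact abs_le.1 hz

theorem Fin2b_pow (b v : ℤ → ℝ) (L j : ℕ) :
    ∀ m n : Finset.Icc (-(L : ℤ)) L, |(m : ℤ)| + j ≤ L →
      ((Tr b v L) ^ j) m n =
        pwg (fun l => Real.sqrt (b l)) (fun l => Real.sqrt (b l)) v j m n := by
  induction j with
  | zero =>
    intro m n _
    rw [pow_zero, pwg_zero, Matrix.one_apply]
    by_cases h : m = n
    · rw [if_pos h, if_pos (congrArg Subtype.val h)]
    · rw [if_neg h, if_neg (fun h' => h (Subtype.ext h'))]
  | succ j ih =>
    intro m n hm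
    have hmabs := abs_le.1 (le_refl |(m : ℤ)|)
    push_cast at hm
    have h1 : |(m : ℤ) + 1| + j ≤ L := by
      have := abs_add_le (m : ℤ) 1
      rw [abs_one] at this
      linarith
    have h2 : |(m : ℤ) - 1| + j ≤ L := by
      have := abs_sub (m : ℤ) 1
      rw [abs_one] at this
      linarith
    have h0 : |(m : ℤ)| + j ≤ L := by linarith
    have hj : (0 : ℤ) ≤ j := Int.natCast_nonneg j
    rw [pow_succ', Matrix.mul_apply, pwg_succ]
    have key : ∀ l : Finset.Icc (-(L : ℤ)) L, Tr b v L m l * ((Tr b v L) ^ j) l n =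
        (if (l : ℤ) = (m : ℤ) + 1 then Real.sqrt (b m) *
          pwg (fun l => Real.sqrt (b l)) (fun l => Real.sqrt (b l)) v j ((m : ℤ) + 1) n else 0) +
        (if (l : ℤ) = (m : ℤ) then v m *
          pwg (fun l => Real.sqrt (b l)) (fun l => Real.sqrt (b l)) v j (m : ℤ) n else 0) +
        (if (l : ℤ) = (m : ℤ) - 1 then Real.sqrt (b ((m : ℤ) - 1)) *
          pwg (fun l => Real.sqrt (b l)) (fun l => Real.sqrt (b l)) v j ((m : ℤ) - 1) n else 0) := by
      intro l
      unfold Tr
      by_cases e1 : (m : ℤ) = l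
      · have e1' : (l : ℤ) = m := e1.symm
        have e2 : ¬ (l : ℤ) = (m : ℤ) + 1 := by omega
        have e3 : ¬ (l : ℤ) = (m : ℤ) - 1 := by omega
        rw [if_pos e1, if_neg e2, if_pos e1', if_neg e3, zero_add, add_zero]
        have := ih l n (by rw [e1']; exact h0)
        unfold Tr at this
        rw [this, e1']
      · have e1' : ¬ (l : ℤ) = m := fun h => e1 h.symm
        by_cases e2 : (l : ℤ) = (m : ℤ) + 1
        · have e3 : ¬ (l : ℤ) = (m : ℤ) - 1 := by omega
          rw [if_neg e1, if_pos e2, if_pos e2, if_neg e1', if_neg e3, add_zero, add_zero]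
          have := ih l n (by rw [e2]; exact h1)
          unfold Tr at this
          rw [this, e2]
        · by_cases e3 : (m : ℤ) = (l : ℤ) + 1
          · have e3' : (l : ℤ) = (m : ℤ) - 1 := by omega
            rw [if_neg e1, if_neg e2, if_pos e3, if_neg e2, if_neg e1', if_pos e3', zero_add,
              zero_add]
            have := ih l n (by rw [e3']; exact h2)
            unfold Tr at this
            rw [this, e3']
          · have e3' : ¬ (l : ℤ) = (m : ℤ) - 1 := by omega
            rw [if_neg e1, if_neg e2, if_neg e3, if_neg e2, if_neg e1', if_neg e3', zero_mul]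
            norm_num
    rw [Finset.sum_congr rfl (fun l _ => key l), Finset.sum_add_distrib, Finset.sum_add_distrib,
      Fin2b_single L _ (by linarith), Fin2b_single L _ (by linarith),
      Fin2b_single L _ (by linarith)]

/-- The diagonal entries of the powers of the truncated matrix are those of the infinite operator, as
long as no path of length `j` from `m` leaves the window. Proof: by induction on `j`, for all `m', n'`
with `|m'| + j ≤ L`: the entry `(m', n')` of `(Tr b v L)^j` is
`pwg (√b) (√b) v j m' n'` (`pow_succ'`, the sum over the middle index has at most three terms,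
`pwg_succ`); then `gauge` with `α = β = √b` (`√b · √b = b`) on the diagonal. -/
theorem Tr_pow_diag (b v : ℤ → ℝ) (hb : ∀ m, 0 ≤ b m) (L j : ℕ)
    (m : Finset.Icc (-(L : ℤ)) L) (hm : |(m : ℤ)| + j ≤ L) :
    ((Tr b v L) ^ j) m m = pw b v j m m := by
  rw [Fin2b_pow b v L j m m hm]
  have h1 := (gauge (fun l => Real.sqrt (b l)) (fun l => Real.sqrt (b l)) v j m m le_rfl).1
  rw [Finset.Ico_self, Finset.prod_empty, one_mul] at h1
  rw [h1]
  congr 1
  funext l
  exact Real.mul_self_sqrt (hb l)

/-- Positivity of the diagonal entries. By translation invariance (`pwg` of the shifted sequences; or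
choose `L ≥ |n| + natDegree q`) and `Tr_pow_diag`, `ent_eq_sum`, the entry is the diagonal entry of
`q(Tr b v L)`; then `diag_poly_nonneg`. -/
theorem ent_nonneg (b v : ℤ → ℝ) (a c M : ℝ) (hb : ∀ m, 0 ≤ b m) (hc : 0 ≤ c)
    (hv : ∀ m, |v m| ≤ a) (hbc : ∀ m, b m ≤ c ^ 2) (hM : a + 2 * c ≤ M)
    (q : ℝ[X]) (hq : ∀ x ∈ Set.Icc (-M) M, 0 ≤ q.eval x) (n : ℤ) : 0 ≤ ent b v n n q := by
  set L : ℕ := n.natAbs + q.natDegree with hL
  have hLn : |n| ≤ (L : ℤ) := by
    rw [hL, Int.abs_eq_natAbs]
    push_cast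
    have : (0 : ℤ) ≤ q.natDegree := Int.natCast_nonneg _
    linarith
  have hmem : n ∈ Finset.Icc (-(L : ℤ)) L := by
    rw [Finset.mem_Icc]
    exact abs_le.1 hLn
  have h1 := diag_poly_nonneg (Tr b v L) (Tr_isHermitian b v L) M
    (fun x => Tr_bound b v L a c M hb hc hv hbc hM x) q hq ⟨n, hmem⟩
  have h2 : ent b v n n q = (Polynomial.aeval (Tr b v L) q) ⟨n, hmem⟩ ⟨n, hmem⟩ := by
    rw [ent_eq_sum, Polynomial.aeval_def, Polynomial.eval₂_eq_sum, Polynomial.sum, Polynomial.sum,
      Matrix.sum_apply]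
    refine Finset.sum_congr rfl fun j hj => ?_
    have hj' : j ≤ q.natDegree := Polynomial.le_natDegree_of_mem_supp j hj
    have h3 := Tr_pow_diag b v hb L j ⟨n, hmem⟩ (by
      show |n| + (j : ℤ) ≤ L
      rw [hL, Int.abs_eq_natAbs]
      push_cast
      have : (j : ℤ) ≤ q.natDegree := by exact_mod_cast hj'
      linarith)
    rw [Matrix.algebraMap_eq_diagonal, Matrix.diagonal_mul, h3]
    rfl
  rw [h2]
  exact h1

end Pool.Agent.Wb5ab1b
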