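import Pool.Agent.W_b5ab1b_h80.Fin1
import Pool.Agent.W_b5ab1b_h80.Fin2b

/-!
# The trace changes little when one site is changed (helper80)
-/

set_option autoImplicit false

noncomputable section

open scoped Polynomial

namespace Pool.Agent.Wb5ab1b

theorem Fin3_row {b v b' v' : ℤ → ℝ} {n : ℤ} (heq : ∀ m, m ≠ n → b' m = b m ∧ v' m = v m)
    (N : ℕ) (x y : Finset.Icc (-(N : ℤ)) N) (h1 : (x : ℤ) ≠ n) (h2 : (x : ℤ) ≠ n + 1) :
    Tr b' v' N x y = Tr b v N x y := by
  unfold Tr
  split_ifs with h3 h4 h5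
  · exact (heq _ h1).2
  · rw [(heq _ h1).1]
  · rw [(heq _ (show (y : ℤ) ≠ n by omega)).1]
  · rfl

theorem Fin3_off {b v b' v' : ℤ → ℝ} {n : ℤ} (heq : ∀ m, m ≠ n → b' m = b m ∧ v' m = v m)
    (N : ℕ) (x y : Finset.Icc (-(N : ℤ)) N) (h1 : (x : ℤ) ≠ n) (h2 : (y : ℤ) ≠ n) :
    Tr b' v' N x y = Tr b v N x y := by
  unfold Tr
  split_ifs with h3 h4 h5
  · exact (heq _ h1).2
  · rw [(heq _ h1).1]
  · rw [(heq _ h2).1]
  · rfl

theorem Fin3_far {b v : ℤ → ℝ} (N : ℕ) (x y : Finset.Icc (-(N : ℤ)) N)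
    (h : (x : ℤ) ≠ y ∧ (y : ℤ) ≠ x + 1 ∧ (x : ℤ) ≠ y + 1) : Tr b v N x y = 0 := by
  unfold Tr
  rw [if_neg h.1, if_neg h.2.1, if_neg h.2.2]

theorem Fin3_pow {b v b' v' : ℤ → ℝ} {n : ℤ} (heq : ∀ m, m ≠ n → b' m = b m ∧ v' m = v m)
    (N : ℕ) (j : ℕ) : ∀ (x y : Finset.Icc (-(N : ℤ)) N),
      ((x : ℤ) ≤ n - j ∨ n + j + 1 ≤ (x : ℤ)) →
      ((Tr b' v' N) ^ j) x y = ((Tr b v N) ^ j) x y := by
  induction j with
  | zero =>
    intro x y _
    rw [pow_zero, pow_zero]
  | succ j ih =>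
    intro x y hx
    push_cast at hx
    rw [pow_succ', pow_succ', Matrix.mul_apply, Matrix.mul_apply]
    refine Finset.sum_congr rfl fun k _ => ?_
    rw [Fin3_row heq N x k (by omega) (by omega)]
    by_cases hk : (x : ℤ) ≠ k ∧ (k : ℤ) ≠ x + 1 ∧ (x : ℤ) ≠ k + 1
    · rw [Fin3_far N x k hk, zero_mul, zero_mul]
    · rw [ih k y (by omega)]

theorem Fin3_aeval_apply {ι : Type} [Fintype ι] [DecidableEq ι] (A : Matrix ι ι ℝ) (Q : ℝ[X])
    (x y : ι) : (Polynomial.aeval A Q) x y = Q.sum fun j c => c * (A ^ j) x y := by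
  rw [Polynomial.aeval_eq_sum_range, Polynomial.sum_over_range _ (by intro j; simp),
    Matrix.sum_apply]
  refine Finset.sum_congr rfl fun j _ => ?_
  rw [Matrix.smul_apply, smul_eq_mul]

theorem Fin3_sum_congr (Q : ℝ[X]) {f g : ℕ → ℝ} (h : ∀ j ≤ Q.natDegree, f j = g j) :
    (Q.sum fun j c => c * f j) = Q.sum fun j c => c * g j := by
  rw [Polynomial.sum_over_range _ (by intro j; simp),
    Polynomial.sum_over_range _ (by intro j; simp)]
  refine Finset.sum_congr rfl fun j hj => ?_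
  rw [h j (by rw [Finset.mem_range] at hj; omega)]

theorem Fin3_rank {ι : Type} [Fintype ι] [DecidableEq ι] (D : Matrix ι ι ℝ) (z : ι)
    (h : ∀ x y, x ≠ z → y ≠ z → D x y = 0) : D.rank ≤ 2 := by
  have h1 : D = (Matrix.of fun (x : ι) (k : Fin 2) =>
      (![if x = z then (1 : ℝ) else 0, if x = z then (0 : ℝ) else D x z] : Fin 2 → ℝ) k) *
      (Matrix.of fun (k : Fin 2) (y : ι) =>
        (![D z y, if y = z then (1 : ℝ) else 0] : Fin 2 → ℝ) k) := by
    ext x y
    rw [Matrix.mul_apply, Fin.sum_univ_two]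
    simp only [Matrix.of_apply, Matrix.cons_val_zero, Matrix.cons_val_one]
    by_cases hx : x = z
    · subst hx
      simp
    · by_cases hy : y = z
      · subst hy
        simp [hx]
      · simp [hx, hy, h x y hx hy]
  rw [h1]
  refine (Matrix.rank_mul_le_left _ _).trans ?_
  exact (Matrix.rank_le_card_width _).trans (le_of_eq (Fintype.card_fin 2))

/-- Let `(b, v)` and `(b', v')` differ only at the site `n`. Choose `N ≥ |n| + L + natDegree Q + 2`. All the
diagonal entries of the powers `≤ natDegree Q` of the matrices `Tr b v N`, `Tr b' v' N` at sites `m` with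
`|m - n| > L` are equal: for `|m| + natDegree Q ≤ N` use `Tr_pow_diag` and `pwg_congr`; for the sites near
the boundary of the window prove directly the locality of the powers of `Tr` (an entry `(m, m')` of
`Tr^j` depends only on the rows at distance `≤ j` from `m`, induction on `j`), since these sites are at
distance `> natDegree Q` from `n`. (The locality lemma for `Tr` alone is enough for all `m`.) So the sum of
the statement is `trace (Q(Tr b' v' N)) - trace (Q(Tr b v N))`; the difference of the two matrices has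
only the entries `(n,n)`, `(n,n+1)`, `(n+1,n)`, so its rank is `≤ 2` (its range is in the span of two
basis vectors). Apply `trace_poly_sub_le`. -/
theorem window_bound (b v b' v' : ℤ → ℝ) (n : ℤ) (a c M : ℝ) (hc : 0 ≤ c)
    (hb : ∀ m, 0 ≤ b m) (hb' : ∀ m, 0 ≤ b' m) (hv : ∀ m, |v m| ≤ a) (hv' : ∀ m, |v' m| ≤ a)
    (hbc : ∀ m, b m ≤ c ^ 2) (hbc' : ∀ m, b' m ≤ c ^ 2) (hM : a + 2 * c ≤ M)
    (heq : ∀ m, m ≠ n → b' m = b m ∧ v' m = v m) (Q : ℝ[X]) (L : ℤ) (hL : (Q.natDegree : ℤ) ≤ L) :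
    |∑ m ∈ Finset.Icc (n - L) (n + L), (ent b' v' m m Q - ent b v m m Q)| ≤
      2 * nrm M Q.derivative := by
  classical
  set d := Q.natDegree with hd
  obtain ⟨N, hN⟩ : ∃ N : ℕ, |n| + L + d + 2 ≤ (N : ℤ) :=
    ⟨(|n| + L + d + 2).toNat, Int.self_le_toNat _⟩
  have hL0 : 0 ≤ L := by omega
  have habs := abs_nonneg n
  have hn1 := neg_abs_le n
  have hn2 := le_abs_self n
  set A := Tr b' v' N with hA
  set B := Tr b v N with hB
  have hfar : ∀ m : Finset.Icc (-(N : ℤ)) N, L < |(m : ℤ) - n| →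
      (Polynomial.aeval A Q) m m = (Polynomial.aeval B Q) m m := by
    intro m hm
    rw [Fin3_aeval_apply, Fin3_aeval_apply]
    refine Fin3_sum_congr Q fun j hj => ?_
    apply Fin3_pow heq
    rcases lt_abs.1 hm with h | h
    · right
      omega
    · left
      omega
  have hnear : ∀ (b v : ℤ → ℝ), (∀ m, 0 ≤ b m) → ∀ m : Finset.Icc (-(N : ℤ)) N,
      |(m : ℤ) - n| ≤ L → (Polynomial.aeval (Tr b v N) Q) m m = ent b v m m Q := by
    intro b v hb m hm
    rw [Fin3_aeval_apply, ent_eq_sum]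
    refine Fin3_sum_congr Q fun j hj => ?_
    apply Tr_pow_diag b v hb N j m
    have h1 : |(m : ℤ)| ≤ |(m : ℤ) - n| + |n| := by
      have := abs_add_le ((m : ℤ) - n) n
      rwa [sub_add_cancel] at this
    omega
  have htr : (Polynomial.aeval A Q).trace - (Polynomial.aeval B Q).trace =
      ∑ m ∈ Finset.Icc (n - L) (n + L), (ent b' v' m m Q - ent b v m m Q) := by
    set f : ℤ → ℝ := fun m => if |m - n| ≤ L then ent b' v' m m Q - ent b v m m Q else 0 with hf
    have h1 : (Polynomial.aeval A Q).trace - (Polynomial.aeval B Q).trace =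
        ∑ m : Finset.Icc (-(N : ℤ)) N, f m := by
      rw [Matrix.trace, Matrix.trace, ← Finset.sum_sub_distrib]
      refine Finset.sum_congr rfl fun m _ => ?_
      rw [Matrix.diag_apply, Matrix.diag_apply]
      simp only [hf]
      split_ifs with h
      · rw [hA, hB, hnear b' v' hb' m h, hnear b v hb m h]
      · rw [hfar m (not_le.1 h), sub_self]
    have h2 : ∑ m : Finset.Icc (-(N : ℤ)) N, f m = ∑ m ∈ Finset.Icc (-(N : ℤ)) N, f m :=
      Finset.sum_coe_sort (Finset.Icc (-(N : ℤ)) N) f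
    rw [h1, h2]
    have h3 : Finset.Icc (n - L) (n + L) ⊆ Finset.Icc (-(N : ℤ)) N := by
      intro m hm
      rw [Finset.mem_Icc] at hm ⊢
      omega
    rw [← Finset.sum_subset h3]
    · refine Finset.sum_congr rfl fun m hm => ?_
      rw [Finset.mem_Icc] at hm
      simp only [hf]
      rw [if_pos (by rw [abs_le]; omega)]
    · intro m _ hm
      rw [Finset.mem_Icc] at hm
      simp only [hf]
      rw [if_neg]
      intro h
      rw [abs_le] at h
      apply hm
      omega
  have hnW : n ∈ Finset.Icc (-(N : ℤ)) N := by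
    rw [Finset.mem_Icc]
    omega
  have hrank : (A - B).rank ≤ 2 := by
    apply Fin3_rank _ ⟨n, hnW⟩
    intro x y hx hy
    rw [Matrix.sub_apply, sub_eq_zero]
    apply Fin3_off heq
    · intro h
      exact hx (Subtype.ext h)
    · intro h
      exact hy (Subtype.ext h)
  rw [← htr]
  have := trace_poly_sub_le A B (Tr_isHermitian b' v' N) (Tr_isHermitian b v N) M
    (Tr_bound b' v' N a c M hb' hc hv' hbc' hM) (Tr_bound b v N a c M hb hc hv hbc hM) 2 hrank Q
  exact_mod_cast this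

end Pool.Agent.Wb5ab1b
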