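import Pool.Agent.W_b5ab1b_h80.Defs

/-!
# General torsion-free abelian groups; the wreath product is torsion-free (helper80)
-/

set_option autoImplicit false

noncomputable section

namespace Pool.Agent.Wb5ab1b

/-- The subgroup generated by the two supports is finitely generated and torsion-free, so it is
isomorphic to `ℤ^k` (`Module.finite`, `Module.Free` over the PID `ℤ`, `Module.finBasis`). -/
theorem exists_model (A : Type) [AddCommGroup A] [IsAddTorsionFree A] (u f : AddMonoidAlgebra ℝ A) :
    ∃ (k : ℕ) (φ : (Fin k → ℤ) →+ A) (u0 f0 : AddMonoidAlgebra ℝ (Fin k → ℤ)),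
      Function.Injective φ ∧ u = AddMonoidAlgebra.mapDomain φ u0 ∧
        f = AddMonoidAlgebra.mapDomain φ f0 := by
  classical
  obtain ⟨H, hH⟩ : ∃ H : Submodule ℤ A,
      H = Submodule.span ℤ ((u.coeff.support ∪ f.coeff.support : Finset A) : Set A) := ⟨_, rfl⟩
  have hfg : H.FG := by
    rw [hH]
    exact Submodule.fg_span (Finset.finite_toSet _)
  have : Module.Finite ℤ H := Module.Finite.iff_fg.2 hfg
  have : Module.Free ℤ H := inferInstance
  obtain ⟨b⟩ : Nonempty (Module.Basis (Fin (Module.finrank ℤ H)) ℤ H) :=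
    ⟨Module.finBasis ℤ H⟩
  obtain ⟨φ, hφ⟩ : ∃ φ : (Fin (Module.finrank ℤ H) → ℤ) →+ A,
      φ = (H.subtype ∘ₗ b.equivFun.symm.toLinearMap).toAddMonoidHom := ⟨_, rfl⟩
  have hinj : Function.Injective φ := by
    rw [hφ]
    exact H.injective_subtype.comp b.equivFun.symm.injective
  have hrange : ((u.coeff.support ∪ f.coeff.support : Finset A) : Set A) ⊆ Set.range φ := by
    intro a ha
    have haH : a ∈ H := by
      rw [hH]
      exact Submodule.subset_span ha
    refine ⟨b.equivFun ⟨a, haH⟩, ?_⟩
    rw [hφ]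
    simp
  refine ⟨_, φ, AddMonoidAlgebra.comapDomain φ hinj u, AddMonoidAlgebra.comapDomain φ hinj f,
    hinj, ?_, ?_⟩
  · rw [AddMonoidAlgebra.mapDomain_comapDomain]
    refine subset_trans ?_ hrange
    intro a ha
    simp only [Finset.coe_union, Set.mem_union]
    exact Or.inl ha
  · rw [AddMonoidAlgebra.mapDomain_comapDomain]
    refine subset_trans ?_ hrange
    intro a ha
    simp only [Finset.coe_union, Set.mem_union]
    exact Or.inr ha

/-- `A ≀ ℤ` is torsion-free. If `g = (x, t^r)`, `g^n = 1`, `n ≠ 0`, then `r = 0` and `n x = 0`. -/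
theorem torsionFree (A : Type) [AddCommGroup A] [IsAddTorsionFree A] (g : Wr A) (n : ℕ)
    (hn : n ≠ 0) (hg : g ^ n = 1) : g = 1 := by
  have hr : g.right = 1 := by
    have h1 : (g ^ n).right = g.right ^ n := map_pow SemidirectProduct.rightHom g n
    rw [hg, SemidirectProduct.one_right] at h1
    have h2 : Multiplicative.toAdd (g.right ^ n) = n • Multiplicative.toAdd g.right := rfl
    rw [← h1] at h2
    have h3 : n • Multiplicative.toAdd g.right = 0 := by
      rw [← h2]
      rfl
    have h4 : Multiplicative.toAdd g.right = 0 := by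
      rcases smul_eq_zero.1 h3 with h5 | h5
      · exact absurd h5 hn
      · exact h5
    exact h4
  obtain ⟨x, hx⟩ : ∃ x : Multiplicative (ℤ →₀ A), g = SemidirectProduct.inl x := by
    refine ⟨g.left, ?_⟩
    refine SemidirectProduct.ext ?_ ?_
    · rw [SemidirectProduct.left_inl]
    · rw [SemidirectProduct.right_inl, hr]
  rw [hx, ← map_pow] at hg
  have h1 : x ^ n = 1 := by
    apply SemidirectProduct.inl_injective (φ := shiftAut A)
    rw [hg, map_one]
  have h2 : n • Multiplicative.toAdd x = 0 := h1
  have h3 : Multiplicative.toAdd x = 0 := by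
    ext i
    have h4 : n • (Multiplicative.toAdd x) i = 0 := by
      have := congrArg (fun y : ℤ →₀ A => y i) h2
      simpa using this
    exact (nsmul_eq_zero_iff_right hn).1 h4
  rw [hx]
  have h5 : x = 1 := h3
  rw [h5, map_one]

end Pool.Agent.Wb5ab1b
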