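import Pool.Agent.W_b5ab1b_h80.Defs

/-!
# Functoriality and self-adjointness of Jacobi elements (helper80)
-/

set_option autoImplicit false

noncomputable section

namespace Pool.Agent.Wb5ab1b

lemma GenB_emb_single {A : Type} [AddCommGroup A] (a : A) (c : ℝ) :
    emb (AddMonoidAlgebra.single a c) = MonoidAlgebra.single (lamp a) c := by
  unfold emb
  rw [AddMonoidAlgebra.coeff_single, Finsupp.sum_single_index]
  ext
  simp

lemma GenB_emb_zero {A : Type} [AddCommGroup A] :
    emb (0 : AddMonoidAlgebra ℝ A) = 0 := by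
  unfold emb
  simp

lemma GenB_emb_add {A : Type} [AddCommGroup A] (u v : AddMonoidAlgebra ℝ A) :
    emb (u + v) = emb u + emb v := by
  classical
  unfold emb
  rw [AddMonoidAlgebra.coeff_add, Finsupp.sum_add_index']
  · intro a
    ext
    simp
  · intro a b c
    ext
    simp

lemma GenB_inv_single {A : Type} [AddCommGroup A] (a : A) (c : ℝ) :
    inv' (AddMonoidAlgebra.single a c) = AddMonoidAlgebra.single (-a) c := by
  unfold inv'
  rw [AddMonoidAlgebra.coeff_single, Finsupp.sum_single_index]
  ext
  simp

lemma GenB_inv_zero {A : Type} [AddCommGroup A] :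
    inv' (0 : AddMonoidAlgebra ℝ A) = 0 := by
  unfold inv'
  simp

lemma GenB_inv_add {A : Type} [AddCommGroup A] (u v : AddMonoidAlgebra ℝ A) :
    inv' (u + v) = inv' u + inv' v := by
  classical
  unfold inv'
  rw [AddMonoidAlgebra.coeff_add, Finsupp.sum_add_index']
  · intro a
    ext
    simp
  · intro a b c
    ext
    simp

lemma GenB_inv_inv {A : Type} [AddCommGroup A] (u : AddMonoidAlgebra ℝ A) :
    inv' (inv' u) = u := by
  induction u using AddMonoidAlgebra.induction_linear with
  | zero => rw [GenB_inv_zero, GenB_inv_zero]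
  | add u v hu hv => rw [GenB_inv_add, GenB_inv_add, hu, hv]
  | single a c => rw [GenB_inv_single, GenB_inv_single, neg_neg]

lemma GenB_inv_coeff {A : Type} [AddCommGroup A] (u : AddMonoidAlgebra ℝ A) (a : A) :
    (inv' u).coeff (-a) = u.coeff a := by
  classical
  induction u using AddMonoidAlgebra.induction_linear with
  | zero => rw [GenB_inv_zero]; simp
  | add u v hu hv => rw [GenB_inv_add]; simp [hu, hv]
  | single b c =>
    rw [GenB_inv_single, AddMonoidAlgebra.coeff_single, AddMonoidAlgebra.coeff_single,
      Finsupp.single_apply, Finsupp.single_apply]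
    simp

lemma GenB_inv_mapDomain {A B : Type} [AddCommGroup A] [AddCommGroup B] (φ : A →+ B)
    (u : AddMonoidAlgebra ℝ A) :
    inv' (AddMonoidAlgebra.mapDomain φ u) = AddMonoidAlgebra.mapDomain φ (inv' u) := by
  induction u using AddMonoidAlgebra.induction_linear with
  | zero => rw [GenB_inv_zero]; simp [GenB_inv_zero]
  | add u v hu hv =>
    rw [AddMonoidAlgebra.mapDomain_add, GenB_inv_add, GenB_inv_add, AddMonoidAlgebra.mapDomain_add,
      hu, hv]
  | single a c =>
    rw [AddMonoidAlgebra.mapDomain_single, GenB_inv_single, GenB_inv_single,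
      AddMonoidAlgebra.mapDomain_single, map_neg]

/-- The induced homomorphism of wreath products. -/
def GenB_wr {A B : Type} [AddCommGroup A] [AddCommGroup B] (φ : A →+ B) : Wr A →* Wr B :=
  SemidirectProduct.map
    (AddMonoidHom.toMultiplicative (Finsupp.mapRange.addMonoidHom φ : (ℤ →₀ A) →+ (ℤ →₀ B)))
    (MonoidHom.id _) (by
      intro n
      apply MonoidHom.ext
      intro x
      apply Multiplicative.toAdd.injective
      apply Finsupp.ext
      intro m
      rfl)

lemma GenB_wr_injective {A B : Type} [AddCommGroup A] [AddCommGroup B] (φ : A →+ B)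
    (hφ : Function.Injective φ) : Function.Injective (GenB_wr φ) := by
  intro x y h
  have h1 : (GenB_wr φ x).left = (GenB_wr φ y).left := by rw [h]
  have h2 : (GenB_wr φ x).right = (GenB_wr φ y).right := by rw [h]
  apply SemidirectProduct.ext
  · have h3 : Finsupp.mapRange φ φ.map_zero (Multiplicative.toAdd x.left) =
        Finsupp.mapRange φ φ.map_zero (Multiplicative.toAdd y.left) := h1
    exact Finsupp.mapRange_injective φ φ.map_zero hφ h3
  · exact h2

lemma GenB_wr_lamp {A B : Type} [AddCommGroup A] [AddCommGroup B] (φ : A →+ B) (a : A) :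
    GenB_wr φ (lamp a) = lamp (φ a) := by
  apply SemidirectProduct.ext
  · show Multiplicative.ofAdd (Finsupp.mapRange φ φ.map_zero (Finsupp.single 0 a)) =
      Multiplicative.ofAdd (Finsupp.single 0 (φ a))
    rw [Finsupp.mapRange_single]
  · rfl

lemma GenB_wr_tt {A B : Type} [AddCommGroup A] [AddCommGroup B] (φ : A →+ B) :
    GenB_wr φ (tt A) = tt B := by
  apply SemidirectProduct.ext
  · show Multiplicative.ofAdd (Finsupp.mapRange φ φ.map_zero 0) = 1
    rw [Finsupp.mapRange_zero]
    rfl
  · rfl

lemma GenB_emb_map {A B : Type} [AddCommGroup A] [AddCommGroup B] (φ : A →+ B)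
    (u : AddMonoidAlgebra ℝ A) :
    MonoidAlgebra.mapDomain (GenB_wr φ) (emb u) = emb (AddMonoidAlgebra.mapDomain φ u) := by
  induction u using AddMonoidAlgebra.induction_linear with
  | zero => rw [GenB_emb_zero]; simp [GenB_emb_zero]
  | add u v hu hv =>
    rw [AddMonoidAlgebra.mapDomain_add, GenB_emb_add, GenB_emb_add, MonoidAlgebra.mapDomain_add,
      hu, hv]
  | single a c =>
    rw [AddMonoidAlgebra.mapDomain_single, GenB_emb_single, GenB_emb_single,
      MonoidAlgebra.mapDomain_single, GenB_wr_lamp]

lemma GenB_jacobi_map {A B : Type} [AddCommGroup A] [AddCommGroup B] (φ : A →+ B)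
    (u f : AddMonoidAlgebra ℝ A) :
    MonoidAlgebra.mapDomain (GenB_wr φ) (jacobiElement u f) =
      jacobiElement (AddMonoidAlgebra.mapDomain φ u) (AddMonoidAlgebra.mapDomain φ f) := by
  unfold jacobiElement
  rw [MonoidAlgebra.mapDomain_add, MonoidAlgebra.mapDomain_add, MonoidAlgebra.mapDomain_mul,
    MonoidAlgebra.mapDomain_mul, GenB_emb_map, GenB_emb_map, GenB_emb_map,
    MonoidAlgebra.mapDomain_single, MonoidAlgebra.mapDomain_single, GenB_inv_mapDomain, map_inv,
    GenB_wr_tt]

/-- An injective homomorphism `A → B` induces an injective homomorphism `Wr A → Wr B` which carries the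
Jacobi elements to each other; so the coefficients of the powers at the identity are the same. -/
theorem moment_map {A B : Type} [AddCommGroup A] [AddCommGroup B] (φ : A →+ B)
    (hφ : Function.Injective φ) (u f : AddMonoidAlgebra ℝ A) (n : ℕ) :
    ((jacobiElement (AddMonoidAlgebra.mapDomain φ u) (AddMonoidAlgebra.mapDomain φ f)) ^ n).coeff 1 =
      ((jacobiElement u f) ^ n).coeff 1 := by
  rw [← GenB_jacobi_map]
  have h1 : MonoidAlgebra.mapDomain (GenB_wr φ) (jacobiElement u f) ^ n =
      MonoidAlgebra.mapDomain (GenB_wr φ) (jacobiElement u f ^ n) :=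
    (map_pow (MonoidAlgebra.mapDomainRingHom ℝ (GenB_wr φ)) (jacobiElement u f) n).symm
  rw [h1]
  have h2 : (1 : Wr B) = GenB_wr φ 1 := (map_one _).symm
  rw [h2]
  exact Finsupp.mapDomain_apply (GenB_wr_injective φ hφ) _ _

/-- The involution of a group ring. -/
def GenB_star {G : Type} [Group G] (x : MonoidAlgebra ℝ G) : MonoidAlgebra ℝ G :=
  MonoidAlgebra.mapDomain (fun g : G => g⁻¹) x

lemma GenB_star_coeff {G : Type} [Group G] (x : MonoidAlgebra ℝ G) (g : G) :
    (GenB_star x).coeff g⁻¹ = x.coeff g :=
  Finsupp.mapDomain_apply inv_injective _ _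

lemma GenB_star_mul {G : Type} [Group G] (x y : MonoidAlgebra ℝ G) :
    GenB_star (x * y) = GenB_star y * GenB_star x := by
  unfold GenB_star
  induction x using MonoidAlgebra.induction_linear with
  | zero => simp
  | add x x' hx hx' => rw [add_mul, MonoidAlgebra.mapDomain_add, hx, hx',
      MonoidAlgebra.mapDomain_add, mul_add]
  | single a c =>
    induction y using MonoidAlgebra.induction_linear with
    | zero => simp
    | add y y' hy hy' => rw [mul_add, MonoidAlgebra.mapDomain_add, hy, hy',
        MonoidAlgebra.mapDomain_add, add_mul]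
    | single b d =>
      rw [MonoidAlgebra.single_mul_single, MonoidAlgebra.mapDomain_single,
        MonoidAlgebra.mapDomain_single, MonoidAlgebra.mapDomain_single,
        MonoidAlgebra.single_mul_single, mul_inv_rev, mul_comm]

lemma GenB_star_single {G : Type} [Group G] (g : G) (c : ℝ) :
    GenB_star (MonoidAlgebra.single g c) = MonoidAlgebra.single g⁻¹ c := by
  unfold GenB_star
  rw [MonoidAlgebra.mapDomain_single]

lemma GenB_lamp_inv {A : Type} [AddCommGroup A] (a : A) : (lamp a)⁻¹ = lamp (-a) := by
  unfold lamp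
  rw [← map_inv, ← ofAdd_neg, Finsupp.single_neg]

lemma GenB_star_emb {A : Type} [AddCommGroup A] (u : AddMonoidAlgebra ℝ A) :
    GenB_star (emb u) = emb (inv' u) := by
  induction u using AddMonoidAlgebra.induction_linear with
  | zero => rw [GenB_emb_zero, GenB_inv_zero, GenB_emb_zero]; simp [GenB_star]
  | add u v hu hv =>
    rw [GenB_inv_add, GenB_emb_add, GenB_emb_add, ← hu, ← hv]
    unfold GenB_star
    rw [MonoidAlgebra.mapDomain_add]
  | single a c =>
    rw [GenB_inv_single, GenB_emb_single, GenB_emb_single, GenB_star_single, GenB_lamp_inv]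

/-- The Jacobi element is self-adjoint. (The involution `g ↦ g⁻¹` of the group ring is an
antiautomorphism; it exchanges the first two terms and fixes the third.) -/
theorem selfAdjoint {A : Type} [AddCommGroup A] (u f : AddMonoidAlgebra ℝ A)
    (hf : ∀ a, f.coeff (-a) = f.coeff a) (g : Wr A) :
    (jacobiElement u f).coeff g⁻¹ = (jacobiElement u f).coeff g := by
  have hf' : inv' f = f := by
    apply AddMonoidAlgebra.ext
    apply Finsupp.ext
    intro a
    have h1 := GenB_inv_coeff f (-a)
    rw [neg_neg] at h1
    rw [h1, hf]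
  have key : GenB_star (jacobiElement u f) = jacobiElement u f := by
    have hadd : ∀ x y : MonoidAlgebra ℝ (Wr A), GenB_star (x + y) = GenB_star x + GenB_star y :=
      fun x y => MonoidAlgebra.mapDomain_add _ _ _
    unfold jacobiElement
    rw [hadd, hadd, GenB_star_mul, GenB_star_mul, GenB_star_emb, GenB_star_emb, GenB_star_emb,
      GenB_star_single, GenB_star_single, GenB_inv_inv, inv_inv, hf', add_comm (_ * _) (_ * _)]
  conv_lhs => rw [← key]
  exact GenB_star_coeff _ _

end Pool.Agent.Wb5ab1b
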