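import Pool.Agent.W_b5ab1b_h80.GrpA

/-!
# Positivity and bounds of the coefficients (helper80)
-/

set_option autoImplicit false

noncomputable section

open scoped Polynomial

namespace Pool.Agent.Wb5ab1b

variable {k : ℕ}

theorem GrpB_inv_single (a : Fin k → ℤ) (c : ℝ) :
    inv' (AddMonoidAlgebra.single a c) = AddMonoidAlgebra.single (-a) c := by
  unfold inv'
  rw [AddMonoidAlgebra.coeff_single, Finsupp.sum_single_index (by simp)]

theorem GrpB_inv_zero : inv' (0 : AddMonoidAlgebra ℝ (Fin k → ℤ)) = 0 := by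
  unfold inv'
  simp

theorem GrpB_inv_add (u w : AddMonoidAlgebra ℝ (Fin k → ℤ)) :
    inv' (u + w) = inv' u + inv' w := by
  unfold inv'
  rw [AddMonoidAlgebra.coeff_add]
  exact Finsupp.sum_add_index' (fun η => by simp)
    (fun η x y => by rw [AddMonoidAlgebra.single_add])

theorem GrpB_inv_coeff (u : AddMonoidAlgebra ℝ (Fin k → ℤ)) (a : Fin k → ℤ) :
    (inv' u).coeff a = u.coeff (-a) := by
  induction u using AddMonoidAlgebra.induction_linear with
  | zero =>
    rw [GrpB_inv_zero]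
    rfl
  | add F1 F2 h1 h2 =>
    rw [GrpB_inv_add, AddMonoidAlgebra.coeff_add, AddMonoidAlgebra.coeff_add, Finsupp.add_apply,
      Finsupp.add_apply, h1, h2]
  | single b c =>
    classical
    rw [GrpB_inv_single, AddMonoidAlgebra.coeff_single, AddMonoidAlgebra.coeff_single,
      Finsupp.single_apply, Finsupp.single_apply]
    have h : (-b = a) ↔ (b = -a) := by
      constructor
      · rintro rfl
        rw [neg_neg]
      · rintro rfl
        rw [neg_neg]
    simp only [h]

theorem GrpB_cx_single (a : Fin k → ℤ) (c : ℝ) :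
    cx (AddMonoidAlgebra.single a c) = AddMonoidAlgebra.single a (c : ℂ) := by
  unfold cx
  simp

theorem GrpB_ev1_single (x : Fin k → ℝ) (a : Fin k → ℤ) (c : ℂ) :
    ev1 x (AddMonoidAlgebra.single a c) =
      c * Complex.exp (2 * Real.pi * Complex.I * ((∑ i, (a i : ℝ) * x i : ℝ))) := by
  unfold ev1
  rw [AddMonoidAlgebra.lift_single, smul_eq_mul]
  rfl

theorem GrpB_exp_norm (r : ℝ) : ‖Complex.exp (2 * Real.pi * Complex.I * (r : ℂ))‖ = 1 := by
  rw [show (2 * (Real.pi : ℂ) * Complex.I * (r : ℂ)) = ((2 * Real.pi * r : ℝ) : ℂ) * Complex.I by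
    push_cast
    ring]
  exact Complex.norm_exp_ofReal_mul_I _

theorem GrpB_bound (u : AddMonoidAlgebra ℝ (Fin k → ℤ)) :
    ∃ C : ℝ, 0 ≤ C ∧ ∀ x : Fin k → ℝ, ‖ev1 x (cx u)‖ ≤ C := by
  induction u using AddMonoidAlgebra.induction_linear with
  | zero =>
    refine ⟨0, le_rfl, fun x => ?_⟩
    rw [map_zero, map_zero, norm_zero]
  | add F1 F2 h1 h2 =>
    obtain ⟨C1, hC1, h1⟩ := h1
    obtain ⟨C2, hC2, h2⟩ := h2
    refine ⟨C1 + C2, add_nonneg hC1 hC2, fun x => ?_⟩
    rw [map_add, map_add]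
    exact (norm_add_le _ _).trans (add_le_add (h1 x) (h2 x))
  | single a c =>
    refine ⟨|c|, abs_nonneg c, fun x => ?_⟩
    rw [GrpB_cx_single, GrpB_ev1_single, norm_mul, GrpB_exp_norm, mul_one, Complex.norm_real,
      Real.norm_eq_abs]

/-- The evaluation of `cx (inv' u)` is the conjugate of the evaluation of `cx u`. -/
theorem ev1_inv (x : Fin k → ℝ) (u : AddMonoidAlgebra ℝ (Fin k → ℤ)) :
    ev1 x (cx (inv' u)) = (starRingEnd ℂ) (ev1 x (cx u)) := by
  induction u using AddMonoidAlgebra.induction_linear with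
  | zero => rw [GrpB_inv_zero, map_zero, map_zero, map_zero]
  | add F1 F2 h1 h2 => rw [GrpB_inv_add, map_add, map_add, h1, h2, map_add, map_add, map_add]
  | single a c =>
    rw [GrpB_inv_single, GrpB_cx_single, GrpB_cx_single, GrpB_ev1_single, GrpB_ev1_single,
      map_mul, ← Complex.exp_conj, Complex.conj_ofReal]
    congr 2
    have h : (∑ i, (((-a) i : ℤ) : ℝ) * x i) = -∑ i, (a i : ℝ) * x i := by
      rw [← Finset.sum_neg_distrib]
      refine Finset.sum_congr rfl fun i _ => ?_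
      rw [Pi.neg_apply]
      push_cast
      ring
    rw [h, map_mul, map_mul, map_mul, Complex.conj_I, Complex.conj_ofReal, Complex.conj_ofReal,
      Complex.conj_ofNat]
    push_cast
    ring

/-- `cx u * cx (inv' u)` is `|u|^2` on the torus, `cx f` is real there; bounds: `a`, `c` the sums of the
absolute values of the coefficients of `f`, `u`. -/
theorem exists_good (u f : AddMonoidAlgebra ℝ (Fin k → ℤ)) (hf : ∀ a, f.coeff (-a) = f.coeff a) :
    ∃ M : ℝ, Good k (cx u * cx (inv' u)) (cx f) M := by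
  obtain ⟨a, ha, hfa⟩ := GrpB_bound f
  obtain ⟨c, hc, huc⟩ := GrpB_bound u
  have hβ : ∀ x : Fin k → ℝ, ev1 x (cx u * cx (inv' u)) =
      ((‖ev1 x (cx u)‖ ^ 2 : ℝ) : ℂ) := by
    intro x
    rw [map_mul, ev1_inv, Complex.mul_conj, Complex.normSq_eq_norm_sq]
  have hff : inv' f = f := by
    apply AddMonoidAlgebra.ext
    ext b
    rw [GrpB_inv_coeff, hf]
  refine ⟨a + 2 * c, fun x => ⟨?_, ?_⟩, fun x => ?_, a, c, ha, hc, fun x => ?_, fun x => ?_,
    le_rfl⟩
  · rw [hβ]
    exact Complex.ofReal_im _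
  · rw [hβ, Complex.ofReal_re]
    positivity
  · have h := ev1_inv x f
    rw [hff] at h
    exact Complex.conj_eq_iff_im.1 h.symm
  · exact (Complex.abs_re_le_norm _).trans (hfa x)
  · rw [hβ, Complex.ofReal_re]
    exact pow_le_pow_left₀ (norm_nonneg _) (huc x) 2

end Pool.Agent.Wb5ab1b
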