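import Pool.Agent.W_b5ab1b_h80.MainT
import Pool.Agent.W_b5ab1b_h80.GrpB
import Pool.Agent.W_b5ab1b_h80.GenA
import Pool.Agent.W_b5ab1b_h80.GenB

/-!
# Jacobi elements of the group ring of A wr Z (helper80)
-/

set_option autoImplicit false

noncomputable section

open MeasureTheory

namespace Pool.Agent.Wb5ab1b

/-- Assembly (helper80). -/
theorem final (A : Type) [AddCommGroup A] [IsAddTorsionFree A] (u f : AddMonoidAlgebra ℝ A)
    (hf : ∀ a, f.coeff (-a) = f.coeff a) :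
    ∃ μ : Measure ℝ, IsSpectralMeasure (jacobiElement u f) μ ∧
      (∀ ν : Measure ℝ, IsSpectralMeasure (jacobiElement u f) ν → ν = μ) ∧
      ∃ F : Finset ℝ, (μ.restrict (F : Set ℝ)ᶜ).AbsolutelyContinuous volume := by
  obtain ⟨k, φ, u0, f0, hφ, rfl, rfl⟩ := exists_model A u f
  have hf0 : ∀ a, f0.coeff (-a) = f0.coeff a := by
    intro a
    have h1 := hf (φ a)
    rw [← map_neg] at h1
    have h2 : ∀ c, (AddMonoidAlgebra.mapDomain φ f0).coeff (φ c) = f0.coeff c := fun c => by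
      simp [AddMonoidAlgebra.mapDomain, Finsupp.mapDomain_apply hφ]
    rwa [h2, h2] at h1
  obtain ⟨M, hM⟩ := exists_good u0 f0 hf0
  obtain ⟨μ, hμ1, hμM, hμ, F, hF⟩ := main_torus hM
  have hmom : ∀ n : ℕ, ∫ x, x ^ n ∂μ = ((jacobiElement (AddMonoidAlgebra.mapDomain φ u0)
      (AddMonoidAlgebra.mapDomain φ f0)) ^ n).coeff 1 := by
    intro n
    rw [moment_map φ hφ]
    have h1 := hμ n
    rw [← moment] at h1
    exact_mod_cast h1
  refine ⟨μ, ⟨hμ1, ⟨M, hμM⟩, hmom⟩, ?_, F, hF⟩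
  intro ν ⟨hν1, ⟨M', hνM⟩, hν⟩
  have hsub : ∀ {a b : ℝ} {ρ : Measure ℝ}, a ≤ b → ρ (Set.Icc (-a) a)ᶜ = 0 →
      ρ (Set.Icc (-b) b)ᶜ = 0 := by
    intro a b ρ hab h0
    apply measure_mono_null _ h0
    apply Set.compl_subset_compl.mpr
    exact Set.Icc_subset_Icc (by linarith) hab
  exact moments_unique ν μ (max M M') (hsub (le_max_right _ _) hνM) (hsub (le_max_left _ _) hμM)
    fun n => (hν n).trans (hmom n).symm

end Pool.Agent.Wb5ab1b
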