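import Pool.Agent.W_b5ab1b_h80.GJoint
import Pool.Agent.W_b5ab1b_h80.AcA
import Pool.Agent.W_b5ab1b_h80.AcB
import Pool.Agent.W_b5ab1b_h80.AcC

/-!
# Elements of AC vanish on the singular part, general window (helper80)
-/

set_option autoImplicit false

noncomputable section

open scoped Polynomial
open Polynomial (X C)
open MeasureTheory

namespace Pool.Agent.Wb5ab1b

variable {k : ℕ}

theorem GAcC_emb (s : Finset (ℤ × Fin k)) (q : ℝ[X]) :
    embSX s (q.map (algebraMap ℝ (LauS s))) = toL q := by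
  unfold embSX toL
  rw [Polynomial.coe_mapRingHom, Polynomial.map_map]
  congr 1
  ext1 r
  show embS s (algebraMap ℝ (LauS s) r) = algebraMap ℝ (Lau k) r
  rw [IsScalarTower.algebraMap_apply ℝ ℂ (LauS s), IsScalarTower.algebraMap_apply ℝ ℂ (Lau k)]
  exact (embS s).commutes _

theorem GAcC_ev (s : Finset (ℤ × Fin k)) (z : UnitAddTorus s × ℝ) (q : ℝ[X]) :
    evG z (q.map (algebraMap ℝ (LauS s))) = ((q.eval z.2 : ℝ) : ℂ) := by
  unfold evG
  rw [Polynomial.coe_eval₂RingHom, Polynomial.eval₂_map]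
  have h : (evP z.1 : AddMonoidAlgebra ℂ (s → ℤ) →+* ℂ).comp
      (algebraMap ℝ (LauS s)) = algebraMap ℝ ℂ := by
    ext1 r
    show evP z.1 (algebraMap ℝ (LauS s) r) = algebraMap ℝ ℂ r
    rw [IsScalarTower.algebraMap_apply ℝ ℂ (LauS s)]
    exact (evP z.1).commutes _
  rw [h]
  exact Polynomial.eval₂_at_apply (algebraMap ℝ ℂ) z.2

/-- As `ae_zero_of_mem` in `AcC` (adapt its proof). -/
theorem ae_zero_of_mem_g {b v : Lau k} {M : ℝ} (s : Finset (ℤ × Fin k))
    (p : Measure (UnitAddTorus s × ℝ)) [IsProbabilityMeasure p]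
    (hM : p {z | z.2 ∉ Set.Icc (-M) M} = 0)
    (hp : ∀ G : (LauS s)[X], ∫ z, evG z G ∂p = E ((P (sq b) (sq v) 0).app (embSX s G)))
    (G : (LauS s)[X]) (hG : embSX s G • P (sq b) (sq v) 0 ∈ AC k M)
    (D : Set ℝ) (hD : IsCompact D) (hD0 : volume D = 0) :
    ∀ᵐ z ∂p, z.2 ∈ D → evG z G = 0 := by
  refine ae_zero_of_int p M hM D hD G fun H => ?_
  have h1 : embSX s H • (embSX s G • P (sq b) (sq v) 0) ∈ AC k M := Submodule.smul_mem _ _ hG
  obtain ⟨K, hK⟩ := h1 1
  obtain ⟨B, -, hB⟩ := AcB_bound M (H * G)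
  refine int_zero_of_bound p M hM (fun z => evG z (H * G)) (AcB_cont (H * G)).measurable B ?_ K ?_
    D hD hD0
  · have hM' : ∀ᵐ z ∂p, z.2 ∈ Set.Icc (-M) M := hM
    filter_upwards [hM'] with z hz using hB z hz
  · intro q
    have h2 : ∫ z, evG z (H * G) * ((q.eval z.2 : ℝ) : ℂ) ∂p =
        ∫ z, evG z (H * G * q.map (algebraMap ℝ (LauS s))) ∂p := by
      refine integral_congr_ae (Filter.Eventually.of_forall fun z => ?_)
      show evG z (H * G) * ((q.eval z.2 : ℝ) : ℂ) =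
        evG z (H * G * q.map (algebraMap ℝ (LauS s)))
      rw [map_mul (evG z) (H * G), GAcC_ev]
    have h3 := hK q
    rw [one_mul, Fn.app_smul, Fn.app_smul] at h3
    rw [h2, hp, map_mul, map_mul, GAcC_emb]
    have h4 : embSX s H * embSX s G * toL q = embSX s G * (embSX s H * toL q) := by ring
    rw [h4]
    exact h3

end Pool.Agent.Wb5ab1b
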