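import Pool.Agent.W_b5ab1b_h80.Defs

/-!
# Laurent polynomials: derivatives and evaluation (helper80)
-/

set_option autoImplicit false

noncomputable section

open scoped Polynomial

namespace Pool.Agent.Wb5ab1b

variable {k : ℕ}

theorem Lau1_der_zero (j : ℤ × Fin k) : der j (0 : Lau k) = 0 := by
  unfold der
  simp

theorem Lau1_dl_zero (i : Fin k) : dl i (0 : Loc k) = 0 := by
  unfold dl
  simp

theorem Lau1_ev_single (θ : ℤ × Fin k → ℝ) (η : (ℤ × Fin k) →₀ ℤ) (c : ℂ) :
    ev θ (AddMonoidAlgebra.single η c) =
      c * Complex.exp (2 * Real.pi * Complex.I * (η.sum fun j e => (e : ℝ) * θ j : ℝ)) := by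
  unfold ev
  rw [AddMonoidAlgebra.lift_single, smul_eq_mul]
  rfl

theorem der_single (j : ℤ × Fin k) (η : (ℤ × Fin k) →₀ ℤ) (c : ℂ) :
    der j (AddMonoidAlgebra.single η c) =
      AddMonoidAlgebra.single η (2 * Real.pi * Complex.I * (η j : ℂ) * c) := by
  unfold der
  rw [AddMonoidAlgebra.coeff_single, Finsupp.sum_single_index (by simp)]

theorem der_add (j : ℤ × Fin k) (F G : Lau k) : der j (F + G) = der j F + der j G := by
  unfold der
  rw [AddMonoidAlgebra.coeff_add]
  refine Finsupp.sum_add_index' (fun η => by simp) (fun η x y => ?_)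
  rw [mul_add, AddMonoidAlgebra.single_add]

/-- Leibniz rule; by bilinearity it is enough to check it on monomials. -/
theorem der_mul (j : ℤ × Fin k) (F G : Lau k) : der j (F * G) = F * der j G + G * der j F := by
  induction F using AddMonoidAlgebra.induction_linear with
  | zero => simp [Lau1_der_zero]
  | add F1 F2 h1 h2 =>
    rw [add_mul, der_add, h1, h2, der_add, mul_add]
    ring
  | single η c =>
    induction G using AddMonoidAlgebra.induction_linear with
    | zero => simp [Lau1_der_zero]
    | add G1 G2 h1 h2 =>
      rw [mul_add, der_add, h1, h2, der_add, add_mul]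
      ring
    | single ζ d =>
      rw [AddMonoidAlgebra.single_mul_single, der_single, der_single, der_single,
        AddMonoidAlgebra.single_mul_single, AddMonoidAlgebra.single_mul_single, add_comm ζ η,
        ← AddMonoidAlgebra.single_add]
      congr 1
      rw [Finsupp.add_apply]
      push_cast
      ring

/-- The mean value of a derivative is `0`: the coefficient at `0` is multiplied by `0`. -/
theorem E_der (j : ℤ × Fin k) (F : Lau k) : E (der j F) = 0 := by
  induction F using AddMonoidAlgebra.induction_linear with
  | zero => rw [Lau1_der_zero, E_zero]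
  | add F1 F2 h1 h2 => rw [der_add, E_add, h1, h2, add_zero]
  | single η c =>
    rw [der_single]
    unfold E
    rw [AddMonoidAlgebra.coeff_single]
    by_cases hη : η = 0
    · subst hη
      simp
    · rw [Finsupp.single_eq_of_ne (by simpa using Ne.symm hη)]

theorem dl_single (i : Fin k) (a : Fin k → ℤ) (c : ℂ) :
    dl i (AddMonoidAlgebra.single a c) =
      AddMonoidAlgebra.single a (2 * Real.pi * Complex.I * (a i : ℂ) * c) := by
  unfold dl
  rw [AddMonoidAlgebra.coeff_single, Finsupp.sum_single_index (by simp)]

theorem dl_add (i : Fin k) (F G : Loc k) : dl i (F + G) = dl i F + dl i G := by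
  unfold dl
  rw [AddMonoidAlgebra.coeff_add]
  refine Finsupp.sum_add_index' (fun η => by simp) (fun η x y => ?_)
  rw [mul_add, AddMonoidAlgebra.single_add]

theorem site_single (n : ℤ) (a : Fin k → ℤ) (c : ℂ) :
    site n (AddMonoidAlgebra.single a c) = AddMonoidAlgebra.single (siteHom n a) c := by
  unfold site
  simp

/-- The exponent of the variable `(m, i)` in `siteHom n a`. -/
theorem siteHom_apply (n m : ℤ) (a : Fin k → ℤ) (i : Fin k) :
    (siteHom n a) (m, i) = if m = n then a i else 0 := by
  unfold siteHom
  simp only [AddMonoidHom.coe_mk, ZeroHom.coe_mk, Finsupp.coe_finsetSum, Finset.sum_apply,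
    Finsupp.single_apply, Prod.mk.injEq]
  by_cases h : m = n
  · subst h
    simp
  · simp [h, Ne.symm h]

theorem der_site (n : ℤ) (i : Fin k) (F : Loc k) : der (n, i) (site n F) = site n (dl i F) := by
  induction F using AddMonoidAlgebra.induction_linear with
  | zero => rw [map_zero, Lau1_der_zero, Lau1_dl_zero, map_zero]
  | add F1 F2 h1 h2 => rw [map_add, der_add, h1, h2, dl_add, map_add]
  | single a c =>
    rw [site_single, der_single, dl_single, site_single, siteHom_apply, if_pos rfl]

theorem der_site_ne (n m : ℤ) (hm : m ≠ n) (i : Fin k) (F : Loc k) : der (n, i) (site m F) = 0 := by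
  induction F using AddMonoidAlgebra.induction_linear with
  | zero => rw [map_zero, Lau1_der_zero]
  | add F1 F2 h1 h2 => rw [map_add, der_add, h1, h2, add_zero]
  | single a c =>
    rw [site_single, der_single, siteHom_apply, if_neg (Ne.symm hm)]
    simp

/-- Evaluation of a site polynomial. -/
theorem ev_site (θ : ℤ × Fin k → ℝ) (n : ℤ) (F : Loc k) :
    ev θ (site n F) = ev1 (fun i => θ (n, i)) F := by
  induction F using AddMonoidAlgebra.induction_linear with
  | zero => rw [map_zero, map_zero, map_zero]
  | add F1 F2 h1 h2 => rw [map_add, map_add, h1, h2, map_add]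
  | single a c =>
    rw [site_single, Lau1_ev_single]
    unfold ev1
    rw [AddMonoidAlgebra.lift_single, smul_eq_mul]
    congr 1
    show _ = Complex.exp _
    congr 2
    rw [toAdd_ofAdd]
    congr 1
    unfold siteHom
    simp only [AddMonoidHom.coe_mk, ZeroHom.coe_mk]
    rw [← Finsupp.sum_finsetSum_index (by simp) (by intro j x y; push_cast; ring)]
    refine Finset.sum_congr rfl fun i _ => ?_
    rw [Finsupp.sum_single_index (by simp)]

theorem ev_single (θ : ℤ × Fin k → ℝ) (η : (ℤ × Fin k) →₀ ℤ) (c : ℂ) :
    ev θ (AddMonoidAlgebra.single η c) =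
      c * Complex.exp (2 * Real.pi * Complex.I * (η.sum fun j e => (e : ℝ) * θ j : ℝ)) := by
  exact Lau1_ev_single θ η c

end Pool.Agent.Wb5ab1b
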