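import Pool.Agent.W_b5ab1b_h80.Defs
import Pool.Agent.W_b5ab1b_h80.Lau1
import Pool.Agent.W_b5ab1b_h80.GenB

/-!
# Elements of t-degree at most one: definitions (helper80)
-/

set_option autoImplicit false

noncomputable section

open scoped Polynomial
open Polynomial (X C)

namespace Pool.Agent.Wb5ab1b

variable {k : ℕ}

/-- Shift of the exponents by `n` sites. -/
def shE (n : ℤ) : ((ℤ × Fin k) →₀ ℤ) ≃+ ((ℤ × Fin k) →₀ ℤ) :=
  Finsupp.domCongr ((Equiv.addLeft n).prodCongr (Equiv.refl (Fin k)))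

/-- Shift of Laurent polynomials by `n` sites: the variable at `(m, i)` becomes the one at
`(n + m, i)`. -/
def sh (n : ℤ) : Lau k →ₐ[ℂ] Lau k :=
  AddMonoidAlgebra.mapDomainAlgHom ℂ ℂ (shE n).toAddMonoidHom

/-- The stationary sequence with origin `F`. -/
def sq (F : Lau k) : ℤ → Lau k := fun n => sh n F

/-- `F` involves only the sites of `[-r, r]`. -/
def Within (r : ℕ) (F : Lau k) : Prop :=
  ∀ η ∈ F.coeff.support, ∀ p : ℤ × Fin k, (r : ℤ) < |p.1| → η p = 0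

/-- On the torus `b` is real and `≥ 0`, `v` is real, `|v| ≤ a`, `b ≤ c²` and `a + 2c ≤ M`. -/
def GGood (k : ℕ) (b v : Lau k) (M : ℝ) : Prop :=
  (∀ θ : ℤ × Fin k → ℝ, (ev θ b).im = 0 ∧ 0 ≤ (ev θ b).re) ∧
    (∀ θ : ℤ × Fin k → ℝ, (ev θ v).im = 0) ∧
      ∃ a c : ℝ, 0 ≤ a ∧ 0 ≤ c ∧ (∀ θ : ℤ × Fin k → ℝ, |(ev θ v).re| ≤ a) ∧
        (∀ θ : ℤ × Fin k → ℝ, (ev θ b).re ≤ c ^ 2) ∧ a + 2 * c ≤ M

/-- The derivative with respect to the variable `j` of the trace of a primitive. -/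
def DD (b v : Lau k) (r : ℕ) (j : ℤ × Fin k) : Fn (Lau k) :=
  ∑ n ∈ Finset.Icc (j.1 - r) (j.1 + r),
    (C (der j (sh n v)) • P (sq b) (sq v) n + C (der j (sh n b)) • S (sq b) (sq v) n)

/-- The character `η ↦ 2 ^ (η l) x^η`. -/
def scChr (l : ℤ × Fin k) : Multiplicative ((ℤ × Fin k) →₀ ℤ) →* Lau k where
  toFun η := AddMonoidAlgebra.single (Multiplicative.toAdd η) ((2 : ℂ) ^ ((Multiplicative.toAdd η) l))
  map_one' := by simp [AddMonoidAlgebra.one_def]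
  map_mul' a b := by
    rw [AddMonoidAlgebra.single_mul_single, toAdd_mul, Finsupp.add_apply,
      zpow_add₀ (by norm_num : (2 : ℂ) ≠ 0)]

/-- The substitution which multiplies the variable `l` by `2`. -/
def sc (l : ℤ × Fin k) : Lau k →ₐ[ℂ] Lau k := AddMonoidAlgebra.lift ℂ (Lau k) _ (scChr l)

/-- A field with a degree filtration (`L z m` : the degree of `z` is at most `m`), which contains the
Laurent polynomials in degree `0` and an element `x` of degree `1`, with extensions `τ` of the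
substitutions `sc`. -/
structure DegF (k : ℕ) (𝕂 : Type) [Field 𝕂] where
  ι : Lau k →+* 𝕂
  x : 𝕂
  L : 𝕂 → ℤ → Prop
  τ : ℤ × Fin k → 𝕂 →+* 𝕂
  L_zero : ∀ m, L 0 m
  L_add : ∀ z w m, L z m → L w m → L (z + w) m
  L_neg : ∀ z m, L z m → L (-z) m
  L_mono : ∀ z m n, m ≤ n → L z m → L z n
  L_smul : ∀ (F : Lau k) (z : 𝕂) (m : ℤ), F ≠ 0 → (L (ι F * z) m ↔ L z m)
  L_x : ∀ z m, L (x * z) (m + 1) ↔ L z m
  L_ex : ∀ z, ∃ m, L z m
  L_sep : ∀ z, z ≠ 0 → ∃ m, ¬ L z m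
  τ_ι : ∀ l F, τ l (ι F) = ι (sc l F)
  τ_x : ∀ l, τ l x = x
  τ_L : ∀ l z m, L (τ l z) m ↔ L z m
  τ_fin : ∀ z, {l | τ l z ≠ z}.Finite

/-- Two sequences satisfy the relations between the diagonal and the off-diagonal entries. -/
def Sol {𝕂 : Type} [Field 𝕂] (d : DegF k 𝕂) (b v : Lau k) (P S : ℤ → 𝕂) : Prop :=
  (∀ n, (d.x - d.ι (sh n v)) * P n = d.ι (sh n b) * S n + d.ι (sh (n - 1) b) * S (n - 1)) ∧
    ∀ n, d.ι (sh n b) * P (n + 1) - d.ι (sh (n - 1) b) * P (n - 1) =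
      (d.x - d.ι (sh n v)) * (d.ι (sh n b) * S n - d.ι (sh (n - 1) b) * S (n - 1))

/-- The averaged relations. -/
def Rel3 {𝕂 : Type} [Field 𝕂] (d : DegF k 𝕂) (b v : Lau k) (r : ℕ) (P S : ℤ → 𝕂) : Prop :=
  ∀ j : ℤ × Fin k, ∑ n ∈ Finset.Icc (j.1 - r) (j.1 + r),
    (d.ι (der j (sh n v)) * P n + d.ι (der j (sh n b)) * S n) = 0

/-- Laurent polynomials in the variables of the finite set `s`. -/
abbrev LauS (s : Finset (ℤ × Fin k)) : Type := AddMonoidAlgebra ℂ (s → ℤ)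

/-- Extension of exponents by zero. -/
def homS (s : Finset (ℤ × Fin k)) : (s → ℤ) →+ ((ℤ × Fin k) →₀ ℤ) where
  toFun a := ∑ p : s, Finsupp.single (p : ℤ × Fin k) (a p)
  map_zero' := by simp
  map_add' a b := by simp [Finsupp.single_add, Finset.sum_add_distrib]

/-- The inclusion of the Laurent polynomials in the variables of `s`. -/
def embS (s : Finset (ℤ × Fin k)) : LauS s →ₐ[ℂ] Lau k :=
  AddMonoidAlgebra.mapDomainAlgHom ℂ ℂ (homS s)

/-- The inclusion, on polynomials. -/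
def embSX (s : Finset (ℤ × Fin k)) : (LauS s)[X] →+* (Lau k)[X] :=
  Polynomial.mapRingHom (embS s : LauS s →+* Lau k)

/-- The point of the torus over `s` with the given real coordinates. -/
def projS (s : Finset (ℤ × Fin k)) (θ : ℤ × Fin k → ℝ) : UnitAddTorus s :=
  fun p => ((θ (p : ℤ × Fin k) : ℝ) : UnitAddCircle)

/-- The shift on polynomials. -/
def shX (n : ℤ) : (Lau k)[X] →+* (Lau k)[X] :=
  Polynomial.mapRingHom (sh (k := k) n : Lau k →+* Lau k)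

/-! ## The group ring -/

/-- The group ring of the lamp group `⊕_ℤ A` in the group ring of `A ≀ ℤ`. -/
def embL {A : Type} [AddCommGroup A] (u : AddMonoidAlgebra ℝ (ℤ →₀ A)) : MonoidAlgebra ℝ (Wr A) :=
  u.coeff.sum fun a c => MonoidAlgebra.single (SemidirectProduct.inl (Multiplicative.ofAdd a)) c

/-- The element `c₁ t + t⁻¹ c₁* + c₀`. -/
def firstOrder {A : Type} [AddCommGroup A] (c1 c0 : AddMonoidAlgebra ℝ (ℤ →₀ A)) :
    MonoidAlgebra ℝ (Wr A) :=
  embL c1 * MonoidAlgebra.single (tt A) 1 + MonoidAlgebra.single (tt A)⁻¹ 1 * embL (inv' c1) +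
    embL c0

end Pool.Agent.Wb5ab1b
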