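import Pool.Agent.W_b5ab1b_h80.GSh

/-!
# The field of rational functions and its degree (helper80; proof helper23)
-/

set_option autoImplicit false

noncomputable section

open scoped Polynomial
open Polynomial (X C)

namespace Pool.Agent.Wb5ab1b

instance GField_dom (k : ℕ) : IsDomain (Lau k) := inferInstance

/-- the field of fractions of the Laurent polynomials -/
abbrev GField_K (k : ℕ) : Type := FractionRing (Lau k)

/-- the field of rational functions -/
abbrev GField_R (k : ℕ) : Type := RatFunc (GField_K k)

theorem GField_sc_inj {k : ℕ} (l : ℤ × Fin k) : Function.Injective (sc (k := k) l) := by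
  rw [injective_iff_map_eq_zero]
  intro F hF
  by_contra hne
  exact sc_ne_zero l hne hF

/-- the substitution on the field of fractions -/
def GField_sig {k : ℕ} (l : ℤ × Fin k) : GField_K k →+* GField_K k :=
  IsFractionRing.map (A := Lau k) (B := Lau k) (j := (sc l : Lau k →+* Lau k)) (GField_sc_inj l)

theorem GField_sig_alg {k : ℕ} (l : ℤ × Fin k) (F : Lau k) :
    GField_sig l (algebraMap (Lau k) (GField_K k) F) = algebraMap (Lau k) (GField_K k) (sc l F) :=
  IsLocalization.map_eq (M := nonZeroDivisors (Lau k)) (T := nonZeroDivisors (Lau k))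
    (nonZeroDivisors_le_comap_nonZeroDivisors_of_injective _ (GField_sc_inj l)) F

theorem GField_inj {k : ℕ} (l : ℤ × Fin k) :
    Function.Injective (Polynomial.mapRingHom (GField_sig l)) :=
  Polynomial.map_injective _ (GField_sig l).injective

/-- the substitution on the field of rational functions -/
def GField_tau {k : ℕ} (l : ℤ × Fin k) : GField_R k →+* GField_R k :=
  RatFunc.mapRingHom (Polynomial.mapRingHom (GField_sig l))
    (nonZeroDivisors_le_comap_nonZeroDivisors_of_injective _ (GField_inj l))

theorem GField_tau_div {k : ℕ} (l : ℤ × Fin k) (p q : (GField_K k)[X]) :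
    GField_tau l (algebraMap _ (GField_R k) p / algebraMap _ (GField_R k) q) =
      algebraMap _ (GField_R k) (p.map (GField_sig l)) /
        algebraMap _ (GField_R k) (q.map (GField_sig l)) := by
  unfold GField_tau
  rw [RatFunc.coe_mapRingHom_eq_coe_map, RatFunc.map_apply_div]
  rfl

theorem GField_tau_alg {k : ℕ} (l : ℤ × Fin k) (p : (GField_K k)[X]) :
    GField_tau l (algebraMap _ (GField_R k) p) =
      algebraMap _ (GField_R k) (p.map (GField_sig l)) := by
  have := GField_tau_div l p 1
  simpa using this

/-- the embedding of the Laurent polynomials -/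
def GField_iota (k : ℕ) : Lau k →+* GField_R k :=
  (RatFunc.C (K := GField_K k)).comp (algebraMap (Lau k) (GField_K k))

theorem GField_tau_C {k : ℕ} (l : ℤ × Fin k) (a : GField_K k) :
    GField_tau l (RatFunc.C a) = RatFunc.C (GField_sig l a) := by
  rw [← RatFunc.algebraMap_C, GField_tau_alg, Polynomial.map_C, RatFunc.algebraMap_C]

theorem GField_tau_iota {k : ℕ} (l : ℤ × Fin k) (F : Lau k) :
    GField_tau l (GField_iota k F) = GField_iota k (sc l F) := by
  unfold GField_iota
  rw [RingHom.comp_apply, RingHom.comp_apply, GField_tau_C, GField_sig_alg]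

theorem GField_tau_X {k : ℕ} (l : ℤ × Fin k) : GField_tau l (RatFunc.X (K := GField_K k)) = RatFunc.X := by
  rw [← RatFunc.algebraMap_X, GField_tau_alg, Polynomial.map_X]

theorem GField_tau_deg {k : ℕ} (l : ℤ × Fin k) (z : GField_R k) :
    (GField_tau l z).intDegree = z.intDegree := by
  by_cases hz : z = 0
  · rw [hz, map_zero]
  have hn : z.num ≠ 0 := RatFunc.num_ne_zero hz
  have hd : z.denom ≠ 0 := z.denom_ne_zero
  have hinj := GField_inj l
  have hn' : z.num.map (GField_sig l) ≠ 0 := by
    intro h
    exact hn (hinj (by simpa using h))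
  have hd' : z.denom.map (GField_sig l) ≠ 0 := by
    intro h
    exact hd (hinj (by simpa using h))
  have key : ∀ p : (GField_K k)[X], p ≠ 0 → algebraMap _ (GField_R k) p ≠ 0 := by
    intro p hp h
    exact hp (RatFunc.algebraMap_injective _ (by simpa using h))
  conv_lhs => rw [← RatFunc.num_div_denom z]
  conv_rhs => rw [← RatFunc.num_div_denom z]
  rw [GField_tau_div, RatFunc.intDegree_div (key _ hn') (key _ hd'),
    RatFunc.intDegree_div (key _ hn) (key _ hd), RatFunc.intDegree_polynomial,
    RatFunc.intDegree_polynomial, RatFunc.intDegree_polynomial, RatFunc.intDegree_polynomial,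
    Polynomial.natDegree_map, Polynomial.natDegree_map]

/-- elements moved by finitely many substitutions -/
def GField_fin (k : ℕ) (z : GField_R k) : Prop := {l | GField_tau l z ≠ z}.Finite

theorem GField_fin_add {k : ℕ} {z w : GField_R k} (hz : GField_fin k z) (hw : GField_fin k w) :
    GField_fin k (z + w) := by
  refine (hz.union hw).subset fun l hl => ?_
  by_contra hcon
  simp only [Set.mem_union, Set.mem_ofPred_eq, not_or, not_not] at hcon
  exact hl (by rw [map_add, hcon.1, hcon.2])

theorem GField_fin_mul {k : ℕ} {z w : GField_R k} (hz : GField_fin k z) (hw : GField_fin k w) :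
    GField_fin k (z * w) := by
  refine (hz.union hw).subset fun l hl => ?_
  by_contra hcon
  simp only [Set.mem_union, Set.mem_ofPred_eq, not_or, not_not] at hcon
  exact hl (by rw [map_mul, hcon.1, hcon.2])

theorem GField_fin_div {k : ℕ} {z w : GField_R k} (hz : GField_fin k z) (hw : GField_fin k w) :
    GField_fin k (z / w) := by
  refine (hz.union hw).subset fun l hl => ?_
  by_contra hcon
  simp only [Set.mem_union, Set.mem_ofPred_eq, not_or, not_not] at hcon
  exact hl (by rw [map_div₀, hcon.1, hcon.2])

theorem GField_fin_iota {k : ℕ} (F : Lau k) : GField_fin k (GField_iota k F) := by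
  refine (der_finite F).subset fun l hl h0 => hl ?_
  rw [GField_tau_iota, (sc_eq_iff l F).2 h0]

theorem GField_fin_C {k : ℕ} (a : GField_K k) : GField_fin k (RatFunc.C a) := by
  obtain ⟨F, G, -, rfl⟩ := IsFractionRing.div_surjective (A := Lau k) a
  rw [map_div₀]
  exact GField_fin_div (GField_fin_iota F) (GField_fin_iota G)

theorem GField_fin_X {k : ℕ} : GField_fin k (RatFunc.X (K := GField_K k)) := by
  have : {l : ℤ × Fin k | GField_tau l (RatFunc.X (K := GField_K k)) ≠ RatFunc.X} = ∅ := by
    ext l
    simp [GField_tau_X]
  unfold GField_fin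
  rw [this]
  exact Set.finite_empty

theorem GField_fin_poly {k : ℕ} (p : (GField_K k)[X]) :
    GField_fin k (algebraMap _ (GField_R k) p) := by
  induction p using Polynomial.induction_on with
  | C a => rw [RatFunc.algebraMap_C]; exact GField_fin_C a
  | add p q hp hq => rw [map_add]; exact GField_fin_add hp hq
  | monomial n a h =>
    rw [pow_succ, ← mul_assoc, map_mul, RatFunc.algebraMap_X]
    exact GField_fin_mul h GField_fin_X

theorem GField_fin_all {k : ℕ} (z : GField_R k) : GField_fin k z := by
  rw [← RatFunc.num_div_denom z]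
  exact GField_fin_div (GField_fin_poly _) (GField_fin_poly _)

/-- Take `𝕂 = RatFunc (FractionRing (Lau k))`, `ι` the composition of the two canonical maps, `x = RatFunc.X`,
`L z m : z = 0 ∨ z.intDegree ≤ m`, `τ l` the map induced by `sc l` (injective by `sc_ne_zero`) on the
fraction field (`IsFractionRing.map` or `IsLocalization.map`) and then on `RatFunc` (`RatFunc.mapRingHom`
or `RatFunc.map`). `τ_fin`: every element of the field is a quotient of two polynomials over `Lau k`, and
only finitely many variables occur in their coefficients (`der_finite`, `sc_eq_iff`). -/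
theorem exists_degF (k : ℕ) :
    ∃ (𝕂 : Type) (_ : Field 𝕂) (d : DegF k 𝕂),
      Function.Injective (Polynomial.eval₂RingHom d.ι d.x) := by
  have hι0 : ∀ F : Lau k, F ≠ 0 → GField_iota k F ≠ 0 := by
    intro F hF h
    apply hF
    have h1 : RatFunc.C (algebraMap (Lau k) (GField_K k) F) = (0 : GField_R k) := h
    rw [map_eq_zero] at h1
    exact (IsFractionRing.injective (Lau k) (GField_K k)) (by rw [h1, map_zero])
  have hιd : ∀ F : Lau k, (GField_iota k F).intDegree = 0 := fun F => RatFunc.intDegree_C _
  refine ⟨GField_R k, inferInstance,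
    { ι := GField_iota k
      x := RatFunc.X
      L := fun z m => z = 0 ∨ z.intDegree ≤ m
      τ := GField_tau
      L_zero := fun m => Or.inl rfl
      L_add := ?_
      L_neg := ?_
      L_mono := ?_
      L_smul := ?_
      L_x := ?_
      L_ex := fun z => ⟨z.intDegree, Or.inr le_rfl⟩
      L_sep := ?_
      τ_ι := GField_tau_iota
      τ_x := GField_tau_X
      τ_L := ?_
      τ_fin := GField_fin_all }, ?_⟩
  · intro z w m hz hw
    by_cases hz0 : z = 0
    · rw [hz0, zero_add]; exact hw
    by_cases hw0 : w = 0
    · rw [hw0, add_zero]; exact hz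
    by_cases hzw : z + w = 0
    · exact Or.inl hzw
    · exact Or.inr ((RatFunc.intDegree_add_le hw0 hzw).trans
        (max_le (hz.resolve_left hz0) (hw.resolve_left hw0)))
  · intro z m hz
    rcases hz with hz | hz
    · left; rw [hz, neg_zero]
    · right; rw [RatFunc.intDegree_neg]; exact hz
  · intro z m n hmn hz
    rcases hz with hz | hz
    · exact Or.inl hz
    · exact Or.inr (hz.trans hmn)
  · intro F z m hF
    by_cases hz : z = 0
    · simp [hz]
    · have h1 : GField_iota k F * z ≠ 0 := mul_ne_zero (hι0 F hF) hz
      rw [RatFunc.intDegree_mul (hι0 F hF) hz, hιd, zero_add]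
      simp only [h1, hz]
  · intro z m
    by_cases hz : z = 0
    · simp [hz]
    · have h1 : RatFunc.X * z ≠ 0 := mul_ne_zero RatFunc.X_ne_zero hz
      rw [RatFunc.intDegree_mul RatFunc.X_ne_zero hz, RatFunc.intDegree_X]
      simp only [h1, hz, false_or]
      omega
  · intro z hz
    refine ⟨z.intDegree - 1, ?_⟩
    simp only [hz, false_or]
    omega
  · intro l z m
    rw [GField_tau_deg, map_eq_zero]
  · have h : ∀ p : (Lau k)[X], Polynomial.eval₂RingHom (GField_iota k) RatFunc.X p =
        algebraMap _ (GField_R k) (p.map (algebraMap (Lau k) (GField_K k))) := by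
      intro p
      induction p using Polynomial.induction_on with
      | C a =>
        rw [Polynomial.map_C, RatFunc.algebraMap_C, Polynomial.coe_eval₂RingHom,
          Polynomial.eval₂_C]
        rfl
      | add p q hp hq => rw [map_add, hp, hq, Polynomial.map_add, map_add]
      | monomial n a h =>
        have e : (C a * X ^ n * X : (Lau k)[X]).map (algebraMap (Lau k) (GField_K k)) =
            (C a * X ^ n : (Lau k)[X]).map (algebraMap (Lau k) (GField_K k)) * X := by
          rw [Polynomial.map_mul, Polynomial.map_X]
        rw [pow_succ, ← mul_assoc, map_mul, h, e, map_mul,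
          RatFunc.algebraMap_X, Polynomial.coe_eval₂RingHom, Polynomial.eval₂_X]
    intro p q hpq
    have h1 := (h p).symm.trans (hpq.trans (h q))
    exact Polynomial.map_injective _ (IsFractionRing.injective (Lau k) (GField_K k))
      (RatFunc.algebraMap_injective _ h1)

end Pool.Agent.Wb5ab1b
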