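import Pool.Agent.W_b5ab1b_h80.Fin3

/-!
# The trace changes little when finitely many sites are changed (helper80)
-/

set_option autoImplicit false

noncomputable section

open scoped Polynomial
open Polynomial (X C)

namespace Pool.Agent.Wb5ab1b

theorem GFin_row {b v b' v' : ℤ → ℝ} {n : ℤ} {r : ℕ}
    (heq : ∀ m, m ∉ Finset.Icc (n - r) (n + r) → b' m = b m ∧ v' m = v m)
    (N : ℕ) (x y : Finset.Icc (-(N : ℤ)) N) (h : (x : ℤ) < n - r ∨ n + r + 1 < (x : ℤ)) :
    Tr b' v' N x y = Tr b v N x y := by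
  unfold Tr
  split_ifs with h3 h4 h5
  · exact (heq _ (by rw [Finset.mem_Icc]; omega)).2
  · rw [(heq _ (by rw [Finset.mem_Icc]; omega)).1]
  · rw [(heq _ (by rw [Finset.mem_Icc]; omega)).1]
  · rfl

theorem GFin_off {b v b' v' : ℤ → ℝ} {n : ℤ} {r : ℕ}
    (heq : ∀ m, m ∉ Finset.Icc (n - r) (n + r) → b' m = b m ∧ v' m = v m)
    (N : ℕ) (x y : Finset.Icc (-(N : ℤ)) N) (h1 : (x : ℤ) ∉ Finset.Icc (n - r) (n + r))
    (h2 : (y : ℤ) ∉ Finset.Icc (n - r) (n + r)) :
    Tr b' v' N x y = Tr b v N x y := by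
  unfold Tr
  split_ifs with h3 h4 h5
  · exact (heq _ h1).2
  · rw [(heq _ h1).1]
  · rw [(heq _ h2).1]
  · rfl

theorem GFin_pow {b v b' v' : ℤ → ℝ} {n : ℤ} {r : ℕ}
    (heq : ∀ m, m ∉ Finset.Icc (n - r) (n + r) → b' m = b m ∧ v' m = v m)
    (N : ℕ) (j : ℕ) : ∀ (x y : Finset.Icc (-(N : ℤ)) N),
      ((x : ℤ) ≤ n - r - j - 1 ∨ n + r + j + 1 ≤ (x : ℤ)) →
      ((Tr b' v' N) ^ j) x y = ((Tr b v N) ^ j) x y := by
  induction j with
  | zero =>
    intro x y _
    rw [pow_zero, pow_zero]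
  | succ j ih =>
    intro x y hx
    push_cast at hx
    rw [pow_succ', pow_succ', Matrix.mul_apply, Matrix.mul_apply]
    refine Finset.sum_congr rfl fun k _ => ?_
    rw [GFin_row heq N x k (by omega)]
    by_cases hk : (x : ℤ) ≠ k ∧ (k : ℤ) ≠ x + 1 ∧ (x : ℤ) ≠ k + 1
    · rw [Fin3_far N x k hk, zero_mul, zero_mul]
    · rw [ih k y (by omega)]

theorem GFin_rank {ι : Type} [Fintype ι] [DecidableEq ι] (D : Matrix ι ι ℝ) (S : Finset ι)
    (h : ∀ x y, x ∉ S → y ∉ S → D x y = 0) : D.rank ≤ 2 * S.card := by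
  have h1 : D = (Matrix.of fun (x : ι) (k : S ⊕ S) =>
      (Sum.elim (fun k : S => if x = (k : ι) then (1 : ℝ) else 0)
        (fun k : S => if x ∈ S then (0 : ℝ) else D x k) k)) *
      (Matrix.of fun (k : S ⊕ S) (y : ι) =>
        (Sum.elim (fun k : S => D k y) (fun k : S => if y = (k : ι) then (1 : ℝ) else 0) k)) := by
    ext x y
    rw [Matrix.mul_apply, Fintype.sum_sum_type]
    simp only [Matrix.of_apply, Sum.elim_inl, Sum.elim_inr]
    rw [Finset.sum_coe_sort S (fun k => (if x = k then (1 : ℝ) else 0) * D k y),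
      Finset.sum_coe_sort S (fun k => (if x ∈ S then (0 : ℝ) else D x k) *
        (if y = k then (1 : ℝ) else 0))]
    simp only [ite_mul, one_mul, zero_mul, mul_ite, mul_one, mul_zero]
    rw [Finset.sum_ite_eq, Finset.sum_ite_eq]
    by_cases hx : x ∈ S
    · simp [hx]
    · by_cases hy : y ∈ S
      · simp [hx, hy]
      · simp [hx, hy, h x y hx hy]
  rw [h1]
  refine (Matrix.rank_mul_le_left _ _).trans ?_
  refine (Matrix.rank_le_card_width _).trans (le_of_eq ?_)
  rw [Fintype.card_sum, Fintype.card_coe]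
  ring

/-- The same as `window_bound` (file `Fin3`, adapt its proof), when the coefficients are changed at the
sites of `[n - r, n + r]`. The rank of the difference of the truncated matrices is at most
`2 (2r + 1)`: its nonzero entries are in the rows or in the columns of the sites of `[n - r, n + r]`. -/
theorem window_bound_g (b v b' v' : ℤ → ℝ) (n : ℤ) (r : ℕ) (a c M : ℝ) (hc : 0 ≤ c)
    (hb : ∀ m, 0 ≤ b m) (hb' : ∀ m, 0 ≤ b' m) (hv : ∀ m, |v m| ≤ a) (hv' : ∀ m, |v' m| ≤ a)
    (hbc : ∀ m, b m ≤ c ^ 2) (hbc' : ∀ m, b' m ≤ c ^ 2) (hM : a + 2 * c ≤ M)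
    (heq : ∀ m, m ∉ Finset.Icc (n - r) (n + r) → b' m = b m ∧ v' m = v m) (Q : ℝ[X]) (L : ℤ)
    (hL : (Q.natDegree : ℤ) + r + 1 ≤ L) :
    |∑ m ∈ Finset.Icc (n - L) (n + L), (ent b' v' m m Q - ent b v m m Q)| ≤
      (2 * (2 * r + 1)) * nrm M Q.derivative := by
  classical
  set d := Q.natDegree with hd
  obtain ⟨N, hN⟩ : ∃ N : ℕ, |n| + L + d + 2 ≤ (N : ℤ) :=
    ⟨(|n| + L + d + 2).toNat, Int.self_le_toNat _⟩
  have hL0 : 0 ≤ L := by omega
  have habs := abs_nonneg n
  have hn1 := neg_abs_le n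
  have hn2 := le_abs_self n
  set A := Tr b' v' N with hA
  set B := Tr b v N with hB
  have hfar : ∀ m : Finset.Icc (-(N : ℤ)) N, L < |(m : ℤ) - n| →
      (Polynomial.aeval A Q) m m = (Polynomial.aeval B Q) m m := by
    intro m hm
    rw [Fin3_aeval_apply, Fin3_aeval_apply]
    refine Fin3_sum_congr Q fun j hj => ?_
    apply GFin_pow heq
    rcases lt_abs.1 hm with h | h
    · right
      omega
    · left
      omega
  have hnear : ∀ (b v : ℤ → ℝ), (∀ m, 0 ≤ b m) → ∀ m : Finset.Icc (-(N : ℤ)) N,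
      |(m : ℤ) - n| ≤ L → (Polynomial.aeval (Tr b v N) Q) m m = ent b v m m Q := by
    intro b v hb m hm
    rw [Fin3_aeval_apply, ent_eq_sum]
    refine Fin3_sum_congr Q fun j hj => ?_
    apply Tr_pow_diag b v hb N j m
    have h1 : |(m : ℤ)| ≤ |(m : ℤ) - n| + |n| := by
      have := abs_add_le ((m : ℤ) - n) n
      rwa [sub_add_cancel] at this
    omega
  have htr : (Polynomial.aeval A Q).trace - (Polynomial.aeval B Q).trace =
      ∑ m ∈ Finset.Icc (n - L) (n + L), (ent b' v' m m Q - ent b v m m Q) := by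
    set f : ℤ → ℝ := fun m => if |m - n| ≤ L then ent b' v' m m Q - ent b v m m Q else 0 with hf
    have h1 : (Polynomial.aeval A Q).trace - (Polynomial.aeval B Q).trace =
        ∑ m : Finset.Icc (-(N : ℤ)) N, f m := by
      rw [Matrix.trace, Matrix.trace, ← Finset.sum_sub_distrib]
      refine Finset.sum_congr rfl fun m _ => ?_
      rw [Matrix.diag_apply, Matrix.diag_apply]
      simp only [hf]
      split_ifs with h
      · rw [hA, hB, hnear b' v' hb' m h, hnear b v hb m h]
      · rw [hfar m (not_le.1 h), sub_self]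
    have h2 : ∑ m : Finset.Icc (-(N : ℤ)) N, f m = ∑ m ∈ Finset.Icc (-(N : ℤ)) N, f m :=
      Finset.sum_coe_sort (Finset.Icc (-(N : ℤ)) N) f
    rw [h1, h2]
    have h3 : Finset.Icc (n - L) (n + L) ⊆ Finset.Icc (-(N : ℤ)) N := by
      intro m hm
      rw [Finset.mem_Icc] at hm ⊢
      omega
    rw [← Finset.sum_subset h3]
    · refine Finset.sum_congr rfl fun m hm => ?_
      rw [Finset.mem_Icc] at hm
      simp only [hf]
      rw [if_pos (by rw [abs_le]; omega)]
    · intro m _ hm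
      rw [Finset.mem_Icc] at hm
      simp only [hf]
      rw [if_neg]
      intro h
      rw [abs_le] at h
      apply hm
      omega
  have hrank : (A - B).rank ≤ 2 * (2 * r + 1) := by
    obtain ⟨S, hS⟩ : ∃ S : Finset (Finset.Icc (-(N : ℤ)) N),
        S = Finset.univ.filter (fun x : Finset.Icc (-(N : ℤ)) N =>
          (x : ℤ) ∈ Finset.Icc (n - r) (n + r)) := ⟨_, rfl⟩
    have hcard : S.card ≤ 2 * r + 1 := by
      have h1 : S.card = (S.image Subtype.val).card :=
        (Finset.card_image_of_injective S Subtype.val_injective).symm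
      have h2 : S.image Subtype.val ⊆ Finset.Icc (n - r) (n + r) := by
        intro m hm
        obtain ⟨x, hx, rfl⟩ := Finset.mem_image.1 hm
        rw [hS, Finset.mem_filter] at hx
        exact hx.2
      have h3 := Finset.card_le_card h2
      rw [Int.card_Icc] at h3
      rw [h1]
      omega
    have h4 := GFin_rank (A - B) S (by
      intro x y hx hy
      rw [hS, Finset.mem_filter] at hx hy
      rw [Matrix.sub_apply, sub_eq_zero]
      exact GFin_off heq N x y (fun h => hx ⟨Finset.mem_univ _, h⟩)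
        (fun h => hy ⟨Finset.mem_univ _, h⟩))
    omega
  rw [← htr]
  have := trace_poly_sub_le A B (Tr_isHermitian b' v' N) (Tr_isHermitian b v N) M
    (Tr_bound b' v' N a c M hb' hc hv' hbc' hM) (Tr_bound b v N a c M hb hc hv hbc hM)
    (2 * (2 * r + 1)) hrank Q
  push_cast at this
  exact this

end Pool.Agent.Wb5ab1b
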