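import Pool.Agent.W_b5ab1b_h80.GDefs
import Pool.Agent.W_b5ab1b_h80.GenA
import Pool.Agent.W_b5ab1b_h80.GenB

/-!
# Reduction to finitely generated lamp groups; decomposition (helper80)
-/

set_option autoImplicit false

noncomputable section

open scoped Polynomial
open Polynomial (X C)

namespace Pool.Agent.Wb5ab1b

/-- The lamps which occur in the support of `T` generate a finitely generated torsion-free abelian group, so
(as in `exists_model`, file `GenA`) there is an injective `φ : ℤ^k → A` whose range contains them, and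
every element of the support of `T` is in the range of `GenB_wr φ`. -/
theorem exists_model_g (A : Type) [AddCommGroup A] [IsAddTorsionFree A]
    (T : MonoidAlgebra ℝ (Wr A)) :
    ∃ (k : ℕ) (φ : (Fin k → ℤ) →+ A) (T0 : MonoidAlgebra ℝ (Wr (Fin k → ℤ))),
      Function.Injective φ ∧ T = MonoidAlgebra.mapDomain (GenB_wr φ) T0 := by
  classical
  obtain ⟨s, hs⟩ : ∃ s : Finset A, s = T.coeff.support.biUnion fun g =>
      (Multiplicative.toAdd g.left : ℤ →₀ A).support.image
        (fun m => (Multiplicative.toAdd g.left : ℤ →₀ A) m) := ⟨_, rfl⟩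
  obtain ⟨H, hH⟩ : ∃ H : Submodule ℤ A, H = Submodule.span ℤ (s : Set A) := ⟨_, rfl⟩
  have hfg : H.FG := by
    rw [hH]
    exact Submodule.fg_span (Finset.finite_toSet _)
  have : Module.Finite ℤ H := Module.Finite.iff_fg.2 hfg
  have : Module.Free ℤ H := inferInstance
  obtain ⟨b⟩ : Nonempty (Module.Basis (Fin (Module.finrank ℤ H)) ℤ H) :=
    ⟨Module.finBasis ℤ H⟩
  obtain ⟨φ, hφ⟩ : ∃ φ : (Fin (Module.finrank ℤ H) → ℤ) →+ A,
      φ = (H.subtype ∘ₗ b.equivFun.symm.toLinearMap).toAddMonoidHom := ⟨_, rfl⟩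
  have hinj : Function.Injective φ := by
    rw [hφ]
    exact H.injective_subtype.comp b.equivFun.symm.injective
  have hrange : (s : Set A) ⊆ Set.range φ := by
    intro a ha
    have haH : a ∈ H := by
      rw [hH]
      exact Submodule.subset_span ha
    refine ⟨b.equivFun ⟨a, haH⟩, ?_⟩
    rw [hφ]
    simp
  refine ⟨_, φ, MonoidAlgebra.comapDomain (GenB_wr φ) (GenB_wr_injective φ hinj) T, hinj, ?_⟩
  rw [MonoidAlgebra.mapDomain_comapDomain]
  intro g hg
  have h0 : Function.invFun φ 0 = 0 := by
    have h1 := Function.leftInverse_invFun hinj 0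
    rwa [map_zero] at h1
  refine ⟨⟨Multiplicative.ofAdd (Finsupp.mapRange (Function.invFun φ) h0
    (Multiplicative.toAdd g.left)), g.right⟩, ?_⟩
  apply SemidirectProduct.ext
  · apply Multiplicative.toAdd.injective
    apply Finsupp.ext
    intro m
    show φ (Function.invFun φ ((Multiplicative.toAdd g.left) m)) = (Multiplicative.toAdd g.left) m
    apply Function.invFun_eq
    by_cases hm : (Multiplicative.toAdd g.left) m = 0
    · exact ⟨0, by rw [hm, map_zero]⟩
    · have h2 : (Multiplicative.toAdd g.left) m ∈ (s : Set A) := by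
        rw [hs, Finset.mem_coe, Finset.mem_biUnion]
        exact ⟨g, hg, Finset.mem_image.2 ⟨m, Finsupp.mem_support_iff.2 hm, rfl⟩⟩
      obtain ⟨a, ha⟩ := hrange h2
      exact ⟨a, ha⟩
  · rfl

lemma GGen_inl_injective {A : Type} [AddCommGroup A] :
    Function.Injective (fun a : ℤ →₀ A =>
      (SemidirectProduct.inl (Multiplicative.ofAdd a) : Wr A)) := by
  intro a b h
  exact Multiplicative.ofAdd.injective (SemidirectProduct.inl_injective h)

lemma GGen_embL {A : Type} [AddCommGroup A] (u : AddMonoidAlgebra ℝ (ℤ →₀ A)) :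
    (embL u).coeff = Finsupp.mapDomain
      (fun a : ℤ →₀ A => (SemidirectProduct.inl (Multiplicative.ofAdd a) : Wr A)) u.coeff := by
  classical
  unfold embL Finsupp.mapDomain Finsupp.sum
  rw [MonoidAlgebra.coeff_sum]
  rfl

lemma GGen_embL_inl {A : Type} [AddCommGroup A] (u : AddMonoidAlgebra ℝ (ℤ →₀ A)) (a : ℤ →₀ A) :
    (embL u).coeff (SemidirectProduct.inl (Multiplicative.ofAdd a)) = u.coeff a := by
  rw [GGen_embL]
  exact Finsupp.mapDomain_apply GGen_inl_injective _ _

lemma GGen_embL_ne {A : Type} [AddCommGroup A] (u : AddMonoidAlgebra ℝ (ℤ →₀ A)) (g : Wr A)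
    (hg : g.right ≠ 1) : (embL u).coeff g = 0 := by
  rw [GGen_embL]
  apply Finsupp.mapDomain_of_notMem_range
  rintro ⟨a, rfl⟩
  exact hg (SemidirectProduct.right_inl _)

lemma GGen_inl_of_right {A : Type} [AddCommGroup A] (g : Wr A) (hg : g.right = 1) :
    g = SemidirectProduct.inl (Multiplicative.ofAdd (Multiplicative.toAdd g.left)) := by
  apply SemidirectProduct.ext
  · rfl
  · rw [hg]; rfl

lemma GGen_mul_single {A : Type} [AddCommGroup A] (x : MonoidAlgebra ℝ (Wr A)) (g h : Wr A) :
    (x * MonoidAlgebra.single h 1).coeff g = x.coeff (g * h⁻¹) := by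
  rw [MonoidAlgebra.coeff_mul_single_eq_coeff_mul (g * h⁻¹), mul_one]
  intro m _
  constructor
  · intro hm
    rw [← hm, mul_inv_cancel_right]
  · intro hm
    rw [hm, inv_mul_cancel_right]

lemma GGen_single_mul {A : Type} [AddCommGroup A] (x : MonoidAlgebra ℝ (Wr A)) (g h : Wr A) :
    (MonoidAlgebra.single h 1 * x).coeff g = x.coeff (h⁻¹ * g) := by
  rw [MonoidAlgebra.coeff_single_mul_eq_mul_coeff (h⁻¹ * g), one_mul]
  intro m _
  constructor
  · intro hm
    rw [← hm, inv_mul_cancel_left]
  · intro hm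
    rw [hm, mul_inv_cancel_left]

/-- A self-adjoint element supported on the elements with `t`-exponent in `{-1, 0, 1}` is
`c₁ t + t⁻¹ c₁* + c₀`: `c₀ x = T (x, 1)`, `c₁ x = T (x, t)` (as `(x, t) = (x, 1)(1, t)`); the part of
`t`-exponent `-1` is determined by self-adjointness. -/
theorem eq_firstOrder {A : Type} [AddCommGroup A] (T : MonoidAlgebra ℝ (Wr A))
    (hT : ∀ g, T.coeff g⁻¹ = T.coeff g)
    (hs : ∀ g, T.coeff g ≠ 0 → |Multiplicative.toAdd g.right| ≤ 1) :
    ∃ c1 c0 : AddMonoidAlgebra ℝ (ℤ →₀ A), (∀ a, c0.coeff (-a) = c0.coeff a) ∧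
      T = firstOrder c1 c0 := by
  classical
  have hi1 : Function.Injective (fun a : ℤ →₀ A =>
      (SemidirectProduct.inl (Multiplicative.ofAdd a) : Wr A) * tt A) := by
    intro a b h
    exact GGen_inl_injective (mul_right_cancel h)
  obtain ⟨c0, hc0⟩ : ∃ c0 : AddMonoidAlgebra ℝ (ℤ →₀ A), ∀ a, c0.coeff a =
      T.coeff (SemidirectProduct.inl (Multiplicative.ofAdd a)) :=
    ⟨AddMonoidAlgebra.ofCoeff (Finsupp.comapDomain _ T.coeff GGen_inl_injective.injOn),
      fun a => rfl⟩
  obtain ⟨c1, hc1⟩ : ∃ c1 : AddMonoidAlgebra ℝ (ℤ →₀ A), ∀ a, c1.coeff a =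
      T.coeff (SemidirectProduct.inl (Multiplicative.ofAdd a) * tt A) :=
    ⟨AddMonoidAlgebra.ofCoeff (Finsupp.comapDomain _ T.coeff hi1.injOn), fun a => rfl⟩
  refine ⟨c1, c0, ?_, ?_⟩
  · intro a
    rw [hc0, hc0, ← hT (SemidirectProduct.inl (Multiplicative.ofAdd a))]
    rw [← map_inv, ← ofAdd_neg]
  · apply MonoidAlgebra.ext
    apply Finsupp.ext
    intro g
    unfold firstOrder
    rw [MonoidAlgebra.coeff_add, MonoidAlgebra.coeff_add, Finsupp.add_apply, Finsupp.add_apply,
      GGen_mul_single, GGen_single_mul, inv_inv]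
    have hr1 : (g * (tt A)⁻¹).right = g.right * (Multiplicative.ofAdd (1 : ℤ))⁻¹ := rfl
    have hr2 : (tt A * g).right = Multiplicative.ofAdd (1 : ℤ) * g.right := rfl
    obtain ⟨r, hr⟩ : ∃ r : ℤ, g.right = Multiplicative.ofAdd r :=
      ⟨Multiplicative.toAdd g.right, rfl⟩
    rw [hr, ← ofAdd_neg, ← ofAdd_add] at hr1
    rw [hr, ← ofAdd_add] at hr2
    have hone : (1 : Multiplicative ℤ) = Multiplicative.ofAdd (0 : ℤ) := rfl
    by_cases h1 : r = 1
    · have e1 : (g * (tt A)⁻¹).right = 1 := by rw [hr1, h1]; rfl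
      have e2 : (tt A * g).right ≠ 1 := by
        rw [hr2, h1, hone]
        intro h
        have h2 := Multiplicative.ofAdd.injective h
        norm_num at h2
      have e3 : g.right ≠ 1 := by
        rw [hr, h1, hone]
        intro h
        have h2 := Multiplicative.ofAdd.injective h
        norm_num at h2
      rw [GGen_embL_ne _ _ e2, GGen_embL_ne _ _ e3, GGen_inl_of_right _ e1, GGen_embL_inl, hc1,
        ← GGen_inl_of_right _ e1, inv_mul_cancel_right, add_zero, add_zero]
    by_cases h2 : r = -1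
    · have e1 : (g * (tt A)⁻¹).right ≠ 1 := by
        rw [hr1, h2, hone]
        intro h
        have h2 := Multiplicative.ofAdd.injective h
        norm_num at h2
      have e2 : (tt A * g).right = 1 := by rw [hr2, h2]; rfl
      have e3 : g.right ≠ 1 := by
        rw [hr, h2, hone]
        intro h
        have h2 := Multiplicative.ofAdd.injective h
        norm_num at h2
      obtain ⟨y, hy⟩ : ∃ y : ℤ →₀ A, y = Multiplicative.toAdd (tt A * g).left := ⟨_, rfl⟩
      have e4 : tt A * g = SemidirectProduct.inl (Multiplicative.ofAdd y) := by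
        rw [hy]
        exact GGen_inl_of_right _ e2
      have e5 := GenB_inv_coeff c1 (-y)
      rw [neg_neg] at e5
      rw [GGen_embL_ne _ _ e1, GGen_embL_ne _ _ e3, e4, GGen_embL_inl, e5, hc1, ofAdd_neg,
        map_inv, ← e4, mul_inv_rev, inv_mul_cancel_right, hT, zero_add, add_zero]
    by_cases h3 : r = 0
    · have e1 : (g * (tt A)⁻¹).right ≠ 1 := by
        rw [hr1, h3, hone]
        intro h
        have h2 := Multiplicative.ofAdd.injective h
        norm_num at h2
      have e2 : (tt A * g).right ≠ 1 := by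
        rw [hr2, h3, hone]
        intro h
        have h2 := Multiplicative.ofAdd.injective h
        norm_num at h2
      have e3 : g.right = 1 := by rw [hr, h3]; rfl
      obtain ⟨y, hy⟩ : ∃ y : ℤ →₀ A, y = Multiplicative.toAdd g.left := ⟨_, rfl⟩
      have e4 : g = SemidirectProduct.inl (Multiplicative.ofAdd y) := by
        rw [hy]
        exact GGen_inl_of_right _ e3
      rw [GGen_embL_ne _ _ e1, GGen_embL_ne _ _ e2, e4, GGen_embL_inl, hc0, zero_add, zero_add]
    · have e1 : (g * (tt A)⁻¹).right ≠ 1 := by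
        rw [hr1, hone]
        intro h
        have h2 := Multiplicative.ofAdd.injective h
        omega
      have e2 : (tt A * g).right ≠ 1 := by
        rw [hr2, hone]
        intro h
        have h2 := Multiplicative.ofAdd.injective h
        omega
      have e3 : g.right ≠ 1 := by
        rw [hr, hone]
        intro h
        exact h3 (Multiplicative.ofAdd.injective h)
      rw [GGen_embL_ne _ _ e1, GGen_embL_ne _ _ e2, GGen_embL_ne _ _ e3, add_zero, add_zero]
      by_contra hne
      have h4 := hs g hne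
      rw [hr, toAdd_ofAdd, abs_le] at h4
      omega

end Pool.Agent.Wb5ab1b
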