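import Pool.Agent.W_b5ab1b_h80.Jac1
import Pool.Agent.W_b5ab1b_h80.Lau1

/-!
# The moments of a Jacobi element are mean values of entries of a Jacobi operator (helper80)
-/

set_option autoImplicit false

noncomputable section

open scoped Polynomial

namespace Pool.Agent.Wb5ab1b

variable {k : ℕ}

/-- Complex coefficients. -/
def cx : AddMonoidAlgebra ℝ (Fin k → ℤ) →+* Loc k :=
  AddMonoidAlgebra.mapRingHom (Fin k → ℤ) Complex.ofRealHom

/-- The lamp configuration `x` as an exponent. -/
def expo : (ℤ →₀ (Fin k → ℤ)) →+ ((ℤ × Fin k) →₀ ℤ) := Finsupp.liftAddHom fun n => siteHom n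

theorem GrpA_expo_single (n : ℤ) (a : Fin k → ℤ) :
    expo (Finsupp.single n a) = siteHom n a := by
  unfold expo
  rw [Finsupp.liftAddHom_apply_single]

/-- Coefficients of `expo` (so `expo` is injective). -/
theorem expo_apply (x : ℤ →₀ (Fin k → ℤ)) (n : ℤ) (i : Fin k) : expo x (n, i) = x n i := by
  induction x using Finsupp.induction_linear with
  | zero => simp
  | add x y hx hy => rw [map_add, Finsupp.add_apply, hx, hy, Finsupp.add_apply, Pi.add_apply]
  | single m a =>
    rw [GrpA_expo_single, siteHom_apply, Finsupp.single_apply]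
    by_cases h : n = m
    · subst h
      simp
    · rw [if_neg h, if_neg (Ne.symm h)]
      rfl

theorem GrpA_shift (n r : ℤ) (x : ℤ →₀ (Fin k → ℤ)) :
    Finsupp.domCongr (Equiv.addLeft n) (Finsupp.domCongr (Equiv.addLeft r) x) =
      Finsupp.domCongr (Equiv.addLeft (n + r)) x := by
  apply Finsupp.ext
  intro m
  show x (-r + (-n + m)) = x (-(n + r) + m)
  congr 1
  ring

/-- The representation of the group on functions `ℤ → Lau k`: the element `g = (x, t^r)` sends `ψ` to
`n ↦ (monomial of the configuration x shifted by n) * ψ (n + r)`. It is multiplicative: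
`(x, t^r)(x', t^s) = (x + shift_r x', t^(r+s))`. -/
def rho : Wr (Fin k → ℤ) →* Module.End (Lau k) (ℤ → Lau k) where
  toFun g :=
    { toFun := fun ψ n =>
        AddMonoidAlgebra.single
            (expo (Finsupp.domCongr (Equiv.addLeft n) (Multiplicative.toAdd g.left))) (1 : ℂ) *
          ψ (n + Multiplicative.toAdd g.right)
      map_add' := by
        intro ψ φ
        funext n
        simp only [Pi.add_apply]
        ring
      map_smul' := by
        intro c ψ
        funext n
        simp only [Pi.smul_apply, smul_eq_mul, RingHom.id_apply]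
        ring }
  map_one' := by
    refine LinearMap.ext fun ψ => ?_
    funext n
    show AddMonoidAlgebra.single
        (expo (Finsupp.domCongr (Equiv.addLeft n)
          (Multiplicative.toAdd (1 : Wr (Fin k → ℤ)).left))) (1 : ℂ) *
          ψ (n + Multiplicative.toAdd (1 : Wr (Fin k → ℤ)).right) = ψ n
    rw [SemidirectProduct.one_left, SemidirectProduct.one_right, toAdd_one, toAdd_one, map_zero,
      map_zero, add_zero, ← AddMonoidAlgebra.one_def, one_mul]
  map_mul' := by
    intro g h
    refine LinearMap.ext fun ψ => ?_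
    funext n
    show AddMonoidAlgebra.single
        (expo (Finsupp.domCongr (Equiv.addLeft n)
          (Multiplicative.toAdd (g * h).left))) (1 : ℂ) *
          ψ (n + Multiplicative.toAdd (g * h).right) =
      AddMonoidAlgebra.single
        (expo (Finsupp.domCongr (Equiv.addLeft n)
          (Multiplicative.toAdd g.left))) (1 : ℂ) *
        (AddMonoidAlgebra.single
        (expo (Finsupp.domCongr (Equiv.addLeft (n + Multiplicative.toAdd g.right))
          (Multiplicative.toAdd h.left))) (1 : ℂ) *
          ψ (n + Multiplicative.toAdd g.right + Multiplicative.toAdd h.right))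
    have e1 : Multiplicative.toAdd (g * h).left = Multiplicative.toAdd g.left +
        Finsupp.domCongr (Equiv.addLeft (Multiplicative.toAdd g.right))
          (Multiplicative.toAdd h.left) := rfl
    have e2 : Multiplicative.toAdd (g * h).right =
        Multiplicative.toAdd g.right + Multiplicative.toAdd h.right := rfl
    rw [e1, e2, map_add, map_add, GrpA_shift, ← mul_assoc, AddMonoidAlgebra.single_mul_single,
      one_mul, add_assoc]

theorem GrpA_rho_apply (g : Wr (Fin k → ℤ)) (ψ : ℤ → Lau k) (n : ℤ) :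
    rho g ψ n = AddMonoidAlgebra.single
            (expo (Finsupp.domCongr (Equiv.addLeft n) (Multiplicative.toAdd g.left))) (1 : ℂ) *
          ψ (n + Multiplicative.toAdd g.right) := rfl

/-- abbreviation for the extension to the group ring. -/
abbrev GrpA_L : MonoidAlgebra ℝ (Wr (Fin k → ℤ)) →ₐ[ℝ] Module.End (Lau k) (ℤ → Lau k) :=
  MonoidAlgebra.lift ℝ (Module.End (Lau k) (ℤ → Lau k)) (Wr (Fin k → ℤ)) rho

theorem GrpA_L_single (g : Wr (Fin k → ℤ)) (c : ℝ) (ψ : ℤ → Lau k) (n : ℤ) :
    GrpA_L (MonoidAlgebra.single g c) ψ n = AddMonoidAlgebra.single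
            (expo (Finsupp.domCongr (Equiv.addLeft n) (Multiplicative.toAdd g.left))) (c : ℂ) *
          ψ (n + Multiplicative.toAdd g.right) := by
  unfold GrpA_L
  rw [MonoidAlgebra.lift_single]
  show c • (rho g ψ n) = _
  rw [GrpA_rho_apply, ← smul_mul_assoc]
  congr 1
  rw [AddMonoidAlgebra.smul_single]
  congr 1
  simp

theorem GrpA_emb_zero : emb (0 : AddMonoidAlgebra ℝ (Fin k → ℤ)) = 0 := by
  unfold emb
  simp

theorem GrpA_emb_add (u v : AddMonoidAlgebra ℝ (Fin k → ℤ)) : emb (u + v) = emb u + emb v := by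
  unfold emb
  rw [AddMonoidAlgebra.coeff_add]
  refine Finsupp.sum_add_index' (fun η => by simp) (fun η x y => ?_)
  rw [MonoidAlgebra.single_add]

theorem GrpA_emb_single (a : Fin k → ℤ) (c : ℝ) :
    emb (AddMonoidAlgebra.single a c) = MonoidAlgebra.single (lamp a) c := by
  unfold emb
  rw [AddMonoidAlgebra.coeff_single, Finsupp.sum_single_index (by simp)]

theorem GrpA_cx_single (a : Fin k → ℤ) (c : ℝ) :
    cx (AddMonoidAlgebra.single a c) = AddMonoidAlgebra.single a (c : ℂ) := by
  unfold cx
  simp

theorem GrpA_L_emb (u : AddMonoidAlgebra ℝ (Fin k → ℤ)) (ψ : ℤ → Lau k) (n : ℤ) :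
    GrpA_L (emb u) ψ n = bb (cx u) n * ψ n := by
  induction u using AddMonoidAlgebra.induction_linear with
  | zero =>
    rw [GrpA_emb_zero, map_zero, map_zero]
    show (0 : Lau k) = site n 0 * ψ n
    rw [map_zero, zero_mul]
  | add u v hu hv =>
    rw [GrpA_emb_add, map_add, map_add]
    show GrpA_L (emb u) ψ n + GrpA_L (emb v) ψ n = site n (cx u + cx v) * ψ n
    rw [hu, hv, map_add, add_mul]
    rfl
  | single a c =>
    rw [GrpA_emb_single, GrpA_L_single, GrpA_cx_single]
    show _ = site n _ * ψ n
    rw [site_single]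
    have e1 : Multiplicative.toAdd (lamp a).left = Finsupp.single 0 a := rfl
    have e2 : Multiplicative.toAdd (lamp a).right = (0 : ℤ) := rfl
    have e3 : Finsupp.domCongr (Equiv.addLeft n) (Finsupp.single 0 a) = Finsupp.single n a := by
      simp [Finsupp.domCongr]
    rw [e1, e2, e3, GrpA_expo_single, add_zero]

theorem GrpA_L_tt (ψ : ℤ → Lau k) (n : ℤ) :
    GrpA_L (MonoidAlgebra.single (tt (Fin k → ℤ)) 1) ψ n = ψ (n + 1) := by
  rw [GrpA_L_single]
  have e1 : Multiplicative.toAdd (tt (Fin k → ℤ)).left = 0 := rfl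
  have e2 : Multiplicative.toAdd (tt (Fin k → ℤ)).right = (1 : ℤ) := rfl
  rw [e1, e2, map_zero, map_zero, Complex.ofReal_one, ← AddMonoidAlgebra.one_def, one_mul]

theorem GrpA_L_tt_inv (ψ : ℤ → Lau k) (n : ℤ) :
    GrpA_L (MonoidAlgebra.single (tt (Fin k → ℤ))⁻¹ 1) ψ n = ψ (n - 1) := by
  have e0 : (tt (Fin k → ℤ))⁻¹ = SemidirectProduct.inr (Multiplicative.ofAdd (-1)) := by
    unfold tt
    rw [← map_inv]
    rfl
  rw [e0, GrpA_L_single]
  rw [SemidirectProduct.left_inr, SemidirectProduct.right_inr, toAdd_one, toAdd_ofAdd, map_zero,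
    map_zero, Complex.ofReal_one, ← AddMonoidAlgebra.one_def, one_mul]
  rfl

/-- The image of the Jacobi element under the extension of `rho` to the group ring (real scalars act
through `ℝ → ℂ → Lau k`): it is the banded operator with coefficients `u_n`, `u*_n`, `f_n`. -/
theorem rho_jacobi (u f : AddMonoidAlgebra ℝ (Fin k → ℤ)) :
    MonoidAlgebra.lift ℝ (Module.End (Lau k) (ℤ → Lau k)) (Wr (Fin k → ℤ)) rho
        (jacobiElement u f) =
      Jg (bb (cx u)) (bb (cx (inv' u))) (bb (cx f)) := by
  refine LinearMap.ext fun ψ => ?_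
  funext n
  show GrpA_L (jacobiElement u f) ψ n = bb (cx u) n * ψ (n + 1) + bb (cx f) n * ψ n +
    bb (cx (inv' u)) (n - 1) * ψ (n - 1)
  unfold jacobiElement
  rw [map_add, map_add, map_mul, map_mul]
  show GrpA_L (emb u) (GrpA_L (MonoidAlgebra.single (tt (Fin k → ℤ)) 1) ψ) n +
    GrpA_L (MonoidAlgebra.single (tt (Fin k → ℤ))⁻¹ 1) (GrpA_L (emb (inv' u)) ψ) n +
      GrpA_L (emb f) ψ n = _
  rw [GrpA_L_emb, GrpA_L_tt, GrpA_L_tt_inv, GrpA_L_emb, GrpA_L_emb]
  ring

theorem GrpA_expo_inj (x : ℤ →₀ (Fin k → ℤ)) (h : expo x = 0) : x = 0 := by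
  apply Finsupp.ext
  intro n
  funext i
  rw [← expo_apply, h]
  rfl

/-- The mean value of the entry `(m, m)` of the image of an element of the group ring is its
coefficient at `1`. By linearity, for a group element `g = (x, t^r)`: the entry `(m, m)` vanishes if
`r ≠ 0`, and is the monomial of the shifted configuration `x` if `r = 0`; its constant coefficient is
`1` if `x = 0` and `0` otherwise (`expo` is injective). -/
theorem E_rho (y : MonoidAlgebra ℝ (Wr (Fin k → ℤ))) (m : ℤ) :
    E (MonoidAlgebra.lift ℝ (Module.End (Lau k) (ℤ → Lau k)) (Wr (Fin k → ℤ)) rho y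
        (Pi.single m 1) m) = ((y.coeff 1 : ℝ) : ℂ) := by
  induction y using MonoidAlgebra.induction_linear with
  | zero =>
    rw [map_zero]
    show E (0 : Lau k) = _
    rw [E_zero]
    simp
  | add y z hy hz =>
    rw [map_add]
    show E (MonoidAlgebra.lift ℝ (Module.End (Lau k) (ℤ → Lau k)) (Wr (Fin k → ℤ)) rho y
        (Pi.single m 1) m + MonoidAlgebra.lift ℝ (Module.End (Lau k) (ℤ → Lau k))
        (Wr (Fin k → ℤ)) rho z (Pi.single m 1) m) = _
    rw [E_add, hy, hz, MonoidAlgebra.coeff_add, Finsupp.add_apply, Complex.ofReal_add]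
  | single g c =>
    have h1 := GrpA_L_single g c (Pi.single m 1) m
    unfold GrpA_L at h1
    rw [h1, MonoidAlgebra.coeff_single]
    by_cases hr : Multiplicative.toAdd g.right = 0
    · rw [hr, add_zero, Pi.single_eq_same, mul_one]
      unfold E
      rw [AddMonoidAlgebra.coeff_single]
      by_cases hx : Multiplicative.toAdd g.left = 0
      · have hg : g = 1 := by
          apply SemidirectProduct.ext
          · exact hx
          · exact hr
        have h7 : expo (Finsupp.domCongr (Equiv.addLeft m) (0 : ℤ →₀ (Fin k → ℤ))) = 0 := by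
          rw [map_zero, map_zero]
        rw [hx, h7, hg, Finsupp.single_eq_same, Finsupp.single_eq_same]
      · have hg : g ≠ 1 := by
          rintro rfl
          exact hx rfl
        have h2 : expo (Finsupp.domCongr (Equiv.addLeft m) (Multiplicative.toAdd g.left)) ≠ 0 := by
          intro h3
          apply hx
          have h4 := GrpA_expo_inj _ h3
          exact (AddEquiv.map_eq_zero_iff _).1 h4
        rw [Finsupp.single_eq_of_ne (Ne.symm h2), Finsupp.single_eq_of_ne (Ne.symm hg)]
        simp
    · have hg : g ≠ 1 := by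
        rintro rfl
        exact hr rfl
      have h5 : (Pi.single m 1 : ℤ → Lau k) (m + Multiplicative.toAdd g.right) = 0 := by
        rw [Pi.single_eq_of_ne]
        intro h6
        apply hr
        linarith
      rw [h5, mul_zero, E_zero, Finsupp.single_eq_of_ne (Ne.symm hg)]
      simp

/-- From `rho_jacobi`, `E_rho` for `y = T^n` (`map_pow`) and `gauge`. -/
theorem moment (u f : AddMonoidAlgebra ℝ (Fin k → ℤ)) (n : ℕ) (m : ℤ) :
    ((((jacobiElement u f) ^ n).coeff 1 : ℝ) : ℂ) =
      E (pw (bb (cx u * cx (inv' u))) (bb (cx f)) n m m) := by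
  rw [← E_rho _ m, map_pow, rho_jacobi]
  show E (pwg (bb (cx u)) (bb (cx (inv' u))) (bb (cx f)) n m m) = _
  rw [(gauge _ _ _ n m m le_rfl).1, Finset.Ico_self, Finset.prod_empty, one_mul]
  congr 3
  funext l
  show site l _ * site l _ = site l _
  rw [map_mul]

end Pool.Agent.Wb5ab1b
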