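import Pool.Agent.W_b5ab1b_h80.GSh
import Pool.Agent.W_b5ab1b_h80.GrpA
import Pool.Agent.W_b5ab1b_h80.GrpB

/-!
# Moments of elements of t-degree at most one (helper80)
-/

set_option autoImplicit false

noncomputable section

open scoped Polynomial
open Polynomial (X C)

namespace Pool.Agent.Wb5ab1b

variable {k : ℕ}

/-- Complex coefficients, exponents as functions on `ℤ × Fin k`. -/
def cxL : AddMonoidAlgebra ℝ (ℤ →₀ (Fin k → ℤ)) →+* Lau k :=
  (AddMonoidAlgebra.mapDomainRingHom ℂ (expo (k := k))).comp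
    (AddMonoidAlgebra.mapRingHom (ℤ →₀ (Fin k → ℤ)) Complex.ofRealHom)

theorem cxL_single (x : ℤ →₀ (Fin k → ℤ)) (c : ℝ) :
    cxL (AddMonoidAlgebra.single x c) = AddMonoidAlgebra.single (expo x) (c : ℂ) := by
  unfold cxL
  simp

theorem GGrp_embL_zero : embL (0 : AddMonoidAlgebra ℝ (ℤ →₀ (Fin k → ℤ))) = 0 := by
  unfold embL
  simp

theorem GGrp_embL_add (u v : AddMonoidAlgebra ℝ (ℤ →₀ (Fin k → ℤ))) :
    embL (u + v) = embL u + embL v := by
  unfold embL
  rw [AddMonoidAlgebra.coeff_add]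
  refine Finsupp.sum_add_index' (fun η => by simp) (fun η x y => ?_)
  rw [MonoidAlgebra.single_add]

theorem GGrp_embL_single (a : ℤ →₀ (Fin k → ℤ)) (c : ℝ) :
    embL (AddMonoidAlgebra.single a c) =
      MonoidAlgebra.single (SemidirectProduct.inl (Multiplicative.ofAdd a)) c := by
  unfold embL
  rw [AddMonoidAlgebra.coeff_single, Finsupp.sum_single_index (by simp)]

theorem GGrp_expo_shift (n : ℤ) (x : ℤ →₀ (Fin k → ℤ)) :
    expo (Finsupp.domCongr (Equiv.addLeft n) x) = shE n (expo x) := by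
  ext ⟨m, i⟩
  rw [expo_apply, shE_apply, expo_apply]
  show x (-n + m) i = x (m - n) i
  have h : -n + m = m - n := by ring
  rw [h]

/-- As `GrpA_L_emb` in `GrpA`. -/
theorem L_embL (u : AddMonoidAlgebra ℝ (ℤ →₀ (Fin k → ℤ))) (ψ : ℤ → Lau k) (n : ℤ) :
    GrpA_L (embL u) ψ n = sq (cxL u) n * ψ n := by
  induction u using AddMonoidAlgebra.induction_linear with
  | zero =>
    rw [GGrp_embL_zero, map_zero, map_zero]
    show (0 : Lau k) = sh n 0 * ψ n
    rw [map_zero, zero_mul]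
  | add u v hu hv =>
    rw [GGrp_embL_add, map_add, map_add]
    show GrpA_L (embL u) ψ n + GrpA_L (embL v) ψ n = sh n (cxL u + cxL v) * ψ n
    rw [hu, hv, map_add, add_mul]
    rfl
  | single a c =>
    rw [GGrp_embL_single, GrpA_L_single, cxL_single]
    show _ = sh n _ * ψ n
    rw [sh_single]
    have e1 : Multiplicative.toAdd (SemidirectProduct.inl (Multiplicative.ofAdd a) :
        Wr (Fin k → ℤ)).left = a := rfl
    have e2 : Multiplicative.toAdd (SemidirectProduct.inl (Multiplicative.ofAdd a) :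
        Wr (Fin k → ℤ)).right = (0 : ℤ) := rfl
    rw [e1, e2, GGrp_expo_shift, add_zero]

/-- As `rho_jacobi` in `GrpA`. -/
theorem rho_firstOrder (c1 c0 : AddMonoidAlgebra ℝ (ℤ →₀ (Fin k → ℤ))) :
    MonoidAlgebra.lift ℝ (Module.End (Lau k) (ℤ → Lau k)) (Wr (Fin k → ℤ)) rho
        (firstOrder c1 c0) =
      Jg (sq (cxL c1)) (sq (cxL (inv' c1))) (sq (cxL c0)) := by
  refine LinearMap.ext fun ψ => ?_
  funext n
  show GrpA_L (firstOrder c1 c0) ψ n = sq (cxL c1) n * ψ (n + 1) + sq (cxL c0) n * ψ n +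
    sq (cxL (inv' c1)) (n - 1) * ψ (n - 1)
  unfold firstOrder
  rw [map_add, map_add, map_mul, map_mul]
  show GrpA_L (embL c1) (GrpA_L (MonoidAlgebra.single (tt (Fin k → ℤ)) 1) ψ) n +
    GrpA_L (MonoidAlgebra.single (tt (Fin k → ℤ))⁻¹ 1) (GrpA_L (embL (inv' c1)) ψ) n +
      GrpA_L (embL c0) ψ n = _
  rw [L_embL, GrpA_L_tt, GrpA_L_tt_inv, L_embL, L_embL]
  ring

/-- As `moment` in `GrpA`. -/
theorem moment_g (c1 c0 : AddMonoidAlgebra ℝ (ℤ →₀ (Fin k → ℤ))) (n : ℕ) (m : ℤ) :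
    ((((firstOrder c1 c0) ^ n).coeff 1 : ℝ) : ℂ) =
      E (pw (sq (cxL c1 * cxL (inv' c1))) (sq (cxL c0)) n m m) := by
  rw [← E_rho _ m, map_pow, rho_firstOrder]
  show E (pwg (sq (cxL c1)) (sq (cxL (inv' c1))) (sq (cxL c0)) n m m) = _
  rw [(gauge _ _ _ n m m le_rfl).1, Finset.Ico_self, Finset.prod_empty, one_mul]
  congr 3
  funext l
  show sh l _ * sh l _ = sh l _
  rw [map_mul]

theorem GGrp_inv_single (a : ℤ →₀ (Fin k → ℤ)) (c : ℝ) :
    inv' (AddMonoidAlgebra.single a c) = AddMonoidAlgebra.single (-a) c := by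
  unfold inv'
  rw [AddMonoidAlgebra.coeff_single, Finsupp.sum_single_index (by simp)]

theorem GGrp_inv_zero : inv' (0 : AddMonoidAlgebra ℝ (ℤ →₀ (Fin k → ℤ))) = 0 := by
  unfold inv'
  simp

theorem GGrp_inv_add (u w : AddMonoidAlgebra ℝ (ℤ →₀ (Fin k → ℤ))) :
    inv' (u + w) = inv' u + inv' w := by
  unfold inv'
  rw [AddMonoidAlgebra.coeff_add]
  exact Finsupp.sum_add_index' (fun η => by simp)
    (fun η x y => by rw [AddMonoidAlgebra.single_add])

theorem GGrp_inv_coeff (u : AddMonoidAlgebra ℝ (ℤ →₀ (Fin k → ℤ))) (a : ℤ →₀ (Fin k → ℤ)) :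
    (inv' u).coeff a = u.coeff (-a) := by
  induction u using AddMonoidAlgebra.induction_linear with
  | zero =>
    rw [GGrp_inv_zero]
    rfl
  | add F1 F2 h1 h2 =>
    rw [GGrp_inv_add, AddMonoidAlgebra.coeff_add, AddMonoidAlgebra.coeff_add, Finsupp.add_apply,
      Finsupp.add_apply, h1, h2]
  | single b c =>
    classical
    rw [GGrp_inv_single, AddMonoidAlgebra.coeff_single, AddMonoidAlgebra.coeff_single,
      Finsupp.single_apply, Finsupp.single_apply]
    have h : (-b = a) ↔ (b = -a) := by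
      constructor
      · rintro rfl
        rw [neg_neg]
      · rintro rfl
        rw [neg_neg]
    simp only [h]

theorem GGrp_bound (u : AddMonoidAlgebra ℝ (ℤ →₀ (Fin k → ℤ))) :
    ∃ C : ℝ, 0 ≤ C ∧ ∀ θ : ℤ × Fin k → ℝ, ‖ev θ (cxL u)‖ ≤ C := by
  induction u using AddMonoidAlgebra.induction_linear with
  | zero =>
    refine ⟨0, le_rfl, fun x => ?_⟩
    rw [map_zero, map_zero, norm_zero]
  | add F1 F2 h1 h2 =>
    obtain ⟨C1, hC1, h1⟩ := h1
    obtain ⟨C2, hC2, h2⟩ := h2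
    refine ⟨C1 + C2, add_nonneg hC1 hC2, fun x => ?_⟩
    rw [map_add, map_add]
    exact (norm_add_le _ _).trans (add_le_add (h1 x) (h2 x))
  | single a c =>
    refine ⟨|c|, abs_nonneg c, fun x => ?_⟩
    rw [cxL_single, ev_single, norm_mul, GrpB_exp_norm, mul_one, Complex.norm_real,
      Real.norm_eq_abs]

/-- As `ev1_inv` in `GrpB`. -/
theorem ev_inv (θ : ℤ × Fin k → ℝ) (u : AddMonoidAlgebra ℝ (ℤ →₀ (Fin k → ℤ))) :
    ev θ (cxL (inv' u)) = (starRingEnd ℂ) (ev θ (cxL u)) := by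
  induction u using AddMonoidAlgebra.induction_linear with
  | zero => rw [GGrp_inv_zero, map_zero, map_zero, map_zero]
  | add F1 F2 h1 h2 => rw [GGrp_inv_add, map_add, map_add, h1, h2, map_add, map_add, map_add]
  | single a c =>
    rw [GGrp_inv_single, cxL_single, cxL_single, ev_single, ev_single,
      map_mul, ← Complex.exp_conj, Complex.conj_ofReal]
    congr 2
    have h : ((expo (-a)).sum fun j e => (e : ℝ) * θ j) =
        -((expo a).sum fun j e => (e : ℝ) * θ j) := by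
      rw [map_neg, Finsupp.sum_neg_index (by simp)]
      unfold Finsupp.sum
      rw [← Finset.sum_neg_distrib]
      refine Finset.sum_congr rfl fun i _ => ?_
      push_cast
      ring
    rw [h, map_mul, map_mul, map_mul, Complex.conj_I, Complex.conj_ofReal, Complex.conj_ofReal,
      Complex.conj_ofNat]
    push_cast
    ring

/-- As `exists_good` in `GrpB` (`ev_bdd` gives the bounds). -/
theorem exists_ggood (c1 c0 : AddMonoidAlgebra ℝ (ℤ →₀ (Fin k → ℤ)))
    (hc : ∀ a, c0.coeff (-a) = c0.coeff a) :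
    ∃ M : ℝ, GGood k (cxL c1 * cxL (inv' c1)) (cxL c0) M := by
  obtain ⟨a, ha, hfa⟩ := GGrp_bound c0
  obtain ⟨c, hc', huc⟩ := GGrp_bound c1
  have hβ : ∀ θ : ℤ × Fin k → ℝ, ev θ (cxL c1 * cxL (inv' c1)) =
      ((‖ev θ (cxL c1)‖ ^ 2 : ℝ) : ℂ) := by
    intro x
    rw [map_mul, ev_inv, Complex.mul_conj, Complex.normSq_eq_norm_sq]
  have hff : inv' c0 = c0 := by
    apply AddMonoidAlgebra.ext
    ext b
    rw [GGrp_inv_coeff, hc]
  refine ⟨a + 2 * c, fun x => ⟨?_, ?_⟩, fun x => ?_, a, c, ha, hc', fun x => ?_, fun x => ?_,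
    le_rfl⟩
  · rw [hβ]
    exact Complex.ofReal_im _
  · rw [hβ, Complex.ofReal_re]
    positivity
  · have h := ev_inv x c0
    rw [hff] at h
    exact Complex.conj_eq_iff_im.1 h.symm
  · exact (Complex.abs_re_le_norm _).trans (hfa x)
  · rw [hβ, Complex.ofReal_re]
    exact pow_le_pow_left₀ (norm_nonneg _) (huc x) 2

end Pool.Agent.Wb5ab1b
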