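import Pool.Agent.W_b5ab1b_h80.GMain
import Pool.Agent.W_b5ab1b_h80.GGrp
import Pool.Agent.W_b5ab1b_h80.GGen

/-!
# Self-adjoint elements of t-degree at most one of the group ring of A wr Z (helper80)
-/

set_option autoImplicit false

noncomputable section

open MeasureTheory

namespace Pool.Agent.Wb5ab1b

/-- Assembly for `ℤ^k`. -/
theorem final_k {k : ℕ} (T : MonoidAlgebra ℝ (Wr (Fin k → ℤ))) (hT : ∀ g, T.coeff g⁻¹ = T.coeff g)
    (hs : ∀ g, T.coeff g ≠ 0 → |Multiplicative.toAdd g.right| ≤ 1) :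
    ∃ (μ : Measure ℝ) (M : ℝ), IsProbabilityMeasure μ ∧ μ (Set.Icc (-M) M)ᶜ = 0 ∧
      (∀ n : ℕ, ∫ x, x ^ n ∂μ = (T ^ n).coeff 1) ∧
      ∃ F : Finset ℝ, (μ.restrict (F : Set ℝ)ᶜ).AbsolutelyContinuous volume := by
  obtain ⟨c1, c0, hc0, rfl⟩ := eq_firstOrder T hT hs
  obtain ⟨M, hM⟩ := exists_ggood c1 c0 hc0
  obtain ⟨μ, hμ1, hμM, hμ, F, hF⟩ := main_torus_g hM
  refine ⟨μ, M, hμ1, hμM, fun n => ?_, F, hF⟩
  have h1 := hμ n
  rw [← moment_g] at h1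
  exact_mod_cast h1

/-- Assembly (helper80). -/
theorem final_g (A : Type) [AddCommGroup A] [IsAddTorsionFree A] (T : MonoidAlgebra ℝ (Wr A))
    (hT : ∀ g, T.coeff g⁻¹ = T.coeff g)
    (hs : ∀ g, T.coeff g ≠ 0 → |Multiplicative.toAdd g.right| ≤ 1) :
    ∃ μ : Measure ℝ, IsSpectralMeasure T μ ∧
      (∀ ν : Measure ℝ, IsSpectralMeasure T ν → ν = μ) ∧
      ∃ F : Finset ℝ, (μ.restrict (F : Set ℝ)ᶜ).AbsolutelyContinuous volume := by
  obtain ⟨k, φ, T0, hφ, rfl⟩ := exists_model_g A T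
  have hinj := GenB_wr_injective φ hφ
  have hco : ∀ g, (MonoidAlgebra.mapDomain (GenB_wr φ) T0).coeff (GenB_wr φ g) = T0.coeff g :=
    fun g => Finsupp.mapDomain_apply hinj _ _
  have hT0 : ∀ g, T0.coeff g⁻¹ = T0.coeff g := by
    intro g
    rw [← hco, ← hco, map_inv]
    exact hT _
  have hs0 : ∀ g, T0.coeff g ≠ 0 → |Multiplicative.toAdd g.right| ≤ 1 := by
    intro g hg
    rw [← hco] at hg
    exact hs _ hg
  obtain ⟨μ, M, hμ1, hμM, hμ, F, hF⟩ := final_k T0 hT0 hs0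
  have hmom : ∀ n : ℕ, ∫ x, x ^ n ∂μ = ((MonoidAlgebra.mapDomain (GenB_wr φ) T0) ^ n).coeff 1 := by
    intro n
    rw [hμ n]
    have h1 : MonoidAlgebra.mapDomain (GenB_wr φ) T0 ^ n =
        MonoidAlgebra.mapDomain (GenB_wr φ) (T0 ^ n) :=
      (map_pow (MonoidAlgebra.mapDomainRingHom ℝ (GenB_wr φ)) T0 n).symm
    rw [h1, show (1 : Wr A) = GenB_wr φ 1 from (map_one _).symm]
    exact (Finsupp.mapDomain_apply hinj _ _).symm
  refine ⟨μ, ⟨hμ1, ⟨M, hμM⟩, hmom⟩, ?_, F, hF⟩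
  intro ν ⟨hν1, ⟨M', hνM⟩, hν⟩
  have hsub : ∀ {a b : ℝ} {ρ : Measure ℝ}, a ≤ b → ρ (Set.Icc (-a) a)ᶜ = 0 →
      ρ (Set.Icc (-b) b)ᶜ = 0 := by
    intro a b ρ hab h0
    apply measure_mono_null _ h0
    apply Set.compl_subset_compl.mpr
    exact Set.Icc_subset_Icc (by linarith) hab
  exact moments_unique ν μ (max M M') (hsub (le_max_right _ _) hνM) (hsub (le_max_left _ _) hμM)
    fun n => (hν n).trans (hmom n).symm

end Pool.Agent.Wb5ab1b
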