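import Mathlib

/-!
# Functionals with values in a field (helper80)
-/

set_option autoImplicit false

noncomputable section

open scoped Polynomial
open Polynomial (X C)

namespace Pool.Agent.Wb5ab1b

/-- If no nonzero scalar carries `z` into the submodule `N`, there is a functional which vanishes on `N` and
not at `z`, with values in any field which contains the domain `A`. Proof: the module `M ⧸ N` localized at
the nonzero elements of `A` (`LocalizedModule`, or the tensor product with the fraction field) is a
vector space over the fraction field `F` of `A`; the image of the class of `z` is not `0` because the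
class of `z` is not a torsion element; choose a linear functional to `F` which does not vanish on it, and
compose it with the homomorphism `F → 𝕂` which extends `φ`. -/
theorem exists_functional {A : Type} [CommRing A] [IsDomain A] {M : Type} [AddCommGroup M]
    [Module A M] (N : Submodule A M) (z : M) (hz : ∀ κ : A, κ ≠ 0 → κ • z ∉ N) {𝕂 : Type}
    [Field 𝕂] (φ : A →+* 𝕂) (hφ : Function.Injective φ) :
    ∃ g : M →+ 𝕂, (∀ (a : A) (m : M), g (a • m) = φ a * g m) ∧ (∀ m ∈ N, g m = 0) ∧ g z ≠ 0 := by
  let F := FractionRing A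
  let ι : (M ⧸ N) →ₗ[A] LocalizedModule (nonZeroDivisors A) (M ⧸ N) :=
    LocalizedModule.mkLinearMap (nonZeroDivisors A) (M ⧸ N)
  have hne : ι (N.mkQ z) ≠ 0 := by
    intro h0
    obtain ⟨c, hc⟩ := (IsLocalizedModule.eq_zero_iff (nonZeroDivisors A) ι).1 h0
    have hc0 : (c : A) ≠ 0 := nonZeroDivisors.coe_ne_zero c
    refine hz c hc0 ?_
    have h1 : N.mkQ ((c : A) • z) = 0 := by
      rw [map_smul]
      exact hc
    rwa [Submodule.mkQ_apply, Submodule.Quotient.mk_eq_zero] at h1
  have hf : ∃ f : LocalizedModule (nonZeroDivisors A) (M ⧸ N) →ₗ[F] F, f (ι (N.mkQ z)) ≠ 0 := by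
    by_contra hcon
    push Not at hcon
    exact hne ((Module.forall_dual_apply_eq_zero_iff F _).1 hcon)
  obtain ⟨f, hf⟩ := hf
  let ψ : F →+* 𝕂 := IsFractionRing.lift hφ
  have hψ : ∀ a : A, ψ (algebraMap A F a) = φ a := fun a => IsFractionRing.lift_algebraMap hφ a
  have hsm : ∀ (a : A) (v : LocalizedModule (nonZeroDivisors A) (M ⧸ N)),
      f (a • v) = algebraMap A F a * f v := by
    intro a v
    rw [← algebraMap_smul F a v, map_smul, smul_eq_mul]
  refine ⟨(ψ : F →+ 𝕂).comp (f.toAddMonoidHom.comp (ι.toAddMonoidHom.comp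
    N.mkQ.toAddMonoidHom)), ?_, ?_, ?_⟩
  · intro a m
    show ψ (f (ι (N.mkQ (a • m)))) = φ a * ψ (f (ι (N.mkQ m)))
    rw [map_smul, map_smul, hsm, map_mul, hψ]
  · intro m hm
    show ψ (f (ι (N.mkQ m))) = 0
    have h1 : N.mkQ m = 0 := by
      rw [Submodule.mkQ_apply, Submodule.Quotient.mk_eq_zero]
      exact hm
    rw [h1, map_zero, map_zero, map_zero]
  · show ψ (f (ι (N.mkQ z))) ≠ 0
    exact fun h0 => hf ((map_eq_zero ψ).1 h0)

end Pool.Agent.Wb5ab1b
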