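import Pool.Agent.W_b5ab1b_h80.Jac2

/-!
# Derivative of the trace of a power, several sites (helper80)
-/

set_option autoImplicit false

noncomputable section

open scoped Polynomial
open Polynomial (X C)

namespace Pool.Agent.Wb5ab1b

variable {R : Type} [CommRing R]

private theorem GJac_shift (g : ℤ → R) (lo hi : ℤ) (hg : ∀ m, g m ≠ 0 → lo + 1 ≤ m ∧ m ≤ hi - 1) :
    (∑ m ∈ Finset.Icc lo hi, g (m - 1) = ∑ m ∈ Finset.Icc lo hi, g m) ∧
      (∑ m ∈ Finset.Icc lo hi, g (m + 1) = ∑ m ∈ Finset.Icc lo hi, g m) := by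
  have h0 : ∑ᶠ m, g m = ∑ m ∈ Finset.Icc lo hi, g m := by
    refine finsum_eq_sum_of_support_subset _ (fun m hm => ?_)
    have := hg m hm
    rw [Finset.coe_Icc, Set.mem_Icc]
    omega
  have h1 : ∑ᶠ m, g (m - 1) = ∑ m ∈ Finset.Icc lo hi, g (m - 1) := by
    refine finsum_eq_sum_of_support_subset _ (fun m hm => ?_)
    have := hg (m - 1) hm
    rw [Finset.coe_Icc, Set.mem_Icc]
    omega
  have h2 : ∑ᶠ m, g (m + 1) = ∑ m ∈ Finset.Icc lo hi, g (m + 1) := by
    refine finsum_eq_sum_of_support_subset _ (fun m hm => ?_)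
    have := hg (m + 1) hm
    rw [Finset.coe_Icc, Set.mem_Icc]
    omega
  have h3 : ∑ᶠ m, g (m - 1) = ∑ᶠ m, g m := finsum_comp_equiv (Equiv.subRight (1 : ℤ)) (f := g)
  have h4 : ∑ᶠ m, g (m + 1) = ∑ᶠ m, g m := finsum_comp_equiv (Equiv.addRight (1 : ℤ)) (f := g)
  exact ⟨by rw [← h1, h3, h0], by rw [← h2, h4, h0]⟩

private theorem GJac_succ (b v : ℤ → R) (j : ℕ) (m n : ℤ) :
    pw b v (j + 1) m n = pw b v j (m + 1) n + v m * pw b v j m n + b (m - 1) * pw b v j (m - 1) n := by
  rw [pw_eq, pwg_succ, pw_eq, pw_eq, pw_eq, one_mul]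

private theorem GJac_succ' (b v : ℤ → R) (j : ℕ) (m n : ℤ) :
    pw b v (j + 1) m n = pw b v j m (n - 1) + v n * pw b v j m n + b n * pw b v j m (n + 1) := by
  rw [pw_eq, pwg_succ', pw_eq, pw_eq, pw_eq, one_mul]

private theorem GJac_zero (b v : ℤ → R) (m n : ℤ) : pw b v 0 m n = if m = n then 1 else 0 := by
  rw [pw_eq, pwg_zero]

private theorem GJac_eq_zero (b v : ℤ → R) (j : ℕ) (m n : ℤ) (h : (j : ℤ) < |m - n|) :
    pw b v j m n = 0 := by
  rw [pw_eq, pwg_eq_zero _ _ _ _ _ _ h]

/-- composition of powers, a window which need not be centred -/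
private theorem GJac_comp (b v : ℤ → R) (n n' lo hi : ℤ) (a : ℕ) (h1 : lo ≤ n - a) (h2 : n + a ≤ hi)
    (c : ℕ) :
    ∑ m ∈ Finset.Icc lo hi, pw b v a n m * pw b v c m n' = pw b v (a + c) n n' := by
  induction a generalizing c with
  | zero =>
    push_cast at h1 h2
    rw [Finset.sum_eq_single n]
    · rw [GJac_zero, if_pos rfl, one_mul, zero_add]
    · intro m _ hm
      rw [GJac_zero, if_neg (Ne.symm hm), zero_mul]
    · intro h
      exfalso
      apply h
      rw [Finset.mem_Icc]
      omega
  | succ a ih =>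
    push_cast at h1 h2
    have hsupp : ∀ m, pw b v a n m ≠ 0 → lo + 1 ≤ m ∧ m ≤ hi - 1 := by
      intro m hm
      by_contra hcon
      apply hm
      apply GJac_eq_zero
      rw [lt_abs]
      by_contra h2'
      apply hcon
      push Not at h2'
      omega
    have e1 := (GJac_shift (fun m => pw b v a n m * pw b v c (m + 1) n') lo hi
      (fun m hm => hsupp m (left_ne_zero_of_mul hm))).1
    have e2 := (GJac_shift (fun m => pw b v a n m * (b (m - 1) * pw b v c (m - 1) n')) lo hi
      (fun m hm => hsupp m (left_ne_zero_of_mul hm))).2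
    simp only [sub_add_cancel, add_sub_cancel_right] at e1 e2
    have e3 : ∑ m ∈ Finset.Icc lo hi, pw b v (a + 1) n m * pw b v c m n' =
        ∑ m ∈ Finset.Icc lo hi, pw b v a n (m - 1) * pw b v c m n' +
        ∑ m ∈ Finset.Icc lo hi, pw b v a n m * (v m * pw b v c m n') +
        ∑ m ∈ Finset.Icc lo hi, pw b v a n (m + 1) * (b m * pw b v c m n') := by
      rw [← Finset.sum_add_distrib, ← Finset.sum_add_distrib]
      refine Finset.sum_congr rfl fun m _ => ?_
      rw [GJac_succ']
      ring
    rw [e3, e1, e2, ← Finset.sum_add_distrib, ← Finset.sum_add_distrib]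
    have h4 : a + 1 + c = a + (c + 1) := by omega
    rw [h4, ← ih (by omega) (by omega) (c + 1)]
    refine Finset.sum_congr rfl fun m _ => ?_
    rw [GJac_succ b v c]
    ring

/-- derivative of an entry of a power, `s` a finite set of sites -/
private theorem GJac_der (D : R →+ R) (hD : ∀ x y, D (x * y) = x * D y + y * D x) (b v : ℤ → R)
    (s : Finset ℤ) (hb : ∀ m, m ∉ s → D (b m) = 0) (hv : ∀ m, m ∉ s → D (v m) = 0)
    (j : ℕ) (m m' : ℤ) :
    D (pw b v j m m') = ∑ i ∈ Finset.range j, ∑ k ∈ s,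
      (D (v k) * pw b v i m k + D (b k) * pw b v i m (k + 1)) * pw b v (j - 1 - i) k m' := by
  have h1 : D 1 = 0 := by
    have h := hD 1 1
    rw [mul_one, one_mul] at h
    have h2 : D 1 + D 1 = D 1 + 0 := by rw [add_zero]; exact h.symm
    exact add_left_cancel h2
  induction j generalizing m with
  | zero =>
    rw [GJac_zero, Finset.sum_range_zero]
    split_ifs
    · exact h1
    · exact map_zero D
  | succ j ih =>
    rw [GJac_succ, map_add, map_add, hD, hD, ih, ih, ih, Finset.sum_range_succ']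
    have e1 : ∀ i ∈ Finset.range j, ∑ k ∈ s, (D (v k) * pw b v (i + 1) m k +
        D (b k) * pw b v (i + 1) m (k + 1)) * pw b v (j + 1 - 1 - (i + 1)) k m' =
        ∑ k ∈ s, (D (v k) * pw b v i (m + 1) k + D (b k) * pw b v i (m + 1) (k + 1)) *
            pw b v (j - 1 - i) k m' +
          v m * ∑ k ∈ s, ((D (v k) * pw b v i m k + D (b k) * pw b v i m (k + 1)) *
            pw b v (j - 1 - i) k m') +
          b (m - 1) * ∑ k ∈ s, ((D (v k) * pw b v i (m - 1) k + D (b k) * pw b v i (m - 1) (k + 1)) *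
            pw b v (j - 1 - i) k m') := by
      intro i hi
      rw [Finset.mem_range] at hi
      have e2 : j + 1 - 1 - (i + 1) = j - 1 - i := by omega
      rw [Finset.mul_sum, Finset.mul_sum, ← Finset.sum_add_distrib, ← Finset.sum_add_distrib]
      refine Finset.sum_congr rfl fun k _ => ?_
      rw [e2, GJac_succ b v i m k, GJac_succ b v i m (k + 1)]
      ring
    rw [Finset.sum_congr rfl e1, Finset.sum_add_distrib, Finset.sum_add_distrib, ← Finset.mul_sum,
      ← Finset.mul_sum]
    have e3 : pw b v j m m' * D (v m) + pw b v j (m - 1) m' * D (b (m - 1)) =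
        ∑ k ∈ s, (D (v k) * pw b v 0 m k + D (b k) * pw b v 0 m (k + 1)) *
          pw b v (j + 1 - 1 - 0) k m' := by
      have e4 : j + 1 - 1 - 0 = j := by omega
      rw [e4]
      have e5 : ∀ k ∈ s, (D (v k) * pw b v 0 m k + D (b k) * pw b v 0 m (k + 1)) * pw b v j k m' =
          (if k = m then D (v k) * pw b v j k m' else 0) +
            (if k = m - 1 then D (b k) * pw b v j k m' else 0) := by
        intro k _
        rw [GJac_zero, GJac_zero]
        by_cases c1 : k = m
        · subst c1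
          rw [if_pos rfl, if_pos rfl, if_neg (by omega), if_neg (by omega)]
          ring
        · rw [if_neg (Ne.symm c1), if_neg c1]
          by_cases c2 : k = m - 1
          · subst c2
            rw [if_pos (by omega), if_pos rfl]
            ring
          · rw [if_neg (by omega), if_neg c2]
            ring
      rw [Finset.sum_congr rfl e5, Finset.sum_add_distrib, Finset.sum_ite_eq', Finset.sum_ite_eq']
      have e6 : (if m ∈ s then D (v m) * pw b v j m m' else 0) = D (v m) * pw b v j m m' := by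
        split_ifs with c
        · rfl
        · rw [hv m c, zero_mul]
      have e7 : (if m - 1 ∈ s then D (b (m - 1)) * pw b v j (m - 1) m' else 0) =
          D (b (m - 1)) * pw b v j (m - 1) m' := by
        split_ifs with c
        · rfl
        · rw [hb (m - 1) c, zero_mul]
      rw [e6, e7]
      ring
    linear_combination e3

/-- The same as `der_trace` (file `Jac2`, adapt its proof: make the lemmas of `Jac2` about `D` depend on
the set `[n - r, n + r]` of sites instead of one site), for a derivation which kills all the coefficients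
outside of `[n - r, n + r]`. -/
theorem der_trace_g (D : R →+ R) (hD : ∀ x y, D (x * y) = x * D y + y * D x) (b v : ℤ → R) (n : ℤ)
    (r : ℕ) (hb : ∀ m, m ∉ Finset.Icc (n - r) (n + r) → D (b m) = 0)
    (hv : ∀ m, m ∉ Finset.Icc (n - r) (n + r) → D (v m) = 0) (j : ℕ) (L : ℤ)
    (hL : (j : ℤ) + 2 + r ≤ L) :
    D (∑ m ∈ Finset.Icc (n - L) (n + L), pw b v (j + 1) m m) =
      ((j : R) + 1) * ∑ m ∈ Finset.Icc (n - r) (n + r),
        (D (v m) * pw b v j m m + D (b m) * pw b v j m (m + 1)) := by
  rw [map_sum]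
  have h1 : ∀ m ∈ Finset.Icc (n - L) (n + L), D (pw b v (j + 1) m m) =
      ∑ i ∈ Finset.range (j + 1), ∑ k ∈ Finset.Icc (n - (r : ℤ)) (n + r),
        (D (v k) * (pw b v (j - i) k m * pw b v i m k) +
        D (b k) * (pw b v (j - i) k m * pw b v i m (k + 1))) := by
    intro m _
    rw [GJac_der D hD b v _ hb hv]
    refine Finset.sum_congr rfl fun i _ => Finset.sum_congr rfl fun k _ => ?_
    rw [Nat.add_sub_cancel]
    ring
  rw [Finset.sum_congr rfl h1, Finset.sum_comm]
  have h2 : ∀ i ∈ Finset.range (j + 1), ∑ m ∈ Finset.Icc (n - L) (n + L),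
      ∑ k ∈ Finset.Icc (n - (r : ℤ)) (n + r), (D (v k) * (pw b v (j - i) k m * pw b v i m k) +
        D (b k) * (pw b v (j - i) k m * pw b v i m (k + 1))) =
      ∑ k ∈ Finset.Icc (n - (r : ℤ)) (n + r),
        (D (v k) * pw b v j k k + D (b k) * pw b v j k (k + 1)) := by
    intro i hi
    rw [Finset.mem_range] at hi
    rw [Finset.sum_comm]
    refine Finset.sum_congr rfl fun k hk => ?_
    rw [Finset.mem_Icc] at hk
    have h3 : ((j - i : ℕ) : ℤ) ≤ j := by omega
    rw [Finset.sum_add_distrib, ← Finset.mul_sum, ← Finset.mul_sum,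
      GJac_comp b v k k _ _ _ (by omega) (by omega),
      GJac_comp b v k (k + 1) _ _ _ (by omega) (by omega)]
    have h4 : j - i + i = j := by omega
    rw [h4]
  rw [Finset.sum_congr rfl h2, Finset.sum_const, Finset.card_range, nsmul_eq_mul]
  push_cast
  ring

end Pool.Agent.Wb5ab1b
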