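import Mathlib

/-!
# A positive functional on a dense family of continuous functions is a measure (helper80)
-/

set_option autoImplicit false

noncomputable section

open MeasureTheory

namespace Pool.Agent.Wb5ab1b

open CompactlySupported in
/-- Proof. If `e g = 0` then `ℓ g = 0` (positivity of `g` and `-g`), so `ℓ` descends to the range of `e`;
with `g1` such that `e g1 = 1` one has `|ℓ g| ≤ ℓ g1 * ‖e g‖`; so it extends to a continuous linear
functional `Λ` on `C(X, ℝ)`. It is positive: for `f ≥ 0` and `ε > 0` choose `g` with `‖e g - (f + ε)‖ ≤ ε`,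
then `e g ≥ 0`, so `Λ (f + ε) ≥ - ε ℓ g1`; let `ε → 0`. Then use the Riesz-Markov-Kakutani theorem of
Mathlib (`RealRMK.rieszMeasure`, `RealRMK.integral_rieszMeasure`) for `C_c(X, ℝ)` = `C(X, ℝ)`, or the
existing extension theorem for positive functionals on subspaces. -/
theorem exists_measure {X : Type} [TopologicalSpace X] [CompactSpace X] [T2Space X]
    [MeasurableSpace X] [BorelSpace X] {V : Type} [AddCommGroup V] [Module ℝ V]
    (e : V →ₗ[ℝ] C(X, ℝ)) (hd : DenseRange e) (h1 : ∃ g, e g = 1) (l : V →ₗ[ℝ] ℝ)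
    (hpos : ∀ g, (∀ x, 0 ≤ e g x) → 0 ≤ l g) :
    ∃ p : Measure X, IsFiniteMeasure p ∧ ∀ g, ∫ x, e g x ∂p = l g := by
  classical
  have _ := hd
  have hker : ∀ g, e g = 0 → l g = 0 := by
    intro g hg
    have h2 := hpos g (fun x => by rw [hg]; simp)
    have h3 := hpos (-g) (fun x => by rw [map_neg, hg]; simp)
    rw [map_neg] at h3
    linarith
  have hle : LinearMap.ker e ≤ LinearMap.ker l := fun g hg => hker g hg
  let l0 : LinearMap.range e →ₗ[ℝ] ℝ :=
    ((LinearMap.ker e).liftQ l hle).comp (e.quotKerEquivRange.symm : _ →ₗ[ℝ] _)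
  have hl0 : ∀ g, l0 ⟨e g, LinearMap.mem_range_self e g⟩ = l g := by
    intro g
    have h4 : e.quotKerEquivRange (Submodule.Quotient.mk g) = ⟨e g, LinearMap.mem_range_self e g⟩ := by
      apply Subtype.ext
      exact LinearMap.quotKerEquivRange_apply_mk e g
    have h5 : e.quotKerEquivRange.symm ⟨e g, LinearMap.mem_range_self e g⟩
        = Submodule.Quotient.mk g := by
      rw [← h4, LinearEquiv.symm_apply_apply]
    change (LinearMap.ker e).liftQ l hle (e.quotKerEquivRange.symm _) = l g
    rw [h5]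
    exact Submodule.liftQ_apply _ _ _
  let s : PointedCone ℝ C(X, ℝ) :=
    { carrier := {f | ∀ x, 0 ≤ f x}
      add_mem' := fun {a b} ha hb x => by
        have := ha x
        have := hb x
        simp only [ContinuousMap.add_apply]
        linarith
      zero_mem' := fun x => by simp
      smul_mem' := fun c {a} ha x => by
        have h6 : (0 : ℝ) ≤ (c : ℝ) * a x := mul_nonneg c.2 (ha x)
        exact h6 }
  have hs : ∀ f : C(X, ℝ), f ∈ s ↔ ∀ x, 0 ≤ f x := fun f => Iff.rfl
  obtain ⟨g1, hg1⟩ := h1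
  obtain ⟨L, hL1, hL2⟩ := riesz_extension s ⟨LinearMap.range e, l0⟩ (by
      rintro ⟨f, g, rfl⟩ hf
      have h7 : 0 ≤ l g := hpos g ((hs _).1 hf)
      have h8 := hl0 g
      change 0 ≤ l0 ⟨e g, _⟩
      rw [h8]
      exact h7) (by
      intro y
      obtain ⟨C, hC⟩ : ∃ C : ℝ, ∀ x, ‖y x‖ ≤ C := by
        have hcomp : IsCompact (Set.range fun x => ‖y x‖) :=
          isCompact_range (y.continuous.norm)
        obtain ⟨C, hC⟩ := hcomp.bddAbove
        exact ⟨C, fun x => hC ⟨x, rfl⟩⟩
      refine ⟨⟨e (C • g1), LinearMap.mem_range_self e _⟩, ?_⟩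
      rw [hs]
      intro x
      have h9 := hC x
      have h10 := neg_abs_le (y x)
      rw [Real.norm_eq_abs] at h9
      simp only [map_smul, hg1, ContinuousMap.add_apply, ContinuousMap.smul_apply,
        ContinuousMap.one_apply, smul_eq_mul, mul_one]
      linarith)
  let La : C_c(X, ℝ) →ₗ[ℝ] ℝ :=
    { toFun := fun f => L (f : C(X, ℝ))
      map_add' := fun a b => by
        rw [← map_add]
        congr 1
      map_smul' := fun c a => by
        rw [RingHom.id_apply, ← map_smul]
        congr 1 }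
  let Lp : C_c(X, ℝ) →ₚ[ℝ] ℝ := PositiveLinearMap.mk₀ La (fun f hf => hL2 _ (fun x => hf x))
  refine ⟨RealRMK.rieszMeasure Lp, inferInstance, ?_⟩
  intro g
  have h11 := RealRMK.integral_rieszMeasure Lp (CompactlySupportedContinuousMap.continuousMapEquiv (e g))
  have h12 : Lp (CompactlySupportedContinuousMap.continuousMapEquiv (e g)) = l g := by
    have h13 : Lp (CompactlySupportedContinuousMap.continuousMapEquiv (e g)) = L (e g) := rfl
    rw [h13]
    exact (hL1 ⟨e g, LinearMap.mem_range_self e g⟩).trans (hl0 g)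
  rw [← h12, ← h11]
  rfl

end Pool.Agent.Wb5ab1b
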