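import Pool.Agent.W_b5ab1b_h80.JointA
import Pool.Agent.W_b5ab1b_h80.Riesz
import Pool.Agent.W_b5ab1b_h80.Dense

/-!
# The joint law of the coefficients at the sites 0, ..., 5 and of the energy (helper80)
-/

set_option autoImplicit false

noncomputable section

open scoped Polynomial
open MeasureTheory

namespace Pool.Agent.Wb5ab1b

variable {k : ℕ}

theorem Joint_app_C (Φ : Fn (Lau k)) (F : Lau k) (G : (Lau k)[X]) :
    Φ.app (Polynomial.C F * G) = F * Φ.app G := by
  rw [← Polynomial.smul_eq_C_mul]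
  exact (show (Lau k)[X] →ₗ[Lau k] Lau k from Φ).map_smul F G

theorem Joint_P_one (b v : ℤ → Lau k) (n : ℤ) : (P b v n).app 1 = 1 := by
  rw [P_app]
  simp [ent]

theorem Joint_cont {d : Type} [Fintype d] (G : (AddMonoidAlgebra ℂ (d → ℤ))[X]) :
    Continuous fun z : UnitAddTorus d × ℝ => evG z G := by
  have h : ∀ z : UnitAddTorus d × ℝ, evG z G =
      ∑ j ∈ Finset.range (G.natDegree + 1), evT (G.coeff j) z.1 * (z.2 : ℂ) ^ j := by
    intro z
    unfold evG
    rw [Polynomial.coe_eval₂RingHom, Polynomial.eval₂_eq_sum_range]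
    rfl
  simp only [h]
  refine continuous_finsetSum _ fun j _ => ?_
  exact ((evT (G.coeff j)).continuous.comp continuous_fst).mul
    ((Complex.continuous_ofReal.comp continuous_snd).pow j)

theorem Joint_ev_C {d : Type} [Fintype d] (z : UnitAddTorus d × ℝ) (c : ℂ)
    (G : (AddMonoidAlgebra ℂ (d → ℤ))[X]) :
    evG z (Polynomial.C (algebraMap ℂ _ c) * G) = c * evG z G := by
  rw [map_mul]
  congr 1
  unfold evG
  rw [Polynomial.coe_eval₂RingHom, Polynomial.eval₂_C]
  exact (evP z.1).commutes c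

theorem Joint_E_C (c : ℂ) (F : Lau k) : E (algebraMap ℂ (Lau k) c * F) = c * E F := by
  rw [← Algebra.smul_def]
  simp [E]

theorem Joint_l_C (Φ : Fn (Lau k)) (c : ℂ) (G : (Lau6 k)[X]) :
    E (Φ.app (emb6X (Polynomial.C (algebraMap ℂ _ c) * G))) = c * E (Φ.app (emb6X G)) := by
  rw [map_mul]
  have h : emb6X (k := k) (Polynomial.C (algebraMap ℂ _ c)) =
      Polynomial.C (algebraMap ℂ (Lau k) c) := by
    unfold emb6X
    rw [Polynomial.coe_mapRingHom, Polynomial.map_C]
    congr 1
    exact (emb6 (k := k)).commutes c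
  rw [h, Joint_app_C, Joint_E_C]

theorem Joint_smul {d : Type} (r : ℝ) (G : (AddMonoidAlgebra ℂ (d → ℤ))[X]) :
    r • G = Polynomial.C (algebraMap ℂ _ (r : ℂ)) * G := by
  rw [← Polynomial.smul_eq_C_mul]
  ext j : 1
  rw [Polynomial.coeff_smul, Polynomial.coeff_smul, smul_eq_mul, ← Algebra.smul_def]
  ext a
  simp

/-- The real parts as a linear map. -/
def Joint_e (k : ℕ) (M : ℝ) :
    (Lau6 k)[X] →ₗ[ℝ] C(UnitAddTorus (Fin 6 × Fin k) × Set.Icc (-M) M, ℝ) where
  toFun G := ⟨fun z => (evG (z.1, (z.2 : ℝ)) G).re, by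
    refine Complex.continuous_re.comp ((Joint_cont G).comp ?_)
    exact continuous_fst.prodMk (continuous_subtype_val.comp continuous_snd)⟩
  map_add' G H := by
    ext z
    show (evG (z.1, (z.2 : ℝ)) (G + H)).re = (evG (z.1, (z.2 : ℝ)) G).re +
      (evG (z.1, (z.2 : ℝ)) H).re
    rw [map_add, Complex.add_re]
  map_smul' r G := by
    ext z
    show (evG (z.1, (z.2 : ℝ)) (r • G)).re = r * (evG (z.1, (z.2 : ℝ)) G).re
    rw [Joint_smul, Joint_ev_C, Complex.re_ofReal_mul]

/-- The functional. -/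
def Joint_l (Φ : Fn (Lau k)) : (Lau6 k)[X] →ₗ[ℝ] ℝ where
  toFun G := (E (Φ.app (emb6X G))).re
  map_add' G H := by
    rw [map_add]
    have h : Φ.app (emb6X G + emb6X H) = Φ.app (emb6X G) + Φ.app (emb6X H) :=
      (show (Lau k)[X] →ₗ[Lau k] Lau k from Φ).map_add _ _
    rw [h, E_add, Complex.add_re]
  map_smul' r G := by
    rw [Joint_smul, Joint_l_C, Complex.re_ofReal_mul]
    rfl

theorem Joint_dense (k : ℕ) (M : ℝ) : DenseRange (Joint_e k M) := by
  intro φ
  rw [Metric.mem_closure_iff]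
  intro ε hε
  obtain ⟨H, hH⟩ := dense_evG M (⟨fun z => ((φ z : ℝ) : ℂ), by
    exact Complex.continuous_ofReal.comp φ.continuous⟩ :
    C(UnitAddTorus (Fin 6 × Fin k) × Set.Icc (-M) M, ℂ)) (ε / 2) (by linarith)
  refine ⟨Joint_e k M H, ⟨H, rfl⟩, ?_⟩
  refine lt_of_le_of_lt ((ContinuousMap.dist_le (by linarith : 0 ≤ ε / 2)).2 fun z => ?_)
    (by linarith : ε / 2 < ε)
  have h1 := hH z
  rw [dist_comm, Real.dist_eq]
  have h2 : Joint_e k M H z - φ z = (evG (z.1, (z.2 : ℝ)) H - ((φ z : ℝ) : ℂ)).re := by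
    rw [Complex.sub_re, Complex.ofReal_re]
    rfl
  rw [h2]
  exact (Complex.abs_re_le_norm _).trans h1

theorem Joint_bound {d : Type} [Fintype d] (M : ℝ) (G : (AddMonoidAlgebra ℂ (d → ℤ))[X]) :
    ∃ B : ℝ, ∀ z : UnitAddTorus d × ℝ, z.2 ∈ Set.Icc (-M) M → ‖evG z G‖ ≤ B := by
  have hc : IsCompact ((Set.univ : Set (UnitAddTorus d)) ×ˢ Set.Icc (-M) M) :=
    isCompact_univ.prod isCompact_Icc
  obtain ⟨B, hB⟩ := hc.exists_bound_of_continuousOn (Joint_cont G).continuousOn
  exact ⟨B, fun z hz => hB z ⟨Set.mem_univ _, hz⟩⟩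

theorem Joint_torus {d : Type} [Fintype d] (μ ν : Measure (UnitAddTorus d)) [IsFiniteMeasure μ]
    [IsFiniteMeasure ν]
    (h : ∀ F : AddMonoidAlgebra ℂ (d → ℤ), ∫ y, evP y F ∂μ = ∫ y, evP y F ∂ν) : μ = ν := by
  refine ext_of_forall_integral_eq_of_IsFiniteMeasure fun f => ?_
  have key : ∀ ε : ℝ, 0 < ε → |∫ y, f y ∂μ - ∫ y, f y ∂ν| ≤
      ε * (μ.real Set.univ + ν.real Set.univ) := by
    intro ε hε
    obtain ⟨H, hH⟩ := dense_evG (d := d) 0 (⟨fun z => ((f z.1 : ℝ) : ℂ), by
      exact Complex.continuous_ofReal.comp (f.continuous.comp continuous_fst)⟩) ε hε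
    have hF : ∀ y, ‖evP y (H.coeff 0) - ((f y : ℝ) : ℂ)‖ ≤ ε := by
      intro y
      have h1 := hH (y, ⟨0, by simp⟩)
      have h2 : evG (y, (0 : ℝ)) H = evP y (H.coeff 0) := by
        unfold evG
        rw [Polynomial.coe_eval₂RingHom]
        show Polynomial.eval₂ _ (((0 : ℝ)) : ℂ) H = _
        rw [Complex.ofReal_zero, Polynomial.eval₂_at_zero]
        rfl
      have h3 : evG (y, (0 : ℝ)) H - ((f y : ℝ) : ℂ) = evP y (H.coeff 0) - ((f y : ℝ) : ℂ) := by
        rw [h2]
      rw [← h3]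
      exact h1
    have hc : Continuous fun y => evP y (H.coeff 0) := (evT (H.coeff 0)).continuous
    have hfc : Continuous fun y => ((f y : ℝ) : ℂ) :=
      Complex.continuous_ofReal.comp f.continuous
    have hgen : ∀ (ρ : Measure (UnitAddTorus d)) [IsFiniteMeasure ρ],
        ‖∫ y, evP y (H.coeff 0) ∂ρ - ∫ y, ((f y : ℝ) : ℂ) ∂ρ‖ ≤ ε * ρ.real Set.univ := by
      intro ρ _
      obtain ⟨B1, hB1⟩ := isCompact_univ.exists_bound_of_continuousOn
        (hc.continuousOn (s := (Set.univ : Set (UnitAddTorus d))))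
      obtain ⟨B2, hB2⟩ := isCompact_univ.exists_bound_of_continuousOn
        (hfc.continuousOn (s := (Set.univ : Set (UnitAddTorus d))))
      rw [← integral_sub (Integrable.of_bound hc.aestronglyMeasurable B1
        (Filter.Eventually.of_forall fun y => hB1 y (Set.mem_univ _)))
        (Integrable.of_bound hfc.aestronglyMeasurable B2
        (Filter.Eventually.of_forall fun y => hB2 y (Set.mem_univ _)))]
      exact norm_integral_le_of_norm_le_const (Filter.Eventually.of_forall hF)
    have h1 := hgen μ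
    have h2 := hgen ν
    rw [h] at h1
    have h3 : ((∫ y, f y ∂μ - ∫ y, f y ∂ν : ℝ) : ℂ) =
        (∫ y, evP y (H.coeff 0) ∂ν - ∫ y, ((f y : ℝ) : ℂ) ∂ν) -
        (∫ y, evP y (H.coeff 0) ∂ν - ∫ y, ((f y : ℝ) : ℂ) ∂μ) := by
      rw [integral_complex_ofReal, integral_complex_ofReal]
      push_cast
      ring
    rw [← Real.norm_eq_abs, ← Complex.norm_real, h3]
    calc _ ≤ _ := norm_sub_le _ _
      _ ≤ ε * ν.real Set.univ + ε * μ.real Set.univ := add_le_add h2 h1
      _ = _ := by ring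
  have h0 : |∫ y, f y ∂μ - ∫ y, f y ∂ν| ≤ 0 := by
    refine le_of_forall_pos_le_add fun δ hδ => ?_
    have hc : 0 ≤ μ.real Set.univ + ν.real Set.univ := by positivity
    have h1 := key (δ / (μ.real Set.univ + ν.real Set.univ + 1)) (by positivity)
    refine h1.trans ?_
    rw [zero_add, div_mul_eq_mul_div, div_le_iff₀ (by positivity)]
    nlinarith
  exact sub_eq_zero.1 (abs_nonpos_iff.1 h0)

/-- The joint measure. Apply `exists_measure` with `X = UnitAddTorus (Fin 6 × Fin k) × Set.Icc (-M) M`,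
`V = (Lau6 k)[X]` as a real vector space, `e G = re (evG · G)`, `l G = re (E (P.app (emb6X G)))`
(`app_nonneg`); the range of `e` is dense by `dense_evG` (real parts). Push the measure forward to `UnitAddTorus × ℝ`. The complex formula follows from the
formula for the real parts of `G` and of `-i G`. Its mass is `E 1 = 1`. For the first marginal: for
`G = C F`, `P.app (C F) = F` (the entry of `J^0`), so `∫ evP y F ∂𝐩 = E (emb6 F) = ∫ evP y F ∂volume` by
`E_emb6`; two finite measures on the torus with the same integrals of all the characters are equal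
(`UnitAddTorus.span_mFourier_closure_eq_top` and `ext_of_forall_integral_eq_of_IsFiniteMeasure`). -/
theorem exists_joint {β v : Loc k} {M : ℝ} (h : Good k β v M) :
    ∃ p : Measure (UnitAddTorus (Fin 6 × Fin k) × ℝ), IsProbabilityMeasure p ∧
      p {z | z.2 ∉ Set.Icc (-M) M} = 0 ∧
      (∀ G : (Lau6 k)[X], ∫ z, evG z G ∂p = E ((P (bb β) (bb v) 1).app (emb6X G))) ∧
      p.map Prod.fst = volume := by
  obtain ⟨p0, hp0, hint⟩ := exists_measure (Joint_e k M) (Joint_dense k M)
    ⟨1, by
      ext z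
      show (evG (z.1, (z.2 : ℝ)) 1).re = 1
      rw [map_one, Complex.one_re]⟩ (Joint_l (P (bb β) (bb v) 1)) (by
      intro G hG
      refine app_nonneg h G fun y x hx => ?_
      exact hG (y, ⟨x, hx⟩))
  let ι : UnitAddTorus (Fin 6 × Fin k) × Set.Icc (-M) M → UnitAddTorus (Fin 6 × Fin k) × ℝ :=
    fun z => (z.1, (z.2 : ℝ))
  have hιc : Continuous ι := continuous_fst.prodMk (continuous_subtype_val.comp continuous_snd)
  have hιm : Measurable ι := hιc.measurable
  have hM : (p0.map ι) {z | z.2 ∉ Set.Icc (-M) M} = 0 := by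
    have hms : MeasurableSet {z : UnitAddTorus (Fin 6 × Fin k) × ℝ | z.2 ∉ Set.Icc (-M) M} :=
      (measurableSet_Icc.preimage measurable_snd).compl
    rw [Measure.map_apply hιm hms]
    have h1 : ι ⁻¹' {z | z.2 ∉ Set.Icc (-M) M} = ∅ := by
      ext z
      simp only [Set.mem_preimage, Set.mem_ofPred_eq, Set.mem_empty_iff_false, iff_false, not_not]
      exact z.2.2
    rw [h1, measure_empty]
  have hfin : IsFiniteMeasure (p0.map ι) := inferInstance
  have hMae : ∀ᵐ z ∂(p0.map ι), z.2 ∈ Set.Icc (-M) M := hM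
  have hintg : ∀ G : (Lau6 k)[X], Integrable (fun z => evG z G) (p0.map ι) := by
    intro G
    obtain ⟨B, hB⟩ := Joint_bound M G
    refine Integrable.of_bound (Joint_cont G).aestronglyMeasurable B ?_
    filter_upwards [hMae] with z hz using hB z hz
  have hre : ∀ G : (Lau6 k)[X], (∫ z, evG z G ∂(p0.map ι)).re =
      (E ((P (bb β) (bb v) 1).app (emb6X G))).re := by
    intro G
    have h1 : (∫ z, evG z G ∂(p0.map ι)).re = ∫ z, (evG z G).re ∂(p0.map ι) :=
      (integral_re (hintg G)).symm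
    have h2 : Continuous fun z : UnitAddTorus (Fin 6 × Fin k) × ℝ => (evG z G).re :=
      Complex.continuous_re.comp (Joint_cont G)
    rw [h1, integral_map hιm.aemeasurable h2.aestronglyMeasurable]
    exact hint G
  have hform : ∀ G : (Lau6 k)[X], ∫ z, evG z G ∂(p0.map ι) =
      E ((P (bb β) (bb v) 1).app (emb6X G)) := by
    intro G
    refine Complex.ext (hre G) ?_
    have h1 := hre (Polynomial.C (algebraMap ℂ _ (-Complex.I)) * G)
    rw [Joint_l_C] at h1
    simp only [Joint_ev_C] at h1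
    rw [integral_const_mul] at h1
    simpa using h1
  have hprob : IsProbabilityMeasure (p0.map ι) := by
    constructor
    have h1 := hform 1
    simp only [map_one] at h1
    rw [Joint_P_one, integral_const] at h1
    have h2 : E (1 : Lau k) = 1 := by simp [E]
    rw [h2] at h1
    have h3 : (p0.map ι).real Set.univ = 1 := by
      have h4 : (((p0.map ι).real Set.univ : ℝ) : ℂ) = 1 := by
        simpa using h1
      exact_mod_cast h4
    rw [measureReal_def] at h3
    exact (ENNReal.toReal_eq_one_iff _).1 h3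
  refine ⟨p0.map ι, hprob, hM, hform, ?_⟩
  have hfin2 : IsFiniteMeasure ((p0.map ι).map Prod.fst) := inferInstance
  refine Joint_torus _ _ fun F => ?_
  rw [integral_map measurable_fst.aemeasurable
    (show Continuous fun y => evP y F from (evT F).continuous).aestronglyMeasurable]
  have h1 := hform (Polynomial.C F)
  have h2 : ∀ z : UnitAddTorus (Fin 6 × Fin k) × ℝ, evG z (Polynomial.C F) = evP z.1 F := by
    intro z
    unfold evG
    rw [Polynomial.coe_eval₂RingHom, Polynomial.eval₂_C]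
    rfl
  simp only [h2] at h1
  rw [h1, ← E_emb6]
  congr 1
  have h3 : emb6X (k := k) (Polynomial.C F) = Polynomial.C (emb6 F) * 1 := by
    unfold emb6X
    rw [Polynomial.coe_mapRingHom, Polynomial.map_C, mul_one]
    rfl
  rw [h3, Joint_app_C, Joint_P_one, mul_one]

end Pool.Agent.Wb5ab1b
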