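import Pool.Agent.W_b5ab1b_h80.GJointA
import Pool.Agent.W_b5ab1b_h80.Joint

/-!
# The joint law of finitely many variables and of the energy (helper80)
-/

set_option autoImplicit false

noncomputable section

open scoped Polynomial
open Polynomial (X C)
open MeasureTheory

namespace Pool.Agent.Wb5ab1b

variable {k : ℕ}

theorem GJoint_l_C (s : Finset (ℤ × Fin k)) (Φ : Fn (Lau k)) (c : ℂ) (G : (LauS s)[X]) :
    E (Φ.app (embSX s (Polynomial.C (algebraMap ℂ _ c) * G))) = c * E (Φ.app (embSX s G)) := by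
  rw [map_mul]
  have h : embSX s (Polynomial.C (algebraMap ℂ _ c)) =
      Polynomial.C (algebraMap ℂ (Lau k) c) := by
    unfold embSX
    rw [Polynomial.coe_mapRingHom, Polynomial.map_C]
    congr 1
    exact (embS s).commutes c
  rw [h, Joint_app_C, Joint_E_C]

/-- The real parts as a linear map. -/
def GJoint_e (s : Finset (ℤ × Fin k)) (M : ℝ) :
    (LauS s)[X] →ₗ[ℝ] C(UnitAddTorus s × Set.Icc (-M) M, ℝ) where
  toFun G := ⟨fun z => (evG (z.1, (z.2 : ℝ)) G).re, by
    refine Complex.continuous_re.comp ((Joint_cont G).comp ?_)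
    exact continuous_fst.prodMk (continuous_subtype_val.comp continuous_snd)⟩
  map_add' G H := by
    ext z
    show (evG (z.1, (z.2 : ℝ)) (G + H)).re = (evG (z.1, (z.2 : ℝ)) G).re +
      (evG (z.1, (z.2 : ℝ)) H).re
    rw [map_add, Complex.add_re]
  map_smul' r G := by
    ext z
    show (evG (z.1, (z.2 : ℝ)) (r • G)).re = r * (evG (z.1, (z.2 : ℝ)) G).re
    rw [Joint_smul, Joint_ev_C, Complex.re_ofReal_mul]

/-- The functional. -/
def GJoint_l (s : Finset (ℤ × Fin k)) (Φ : Fn (Lau k)) : (LauS s)[X] →ₗ[ℝ] ℝ where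
  toFun G := (E (Φ.app (embSX s G))).re
  map_add' G H := by
    rw [map_add]
    have h : Φ.app (embSX s G + embSX s H) = Φ.app (embSX s G) + Φ.app (embSX s H) :=
      (show (Lau k)[X] →ₗ[Lau k] Lau k from Φ).map_add _ _
    rw [h, E_add, Complex.add_re]
  map_smul' r G := by
    rw [Joint_smul, GJoint_l_C, Complex.re_ofReal_mul]
    rfl

theorem GJoint_dense (s : Finset (ℤ × Fin k)) (M : ℝ) : DenseRange (GJoint_e s M) := by
  intro φ
  rw [Metric.mem_closure_iff]
  intro ε hε
  obtain ⟨H, hH⟩ := dense_evG M (⟨fun z => ((φ z : ℝ) : ℂ), by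
    exact Complex.continuous_ofReal.comp φ.continuous⟩ :
    C(UnitAddTorus s × Set.Icc (-M) M, ℂ)) (ε / 2) (by linarith)
  refine ⟨GJoint_e s M H, ⟨H, rfl⟩, ?_⟩
  refine lt_of_le_of_lt ((ContinuousMap.dist_le (by linarith : 0 ≤ ε / 2)).2 fun z => ?_)
    (by linarith : ε / 2 < ε)
  have h1 := hH z
  rw [dist_comm, Real.dist_eq]
  have h2 : GJoint_e s M H z - φ z = (evG (z.1, (z.2 : ℝ)) H - ((φ z : ℝ) : ℂ)).re := by
    rw [Complex.sub_re, Complex.ofReal_re]
    rfl
  rw [h2]
  exact (Complex.abs_re_le_norm _).trans h1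

/-- As `exists_joint` in `Joint` (adapt its proof; many of its lemmas can be cited as they are). -/
theorem exists_joint_g {b v : Lau k} {M : ℝ} (h : GGood k b v M) (s : Finset (ℤ × Fin k)) :
    ∃ p : Measure (UnitAddTorus s × ℝ), IsProbabilityMeasure p ∧
      p {z | z.2 ∉ Set.Icc (-M) M} = 0 ∧
      (∀ G : (LauS s)[X], ∫ z, evG z G ∂p = E ((P (sq b) (sq v) 0).app (embSX s G))) ∧
      p.map Prod.fst = volume := by
  obtain ⟨p0, hp0, hint⟩ := exists_measure (GJoint_e s M) (GJoint_dense s M)
    ⟨1, by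
      ext z
      show (evG (z.1, (z.2 : ℝ)) 1).re = 1
      rw [map_one, Complex.one_re]⟩ (GJoint_l s (P (sq b) (sq v) 0)) (by
      intro G hG
      refine app_nonneg_g h s G fun y x hx => ?_
      exact hG (y, ⟨x, hx⟩))
  let ι : UnitAddTorus s × Set.Icc (-M) M → UnitAddTorus s × ℝ :=
    fun z => (z.1, (z.2 : ℝ))
  have hιc : Continuous ι := continuous_fst.prodMk (continuous_subtype_val.comp continuous_snd)
  have hιm : Measurable ι := hιc.measurable
  have hM : (p0.map ι) {z | z.2 ∉ Set.Icc (-M) M} = 0 := by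
    have hms : MeasurableSet {z : UnitAddTorus s × ℝ | z.2 ∉ Set.Icc (-M) M} :=
      (measurableSet_Icc.preimage measurable_snd).compl
    rw [Measure.map_apply hιm hms]
    have h1 : ι ⁻¹' {z | z.2 ∉ Set.Icc (-M) M} = ∅ := by
      ext z
      simp only [Set.mem_preimage, Set.mem_ofPred_eq, Set.mem_empty_iff_false, iff_false, not_not]
      exact z.2.2
    rw [h1, measure_empty]
  have hfin : IsFiniteMeasure (p0.map ι) := inferInstance
  have hMae : ∀ᵐ z ∂(p0.map ι), z.2 ∈ Set.Icc (-M) M := hM
  have hintg : ∀ G : (LauS s)[X], Integrable (fun z => evG z G) (p0.map ι) := by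
    intro G
    obtain ⟨B, hB⟩ := Joint_bound M G
    refine Integrable.of_bound (Joint_cont G).aestronglyMeasurable B ?_
    filter_upwards [hMae] with z hz using hB z hz
  have hre : ∀ G : (LauS s)[X], (∫ z, evG z G ∂(p0.map ι)).re =
      (E ((P (sq b) (sq v) 0).app (embSX s G))).re := by
    intro G
    have h1 : (∫ z, evG z G ∂(p0.map ι)).re = ∫ z, (evG z G).re ∂(p0.map ι) :=
      (integral_re (hintg G)).symm
    have h2 : Continuous fun z : UnitAddTorus s × ℝ => (evG z G).re :=
      Complex.continuous_re.comp (Joint_cont G)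
    rw [h1, integral_map hιm.aemeasurable h2.aestronglyMeasurable]
    exact hint G
  have hform : ∀ G : (LauS s)[X], ∫ z, evG z G ∂(p0.map ι) =
      E ((P (sq b) (sq v) 0).app (embSX s G)) := by
    intro G
    refine Complex.ext (hre G) ?_
    have h1 := hre (Polynomial.C (algebraMap ℂ _ (-Complex.I)) * G)
    rw [GJoint_l_C] at h1
    simp only [Joint_ev_C] at h1
    rw [integral_const_mul] at h1
    simpa using h1
  have hprob : IsProbabilityMeasure (p0.map ι) := by
    constructor
    have h1 := hform 1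
    simp only [map_one] at h1
    rw [Joint_P_one, integral_const] at h1
    have h2 : E (1 : Lau k) = 1 := by simp [E]
    rw [h2] at h1
    have h3 : (p0.map ι).real Set.univ = 1 := by
      have h4 : (((p0.map ι).real Set.univ : ℝ) : ℂ) = 1 := by
        simpa using h1
      exact_mod_cast h4
    rw [measureReal_def] at h3
    exact (ENNReal.toReal_eq_one_iff _).1 h3
  refine ⟨p0.map ι, hprob, hM, hform, ?_⟩
  have hfin2 : IsFiniteMeasure ((p0.map ι).map Prod.fst) := inferInstance
  refine Joint_torus _ _ fun F => ?_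
  rw [integral_map measurable_fst.aemeasurable
    (show Continuous fun y => evP y F from (evT F).continuous).aestronglyMeasurable]
  have h1 := hform (Polynomial.C F)
  have h2 : ∀ z : UnitAddTorus s × ℝ, evG z (Polynomial.C F) = evP z.1 F := by
    intro z
    unfold evG
    rw [Polynomial.coe_eval₂RingHom, Polynomial.eval₂_C]
    rfl
  simp only [h2] at h1
  rw [h1, ← E_embS]
  congr 1
  have h3 : embSX s (Polynomial.C F) = Polynomial.C (embS s F) * 1 := by
    unfold embSX
    rw [Polynomial.coe_mapRingHom, Polynomial.map_C, mul_one]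
    rfl
  rw [h3, Joint_app_C, Joint_P_one, mul_one]

end Pool.Agent.Wb5ab1b
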