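import Pool.Agent.W_b5ab1b_h80.Lau1

/-!
# Laurent polynomials: mean values (helper80)
-/

set_option autoImplicit false

noncomputable section

open scoped Polynomial

namespace Pool.Agent.Wb5ab1b

variable {k : ℕ}

/-- The sum over the `N`-th roots of unity. -/
theorem Lau2_geom (N : ℕ) (hN : 0 < N) (e : ℤ) (he : e.natAbs < N) :
    ∑ t : Fin N, Complex.exp (2 * Real.pi * Complex.I * (((e : ℝ) * (((t : ℕ) : ℝ) / N) : ℝ) : ℂ)) =
      if e = 0 then (N : ℂ) else 0 := by
  by_cases h0 : e = 0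
  · rw [if_pos h0, h0]
    simp
  · rw [if_neg h0]
    obtain ⟨ζ, hζ⟩ : ∃ ζ, ζ = Complex.exp (2 * Real.pi * Complex.I * ((e : ℂ) / N)) := ⟨_, rfl⟩
    have hNc : (N : ℂ) ≠ 0 := by exact_mod_cast hN.ne'
    have h1 : ∀ t : ℕ, Complex.exp (2 * Real.pi * Complex.I *
        (((e : ℝ) * ((t : ℝ) / N) : ℝ) : ℂ)) = ζ ^ t := by
      intro t
      rw [hζ, ← Complex.exp_nat_mul]
      congr 1
      push_cast
      ring
    have h2 : ζ ^ N = 1 := by
      rw [hζ, ← Complex.exp_nat_mul, Complex.exp_eq_one_iff]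
      refine ⟨e, ?_⟩
      field_simp
    have h3 : ζ ≠ 1 := by
      rw [hζ]
      intro h4
      obtain ⟨n, hn⟩ := Complex.exp_eq_one_iff.1 h4
      have h5 : (2 * (Real.pi : ℂ) * Complex.I) ≠ 0 := by
        simp [Real.pi_ne_zero, Complex.I_ne_zero]
      have h6 : (e : ℂ) / N = n := by
        apply mul_left_cancel₀ h5
        rw [hn]
        ring
      have h7 : (e : ℂ) = n * N := by
        rw [← h6]
        field_simp
      have h8 : e = n * N := by exact_mod_cast h7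
      have h9 : n ≠ 0 := by
        rintro rfl
        exact h0 (by rw [h8, zero_mul])
      have h10 : e.natAbs = n.natAbs * N := by
        rw [h8, Int.natAbs_mul, Int.natAbs_natCast]
      have h11 : 1 ≤ n.natAbs := Int.natAbs_pos.2 h9
      have h12 : N ≤ e.natAbs := by
        rw [h10]
        exact Nat.le_mul_of_pos_left N h11
      omega
    rw [Finset.sum_congr rfl fun (t : Fin N) _ => h1 (t : ℕ), Fin.sum_univ_eq_sum_range (fun t => ζ ^ t) N,
      geom_sum_eq h3, h2, sub_self, zero_div]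

/-- The mean value as a finite average. Let `s` be a finite set of variables containing the supports of
all the exponents of `F`, and `N` larger than all `|η j|`. The average of `ev θ F` over all `θ` with
`θ j ∈ {0, 1/N, ..., (N-1)/N}` for `j ∈ s` and `θ j = 0` otherwise is `E F`, since
`Σ_{t<N} exp(2πi e t/N) = 0` for `0 < |e| < N`. (It is enough to do one variable at a time: averaging
over one variable removes exactly the monomials which contain this variable.) -/
theorem E_eq_average (F : Lau k) :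
    ∃ (ι : Type) (_ : Fintype ι) (_ : Nonempty ι) (θ : ι → (ℤ × Fin k → ℝ)),
      E F = (∑ i, ev (θ i) F) / (Fintype.card ι : ℂ) := by
  classical
  obtain ⟨s, hs⟩ : ∃ s : Finset (ℤ × Fin k), s = F.coeff.support.biUnion fun η => η.support :=
    ⟨_, rfl⟩
  obtain ⟨N, hN⟩ : ∃ N : ℕ, N = 1 + ∑ η ∈ F.coeff.support, ∑ j ∈ s, (η j).natAbs := ⟨_, rfl⟩
  have hNpos : 0 < N := by omega
  have hNlt : ∀ η ∈ F.coeff.support, ∀ j ∈ s, (η j).natAbs < N := by
    intro η hη j hj
    have h1 : (η j).natAbs ≤ ∑ j ∈ s, (η j).natAbs :=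
      Finset.single_le_sum (f := fun j => (η j).natAbs) (fun _ _ => Nat.zero_le _) hj
    have h2 : ∑ j ∈ s, (η j).natAbs ≤ ∑ η ∈ F.coeff.support, ∑ j ∈ s, (η j).natAbs :=
      Finset.single_le_sum (f := fun η : (ℤ × Fin k) →₀ ℤ => ∑ j ∈ s, (η j).natAbs)
        (fun _ _ => Nat.zero_le _) hη
    omega
  have hsub : ∀ η ∈ F.coeff.support, η.support ⊆ s := by
    intro η hη
    rw [hs]
    exact Finset.subset_biUnion_of_mem (fun η : (ℤ × Fin k) →₀ ℤ => η.support) hη
  refine ⟨s → Fin N, inferInstance, ⟨fun _ => ⟨0, hNpos⟩⟩,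
    fun f j => if h : j ∈ s then ((f ⟨j, h⟩ : ℕ) : ℝ) / N else 0, ?_⟩
  have hchr : ∀ (f : s → Fin N) (η : (ℤ × Fin k) →₀ ℤ), η.support ⊆ s →
      chr (fun j => if h : j ∈ s then ((f ⟨j, h⟩ : ℕ) : ℝ) / N else 0) (Multiplicative.ofAdd η) =
      ∏ j : s, Complex.exp (2 * Real.pi * Complex.I *
        (((η j : ℝ) * (((f j : ℕ) : ℝ) / N) : ℝ) : ℂ)) := by
    intro f η hη
    show Complex.exp (2 * Real.pi * Complex.I * ((η.sum fun j e => (e : ℝ) *
      (if h : j ∈ s then ((f ⟨j, h⟩ : ℕ) : ℝ) / N else 0) : ℝ) : ℂ)) = _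
    rw [Finsupp.sum_of_support_subset η hη _ (by intro i _; simp), ← Complex.exp_sum,
      ← Finset.mul_sum, ← Complex.ofReal_sum]
    congr 3
    rw [← Finset.sum_coe_sort]
    refine Finset.sum_congr rfl fun j _ => ?_
    rw [dif_pos j.2]
  have hsum : ∀ η ∈ F.coeff.support, ∑ f : s → Fin N,
      chr (fun j => if h : j ∈ s then ((f ⟨j, h⟩ : ℕ) : ℝ) / N else 0) (Multiplicative.ofAdd η) =
      if η = 0 then ((Fintype.card (s → Fin N) : ℕ) : ℂ) else 0 := by
    intro η hη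
    rw [Finset.sum_congr rfl fun f _ => hchr f η (hsub η hη)]
    have h1 := (Finset.prod_univ_sum (fun _ : s => (Finset.univ : Finset (Fin N)))
      (fun j t => Complex.exp (2 * Real.pi * Complex.I *
        (((η j : ℝ) * (((t : ℕ) : ℝ) / N) : ℝ) : ℂ)))).symm
    rw [Fintype.piFinset_univ] at h1
    rw [h1, Finset.prod_congr rfl fun (j : s) _ =>
      Lau2_geom N hNpos (η j) (hNlt η hη j j.2)]
    by_cases h0 : η = 0
    · rw [if_pos h0, h0]
      simp
    · rw [if_neg h0]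
      obtain ⟨j, hj⟩ : ∃ j, η j ≠ 0 := by
        by_contra h2
        push Not at h2
        exact h0 (Finsupp.ext h2)
      have hjs : j ∈ s := hsub η hη (Finsupp.mem_support_iff.2 hj)
      exact Finset.prod_eq_zero (Finset.mem_univ ⟨j, hjs⟩) (if_neg hj)
  have hev : ∀ θ : ℤ × Fin k → ℝ, ev θ F =
      ∑ η ∈ F.coeff.support, F.coeff η * chr θ (Multiplicative.ofAdd η) := by
    intro θ
    unfold ev
    rw [AddMonoidAlgebra.lift_apply]
    rfl
  have hcard : ((Fintype.card (s → Fin N) : ℕ) : ℂ) ≠ 0 := by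
    have : Nonempty (s → Fin N) := ⟨fun _ => ⟨0, hNpos⟩⟩
    exact_mod_cast Fintype.card_ne_zero
  rw [eq_div_iff hcard, Finset.sum_congr rfl fun f _ => hev _, Finset.sum_comm]
  rw [Finset.sum_congr rfl fun η hη => by rw [← Finset.mul_sum, hsum η hη]]
  unfold E
  rw [Finset.sum_eq_single (0 : (ℤ × Fin k) →₀ ℤ)]
  · rw [if_pos rfl]
  · intro η _ h0
    rw [if_neg h0, mul_zero]
  · intro h0
    rw [Finsupp.notMem_support_iff.1 h0, zero_mul]

/-- From `E_eq_average`. -/
theorem E_bound (F : Lau k) (C : ℝ) (h : ∀ θ : ℤ × Fin k → ℝ, ‖ev θ F‖ ≤ C) : ‖E F‖ ≤ C := by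
  obtain ⟨ι, hι, hne, θ, h1⟩ := E_eq_average F
  have hc : (0 : ℝ) < Fintype.card ι := by exact_mod_cast Fintype.card_pos
  rw [h1, norm_div, Complex.norm_natCast, div_le_iff₀ hc]
  refine (norm_sum_le _ _).trans ?_
  calc ∑ i, ‖ev (θ i) F‖ ≤ ∑ _i : ι, C := Finset.sum_le_sum fun i _ => h (θ i)
    _ = C * Fintype.card ι := by
      rw [Finset.sum_const, Finset.card_univ, nsmul_eq_mul, mul_comm]

/-- From `E_eq_average`. -/
theorem E_nonneg (F : Lau k) (h : ∀ θ : ℤ × Fin k → ℝ, 0 ≤ (ev θ F).re) : 0 ≤ (E F).re := by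
  obtain ⟨ι, hι, hne, θ, h1⟩ := E_eq_average F
  have hc : (0 : ℝ) < Fintype.card ι := by exact_mod_cast Fintype.card_pos
  rw [h1, ← Complex.ofReal_natCast, Complex.div_ofReal_re, Complex.re_sum]
  exact div_nonneg (Finset.sum_nonneg fun i _ => h (θ i)) hc.le

end Pool.Agent.Wb5ab1b
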