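import Pool.Agent.W_b5ab1b_h80.NullA

/-!
# Common roots (helper80)
-/

set_option autoImplicit false

noncomputable section

open scoped Polynomial
open MeasureTheory

namespace Pool.Agent.Wb5ab1b

/-- `evG G` is continuous. -/
theorem evG_continuous {d : Type} [Fintype d] (G : (AddMonoidAlgebra ℂ (d → ℤ))[X]) :
    Continuous fun p : UnitAddTorus d × ℝ => evG p G := by
  have h : (fun p : UnitAddTorus d × ℝ => evG p G) = fun p : UnitAddTorus d × ℝ =>
      ∑ i ∈ Finset.range (G.natDegree + 1), evP p.1 (G.coeff i) * (p.2 : ℂ) ^ i := by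
    funext p
    show Polynomial.eval₂ (evP p.1 : AddMonoidAlgebra ℂ (d → ℤ) →+* ℂ) (p.2 : ℂ) G = _
    rw [Polynomial.eval₂_eq_sum_range]
    rfl
  rw [h]
  refine continuous_finsetSum _ fun i _ => ?_
  refine Continuous.mul ?_ ?_
  · exact (evT (G.coeff i)).continuous.comp continuous_fst
  · exact (Complex.continuous_ofReal.comp continuous_snd).pow i

/-- `evG (y, x) G = evP y (G.eval x)`. -/
theorem evG_eq_evP {d : Type} [Fintype d] (G : (AddMonoidAlgebra ℂ (d → ℤ))[X])
    (y : UnitAddTorus d) (x : ℝ) :
    evG (y, x) G = evP y (G.eval (algebraMap ℂ (AddMonoidAlgebra ℂ (d → ℤ)) (x : ℂ))) := by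
  show Polynomial.eval₂ (evP y : AddMonoidAlgebra ℂ (d → ℤ) →+* ℂ) (x : ℂ) G = _
  have h := Polynomial.eval₂_at_apply (p := G) (evP y : AddMonoidAlgebra ℂ (d → ℤ) →+* ℂ)
    (algebraMap ℂ (AddMonoidAlgebra ℂ (d → ℤ)) (x : ℂ))
  have h2 : (evP y : AddMonoidAlgebra ℂ (d → ℤ) →+* ℂ)
      (algebraMap ℂ (AddMonoidAlgebra ℂ (d → ℤ)) (x : ℂ)) = (x : ℂ) := (evP y).commutes (x : ℂ)
  rw [h2] at h
  exact h

/-- Let `D` be compact. Let `G1` be independent of the variables outside of `s`, `G2` independent of the
variables in `s`, `G1` not the zero polynomial, and `G2` at `x` not the zero Laurent polynomial, for all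
`x ∈ D`. Then the set of all `y` such that the polynomials `G1(y, ·)`, `G2(y, ·)` have a common root in `D`
is a null set.

Proof. The set `Z` is compact (projection of a compact set along the compact `D`). Split the torus into
the variables of `s` and the others (`MeasurableEquiv.piEquivPiSubtypeProd`,
`volume_preserving_piEquivPiSubtypeProd`). By `null_zero`, applied to a nonzero coefficient of `G1`, for
almost every `y` the polynomial `G1(y, ·)` is not zero (this depends only on the variables in `s`), so it
has finitely many roots in `D`; for each such root `x`, the set `{y' | evG (y', x) G2 = 0}` is null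
(`evG_eq_evP`, `null_zero`) and depends only on the variables outside of `s`. So almost every section
of `Z` is null; conclude with Fubini. -/
theorem common_root {d : Type} [Fintype d] (s : Set d) (G1 G2 : (AddMonoidAlgebra ℂ (d → ℤ))[X])
    (hs1 : ∀ y y' : UnitAddTorus d, (∀ i ∈ s, y i = y' i) → ∀ x : ℝ, evG (y, x) G1 = evG (y', x) G1)
    (hs2 : ∀ y y' : UnitAddTorus d, (∀ i ∉ s, y i = y' i) → ∀ x : ℝ, evG (y, x) G2 = evG (y', x) G2)
    (h1 : G1 ≠ 0) (D : Set ℝ) (hD : IsCompact D)
    (h2 : ∀ x ∈ D, G2.eval (algebraMap ℂ (AddMonoidAlgebra ℂ (d → ℤ)) (x : ℂ)) ≠ 0) :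
    volume {y : UnitAddTorus d | ∃ x ∈ D, evG (y, x) G1 = 0 ∧ evG (y, x) G2 = 0} = 0 := by
  classical
  -- translations in the directions outside of `s`
  let φ : UnitAddTorus d → UnitAddTorus d := fun u i => if i ∈ s then 0 else u i
  have hφ : Continuous φ := by
    apply continuous_pi
    intro i
    by_cases h : i ∈ s
    · simp only [φ, if_pos h]
      exact continuous_const
    · simp only [φ, if_neg h]
      exact continuous_apply i
  set Z : Set (UnitAddTorus d) := {y | ∃ x ∈ D, evG (y, x) G1 = 0 ∧ evG (y, x) G2 = 0} with hZdef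
  have hZ : IsClosed Z := by
    have h3 : IsClosed {p : UnitAddTorus d × ℝ | evG p G1 = 0 ∧ evG p G2 = 0} :=
      (isClosed_eq (evG_continuous G1) continuous_const).inter
        (isClosed_eq (evG_continuous G2) continuous_const)
    have h4 : IsCompact ({p : UnitAddTorus d × ℝ | evG p G1 = 0 ∧ evG p G2 = 0} ∩
        (Set.univ ×ˢ D)) := (isCompact_univ.prod hD).inter_left h3
    have h5 := (h4.image continuous_fst).isClosed
    have h6 : Z = Prod.fst '' ({p : UnitAddTorus d × ℝ | evG p G1 = 0 ∧ evG p G2 = 0} ∩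
        (Set.univ ×ˢ D)) := by
      ext y
      constructor
      · rintro ⟨x, hx, h⟩
        exact ⟨(y, x), ⟨h, Set.mem_univ _, hx⟩, rfl⟩
      · rintro ⟨⟨y', x⟩, ⟨h, _, hx⟩, rfl⟩
        exact ⟨x, hx, h⟩
    rw [h6]
    exact h5
  let A : Set (UnitAddTorus d × UnitAddTorus d) := {p | p.1 + φ p.2 ∈ Z}
  have hA : IsClosed A := hZ.preimage (by fun_prop)
  obtain ⟨n, hn⟩ : ∃ n, G1.coeff n ≠ 0 := by
    by_contra h
    push Not at h
    apply h1
    ext1 n
    rw [h n, Polynomial.coeff_zero]
  have hae : ∀ᵐ y : UnitAddTorus d, evP y (G1.coeff n) ≠ 0 := by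
    rw [ae_iff]
    have h := null_zero (G1.coeff n) hn
    simpa using h
  have hm1 : ((volume : Measure (UnitAddTorus d)).prod (volume : Measure (UnitAddTorus d))) A =
      0 := by
    rw [Measure.measure_prod_null hA.measurableSet]
    filter_upwards [hae] with y hy
    have hfin : {x : ℝ | evG (y, x) G1 = 0}.Finite := by
      set q : ℂ[X] := G1.map (evP y : AddMonoidAlgebra ℂ (d → ℤ) →+* ℂ) with hq
      have hq0 : q ≠ 0 := by
        intro h
        apply hy
        have h' := congrArg (fun r => Polynomial.coeff r n) h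
        simp only [hq, Polynomial.coeff_map, Polynomial.coeff_zero] at h'
        exact h'
      have hsub : {x : ℝ | evG (y, x) G1 = 0} ⊆
          (fun x : ℝ => (x : ℂ)) ⁻¹' (q.roots.toFinset : Set ℂ) := by
        intro x hx
        simp only [Set.mem_preimage, Finset.mem_coe, Multiset.mem_toFinset]
        rw [Polynomial.mem_roots hq0, Polynomial.IsRoot.def, hq, Polynomial.eval_map]
        exact hx
      exact (Set.Finite.preimage Complex.ofReal_injective.injOn
        q.roots.toFinset.finite_toSet).subset hsub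
    have hsub : Prod.mk y ⁻¹' A ⊆ ⋃ x ∈ ({x : ℝ | evG (y, x) G1 = 0} ∩ D),
        (fun u : UnitAddTorus d => u + y) ⁻¹' {z : UnitAddTorus d |
          evP z (G2.eval (algebraMap ℂ (AddMonoidAlgebra ℂ (d → ℤ)) (x : ℂ))) = 0} := by
      intro u hu
      obtain ⟨x, hx, hx1, hx2⟩ := hu
      simp only [Set.mem_iUnion, Set.mem_preimage]
      refine ⟨x, ⟨?_, hx⟩, ?_⟩
      · show evG (y, x) G1 = 0
        rw [← hx1]
        apply hs1
        intro i hi
        simp [φ, hi]
      · show evP (u + y) _ = 0
        rw [← evG_eq_evP, ← hx2]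
        apply hs2
        intro i hi
        simp [φ, hi, add_comm]
    refine measure_mono_null hsub ?_
    rw [measure_biUnion_null_iff (hfin.inter_of_left D).countable]
    intro x hx
    rw [measure_preimage_add_right]
    exact null_zero _ (h2 x hx.2)
  have hm2 : ((volume : Measure (UnitAddTorus d)).prod (volume : Measure (UnitAddTorus d))) A =
      volume Z * (volume : Measure (UnitAddTorus d)) Set.univ := by
    rw [Measure.prod_apply_symm hA.measurableSet]
    have : ∀ t, volume ((fun x => (x, t)) ⁻¹' A) = volume Z := by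
      intro t
      exact measure_preimage_add_right volume (φ t) Z
    simp_rw [this]
    rw [lintegral_const]
  rw [hm1] at hm2
  rcases mul_eq_zero.1 hm2.symm with h | h
  · exact h
  · exfalso
    have h' : (volume : Measure (UnitAddTorus d)) = 0 := Measure.measure_univ_eq_zero.1 h
    exact (NeZero.ne (volume : Measure (UnitAddTorus d))) h'

end Pool.Agent.Wb5ab1b
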