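import Pool.Agent.W_b5ab1b_h80.Elim2
import Pool.Agent.W_b5ab1b_h80.NullB
import Pool.Agent.W_b5ab1b_h80.Fin2b
import Pool.Agent.W_b5ab1b_h80.Lau2

/-!
# Preparations for the joint law of the coefficients and of the energy (helper80)
-/

set_option autoImplicit false

noncomputable section

open scoped Polynomial
open MeasureTheory

namespace Pool.Agent.Wb5ab1b

variable {k : ℕ}

/-- The point of the torus with the given real coordinates at the sites `0, ..., 5`. -/
def proj6 (θ : ℤ × Fin k → ℝ) : UnitAddTorus (Fin 6 × Fin k) :=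
  fun p => ((θ (((p.1 : ℕ) : ℤ), p.2) : ℝ) : UnitAddCircle)

theorem JointA_sum (θ : ℤ × Fin k → ℝ) (a : Fin 6 × Fin k → ℤ) :
    ((hom6 a).sum fun j e => (e : ℝ) * θ j) =
      ∑ p : Fin 6 × Fin k, (a p : ℝ) * θ (((p.1 : ℕ) : ℤ), p.2) := by
  unfold hom6
  simp only [AddMonoidHom.coe_mk, ZeroHom.coe_mk]
  rw [← Finsupp.sum_finsetSum_index (by simp) (by intro j x y; push_cast; ring)]
  refine Finset.sum_congr rfl fun i _ => ?_
  rw [Finsupp.sum_single_index (by simp)]

theorem JointA_hom6_apply (a : Fin 6 × Fin k → ℤ) (p : Fin 6 × Fin k) :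
    (hom6 a) (((p.1 : ℕ) : ℤ), p.2) = a p := by
  unfold hom6
  simp only [AddMonoidHom.coe_mk, ZeroHom.coe_mk, Finsupp.coe_finsetSum, Finset.sum_apply,
    Finsupp.single_apply, Prod.mk.injEq]
  rw [Finset.sum_eq_single p]
  · simp
  · intro q _ hq
    rw [if_neg]
    rintro ⟨h1, h2⟩
    exact hq (Prod.ext (Fin.ext (by exact_mod_cast h1)) h2)
  · simp

theorem JointA_hom6_ne (a : Fin 6 × Fin k → ℤ) (ha : a ≠ 0) : hom6 a ≠ 0 := by
  intro h
  apply ha
  funext p
  rw [← JointA_hom6_apply a p, h]
  rfl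

/-- Evaluation commutes with `emb6`; check it on monomials (`ev_single`, `emb6_single`, `evP_single`,
`UnitAddTorus.mFourier`, `fourier_coe_apply`). -/
theorem ev_emb6 (θ : ℤ × Fin k → ℝ) (F : Lau6 k) : ev θ (emb6 F) = evP (proj6 θ) F := by
  induction F using AddMonoidAlgebra.induction_linear with
  | zero => rw [map_zero, map_zero, map_zero]
  | add F1 F2 h1 h2 => rw [map_add, map_add, h1, h2, map_add]
  | single a c =>
    rw [emb6_single, ev_single, evP_single, JointA_sum]
    congr 1
    unfold UnitAddTorus.mFourier proj6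
    simp only [ContinuousMap.coe_mk]
    have h1 : ∀ p : Fin 6 × Fin k, (fourier (a p))
        ((θ (((p.1 : ℕ) : ℤ), p.2) : ℝ) : UnitAddCircle) =
        Complex.exp (2 * Real.pi * Complex.I * ((a p : ℝ) * θ (((p.1 : ℕ) : ℤ), p.2) : ℝ)) := by
      intro p
      rw [fourier_coe_apply]
      congr 1
      push_cast
      ring
    simp_rw [h1]
    rw [← Complex.exp_sum]
    congr 1
    rw [← Finset.mul_sum]
    congr 1
    push_cast
    rfl

theorem JointA_haar : (volume : Measure UnitAddCircle) = AddCircle.haarAddCircle := by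
  rw [AddCircle.volume_eq_smul_haarAddCircle, ENNReal.ofReal_one, one_smul]

theorem JointA_integral {d : Type} [Fintype d] (a : d → ℤ) :
    ∫ y, UnitAddTorus.mFourier a y = if a = 0 then 1 else 0 := by
  classical
  split_ifs with h
  · subst h
    have h0 : IsProbabilityMeasure (volume : Measure UnitAddCircle) := by
      rw [JointA_haar]
      infer_instance
    have h1 := integral_const (α := UnitAddTorus d) (μ := volume) (1 : ℂ)
    rw [probReal_univ, one_smul] at h1
    rw [UnitAddTorus.mFourier_zero]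
    exact h1
  · rw [UnitAddTorus.mFourier, ContinuousMap.coe_mk,
      MeasureTheory.integral_fintype_prod_volume_eq_prod]
    obtain ⟨i, hi⟩ := Function.ne_iff.mp h
    apply Finset.prod_eq_zero (Finset.mem_univ i)
    have h1 := (orthonormal_iff_ite.mp <| orthonormal_fourier (T := 1)) 0 (a i)
    have hi' : ¬ (0 : ℤ) = a i := fun h' => hi (by rw [← h']; rfl)
    rw [if_neg hi', ContinuousMap.inner_toLp] at h1
    simp only [← fourier_neg, ← fourier_add] at h1
    rw [JointA_haar]
    simpa using h1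

/-- The mean value of a Laurent polynomial in the variables of the sites `0, ..., 5` is its integral.
(`hom6` is injective; the integral of `mFourier a` is `0` for `a ≠ 0`, see
`UnitAddTorus.orthonormal_mFourier` or `UnitAddTorus.mFourierCoeff`.) -/
theorem E_emb6 (F : Lau6 k) : E (emb6 F) = ∫ y, evP y F := by
  have hint : ∀ F : Lau6 k, Integrable (fun y => evP y F)
      (volume : Measure (UnitAddTorus (Fin 6 × Fin k))) := by
    intro F
    have h1 : Continuous (fun y : UnitAddTorus (Fin 6 × Fin k) => evP y F) :=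
      (evT F).continuous
    exact h1.integrable_of_hasCompactSupport (HasCompactSupport.of_compactSpace _)
  induction F using AddMonoidAlgebra.induction_linear with
  | zero =>
    rw [map_zero, E_zero]
    simp
  | add F1 F2 h1 h2 =>
    rw [map_add, E_add, h1, h2, ← integral_add (hint F1) (hint F2)]
    simp
  | single a c =>
    rw [emb6_single]
    simp_rw [evP_single]
    rw [integral_const_mul, JointA_integral]
    unfold E
    rw [AddMonoidAlgebra.coeff_single]
    by_cases ha : a = 0
    · subst ha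
      simp
    · rw [Finsupp.single_eq_of_ne (JointA_hom6_ne a ha).symm, if_neg ha, mul_zero]

/-- The real coefficients at a point of the torus. -/
def bR (β : Loc k) (θ : ℤ × Fin k → ℝ) : ℤ → ℝ := fun l => (ev1 (fun i => θ (l, i)) β).re

theorem JointA_pw {β v : Loc k} {M : ℝ} (h : Good k β v M) (θ : ℤ × Fin k → ℝ) (j : ℕ) (m n : ℤ) :
    ev θ (pw (bb β) (bb v) j m n) = ((pw (bR β θ) (bR v θ) j m n : ℝ) : ℂ) := by
  have h1 := map_pw (ev θ : Lau k →+* ℂ) (bb β) (bb v) j m n
  have h2 := map_pw (algebraMap ℝ ℂ) (bR β θ) (bR v θ) j m n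
  have e1 : (fun l => (ev θ : Lau k →+* ℂ) (bb β l)) = fun l => algebraMap ℝ ℂ (bR β θ l) := by
    funext l
    show ev θ (site l β) = ((bR β θ l : ℝ) : ℂ)
    rw [ev_site]
    unfold bR
    exact (Complex.ext (by simp) (by simp [(h.1 _).1]))
  have e2 : (fun l => (ev θ : Lau k →+* ℂ) (bb v l)) = fun l => algebraMap ℝ ℂ (bR v θ l) := by
    funext l
    show ev θ (site l v) = ((bR v θ l : ℝ) : ℂ)
    rw [ev_site]
    unfold bR
    exact (Complex.ext (by simp) (by simp [(h.2.1 _)]))
  rw [e1, e2, ← h2] at h1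
  exact h1

/-- The real part of the evaluation of the entry `(1, 1)` of a polynomial with coefficients in the
variables of the sites `0, ..., 5` is the entry `(1,1)` of the real polynomial of the real parts of the
evaluated coefficients, at the real Jacobi operator. (`ent_eq_sum`, `map_pw`, `ev_site`, `Good`; the
entries of the powers are real.) -/
theorem ev_app_re {β v : Loc k} {M : ℝ} (h : Good k β v M) (θ : ℤ × Fin k → ℝ) (G : (Lau6 k)[X]) :
    (ev θ ((P (bb β) (bb v) 1).app (emb6X G))).re =
      ent (bR β θ) (bR v θ) 1 1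
        (∑ j ∈ Finset.range (G.natDegree + 1),
          Polynomial.monomial j (evP (proj6 θ) (G.coeff j)).re) := by
  rw [P_app, ent_eq_sum, map_sum]
  have h1 : ∀ (j : ℕ) (r : ℝ), ent (bR β θ) (bR v θ) 1 1 (Polynomial.monomial j r) =
      r * pw (bR β θ) (bR v θ) j 1 1 := by
    intro j r
    rw [ent_eq_sum, Polynomial.sum_monomial_index _ _ (by simp)]
  simp_rw [h1]
  have h2 : (emb6X G).natDegree < G.natDegree + 1 :=
    Nat.lt_succ_of_le (Polynomial.natDegree_map_le)
  rw [Polynomial.sum_over_range' _ (fun n => by rw [zero_mul]) _ h2, map_sum, Complex.re_sum]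
  refine Finset.sum_congr rfl fun j _ => ?_
  have h3 : (emb6X G).coeff j = emb6 (G.coeff j) := by
    unfold emb6X
    rw [Polynomial.coe_mapRingHom, Polynomial.coeff_map]
    rfl
  rw [h3, map_mul, ev_emb6, JointA_pw h, Complex.re_mul_ofReal]

/-- Positivity: from `E_nonneg`, `ev_app_re` and `ent_nonneg`; the real polynomial of `ev_app_re` has at
`x` the value `(evG (proj6 θ, x) G).re`. -/
theorem app_nonneg {β v : Loc k} {M : ℝ} (h : Good k β v M) (G : (Lau6 k)[X])
    (hG : ∀ (y : UnitAddTorus (Fin 6 × Fin k)) (x : ℝ), x ∈ Set.Icc (-M) M → 0 ≤ (evG (y, x) G).re) :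
    0 ≤ (E ((P (bb β) (bb v) 1).app (emb6X G))).re := by
  refine E_nonneg _ fun θ => ?_
  rw [ev_app_re h]
  obtain ⟨h1, h2, a, c, ha, hc, hva, hbc, hM⟩ := id h
  refine ent_nonneg _ _ a c M (fun m => (h1 _).2) hc (fun m => hva _) (fun m => hbc _) hM _ ?_ 1
  intro x hx
  have h3 := hG (proj6 θ) x hx
  have h4 : evG (proj6 θ, x) G = ∑ j ∈ Finset.range (G.natDegree + 1),
      evP (proj6 θ) (G.coeff j) * (x : ℂ) ^ j := by
    unfold evG
    rw [Polynomial.coe_eval₂RingHom, Polynomial.eval₂_eq_sum_range]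
    rfl
  rw [h4, Complex.re_sum] at h3
  rw [Polynomial.eval_finsetSum]
  refine h3.trans_eq (Finset.sum_congr rfl fun j _ => ?_)
  rw [Polynomial.eval_monomial, ← Complex.ofReal_pow, Complex.re_mul_ofReal]

end Pool.Agent.Wb5ab1b
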