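import Pool.Agent.W_b5ab1b_h80.GKI
import Pool.Agent.W_b5ab1b_h80.NullB
import Pool.Agent.W_b5ab1b_h80.Fin2b
import Pool.Agent.W_b5ab1b_h80.JointA

/-!
# Preparations for the joint law, general window (helper80)
-/

set_option autoImplicit false

noncomputable section

open scoped Polynomial
open Polynomial (X C)
open MeasureTheory

namespace Pool.Agent.Wb5ab1b

variable {k : ℕ}

theorem embS_single (s : Finset (ℤ × Fin k)) (a : s → ℤ) (c : ℂ) :
    embS s (AddMonoidAlgebra.single a c) = AddMonoidAlgebra.single (homS s a) c := by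
  show AddMonoidAlgebra.mapDomain _ _ = _
  rw [AddMonoidAlgebra.mapDomain_single]

theorem homS_apply (s : Finset (ℤ × Fin k)) (a : s → ℤ) (p : s) : homS s a p = a p := by
  unfold homS
  simp only [AddMonoidHom.coe_mk, ZeroHom.coe_mk, Finsupp.coe_finsetSum, Finset.sum_apply,
    Finsupp.single_apply]
  rw [Finset.sum_eq_single p]
  · rw [if_pos rfl]
  · intro q _ hq
    rw [if_neg]
    intro h
    exact hq (Subtype.ext h)
  · intro h
    exact absurd (Finset.mem_univ p) h

theorem homS_apply_ne (s : Finset (ℤ × Fin k)) (a : s → ℤ) (p : ℤ × Fin k) (hp : p ∉ s) :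
    homS s a p = 0 := by
  unfold homS
  simp only [AddMonoidHom.coe_mk, ZeroHom.coe_mk, Finsupp.coe_finsetSum, Finset.sum_apply,
    Finsupp.single_apply]
  refine Finset.sum_eq_zero fun q _ => ?_
  rw [if_neg]
  intro h
  exact hp (h ▸ q.2)

theorem GJointA_homS_inj (s : Finset (ℤ × Fin k)) : Function.Injective (homS s) := by
  intro a a' h
  funext p
  rw [← homS_apply s a p, h, homS_apply]

theorem embS_injective (s : Finset (ℤ × Fin k)) : Function.Injective (embS s) :=
  AddMonoidAlgebra.mapDomain_injective (GJointA_homS_inj s)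

/-- Every Laurent polynomial whose variables are in `s` comes from `LauS s`. -/
theorem exists_embS (s : Finset (ℤ × Fin k)) (F : Lau k) (hF : ∀ l, l ∉ s → der l F = 0) :
    ∃ G : LauS s, embS s G = F := by
  classical
  have h1 : ∀ η ∈ F.coeff.support, homS s (fun p => η p) = η := by
    intro η hη
    ext p
    by_cases hp : p ∈ s
    · exact homS_apply s (fun p => η p) ⟨p, hp⟩
    · rw [homS_apply_ne s _ p hp]
      have h2 := GKI_coeff p F η
      rw [hF p hp] at h2
      have h3 : F.coeff η ≠ 0 := Finsupp.mem_support_iff.1 hη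
      have h4 : (2 * (Real.pi : ℂ) * Complex.I) ≠ 0 := by
        simp [Real.pi_ne_zero, Complex.I_ne_zero]
      by_contra h5
      have h6 : ((η p : ℤ) : ℂ) ≠ 0 := by exact_mod_cast (Ne.symm h5)
      exact mul_ne_zero (mul_ne_zero h4 h6) h3 h2.symm
  refine ⟨F.coeff.sum fun η c => AddMonoidAlgebra.single (fun p : s => η p) c, ?_⟩
  unfold Finsupp.sum
  rw [map_sum]
  conv_rhs => rw [← AddMonoidAlgebra.sum_coeff_single F]
  unfold Finsupp.sum
  refine Finset.sum_congr rfl fun η hη => ?_
  rw [embS_single, h1 η hη]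

/-- The same for polynomials. -/
theorem exists_embSX (s : Finset (ℤ × Fin k)) (κ : (Lau k)[X])
    (hκ : ∀ l, l ∉ s → ∀ j, der l (κ.coeff j) = 0) : ∃ G : (LauS s)[X], embSX s G = κ := by
  have h1 : ∀ j, ∃ G : LauS s, embS s G = κ.coeff j := fun j =>
    exists_embS s (κ.coeff j) fun l hl => hκ l hl j
  choose G hG using h1
  refine ⟨∑ j ∈ Finset.range (κ.natDegree + 1), Polynomial.monomial j (G j), ?_⟩
  rw [map_sum]
  conv_rhs => rw [κ.as_sum_range]
  refine Finset.sum_congr rfl fun j _ => ?_
  unfold embSX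
  rw [Polynomial.coe_mapRingHom, Polynomial.map_monomial]
  exact congrArg _ (hG j)

theorem GJointA_sum (s : Finset (ℤ × Fin k)) (θ : ℤ × Fin k → ℝ) (a : s → ℤ) :
    ((homS s a).sum fun j e => (e : ℝ) * θ j) =
      ∑ p : s, (a p : ℝ) * θ (p : ℤ × Fin k) := by
  unfold homS
  simp only [AddMonoidHom.coe_mk, ZeroHom.coe_mk]
  rw [← Finsupp.sum_finsetSum_index (by simp) (by intro j x y; push_cast; ring)]
  refine Finset.sum_congr rfl fun i _ => ?_
  rw [Finsupp.sum_single_index (by simp)]

theorem GJointA_homS_ne (s : Finset (ℤ × Fin k)) (a : s → ℤ) (ha : a ≠ 0) : homS s a ≠ 0 := by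
  intro h
  exact ha (GJointA_homS_inj s (by rw [h, map_zero]))

/-- As `ev_emb6` in `JointA`. -/
theorem ev_embS (s : Finset (ℤ × Fin k)) (θ : ℤ × Fin k → ℝ) (F : LauS s) :
    ev θ (embS s F) = evP (projS s θ) F := by
  induction F using AddMonoidAlgebra.induction_linear with
  | zero => rw [map_zero, map_zero, map_zero]
  | add F1 F2 h1 h2 => rw [map_add, map_add, h1, h2, map_add]
  | single a c =>
    rw [embS_single, ev_single, evP_single, GJointA_sum]
    congr 1
    unfold UnitAddTorus.mFourier projS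
    simp only [ContinuousMap.coe_mk]
    have h1 : ∀ p : s, (fourier (a p))
        ((θ (p : ℤ × Fin k) : ℝ) : UnitAddCircle) =
        Complex.exp (2 * Real.pi * Complex.I * ((a p : ℝ) * θ (p : ℤ × Fin k) : ℝ)) := by
      intro p
      rw [fourier_coe_apply]
      congr 1
      push_cast
      ring
    simp_rw [h1]
    rw [← Complex.exp_sum]
    congr 1
    rw [← Finset.mul_sum]
    congr 1
    push_cast
    rfl

/-- As `E_emb6` in `JointA`. -/
theorem E_embS (s : Finset (ℤ × Fin k)) (F : LauS s) : E (embS s F) = ∫ y, evP y F := by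
  have hint : ∀ F : LauS s, Integrable (fun y => evP y F)
      (volume : Measure (UnitAddTorus s)) := by
    intro F
    have h1 : Continuous (fun y : UnitAddTorus s => evP y F) :=
      (evT F).continuous
    exact h1.integrable_of_hasCompactSupport (HasCompactSupport.of_compactSpace _)
  induction F using AddMonoidAlgebra.induction_linear with
  | zero =>
    rw [map_zero, E_zero]
    simp
  | add F1 F2 h1 h2 =>
    rw [map_add, E_add, h1, h2, ← integral_add (hint F1) (hint F2)]
    simp
  | single a c =>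
    rw [embS_single]
    simp_rw [evP_single]
    rw [integral_const_mul, JointA_integral]
    unfold E
    rw [AddMonoidAlgebra.coeff_single]
    by_cases ha : a = 0
    · subst ha
      simp
    · rw [Finsupp.single_eq_of_ne (GJointA_homS_ne s a ha).symm, if_neg ha, mul_zero]

/-- As `ev_app_re` in `JointA` (with `ev_pw_g`). -/
theorem ev_app_re_g {b v : Lau k} {M : ℝ} (h : GGood k b v M) (s : Finset (ℤ × Fin k))
    (θ : ℤ × Fin k → ℝ) (G : (LauS s)[X]) :
    (ev θ ((P (sq b) (sq v) 0).app (embSX s G))).re =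
      ent (gR b θ) (gR v θ) 0 0
        (∑ j ∈ Finset.range (G.natDegree + 1),
          Polynomial.monomial j (evP (projS s θ) (G.coeff j)).re) := by
  rw [P_app, ent_eq_sum, map_sum]
  have h1 : ∀ (j : ℕ) (r : ℝ), ent (gR b θ) (gR v θ) 0 0 (Polynomial.monomial j r) =
      r * pw (gR b θ) (gR v θ) j 0 0 := by
    intro j r
    rw [ent_eq_sum, Polynomial.sum_monomial_index _ _ (by simp)]
  simp_rw [h1]
  have h2 : (embSX s G).natDegree < G.natDegree + 1 :=
    Nat.lt_succ_of_le (Polynomial.natDegree_map_le)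
  rw [Polynomial.sum_over_range' _ (fun n => by rw [zero_mul]) _ h2, map_sum, Complex.re_sum]
  refine Finset.sum_congr rfl fun j _ => ?_
  have h3 : (embSX s G).coeff j = embS s (G.coeff j) := by
    unfold embSX
    rw [Polynomial.coe_mapRingHom, Polynomial.coeff_map]
    rfl
  rw [h3, map_mul, ev_embS, ev_pw_g h, Complex.re_mul_ofReal]

/-- As `app_nonneg` in `JointA`. -/
theorem app_nonneg_g {b v : Lau k} {M : ℝ} (h : GGood k b v M) (s : Finset (ℤ × Fin k))
    (G : (LauS s)[X])
    (hG : ∀ (y : UnitAddTorus s) (x : ℝ), x ∈ Set.Icc (-M) M → 0 ≤ (evG (y, x) G).re) :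
    0 ≤ (E ((P (sq b) (sq v) 0).app (embSX s G))).re := by
  refine E_nonneg _ fun θ => ?_
  rw [ev_app_re_g h]
  obtain ⟨h1, h2, a, c, ha, hc, hva, hbc, hM⟩ := id h
  have hb0 : ∀ m : ℤ, 0 ≤ gR b θ m := by
    intro m
    unfold gR
    rw [ev_sh]
    exact (h1 _).2
  have hb1 : ∀ m : ℤ, gR b θ m ≤ c ^ 2 := by
    intro m
    unfold gR
    rw [ev_sh]
    exact hbc _
  have hv0 : ∀ m : ℤ, |gR v θ m| ≤ a := by
    intro m
    unfold gR
    rw [ev_sh]
    exact hva _
  refine ent_nonneg _ _ a c M hb0 hc hv0 hb1 hM _ ?_ 0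
  intro x hx
  have h3 := hG (projS s θ) x hx
  have h4 : evG (projS s θ, x) G = ∑ j ∈ Finset.range (G.natDegree + 1),
      evP (projS s θ) (G.coeff j) * (x : ℂ) ^ j := by
    unfold evG
    rw [Polynomial.coe_eval₂RingHom, Polynomial.eval₂_eq_sum_range]
    rfl
  rw [h4, Complex.re_sum] at h3
  rw [Polynomial.eval_finsetSum]
  refine h3.trans_eq (Finset.sum_congr rfl fun j _ => ?_)
  rw [Polynomial.eval_monomial, ← Complex.ofReal_pow, Complex.re_mul_ofReal]

end Pool.Agent.Wb5ab1b
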