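import Pool.Agent.W_b5ab1b_h80.Jac1

/-!
# Derivative of the trace of a power (helper80)
-/

set_option autoImplicit false

noncomputable section

open scoped Polynomial

namespace Pool.Agent.Wb5ab1b

variable {R : Type} [CommRing R]

private theorem Jac2_shift (g : ℤ → R) (lo hi : ℤ) (hg : ∀ m, g m ≠ 0 → lo + 1 ≤ m ∧ m ≤ hi - 1) :
    (∑ m ∈ Finset.Icc lo hi, g (m - 1) = ∑ m ∈ Finset.Icc lo hi, g m) ∧
      (∑ m ∈ Finset.Icc lo hi, g (m + 1) = ∑ m ∈ Finset.Icc lo hi, g m) := by
  have h0 : ∑ᶠ m, g m = ∑ m ∈ Finset.Icc lo hi, g m := by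
    refine finsum_eq_sum_of_support_subset _ (fun m hm => ?_)
    have := hg m hm
    rw [Finset.coe_Icc, Set.mem_Icc]
    omega
  have h1 : ∑ᶠ m, g (m - 1) = ∑ m ∈ Finset.Icc lo hi, g (m - 1) := by
    refine finsum_eq_sum_of_support_subset _ (fun m hm => ?_)
    have := hg (m - 1) hm
    rw [Finset.coe_Icc, Set.mem_Icc]
    omega
  have h2 : ∑ᶠ m, g (m + 1) = ∑ m ∈ Finset.Icc lo hi, g (m + 1) := by
    refine finsum_eq_sum_of_support_subset _ (fun m hm => ?_)
    have := hg (m + 1) hm
    rw [Finset.coe_Icc, Set.mem_Icc]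
    omega
  have h3 : ∑ᶠ m, g (m - 1) = ∑ᶠ m, g m := finsum_comp_equiv (Equiv.subRight (1 : ℤ)) (f := g)
  have h4 : ∑ᶠ m, g (m + 1) = ∑ᶠ m, g m := finsum_comp_equiv (Equiv.addRight (1 : ℤ)) (f := g)
  exact ⟨by rw [← h1, h3, h0], by rw [← h2, h4, h0]⟩

private theorem Jac2_succ (b v : ℤ → R) (j : ℕ) (m n : ℤ) :
    pw b v (j + 1) m n = pw b v j (m + 1) n + v m * pw b v j m n + b (m - 1) * pw b v j (m - 1) n := by
  rw [pw_eq, pwg_succ, pw_eq, pw_eq, pw_eq, one_mul]

private theorem Jac2_succ' (b v : ℤ → R) (j : ℕ) (m n : ℤ) :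
    pw b v (j + 1) m n = pw b v j m (n - 1) + v n * pw b v j m n + b n * pw b v j m (n + 1) := by
  rw [pw_eq, pwg_succ', pw_eq, pw_eq, pw_eq, one_mul]

private theorem Jac2_zero (b v : ℤ → R) (m n : ℤ) : pw b v 0 m n = if m = n then 1 else 0 := by
  rw [pw_eq, pwg_zero]

private theorem Jac2_eq_zero (b v : ℤ → R) (j : ℕ) (m n : ℤ) (h : (j : ℤ) < |m - n|) :
    pw b v j m n = 0 := by
  rw [pw_eq, pwg_eq_zero _ _ _ _ _ _ h]

/-- composition of powers -/
private theorem Jac2_comp (b v : ℤ → R) (n n' L : ℤ) (a : ℕ) (ha : (a : ℤ) ≤ L) (c : ℕ) :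
    ∑ m ∈ Finset.Icc (n - L) (n + L), pw b v a n m * pw b v c m n' = pw b v (a + c) n n' := by
  induction a generalizing c with
  | zero =>
    have hL : 0 ≤ L := by simpa using ha
    rw [Finset.sum_eq_single n]
    · rw [Jac2_zero, if_pos rfl, one_mul, zero_add]
    · intro m _ hm
      rw [Jac2_zero, if_neg (Ne.symm hm), zero_mul]
    · intro h
      exfalso
      apply h
      rw [Finset.mem_Icc]
      omega
  | succ a ih =>
    have ha' : (a : ℤ) + 1 ≤ L := by exact_mod_cast ha
    have hsupp : ∀ m, pw b v a n m ≠ 0 → n - L + 1 ≤ m ∧ m ≤ n + L - 1 := by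
      intro m hm
      by_contra hcon
      apply hm
      apply Jac2_eq_zero
      rw [lt_abs]
      by_contra h2
      apply hcon
      push Not at h2
      omega
    have h1 := (Jac2_shift (fun m => pw b v a n m * pw b v c (m + 1) n') (n - L) (n + L)
      (fun m hm => hsupp m (left_ne_zero_of_mul hm))).1
    have h2 := (Jac2_shift (fun m => pw b v a n m * (b (m - 1) * pw b v c (m - 1) n')) (n - L) (n + L)
      (fun m hm => hsupp m (left_ne_zero_of_mul hm))).2
    simp only [sub_add_cancel, add_sub_cancel_right] at h1 h2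
    have h3 : ∑ m ∈ Finset.Icc (n - L) (n + L), pw b v (a + 1) n m * pw b v c m n' =
        ∑ m ∈ Finset.Icc (n - L) (n + L), pw b v a n (m - 1) * pw b v c m n' +
        ∑ m ∈ Finset.Icc (n - L) (n + L), pw b v a n m * (v m * pw b v c m n') +
        ∑ m ∈ Finset.Icc (n - L) (n + L), pw b v a n (m + 1) * (b m * pw b v c m n') := by
      rw [← Finset.sum_add_distrib, ← Finset.sum_add_distrib]
      refine Finset.sum_congr rfl fun m _ => ?_
      rw [Jac2_succ']
      ring
    rw [h3, h1, h2, ← Finset.sum_add_distrib, ← Finset.sum_add_distrib]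
    have h4 : a + 1 + c = a + (c + 1) := by omega
    rw [h4, ← ih (by omega) (c + 1)]
    refine Finset.sum_congr rfl fun m _ => ?_
    rw [Jac2_succ b v c]
    ring

/-- derivative of an entry of a power -/
private theorem Jac2_der (D : R →+ R) (hD : ∀ x y, D (x * y) = x * D y + y * D x) (b v : ℤ → R)
    (n : ℤ) (hb : ∀ m, m ≠ n → D (b m) = 0) (hv : ∀ m, m ≠ n → D (v m) = 0) (j : ℕ) (m m' : ℤ) :
    D (pw b v j m m') = ∑ i ∈ Finset.range j,
      (D (v n) * pw b v i m n + D (b n) * pw b v i m (n + 1)) * pw b v (j - 1 - i) n m' := by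
  have h1 : D 1 = 0 := by
    have h := hD 1 1
    rw [mul_one, one_mul] at h
    have h2 : D 1 + D 1 = D 1 + 0 := by rw [add_zero]; exact h.symm
    exact add_left_cancel h2
  induction j generalizing m with
  | zero =>
    rw [Jac2_zero, Finset.sum_range_zero]
    split_ifs
    · exact h1
    · exact map_zero D
  | succ j ih =>
    rw [Jac2_succ, map_add, map_add, hD, hD, ih, ih, ih, Finset.sum_range_succ']
    have e1 : ∀ i ∈ Finset.range j, (D (v n) * pw b v (i + 1) m n +
        D (b n) * pw b v (i + 1) m (n + 1)) * pw b v (j + 1 - 1 - (i + 1)) n m' =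
        (D (v n) * pw b v i (m + 1) n + D (b n) * pw b v i (m + 1) (n + 1)) *
            pw b v (j - 1 - i) n m' +
          v m * ((D (v n) * pw b v i m n + D (b n) * pw b v i m (n + 1)) *
            pw b v (j - 1 - i) n m') +
          b (m - 1) * ((D (v n) * pw b v i (m - 1) n + D (b n) * pw b v i (m - 1) (n + 1)) *
            pw b v (j - 1 - i) n m') := by
      intro i hi
      rw [Finset.mem_range] at hi
      have e2 : j + 1 - 1 - (i + 1) = j - 1 - i := by omega
      rw [e2, Jac2_succ b v i m n, Jac2_succ b v i m (n + 1)]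
      ring
    rw [Finset.sum_congr rfl e1, Finset.sum_add_distrib, Finset.sum_add_distrib, ← Finset.mul_sum,
      ← Finset.mul_sum]
    have e3 : pw b v j m m' * D (v m) + pw b v j (m - 1) m' * D (b (m - 1)) =
        (D (v n) * pw b v 0 m n + D (b n) * pw b v 0 m (n + 1)) * pw b v (j + 1 - 1 - 0) n m' := by
      have e4 : j + 1 - 1 - 0 = j := by omega
      rw [e4, Jac2_zero, Jac2_zero]
      by_cases c1 : m = n
      · subst c1
        rw [if_pos rfl, if_neg (by omega), hb (m - 1) (by omega)]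
        ring
      · rw [if_neg c1, hv m c1]
        by_cases c2 : m = n + 1
        · subst c2
          rw [if_pos rfl, add_sub_cancel_right]
          ring
        · rw [if_neg c2, hb (m - 1) (by omega)]
          ring
    linear_combination e3

/-- Let `D` be a derivation of `R` which kills all the coefficients except `v n` and `b n`. Then the
derivative of the trace of `J^(j+1)` (over a window around `n`, outside of which the diagonal entries do
not depend on `v n`, `b n`, by `pwg_congr`; so the window may be enlarged at will) is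
`(j+1) (D(v n) (J^j)_{nn} + D(b n) (J^j)_{n,n+1})`.

Proof. Entrywise, `D((J^(j+1))_{m m'}) = Σ_{i ≤ j} Σ_{k,k'} (J^i)_{m k} (D J)_{k k'} (J^(j-i))_{k' m'}`
where `D J` has only the entries `(n,n) : D(v n)` and `(n+1,n) : D(b n)`. Hence
`D((J^(j+1))_{m m}) = Σ_{i ≤ j} [D(v n) (J^i)_{m n} (J^(j-i))_{n m} + D(b n) (J^i)_{m,n+1} (J^(j-i))_{n m}]`
(induction on `j` with `pwg_succ`, for all entries `(m, m')`). Sum over all `m` of the window (all the
terms outside vanish because of `pwg_eq_zero`): `Σ_m (J^(j-i))_{n m} (J^i)_{m n} = (J^j)_{n n}` and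
`Σ_m (J^(j-i))_{n m} (J^i)_{m,n+1} = (J^j)_{n,n+1}` (the composition of the two operators; a finite sum by
the bandwidth). Each of the `j+1` values of `i` gives the same. -/
theorem der_trace (D : R →+ R) (hD : ∀ x y, D (x * y) = x * D y + y * D x) (b v : ℤ → R) (n : ℤ)
    (hb : ∀ m, m ≠ n → D (b m) = 0) (hv : ∀ m, m ≠ n → D (v m) = 0) (j : ℕ) (L : ℤ)
    (hL : (j : ℤ) + 1 ≤ L) :
    D (∑ m ∈ Finset.Icc (n - L) (n + L), pw b v (j + 1) m m) =
      ((j : R) + 1) * (D (v n) * pw b v j n n + D (b n) * pw b v j n (n + 1)) := by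
  rw [map_sum]
  have h1 : ∀ m ∈ Finset.Icc (n - L) (n + L), D (pw b v (j + 1) m m) =
      ∑ i ∈ Finset.range (j + 1), (D (v n) * (pw b v (j - i) n m * pw b v i m n) +
        D (b n) * (pw b v (j - i) n m * pw b v i m (n + 1))) := by
    intro m _
    rw [Jac2_der D hD b v n hb hv]
    refine Finset.sum_congr rfl fun i _ => ?_
    rw [Nat.add_sub_cancel]
    ring
  rw [Finset.sum_congr rfl h1, Finset.sum_comm]
  have h2 : ∀ i ∈ Finset.range (j + 1), ∑ m ∈ Finset.Icc (n - L) (n + L),
      (D (v n) * (pw b v (j - i) n m * pw b v i m n) +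
        D (b n) * (pw b v (j - i) n m * pw b v i m (n + 1))) =
      D (v n) * pw b v j n n + D (b n) * pw b v j n (n + 1) := by
    intro i hi
    rw [Finset.mem_range] at hi
    have h3 : ((j - i : ℕ) : ℤ) ≤ L := by omega
    rw [Finset.sum_add_distrib, ← Finset.mul_sum, ← Finset.mul_sum, Jac2_comp b v n n L _ h3,
      Jac2_comp b v n (n + 1) L _ h3]
    have h4 : j - i + i = j := by omega
    rw [h4]
  rw [Finset.sum_congr rfl h2, Finset.sum_const, Finset.card_range, nsmul_eq_mul]
  push_cast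
  ring

end Pool.Agent.Wb5ab1b
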