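import Pool.Agent.W_b5ab1b_h80.Lau1

/-!
# Laurent polynomials: bounds and freezing (helper80)
-/

set_option autoImplicit false

noncomputable section

open scoped Polynomial

namespace Pool.Agent.Wb5ab1b

variable {k : ℕ}

theorem Lau2b_norm (θ : ℤ × Fin k → ℝ) (η : Multiplicative ((ℤ × Fin k) →₀ ℤ)) :
    ‖chr θ η‖ = 1 := by
  show ‖Complex.exp (2 * Real.pi * Complex.I *
    ((Multiplicative.toAdd η).sum fun j e => (e : ℝ) * θ j : ℝ))‖ = 1
  rw [show 2 * (Real.pi : ℂ) * Complex.I *
      (((Multiplicative.toAdd η).sum fun j e => (e : ℝ) * θ j : ℝ) : ℂ) =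
      ((2 * Real.pi * ((Multiplicative.toAdd η).sum fun j e => (e : ℝ) * θ j) : ℝ) : ℂ) *
        Complex.I by push_cast; ring]
  exact Complex.norm_exp_ofReal_mul_I _

theorem Lau2b_ev (θ : ℤ × Fin k → ℝ) (F : Lau k) : ev θ F =
    ∑ η ∈ F.coeff.support, F.coeff η * chr θ (Multiplicative.ofAdd η) := by
  unfold ev
  rw [AddMonoidAlgebra.lift_apply]
  rfl

theorem Lau2b_ev_single (θ : ℤ × Fin k → ℝ) (η : (ℤ × Fin k) →₀ ℤ) (c : ℂ) :
    ev θ (AddMonoidAlgebra.single η c) = c * chr θ (Multiplicative.ofAdd η) := by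
  unfold ev
  rw [AddMonoidAlgebra.lift_single, smul_eq_mul]

/-- putting the variable `j` equal to `1` -/
def Lau2b_fr (j : ℤ × Fin k) : Lau k →ₐ[ℂ] Lau k :=
  AddMonoidAlgebra.mapDomainAlgHom ℂ ℂ (Finsupp.eraseAddHom j)

theorem Lau2b_fr_single (j : ℤ × Fin k) (η : (ℤ × Fin k) →₀ ℤ) (c : ℂ) :
    Lau2b_fr j (AddMonoidAlgebra.single η c) = AddMonoidAlgebra.single (η.erase j) c := by
  unfold Lau2b_fr
  simp

theorem Lau2b_chr (j : ℤ × Fin k) (θ : ℤ × Fin k → ℝ) (η : (ℤ × Fin k) →₀ ℤ) :
    chr θ (Multiplicative.ofAdd (η.erase j)) =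
      chr (Function.update θ j 0) (Multiplicative.ofAdd η) := by
  classical
  show Complex.exp (2 * Real.pi * Complex.I *
      (((η.erase j).sum fun j e => (e : ℝ) * θ j : ℝ) : ℂ)) =
    Complex.exp (2 * Real.pi * Complex.I *
      ((η.sum fun i e => (e : ℝ) * Function.update θ j 0 i : ℝ) : ℂ))
  have h1 : (η.erase j).sum (fun j e => (e : ℝ) * θ j) =
      η.sum fun i e => (e : ℝ) * Function.update θ j 0 i := by
    rw [Finsupp.sum_of_support_subset (η.erase j) (s := η.support)
      (by rw [Finsupp.support_erase]; exact Finset.erase_subset _ _) _ (by intro i _; simp)]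
    unfold Finsupp.sum
    refine Finset.sum_congr rfl fun i _ => ?_
    show ((η.erase j i : ℤ) : ℝ) * θ i = (η i : ℝ) * Function.update θ j 0 i
    by_cases hi : i = j
    · rw [hi, Finsupp.erase_same, Function.update_self]
      simp
    · rw [Finsupp.erase_ne hi, Function.update_of_ne hi]
  rw [h1]

/-- Every Laurent polynomial is bounded on the torus (by the sum of the absolute values of its
coefficients). -/
theorem ev_bdd (F : Lau k) : ∃ C : ℝ, ∀ θ : ℤ × Fin k → ℝ, ‖ev θ F‖ ≤ C := by
  refine ⟨∑ η ∈ F.coeff.support, ‖F.coeff η‖, fun θ => ?_⟩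
  rw [Lau2b_ev]
  refine (norm_sum_le _ _).trans (Finset.sum_le_sum fun η _ => ?_)
  rw [norm_mul, Lau2b_norm, mul_one]

/-- Freezing one variable: `F0` is obtained from `F` by putting the variable `j` equal to `1`
(`Finsupp.erase j` on the exponents). Its exponents do not contain `j`, while the monomials of
`der j W` whose exponent at `j` is `0` vanish; so the constant coefficient of the product is `0`. -/
theorem freeze (j : ℤ × Fin k) (F : Lau k) :
    ∃ F0 : Lau k, (∀ θ : ℤ × Fin k → ℝ, ev θ F0 = ev (Function.update θ j 0) F) ∧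
      ∀ W : Lau k, E (der j W * F0) = 0 := by
  refine ⟨Lau2b_fr j F, fun θ => ?_, fun W => ?_⟩
  · induction F using AddMonoidAlgebra.induction_linear with
    | zero => rw [map_zero, map_zero, map_zero]
    | add F G hF hG => rw [map_add, map_add, map_add, hF, hG]
    | single η c => rw [Lau2b_fr_single, Lau2b_ev_single, Lau2b_ev_single, Lau2b_chr]
  · induction W using AddMonoidAlgebra.induction_linear with
    | zero =>
      have h0 : der j (0 : Lau k) = 0 := by
        unfold der
        simp
      rw [h0, zero_mul, E_zero]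
    | add W W' hW hW' => rw [der_add, add_mul, E_add, hW, hW', add_zero]
    | single η c =>
      induction F using AddMonoidAlgebra.induction_linear with
      | zero => rw [map_zero, mul_zero, E_zero]
      | add F G hF hG => rw [map_add, mul_add, E_add, hF, hG, add_zero]
      | single ξ d =>
        classical
        rw [der_single, Lau2b_fr_single, AddMonoidAlgebra.single_mul_single]
        unfold E
        rw [AddMonoidAlgebra.coeff_single, Finsupp.single_apply]
        split_ifs with h
        · have h1 := DFunLike.congr_fun h j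
          rw [Finsupp.add_apply, Finsupp.erase_same, add_zero] at h1
          have h2 : η j = 0 := h1
          rw [h2]
          simp
        · rfl

end Pool.Agent.Wb5ab1b
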