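import Pool.Agent.W_b5ab1b_h80.Lau2
import Pool.Agent.W_b5ab1b_h80.Lau2b
import Pool.Agent.W_b5ab1b_h80.Jac2
import Pool.Agent.W_b5ab1b_h80.Fin3

/-!
# The averaged Krein inequality (helper80)
-/

set_option autoImplicit false

noncomputable section

open scoped Polynomial

namespace Pool.Agent.Wb5ab1b

variable {k : ℕ}

theorem KI_monomial {R : Type} [CommRing R] (b v : ℤ → R) (m n : ℤ) (j : ℕ) (c : R) :
    ent b v m n (Polynomial.monomial j c) = c * pw b v j m n := by
  rw [ent_eq_sum, Polynomial.sum_monomial_index _ _ (by simp)]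

theorem KI_toL_add (p q : ℝ[X]) : toL (k := k) (p + q) = toL p + toL q := by
  simp [toL, Polynomial.map_add]

theorem KI_toL_monomial (j : ℕ) (a : ℝ) :
    toL (k := k) (Polynomial.monomial j a) = Polynomial.monomial j (algebraMap ℝ (Lau k) a) := by
  simp [toL, Polynomial.map_monomial]

theorem KI_algebraMap (a : ℝ) :
    algebraMap ℝ (Lau k) a = AddMonoidAlgebra.single 0 (a : ℂ) := by
  rw [IsScalarTower.algebraMap_apply ℝ ℂ (Lau k)]
  rfl

theorem KI_ev_real (θ : ℤ × Fin k → ℝ) (a : ℝ) : ev θ (algebraMap ℝ (Lau k) a) = (a : ℂ) := by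
  rw [IsScalarTower.algebraMap_apply ℝ ℂ (Lau k), AlgHom.commutes]
  rfl

/-- Evaluation of the entries at a point of the torus: it is the entry of the real Jacobi operator with
the evaluated coefficients (`map_pw`, `ev_site`; the coefficients are real by `Good`). -/
theorem ev_ent {β v : Loc k} {M : ℝ} (h : Good k β v M) (θ : ℤ × Fin k → ℝ) (m n : ℤ) (q : ℝ[X]) :
    ev θ (ent (bb β) (bb v) m n (toL q)) =
      ((ent (fun l => (ev1 (fun i => θ (l, i)) β).re) (fun l => (ev1 (fun i => θ (l, i)) v).re) m n q :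
        ℝ) : ℂ) := by
  induction q using Polynomial.induction_on' with
  | add p q hp hq => rw [KI_toL_add, map_add, map_add, hp, hq, map_add, Complex.ofReal_add]
  | monomial j a =>
    rw [KI_toL_monomial, KI_monomial, KI_monomial, map_mul, KI_ev_real, Complex.ofReal_mul]
    congr 1
    have h1 := map_pw (ev θ : Lau k →+* ℂ) (bb β) (bb v) j m n
    have h2 := map_pw Complex.ofRealHom (fun l => (ev1 (fun i => θ (l, i)) β).re)
      (fun l => (ev1 (fun i => θ (l, i)) v).re) j m n
    have hb : (fun l => (ev θ : Lau k →+* ℂ) (bb β l)) =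
        fun l => Complex.ofRealHom (ev1 (fun i => θ (l, i)) β).re := by
      funext l
      have e1 : (ev θ : Lau k →+* ℂ) (bb β l) = ev1 (fun i => θ (l, i)) β := ev_site θ l β
      rw [e1]
      exact Complex.ext rfl (h.1 _).1
    have hv : (fun l => (ev θ : Lau k →+* ℂ) (bb v l)) =
        fun l => Complex.ofRealHom (ev1 (fun i => θ (l, i)) v).re := by
      funext l
      have e1 : (ev θ : Lau k →+* ℂ) (bb v l) = ev1 (fun i => θ (l, i)) v := ev_site θ l v
      rw [e1]
      exact Complex.ext rfl (h.2.1 _)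
    rw [hb, hv] at h1
    exact h1.trans h2.symm

theorem KI_anti (q : ℝ[X]) : ∃ Q : ℝ[X], Polynomial.derivative Q = q := by
  induction q using Polynomial.induction_on' with
  | add p q hp hq =>
    obtain ⟨P, hP⟩ := hp
    obtain ⟨Q, hQ⟩ := hq
    exact ⟨P + Q, by rw [map_add, hP, hQ]⟩
  | monomial j a =>
    refine ⟨Polynomial.monomial (j + 1) (a / (j + 1)), ?_⟩
    rw [Polynomial.derivative_monomial]
    have h1 : ((j : ℝ) + 1) ≠ 0 := by positivity
    congr 1
    push_cast
    field_simp

theorem KI_der_zero (j : ℤ × Fin k) : der j (0 : Lau k) = 0 := by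
  have h := der_add j (0 : Lau k) 0
  rw [add_zero] at h
  have h2 : der j (0 : Lau k) + 0 = der j (0 : Lau k) + der j (0 : Lau k) := by
    rw [add_zero]; exact h
  exact (add_left_cancel h2).symm

/-- the derivation as an additive map -/
def KI_D (j : ℤ × Fin k) : Lau k →+ Lau k where
  toFun := der j
  map_zero' := KI_der_zero j
  map_add' := der_add j

theorem KI_D_real (j : ℤ × Fin k) (a : ℝ) (F : Lau k) :
    KI_D j (algebraMap ℝ (Lau k) a * F) = algebraMap ℝ (Lau k) a * KI_D j F := by
  show der j _ = _ * der j F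
  rw [der_mul]
  have h1 : der j (algebraMap ℝ (Lau k) a) = 0 := by
    rw [KI_algebraMap, der_single]
    simp
  rw [h1, mul_zero, add_zero]

/-- the derivative of the trace of a polynomial -/
theorem KI_trace (β v : Loc k) (n : ℤ) (i : Fin k) (L : ℤ) (Q : ℝ[X])
    (hL : (Q.natDegree : ℤ) + 1 ≤ L) :
    der (n, i) (∑ m ∈ Finset.Icc (n - L) (n + L), ent (bb β) (bb v) m m (toL Q)) =
      (Polynomial.C (site n (dl i v)) • P (bb β) (bb v) n +
      Polynomial.C (site n (dl i β)) • S (bb β) (bb v) n).app (toL (Polynomial.derivative Q)) := by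
  have hmon : ∀ t : ℕ, (t : ℤ) + 1 ≤ L → ∀ a : ℝ,
      der (n, i) (∑ m ∈ Finset.Icc (n - L) (n + L),
        ent (bb β) (bb v) m m (toL (Polynomial.monomial t a))) =
      (Polynomial.C (site n (dl i v)) • P (bb β) (bb v) n +
      Polynomial.C (site n (dl i β)) • S (bb β) (bb v) n).app
        (toL (Polynomial.derivative (Polynomial.monomial t a))) := by
    intro t ht a
    have e1 : ∑ m ∈ Finset.Icc (n - L) (n + L),
        ent (bb β) (bb v) m m (toL (Polynomial.monomial t a)) =
        algebraMap ℝ (Lau k) a * ∑ m ∈ Finset.Icc (n - L) (n + L), pw (bb β) (bb v) t m m := by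
      rw [Finset.mul_sum]
      refine Finset.sum_congr rfl fun m _ => ?_
      rw [KI_toL_monomial, KI_monomial]
    rw [e1, Fn.app_add, Jac1_app_C, Jac1_app_C, P_app, S_app, Polynomial.derivative_monomial,
      KI_toL_monomial, KI_monomial, KI_monomial]
    have e2 := KI_D_real (n, i) a (∑ m ∈ Finset.Icc (n - L) (n + L), pw (bb β) (bb v) t m m)
    have e2' : der (n, i) (algebraMap ℝ (Lau k) a *
        ∑ m ∈ Finset.Icc (n - L) (n + L), pw (bb β) (bb v) t m m) = _ := e2
    rw [e2']
    cases t with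
    | zero =>
      have e3 : KI_D (n, i) (∑ m ∈ Finset.Icc (n - L) (n + L), pw (bb β) (bb v) 0 m m) = 0 := by
        rw [map_sum]
        refine Finset.sum_eq_zero fun m _ => ?_
        rw [pw_eq, pwg_zero, if_pos rfl]
        have e4 := KI_D_real (n, i) (1 : ℝ) (1 : Lau k)
        show der (n, i) 1 = 0
        have e5 : (1 : Lau k) = AddMonoidAlgebra.single 0 1 := rfl
        rw [e5, der_single]
        simp
      rw [e3]
      simp
    | succ t =>
      have e3 := der_trace (KI_D (n, i)) (fun x y => der_mul (n, i) x y) (bb β) (bb v) n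
        (fun m hm => der_site_ne n m hm i β) (fun m hm => der_site_ne n m hm i v) t L
        (by push_cast at ht; omega)
      rw [e3]
      have e4 : KI_D (n, i) (bb v n) = site n (dl i v) := der_site n i v
      have e5 : KI_D (n, i) (bb β n) = site n (dl i β) := der_site n i β
      rw [e4, e5, Nat.add_sub_cancel, map_mul]
      have e6 : algebraMap ℝ (Lau k) (((t + 1 : ℕ) : ℝ)) = (t : Lau k) + 1 := by
        rw [map_natCast]
        push_cast
        rfl
      rw [e6]
      ring
  have hf : ∀ (s : Finset ℕ) (g : ℕ → ℝ[X]), (∀ t ∈ s,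
      der (n, i) (∑ m ∈ Finset.Icc (n - L) (n + L), ent (bb β) (bb v) m m (toL (g t))) =
      (Polynomial.C (site n (dl i v)) • P (bb β) (bb v) n +
      Polynomial.C (site n (dl i β)) • S (bb β) (bb v) n).app (toL (Polynomial.derivative (g t)))) →
      der (n, i) (∑ m ∈ Finset.Icc (n - L) (n + L),
        ent (bb β) (bb v) m m (toL (∑ t ∈ s, g t))) =
      (Polynomial.C (site n (dl i v)) • P (bb β) (bb v) n +
      Polynomial.C (site n (dl i β)) • S (bb β) (bb v) n).app
        (toL (Polynomial.derivative (∑ t ∈ s, g t))) := by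
    intro s g
    induction s using Finset.induction_on with
    | empty =>
      intro _
      have e1 : toL (k := k) 0 = 0 := by simp [toL]
      have e2 : ∀ Φ : Fn (Lau k), Φ.app 0 = 0 := fun Φ => map_zero (show (Lau k)[X] →ₗ[Lau k] Lau k from Φ)
      rw [Finset.sum_empty, map_zero, e1, e2]
      simp only [map_zero, Finset.sum_const_zero, KI_der_zero]
    | insert t s ht ih =>
      intro h
      have e2 : ∀ (Φ : Fn (Lau k)) x y, Φ.app (x + y) = Φ.app x + Φ.app y :=
        fun Φ x y => map_add (show (Lau k)[X] →ₗ[Lau k] Lau k from Φ) x y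
      rw [Finset.sum_insert ht, map_add, KI_toL_add, KI_toL_add, e2,
        ← h t (Finset.mem_insert_self _ _), ← ih fun t' ht' => h t' (Finset.mem_insert_of_mem ht'),
        ← der_add, ← Finset.sum_add_distrib]
      congr 1
      refine Finset.sum_congr rfl fun m _ => ?_
      rw [map_add]
  have h1 := hf (Finset.range (Q.natDegree + 1)) (fun t => Polynomial.monomial t (Q.coeff t))
    (fun t ht => hmon t (by rw [Finset.mem_range] at ht; omega) _)
  rw [← Q.as_sum_range] at h1
  exact h1

theorem KI_E_neg (F : Lau k) : E (-F) = -E F := by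
  have h := E_add F (-F)
  rw [add_neg_cancel, E_zero] at h
  exact (neg_eq_of_add_eq_zero_right h.symm).symm

/-- Main inequality. Fix `W`, let `j = (n, i)`. For `q` choose `Q` with `Q.derivative = q` and
`L = natDegree Q + 1`, and put `G = Σ_{m ∈ [n-L, n+L]} ent m m (toL Q)`. By `der_trace` (applied with
`D = der j` and every monomial of `q`; `der_site`, `der_site_ne`) and linearity,
`der j G` is the value at `toL q` of the functional of the statement. By `E_der` and `der_mul`,
`E (W * der j G) = - E (der j W * G)`, and with `F0 = G0` from `freeze` it is `- E (der j W * (G - G0))`.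
At every `θ`, `|ev θ G - ev θ G0| ≤ 2 nrm M q` by `ev_ent` and `window_bound` (`θ` and
`Function.update θ j 0` differ only at the site `n`). So `E_bound` gives the bound with
`C = 2 sup |ev θ (der j W)|` (`ev_bdd`). -/
theorem KI {β v : Loc k} {M : ℝ} (h : Good k β v M) (n : ℤ) (i : Fin k) :
    Polynomial.C (site n (dl i v)) • P (bb β) (bb v) n +
      Polynomial.C (site n (dl i β)) • S (bb β) (bb v) n ∈ AC k M := by
  show ∀ W : Lau k, ∃ C : ℝ, ∀ q : ℝ[X], ‖E (W * (Polynomial.C (site n (dl i v)) •
      P (bb β) (bb v) n + Polynomial.C (site n (dl i β)) • S (bb β) (bb v) n).app (toL q))‖ ≤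
        C * nrm M q
  intro W
  obtain ⟨C1, hC1⟩ := ev_bdd (der (n, i) W)
  have hC10 : 0 ≤ C1 := (norm_nonneg _).trans (hC1 fun _ => 0)
  refine ⟨C1 * 2, fun q => ?_⟩
  obtain ⟨Q, hQ⟩ := KI_anti q
  set L : ℤ := (Q.natDegree : ℤ) + 1 with hL
  set G : Lau k := ∑ m ∈ Finset.Icc (n - L) (n + L), ent (bb β) (bb v) m m (toL Q) with hG
  have h1 := KI_trace β v n i L Q le_rfl
  rw [hQ, ← hG] at h1
  rw [← h1]
  obtain ⟨G0, hG0, hG0'⟩ := freeze (n, i) G
  have h2 : E (W * der (n, i) G) = -E (der (n, i) W * (G - G0)) := by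
    have e1 := E_der (n, i) (W * G)
    rw [der_mul, E_add] at e1
    have e2 : G * der (n, i) W = der (n, i) W * (G - G0) + der (n, i) W * G0 := by ring
    rw [e2, E_add, hG0', add_zero] at e1
    exact eq_neg_of_add_eq_zero_left e1
  rw [h2, norm_neg]
  refine E_bound _ _ fun θ => ?_
  rw [map_mul, norm_mul, mul_assoc]
  refine mul_le_mul (hC1 θ) ?_ (norm_nonneg _) hC10
  rw [map_sub, hG0, hG, map_sum, map_sum]
  obtain ⟨hβ, hv, a, c, ha, hc, hva, hβc, hM⟩ := h
  have h' : Good k β v M := ⟨hβ, hv, a, c, ha, hc, hva, hβc, hM⟩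
  have h3 := window_bound
    (fun l => (ev1 (fun i' => Function.update θ (n, i) 0 (l, i')) β).re)
    (fun l => (ev1 (fun i' => Function.update θ (n, i) 0 (l, i')) v).re)
    (fun l => (ev1 (fun i' => θ (l, i')) β).re)
    (fun l => (ev1 (fun i' => θ (l, i')) v).re) n a c M hc (fun m => (hβ _).2) (fun m => (hβ _).2)
    (fun m => hva _) (fun m => hva _) (fun m => hβc _) (fun m => hβc _) hM (by
      intro m hm
      have e1 : (fun i' => Function.update θ (n, i) 0 (m, i')) = fun i' => θ (m, i') := by
        funext i'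
        rw [Function.update_of_ne]
        intro h0
        exact hm (congrArg Prod.fst h0)
      rw [e1]
      exact ⟨rfl, rfl⟩) Q L (by omega)
  rw [hQ] at h3
  have h4 : (∑ m ∈ Finset.Icc (n - L) (n + L), ev θ (ent (bb β) (bb v) m m (toL Q))) -
      ∑ m ∈ Finset.Icc (n - L) (n + L),
        ev (Function.update θ (n, i) 0) (ent (bb β) (bb v) m m (toL Q)) =
      ((∑ m ∈ Finset.Icc (n - L) (n + L), (ent (fun l => (ev1 (fun i' => θ (l, i')) β).re)
        (fun l => (ev1 (fun i' => θ (l, i')) v).re) m m Q -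
        ent (fun l => (ev1 (fun i' => Function.update θ (n, i) 0 (l, i')) β).re)
        (fun l => (ev1 (fun i' => Function.update θ (n, i) 0 (l, i')) v).re) m m Q) : ℝ) : ℂ) := by
    rw [← Finset.sum_sub_distrib, Complex.ofReal_sum]
    refine Finset.sum_congr rfl fun m _ => ?_
    rw [ev_ent h', ev_ent h', Complex.ofReal_sub]
  rw [h4, Complex.norm_real]
  exact h3

end Pool.Agent.Wb5ab1b
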