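import Pool.Agent.W_b5ab1b_h80.GSh
import Pool.Agent.W_b5ab1b_h80.GJac
import Pool.Agent.W_b5ab1b_h80.GFin
import Pool.Agent.W_b5ab1b_h80.Lau2
import Pool.Agent.W_b5ab1b_h80.Lau2b
import Pool.Agent.W_b5ab1b_h80.KI

/-!
# The averaged Krein inequality, general coefficients (helper80)
-/

set_option autoImplicit false

noncomputable section

open scoped Polynomial
open Polynomial (X C)

namespace Pool.Agent.Wb5ab1b

variable {k : ℕ}

/-- The real coefficients at a point of the torus. -/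
def gR (F : Lau k) (θ : ℤ × Fin k → ℝ) : ℤ → ℝ := fun n => (ev θ (sh n F)).re

theorem GKI_gR_b {b v : Lau k} {M : ℝ} (h : GGood k b v M) (θ : ℤ × Fin k → ℝ) :
    (fun l => (ev θ : Lau k →+* ℂ) (sq b l)) = fun l => Complex.ofRealHom (gR b θ l) := by
  funext l
  have e1 : ev θ (sh l b) = ev (fun p => θ (l + p.1, p.2)) b := ev_sh l θ b
  have e2 : (ev θ (sh l b)).im = 0 := by
    rw [e1]
    exact (h.1 _).1
  exact Complex.ext rfl e2

theorem GKI_gR_v {b v : Lau k} {M : ℝ} (h : GGood k b v M) (θ : ℤ × Fin k → ℝ) :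
    (fun l => (ev θ : Lau k →+* ℂ) (sq v l)) = fun l => Complex.ofRealHom (gR v θ l) := by
  funext l
  have e1 : ev θ (sh l v) = ev (fun p => θ (l + p.1, p.2)) v := ev_sh l θ v
  have e2 : (ev θ (sh l v)).im = 0 := by
    rw [e1]
    exact h.2.1 _
  exact Complex.ext rfl e2

/-- Evaluation of the powers (compare `ev_ent` in `KI` and `JointA_pw` in `JointA`; the values at shifted
points are real by `GGood` and `ev_sh`). -/
theorem ev_pw_g {b v : Lau k} {M : ℝ} (h : GGood k b v M) (θ : ℤ × Fin k → ℝ) (j : ℕ) (m n : ℤ) :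
    ev θ (pw (sq b) (sq v) j m n) = ((pw (gR b θ) (gR v θ) j m n : ℝ) : ℂ) := by
  have h1 := map_pw (ev θ : Lau k →+* ℂ) (sq b) (sq v) j m n
  have h2 := map_pw Complex.ofRealHom (gR b θ) (gR v θ) j m n
  rw [GKI_gR_b h θ, GKI_gR_v h θ] at h1
  exact h1.trans h2.symm

/-- Evaluation of the entries. -/
theorem ev_ent_g {b v : Lau k} {M : ℝ} (h : GGood k b v M) (θ : ℤ × Fin k → ℝ) (m n : ℤ) (q : ℝ[X]) :
    ev θ (ent (sq b) (sq v) m n (toL q)) = ((ent (gR b θ) (gR v θ) m n q : ℝ) : ℂ) := by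
  induction q using Polynomial.induction_on' with
  | add p q hp hq => rw [KI_toL_add, map_add, map_add, hp, hq, map_add, Complex.ofReal_add]
  | monomial j a =>
    rw [KI_toL_monomial, KI_monomial, KI_monomial, map_mul, KI_ev_real, Complex.ofReal_mul,
      ev_pw_g h]

theorem GKI_coeff (j : ℤ × Fin k) (F : Lau k) (η : (ℤ × Fin k) →₀ ℤ) :
    (der j F).coeff η = 2 * Real.pi * Complex.I * (η j : ℂ) * F.coeff η := by
  classical
  induction F using AddMonoidAlgebra.induction_linear with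
  | zero =>
    rw [KI_der_zero]
    simp
  | add F G hF hG =>
    rw [der_add, AddMonoidAlgebra.coeff_add, AddMonoidAlgebra.coeff_add, Finsupp.add_apply,
      Finsupp.add_apply, hF, hG]
    ring
  | single ξ c =>
    rw [der_single, AddMonoidAlgebra.coeff_single, AddMonoidAlgebra.coeff_single,
      Finsupp.single_apply, Finsupp.single_apply]
    by_cases h : ξ = η
    · rw [if_pos h, if_pos h, h]
    · rw [if_neg h, if_neg h, mul_zero]

theorem GKI_ev_update {j : ℤ × Fin k} {F : Lau k} (h : der j F = 0) (θ : ℤ × Fin k → ℝ) :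
    ev (Function.update θ j 0) F = ev θ F := by
  classical
  rw [Lau2b_ev, Lau2b_ev]
  refine Finset.sum_congr rfl fun η hη => ?_
  have h1 : η j = 0 := by
    have h2 := GKI_coeff j F η
    rw [h] at h2
    have h3 : F.coeff η ≠ 0 := Finsupp.mem_support_iff.1 hη
    have h4 : (2 * (Real.pi : ℂ) * Complex.I) ≠ 0 := by
      simp [Real.pi_ne_zero, Complex.I_ne_zero]
    by_contra h5
    have h6 : ((η j : ℤ) : ℂ) ≠ 0 := by exact_mod_cast h5
    exact mul_ne_zero (mul_ne_zero h4 h6) h3 h2.symm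
  have h7 : η.erase j = η := by
    ext i
    by_cases hi : i = j
    · rw [hi, Finsupp.erase_same, h1]
    · rw [Finsupp.erase_ne hi]
  rw [← Lau2b_chr, h7]

theorem GKI_der_sh {r : ℕ} {F : Lau k} (hF : Within r F) (j : ℤ × Fin k) (m : ℤ)
    (hm : m ∉ Finset.Icc (j.1 - r) (j.1 + r)) : der j (sh m F) = 0 := by
  rw [der_sh, der_of_within hF, map_zero]
  rw [Finset.mem_Icc, not_and_or, not_le, not_le] at hm
  show (r : ℤ) < |j.1 - m|
  rcases hm with hm | hm
  · rw [lt_abs]
    left
    omega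
  · rw [lt_abs]
    right
    omega

theorem GKI_app_sum {ι : Type} (s : Finset ι) (Φ : ι → Fn (Lau k)) (g : (Lau k)[X]) :
    (∑ i ∈ s, Φ i).app g = ∑ i ∈ s, (Φ i).app g := by
  classical
  induction s using Finset.induction_on with
  | empty => rfl
  | insert a s ha ih => rw [Finset.sum_insert ha, Fn.app_add, ih, Finset.sum_insert ha]

theorem GKI_DD_app (b v : Lau k) (r : ℕ) (j : ℤ × Fin k) (g : (Lau k)[X]) :
    (DD b v r j).app g = ∑ n ∈ Finset.Icc (j.1 - r) (j.1 + r),
      (der j (sh n v) * ent (sq b) (sq v) n n g + der j (sh n b) * ent (sq b) (sq v) n (n + 1) g) := by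
  unfold DD
  rw [GKI_app_sum]
  refine Finset.sum_congr rfl fun n _ => ?_
  rw [Fn.app_add, Jac1_app_C, Jac1_app_C, P_app, S_app]

/-- the derivative of the trace of a polynomial -/
theorem GKI_trace {b v : Lau k} {r : ℕ} (hb : Within r b) (hv : Within r v) (j : ℤ × Fin k) (L : ℤ)
    (Q : ℝ[X]) (hL : (Q.natDegree : ℤ) + r + 1 ≤ L) :
    der j (∑ m ∈ Finset.Icc (j.1 - L) (j.1 + L), ent (sq b) (sq v) m m (toL Q)) =
      (DD b v r j).app (toL (Polynomial.derivative Q)) := by
  have hmon : ∀ t : ℕ, (t : ℤ) + r + 1 ≤ L → ∀ a : ℝ,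
      der j (∑ m ∈ Finset.Icc (j.1 - L) (j.1 + L),
        ent (sq b) (sq v) m m (toL (Polynomial.monomial t a))) =
      (DD b v r j).app (toL (Polynomial.derivative (Polynomial.monomial t a))) := by
    intro t ht a
    have e1 : ∑ m ∈ Finset.Icc (j.1 - L) (j.1 + L),
        ent (sq b) (sq v) m m (toL (Polynomial.monomial t a)) =
        algebraMap ℝ (Lau k) a * ∑ m ∈ Finset.Icc (j.1 - L) (j.1 + L), pw (sq b) (sq v) t m m := by
      rw [Finset.mul_sum]
      refine Finset.sum_congr rfl fun m _ => ?_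
      rw [KI_toL_monomial, KI_monomial]
    have e2 := KI_D_real j a (∑ m ∈ Finset.Icc (j.1 - L) (j.1 + L), pw (sq b) (sq v) t m m)
    have e2' : der j (algebraMap ℝ (Lau k) a *
        ∑ m ∈ Finset.Icc (j.1 - L) (j.1 + L), pw (sq b) (sq v) t m m) = _ := e2
    rw [e1, e2', GKI_DD_app, Polynomial.derivative_monomial, KI_toL_monomial]
    cases t with
    | zero =>
      have e3 : KI_D j (∑ m ∈ Finset.Icc (j.1 - L) (j.1 + L), pw (sq b) (sq v) 0 m m) = 0 := by
        rw [map_sum]
        refine Finset.sum_eq_zero fun m _ => ?_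
        rw [pw_eq, pwg_zero, if_pos rfl]
        show der j 1 = 0
        have e5 : (1 : Lau k) = AddMonoidAlgebra.single 0 1 := rfl
        rw [e5, der_single]
        simp
      rw [e3]
      simp
    | succ t =>
      have e3 := der_trace_g (KI_D j) (fun x y => der_mul j x y) (sq b) (sq v) j.1 r
        (fun m hm => GKI_der_sh hb j m hm) (fun m hm => GKI_der_sh hv j m hm) t L
        (by push_cast at ht; omega)
      rw [e3, Nat.add_sub_cancel, map_mul]
      have e6 : algebraMap ℝ (Lau k) (((t + 1 : ℕ) : ℝ)) = (t : Lau k) + 1 := by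
        rw [map_natCast]
        push_cast
        rfl
      rw [e6, ← mul_assoc, Finset.mul_sum]
      refine Finset.sum_congr rfl fun m _ => ?_
      rw [KI_monomial, KI_monomial]
      show algebraMap ℝ (Lau k) a * ((t : Lau k) + 1) *
        (der j (sh m v) * pw (sq b) (sq v) t m m + der j (sh m b) * pw (sq b) (sq v) t m (m + 1)) = _
      ring
  have hf : ∀ (s : Finset ℕ) (g : ℕ → ℝ[X]), (∀ t ∈ s,
      der j (∑ m ∈ Finset.Icc (j.1 - L) (j.1 + L), ent (sq b) (sq v) m m (toL (g t))) =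
      (DD b v r j).app (toL (Polynomial.derivative (g t)))) →
      der j (∑ m ∈ Finset.Icc (j.1 - L) (j.1 + L),
        ent (sq b) (sq v) m m (toL (∑ t ∈ s, g t))) =
      (DD b v r j).app (toL (Polynomial.derivative (∑ t ∈ s, g t))) := by
    intro s g
    induction s using Finset.induction_on with
    | empty =>
      intro _
      have e1 : toL (k := k) 0 = 0 := by simp [toL]
      have e2 : ∀ Φ : Fn (Lau k), Φ.app 0 = 0 := fun Φ => map_zero (show (Lau k)[X] →ₗ[Lau k] Lau k from Φ)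
      rw [Finset.sum_empty, map_zero, e1, e2]
      simp only [map_zero, Finset.sum_const_zero, KI_der_zero]
    | insert t s ht ih =>
      intro h
      have e2 : ∀ (Φ : Fn (Lau k)) x y, Φ.app (x + y) = Φ.app x + Φ.app y :=
        fun Φ x y => map_add (show (Lau k)[X] →ₗ[Lau k] Lau k from Φ) x y
      rw [Finset.sum_insert ht, map_add, KI_toL_add, KI_toL_add, e2,
        ← h t (Finset.mem_insert_self _ _), ← ih fun t' ht' => h t' (Finset.mem_insert_of_mem ht'),
        ← der_add, ← Finset.sum_add_distrib]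
      congr 1
      refine Finset.sum_congr rfl fun m _ => ?_
      rw [map_add]
  have h1 := hf (Finset.range (Q.natDegree + 1)) (fun t => Polynomial.monomial t (Q.coeff t))
    (fun t ht => hmon t (by rw [Finset.mem_range] at ht; omega) _)
  rw [← Q.as_sum_range] at h1
  exact h1

/-- The averaged Krein inequality. Same proof as `KI` (file `KI`), with `der_trace_g` and
`window_bound_g`: the derivative `der j` kills `sh n b` and `sh n v` for `n ∉ [j.1 - r, j.1 + r]`
(`der_sh`, `der_of_within`), and `θ`, `Function.update θ j 0` give the same coefficients at these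
sites (a Laurent polynomial `F` with `der j F = 0` has the same value at both points). -/
theorem KI_g {b v : Lau k} {M : ℝ} (h : GGood k b v M) {r : ℕ} (hb : Within r b) (hv : Within r v)
    (j : ℤ × Fin k) : DD b v r j ∈ AC k M := by
  show ∀ W : Lau k, ∃ C : ℝ, ∀ q : ℝ[X], ‖E (W * (DD b v r j).app (toL q))‖ ≤ C * nrm M q
  intro W
  obtain ⟨C1, hC1⟩ := ev_bdd (der j W)
  have hC10 : 0 ≤ C1 := (norm_nonneg _).trans (hC1 fun _ => 0)
  refine ⟨C1 * (2 * (2 * r + 1)), fun q => ?_⟩
  obtain ⟨Q, hQ⟩ := KI_anti q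
  set L : ℤ := (Q.natDegree : ℤ) + r + 1 with hL
  set G : Lau k := ∑ m ∈ Finset.Icc (j.1 - L) (j.1 + L), ent (sq b) (sq v) m m (toL Q) with hG
  have h1 := GKI_trace hb hv j L Q le_rfl
  rw [hQ, ← hG] at h1
  rw [← h1]
  obtain ⟨G0, hG0, hG0'⟩ := freeze j G
  have h2 : E (W * der j G) = -E (der j W * (G - G0)) := by
    have e1 := E_der j (W * G)
    rw [der_mul, E_add] at e1
    have e2 : G * der j W = der j W * (G - G0) + der j W * G0 := by ring
    rw [e2, E_add, hG0', add_zero] at e1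
    exact eq_neg_of_add_eq_zero_left e1
  rw [h2, norm_neg]
  refine E_bound _ _ fun θ => ?_
  rw [map_mul, norm_mul, mul_assoc]
  refine mul_le_mul (hC1 θ) ?_ (norm_nonneg _) hC10
  rw [map_sub, hG0, hG, map_sum, map_sum]
  have h' := h
  obtain ⟨hβ, hv', a, c, ha, hc, hva, hβc, hM⟩ := h
  have hb0 : ∀ (θ : ℤ × Fin k → ℝ) (m : ℤ), 0 ≤ gR b θ m := by
    intro θ m
    unfold gR
    rw [ev_sh]
    exact (hβ _).2
  have hb1 : ∀ (θ : ℤ × Fin k → ℝ) (m : ℤ), gR b θ m ≤ c ^ 2 := by
    intro θ m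
    unfold gR
    rw [ev_sh]
    exact hβc _
  have hv0 : ∀ (θ : ℤ × Fin k → ℝ) (m : ℤ), |gR v θ m| ≤ a := by
    intro θ m
    unfold gR
    rw [ev_sh]
    exact hva _
  have h3 := window_bound_g (gR b (Function.update θ j 0)) (gR v (Function.update θ j 0))
    (gR b θ) (gR v θ) j.1 r a c M hc (hb0 _) (hb0 _) (hv0 _) (hv0 _) (hb1 _) (hb1 _) hM (by
      intro m hm
      unfold gR
      rw [GKI_ev_update (GKI_der_sh hb j m hm) θ, GKI_ev_update (GKI_der_sh hv j m hm) θ]
      exact ⟨rfl, rfl⟩) Q L le_rfl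
  rw [hQ] at h3
  have h4 : (∑ m ∈ Finset.Icc (j.1 - L) (j.1 + L), ev θ (ent (sq b) (sq v) m m (toL Q))) -
      ∑ m ∈ Finset.Icc (j.1 - L) (j.1 + L),
        ev (Function.update θ j 0) (ent (sq b) (sq v) m m (toL Q)) =
      ((∑ m ∈ Finset.Icc (j.1 - L) (j.1 + L), (ent (gR b θ) (gR v θ) m m Q -
        ent (gR b (Function.update θ j 0)) (gR v (Function.update θ j 0)) m m Q) : ℝ) : ℂ) := by
    rw [← Finset.sum_sub_distrib, Complex.ofReal_sum]
    refine Finset.sum_congr rfl fun m _ => ?_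
    rw [ev_ent_g h', ev_ent_g h', Complex.ofReal_sub]
  rw [h4, Complex.norm_real]
  exact h3

end Pool.Agent.Wb5ab1b
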