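import Mathlib

/-!
# Measures with bounded support are determined by their moments; null sets by compact sets (helper80)
-/

set_option autoImplicit false

noncomputable section

open MeasureTheory

namespace Pool.Agent.Wb5ab1b

/-- the integral of a continuous function with support of the measure bounded -/
theorem Uniq_integrable (μ : Measure ℝ) [IsFiniteMeasure μ] (M : ℝ)
    (hμ : μ (Set.Icc (-M) M)ᶜ = 0) {f : ℝ → ℝ} (hf : Continuous f) : Integrable f μ := by
  have h1 : μ.restrict (Set.Icc (-M) M) = μ := Measure.restrict_eq_self_of_ae_mem (by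
    rw [ae_iff]
    exact hμ)
  rw [← h1]
  exact hf.continuousOn.integrableOn_Icc

theorem Uniq_bound (μ : Measure ℝ) [IsFiniteMeasure μ] (M : ℝ)
    (hμ : μ (Set.Icc (-M) M)ᶜ = 0) {f g : ℝ → ℝ} (hf : Continuous f) (hg : Continuous g) {ε : ℝ}
    (h : ∀ x ∈ Set.Icc (-M) M, |f x - g x| ≤ ε) :
    |∫ x, f x ∂μ - ∫ x, g x ∂μ| ≤ ε * μ.real Set.univ := by
  rw [← integral_sub (Uniq_integrable μ M hμ hf) (Uniq_integrable μ M hμ hg)]
  have h1 : ∀ᵐ x ∂μ, ‖f x - g x‖ ≤ ε := by
    have h2 : ∀ᵐ x ∂μ, x ∈ Set.Icc (-M) M := by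
      rw [ae_iff]
      exact hμ
    filter_upwards [h2] with x hx
    exact h x hx
  exact norm_integral_le_of_norm_le_const h1

/-- Weierstrass: the integrals of all polynomials agree, so (uniform approximation on `[-M, M]`) the
integrals of all bounded continuous functions agree; `ext_of_forall_integral_eq_of_IsFiniteMeasure`. -/
theorem moments_unique (μ ν : Measure ℝ) [IsFiniteMeasure μ] [IsFiniteMeasure ν] (M : ℝ)
    (hμ : μ (Set.Icc (-M) M)ᶜ = 0) (hν : ν (Set.Icc (-M) M)ᶜ = 0)
    (h : ∀ n : ℕ, ∫ x, x ^ n ∂μ = ∫ x, x ^ n ∂ν) : μ = ν := by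
  apply ext_of_forall_integral_eq_of_IsFiniteMeasure
  intro f
  have hpoly : ∀ p : Polynomial ℝ, ∫ x, p.eval x ∂μ = ∫ x, p.eval x ∂ν := by
    intro p
    have e : ∀ x : ℝ, p.eval x = ∑ i ∈ Finset.range (p.natDegree + 1), p.coeff i * x ^ i :=
      fun x => Polynomial.eval_eq_sum_range x
    simp_rw [e]
    rw [integral_finsetSum, integral_finsetSum]
    · refine Finset.sum_congr rfl fun i _ => ?_
      rw [integral_const_mul, integral_const_mul, h i]
    · intro i _
      exact Uniq_integrable ν M hν (by fun_prop)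
    · intro i _
      exact Uniq_integrable μ M hμ (by fun_prop)
  have hfc : Continuous f := f.continuous
  set B : ℝ := μ.real Set.univ + ν.real Set.univ with hB
  have hB0 : 0 ≤ B := add_nonneg measureReal_nonneg measureReal_nonneg
  have key : ∀ ε : ℝ, 0 < ε → |∫ x, f x ∂μ - ∫ x, f x ∂ν| ≤ ε * B := by
    intro ε hε
    obtain ⟨p, hp⟩ := exists_polynomial_near_of_continuousOn (-M) M f hfc.continuousOn ε hε
    have h1 := Uniq_bound μ M hμ hfc p.continuous (ε := ε)
      (fun x hx => by rw [abs_sub_comm]; exact (hp x hx).le)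
    have h2 := Uniq_bound ν M hν hfc p.continuous (ε := ε)
      (fun x hx => by rw [abs_sub_comm]; exact (hp x hx).le)
    rw [hpoly p] at h1
    have h3 : ∫ x, f x ∂μ - ∫ x, f x ∂ν = (∫ x, f x ∂μ - ∫ x, p.eval x ∂ν) -
        (∫ x, f x ∂ν - ∫ x, p.eval x ∂ν) := by ring
    rw [h3]
    calc |(∫ x, f x ∂μ - ∫ x, p.eval x ∂ν) - (∫ x, f x ∂ν - ∫ x, p.eval x ∂ν)|
        ≤ |∫ x, f x ∂μ - ∫ x, p.eval x ∂ν| + |∫ x, f x ∂ν - ∫ x, p.eval x ∂ν| := abs_sub _ _
      _ ≤ ε * μ.real Set.univ + ε * ν.real Set.univ := add_le_add h1 h2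
      _ = ε * B := by rw [hB]; ring
  have h4 : |∫ x, f x ∂μ - ∫ x, f x ∂ν| ≤ 0 := by
    by_contra hne
    push Not at hne
    set D := |∫ x, f x ∂μ - ∫ x, f x ∂ν| with hD
    have h5 := key (D / (2 * (B + 1))) (by positivity)
    have h6 : D / (2 * (B + 1)) * B < D := by
      rw [div_mul_eq_mul_div, div_lt_iff₀ (by positivity)]
      nlinarith
    linarith
  have h5 := abs_nonpos_iff.1 h4
  linarith

/-- Inner regularity: if every compact null set disjoint from the finite set `F` has `μ`-measure zero,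
then `μ` restricted to the complement of `F` is absolutely continuous. (A null set `N`: the set
`N \ F` is contained in a measurable null set; a measurable set of positive finite measure contains a
compact subset of positive measure, `MeasurableSet.exists_isCompact_lt_add` or `InnerRegular`.) -/
theorem ac_of_compact (μ : Measure ℝ) [IsFiniteMeasure μ] (F : Finset ℝ)
    (h : ∀ D : Set ℝ, IsCompact D → volume D = 0 → Disjoint D (F : Set ℝ) → μ D = 0) :
    (μ.restrict (F : Set ℝ)ᶜ).AbsolutelyContinuous volume := by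
  refine Measure.AbsolutelyContinuous.mk fun N hN hN0 => ?_
  have hF : MeasurableSet ((F : Set ℝ)ᶜ) := F.measurableSet.compl
  rw [Measure.restrict_apply hN]
  have hm : MeasurableSet (N ∩ (F : Set ℝ)ᶜ) := hN.inter hF
  by_contra hne
  have hpos : 0 < μ (N ∩ (F : Set ℝ)ᶜ) := pos_iff_ne_zero.2 hne
  obtain ⟨D, hD1, hD2, hD3⟩ := hm.exists_lt_isCompact hpos
  have h1 := h D hD2 (measure_mono_null (hD1.trans Set.inter_subset_left) hN0)
    (Set.disjoint_left.2 fun x hx hxF => (hD1 hx).2 hxF)
  rw [h1] at hD3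
  exact lt_irrefl _ hD3

end Pool.Agent.Wb5ab1b
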