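import Pool.Agent.W_b5ab1b_h80.Kap
import Pool.Agent.W_b5ab1b_h80.GAcC
import Pool.Agent.W_b5ab1b_h80.Uniq
import Pool.Agent.W_b5ab1b_h80.Degen

/-!
# The averaged spectral measure has no singular continuous part, general coefficients (helper80)
-/

set_option autoImplicit false

noncomputable section

open scoped Polynomial
open Polynomial (X C)
open MeasureTheory

namespace Pool.Agent.Wb5ab1b

variable {k : ℕ}

/-! ### Variables -/

theorem der_coeff (l : ℤ × Fin k) (F : Lau k) (η : (ℤ × Fin k) →₀ ℤ) :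
    (der l F).coeff η = 2 * Real.pi * Complex.I * (η l : ℂ) * F.coeff η := by
  classical
  induction F using AddMonoidAlgebra.induction_linear with
  | zero => simp [der]
  | add f g hf hg =>
    rw [der_add, AddMonoidAlgebra.coeff_add, AddMonoidAlgebra.coeff_add, Finsupp.add_apply,
      Finsupp.add_apply, hf, hg]
    ring
  | single b c =>
    rw [der_single]
    by_cases h : b = η
    · subst h
      simp
    · simp [h]

theorem der_zero_apply {l : ℤ × Fin k} {F : Lau k} (h : der l F = 0) {η : (ℤ × Fin k) →₀ ℤ}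
    (hη : F.coeff η ≠ 0) : η l = 0 := by
  have h1 := der_coeff l F η
  rw [h] at h1
  have h2 : (2 * Real.pi * Complex.I * (η l : ℂ)) * F.coeff η = 0 := by
    rw [← h1]; simp
  have h3 := (mul_eq_zero.mp h2).resolve_right hη
  have h4 : (2 * Real.pi * Complex.I : ℂ) ≠ 0 := by
    simp [Real.pi_ne_zero, Complex.I_ne_zero]
  have h5 := (mul_eq_zero.mp h3).resolve_left h4
  exact_mod_cast h5

/-- The value depends only on the variables which occur. -/
theorem evP_congr (s : Finset (ℤ × Fin k)) (F : LauS s) (y y' : UnitAddTorus s)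
    (h : ∀ p : s, der (p : ℤ × Fin k) (embS s F) ≠ 0 → y p = y' p) : evP y F = evP y' F := by
  classical
  have key : ∀ z : UnitAddTorus s, evP z F = F.coeff.sum fun a c => c * UnitAddTorus.mFourier a z := by
    intro z
    have hF : F = F.coeff.sum fun a c => AddMonoidAlgebra.single a c := by
      exact (AddMonoidAlgebra.sum_coeff_single F).symm
    conv_lhs => rw [hF]
    rw [Finsupp.sum, map_sum, Finsupp.sum]
    apply Finset.sum_congr rfl
    intro a _
    rw [evP_single]
  rw [key, key]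
  apply Finset.sum_congr rfl
  intro a ha
  dsimp only
  congr 1
  simp only [UnitAddTorus.mFourier, ContinuousMap.coe_mk]
  apply Finset.prod_congr rfl
  intro p _
  by_cases hp : der (p : ℤ × Fin k) (embS s F) = 0
  · have h1 : (embS s F).coeff (homS s a) ≠ 0 := by
      have h2 : Function.Injective (homS s) := by
        intro a b hab
        funext p
        have := congrArg (fun η => η (p : ℤ × Fin k)) hab
        simpa [homS_apply] using this
      have h3 : (embS s F).coeff (homS s a) = F.coeff a := by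
        show (AddMonoidAlgebra.mapDomain (homS s) F).coeff (homS s a) = _
        simp [AddMonoidAlgebra.mapDomain, Finsupp.mapDomain_apply h2]
      rw [h3]
      exact Finsupp.mem_support_iff.mp ha
    have h4 := der_zero_apply hp h1
    rw [homS_apply] at h4
    rw [h4]
    simp
  · rw [h p hp]

theorem ae_ne_S {s : Finset (ℤ × Fin k)} {F : LauS s} (hF : F ≠ 0) :
    ∀ᵐ y : UnitAddTorus s, evP y F ≠ 0 := by
  rw [ae_iff]
  simpa using null_zero F hF

theorem ae_fst_S {s : Finset (ℤ × Fin k)} {p : Measure (UnitAddTorus s × ℝ)}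
    (hp : p.map Prod.fst = volume) {Q : UnitAddTorus s → Prop} (h : ∀ᵐ y, Q y) :
    ∀ᵐ z ∂p, Q z.1 := by
  rw [← hp] at h
  exact ae_of_ae_map measurable_fst.aemeasurable h

theorem evG_C' {d : Type} [Fintype d] (z : UnitAddTorus d × ℝ) (F : AddMonoidAlgebra ℂ (d → ℤ)) :
    evG z (C F) = evP z.1 F := by
  simp [evG]

theorem evG_X' {d : Type} [Fintype d] (z : UnitAddTorus d × ℝ) :
    evG z (X : (AddMonoidAlgebra ℂ (d → ℤ))[X]) = (z.2 : ℂ) := by
  simp [evG]

theorem embSX_injective (s : Finset (ℤ × Fin k)) : Function.Injective (embSX s) :=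
  Polynomial.map_injective _ (embS_injective s)

theorem embSX_C (s : Finset (ℤ × Fin k)) (F : LauS s) : embSX s (C F) = C (embS s F) := by
  simp [embSX]

theorem embSX_X (s : Finset (ℤ × Fin k)) : embSX s X = X := by
  simp [embSX]

theorem coeff_embSX (s : Finset (ℤ × Fin k)) (G : (LauS s)[X]) (j : ℕ) :
    (embSX s G).coeff j = embS s (G.coeff j) := by
  simp [embSX]

theorem coeff_shX (n : ℤ) (G : (Lau k)[X]) (j : ℕ) : (shX n G).coeff j = sh n (G.coeff j) := by
  simp [shX]

theorem evG_congr (s : Finset (ℤ × Fin k)) (G : (LauS s)[X]) (y y' : UnitAddTorus s) (x : ℝ)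
    (h : ∀ p : s, (∃ j, der (p : ℤ × Fin k) ((embSX s G).coeff j) ≠ 0) → y p = y' p) :
    evG (y, x) G = evG (y', x) G := by
  unfold evG
  rw [Polynomial.coe_eval₂RingHom, Polynomial.coe_eval₂RingHom, Polynomial.eval₂_eq_sum_range,
    Polynomial.eval₂_eq_sum_range]
  apply Finset.sum_congr rfl
  intro j _
  congr 1
  apply evP_congr
  intro p hp
  apply h p
  exact ⟨j, by rwa [coeff_embSX]⟩

/-- The exceptional energies of a nonzero polynomial. -/
theorem exists_exc_S (s : Finset (ℤ × Fin k)) {G : (LauS s)[X]} (hG : G ≠ 0) :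
    ∃ F : Finset ℝ, ∀ x : ℝ, x ∉ F →
      G.eval (algebraMap ℂ (AddMonoidAlgebra ℂ (s → ℤ)) (x : ℂ)) ≠ 0 := by
  obtain ⟨j, hj⟩ : ∃ j, G.coeff j ≠ 0 := by
    by_contra hcon
    push Not at hcon
    exact hG (Polynomial.ext hcon)
  obtain ⟨y, hy⟩ := (ae_ne_S hj).exists
  set q : ℂ[X] := G.map (evP y : LauS s →+* ℂ) with hq
  have hqe : ∀ x : ℝ, q.eval (x : ℂ) = evG (y, x) G := by
    intro x
    rw [hq, Polynomial.eval_map]
    rfl
  have hq0 : q ≠ 0 := by
    intro h
    apply hy
    have := congrArg (fun f => f.coeff j) h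
    simpa [hq] using this
  have hfin : {x : ℝ | q.eval (x : ℂ) = 0}.Finite := by
    have h1 : {x : ℝ | q.eval (x : ℂ) = 0} ⊆ (fun x : ℝ => (x : ℂ)) ⁻¹' (q.roots.toFinset : Set ℂ) := by
      intro x hx
      simp only [Set.mem_preimage, Finset.mem_coe, Multiset.mem_toFinset]
      exact (Polynomial.mem_roots hq0).mpr hx
    exact (Set.Finite.preimage Complex.ofReal_injective.injOn (Finset.finite_toSet _)).subset h1
  refine ⟨hfin.toFinset, fun x hx h => hx ?_⟩
  rw [Set.Finite.mem_toFinset]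
  show q.eval (x : ℂ) = 0
  rw [hqe, evG_eq_evP, h, map_zero]

/-! ### The cases -/

/-- The conclusion for the origin, through a joint law on a finite window. -/
theorem conclude {b v : Lau k} {M : ℝ} (h : GGood k b v M) (s : Finset (ℤ × Fin k)) (F : Finset ℝ)
    (hF : ∀ p : Measure (UnitAddTorus s × ℝ), IsProbabilityMeasure p →
      p {z | z.2 ∉ Set.Icc (-M) M} = 0 →
      (∀ G : (LauS s)[X], ∫ z, evG z G ∂p = E ((P (sq b) (sq v) 0).app (embSX s G))) →
      p.map Prod.fst = volume →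
      ∀ D : Set ℝ, IsCompact D → volume D = 0 → Disjoint D (F : Set ℝ) → ∀ᵐ z ∂p, z.2 ∉ D) :
    ∃ μ : Measure ℝ, IsProbabilityMeasure μ ∧ μ (Set.Icc (-M) M)ᶜ = 0 ∧
      (∀ n : ℕ, ((∫ x, x ^ n ∂μ : ℝ) : ℂ) = E (pw (sq b) (sq v) n 0 0)) ∧
      ∃ F : Finset ℝ, (μ.restrict (F : Set ℝ)ᶜ).AbsolutelyContinuous volume := by
  obtain ⟨p, hp0, hpM, hp, hp1⟩ := exists_joint_g h s
  have hpr : IsProbabilityMeasure (p.map Prod.snd) :=
    Measure.isProbabilityMeasure_map measurable_snd.aemeasurable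
  refine ⟨p.map Prod.snd, hpr, ?_, ?_, F, ?_⟩
  · rw [Measure.map_apply measurable_snd measurableSet_Icc.compl]
    exact hpM
  · intro n
    have h1 := hp (X ^ n)
    rw [map_pow, embSX_X, P_app] at h1
    have h2 : ent (sq b) (sq v) 0 0 (X ^ n) = pw (sq b) (sq v) n 0 0 := by
      simp [ent, pw]
    rw [h2] at h1
    rw [← h1, integral_map measurable_snd.aemeasurable (by fun_prop), ← integral_complex_ofReal]
    congr 1
    funext z
    rw [map_pow, evG_X']
    push_cast
    rfl
  · apply ac_of_compact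
    intro D hD hD0 hDF
    rw [Measure.map_apply measurable_snd hD.isClosed.measurableSet]
    have h3 := hF p hp0 hpM hp hp1 D hD hD0 hDF
    rw [ae_iff] at h3
    simp only [not_not] at h3
    exact h3

/-- The variables of a polynomial over the Laurent polynomials are finitely many. -/
theorem vars_finite (κ : (Lau k)[X]) : {l | ∃ j, der l (κ.coeff j) ≠ 0}.Finite := by
  have h1 : {l | ∃ j, der l (κ.coeff j) ≠ 0} ⊆
      ⋃ j ∈ κ.support, {l | der l (κ.coeff j) ≠ 0} := by
    intro l ⟨j, hj⟩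
    simp only [Set.mem_iUnion]
    refine ⟨j, ?_, hj⟩
    rw [Polynomial.mem_support_iff]
    intro h0
    apply hj
    rw [h0]
    simp [der]
  exact (Set.Finite.biUnion (Finset.finite_toSet _) fun j _ => der_finite _).subset h1

/-- The generic case. -/
theorem case_generic {b v : Lau k} {M : ℝ} (h : GGood k b v M) (hb : b ≠ 0)
    (hnc : ¬ ((∀ l, der l b = 0) ∧ ∀ l, der l v = 0)) :
    ∃ μ : Measure ℝ, IsProbabilityMeasure μ ∧ μ (Set.Icc (-M) M)ᶜ = 0 ∧
      (∀ n : ℕ, ((∫ x, x ^ n ∂μ : ℝ) : ℂ) = E (pw (sq b) (sq v) n 0 0)) ∧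
      ∃ F : Finset ℝ, (μ.restrict (F : Set ℝ)ᶜ).AbsolutelyContinuous volume := by
  obtain ⟨κ, hκ, hκ1, hκ2, hκ3⟩ := exists_kap h hb hnc
  -- the variables of `κ` are at sites of absolute value at most `N`
  obtain ⟨N, hN⟩ : ∃ N : ℕ, ∀ l : ℤ × Fin k, (∃ j, der l (κ.coeff j) ≠ 0) → |l.1| ≤ (N : ℤ) := by
    have hfin := (vars_finite κ).image (fun l : ℤ × Fin k => |l.1|)
    obtain ⟨B, hB⟩ := hfin.bddAbove
    refine ⟨B.toNat, fun l hl => ?_⟩
    have := hB (Set.mem_image_of_mem _ (by exact hl))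
    exact this.trans (Int.self_le_toNat _)
  set m : ℕ := 2 * N + 1 with hm
  have hm1 := AC_shX_P hκ1 (m : ℤ)
  have hm2 := AC_shX_P hκ2 (m : ℤ)
  have hm3 := AC_shX_S hκ3 (m : ℤ)
  rw [add_zero] at hm1 hm3
  rw [zero_add] at hm2
  obtain ⟨B, hB, hB'⟩ := descend hb m _ hm1 hm2 hm3
  -- the window
  set s : Finset (ℤ × Fin k) := (vars_finite κ).toFinset ∪ (vars_finite (shX (m : ℤ) κ)).toFinset ∪
    (der_finite B).toFinset with hs
  obtain ⟨G1, hG1⟩ := exists_embSX s κ (by
    intro l hl j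
    by_contra hne
    apply hl
    rw [hs, Finset.mem_union, Finset.mem_union, Set.Finite.mem_toFinset]
    exact Or.inl (Or.inl ⟨j, hne⟩))
  obtain ⟨G2, hG2⟩ := exists_embSX s (shX (m : ℤ) κ) (by
    intro l hl j
    by_contra hne
    apply hl
    rw [hs, Finset.mem_union, Finset.mem_union, Set.Finite.mem_toFinset, Set.Finite.mem_toFinset]
    exact Or.inl (Or.inr ⟨j, hne⟩))
  obtain ⟨H, hH⟩ := exists_embS s B (by
    intro l hl
    by_contra hne
    apply hl
    rw [hs, Finset.mem_union, Finset.mem_union, Set.Finite.mem_toFinset, Set.Finite.mem_toFinset,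
      Set.Finite.mem_toFinset]
    exact Or.inr hne)
  have hG1' : G1 ≠ 0 := by
    rintro rfl
    rw [map_zero] at hG1
    exact hκ hG1.symm
  have hG2' : G2 ≠ 0 := by
    rintro rfl
    rw [map_zero] at hG2
    apply hκ
    have : shX (m : ℤ) κ = 0 := hG2.symm
    apply Polynomial.ext
    intro j
    rw [Polynomial.coeff_zero]
    by_contra hne
    apply sh_ne_zero (m : ℤ) hne
    rw [← coeff_shX, this, Polynomial.coeff_zero]
  have hH' : H ≠ 0 := by
    rintro rfl
    rw [map_zero] at hH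
    exact hB hH.symm
  obtain ⟨F, hF⟩ := exists_exc_S s hG2'
  apply conclude h s F
  intro p hp0 hpM hp hp1 D hD hD0 hDF
  have e1 := ae_zero_of_mem_g s p hpM hp G1 (by rw [hG1]; exact hκ1) D hD hD0
  have e2 := ae_zero_of_mem_g s p hpM hp (C H * G2)
    (by rw [map_mul, embSX_C, hH, hG2]; exact hB') D hD hD0
  have e3 := ae_fst_S hp1 (ae_ne_S hH')
  have hc : ∀ᵐ y : UnitAddTorus s, ¬ ∃ x ∈ D, evG (y, x) G1 = 0 ∧ evG (y, x) G2 = 0 := by
    have := common_root {q : s | |(q : ℤ × Fin k).1| ≤ (N : ℤ)} G1 G2 ?_ ?_ hG1' D hD ?_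
    · rw [ae_iff]
      simpa using this
    · intro y y' hy x
      apply evG_congr
      intro q hq
      apply hy
      rw [hG1] at hq
      exact hN _ hq
    · intro y y' hy x
      apply evG_congr
      intro q ⟨j, hq⟩
      apply hy
      rw [hG2, coeff_shX, der_sh] at hq
      intro hq2
      have h5 : der ((q : ℤ × Fin k).1 - m, (q : ℤ × Fin k).2) (κ.coeff j) ≠ 0 := by
        intro h6
        apply hq
        rw [h6, map_zero]
      have h6 := hN _ ⟨j, h5⟩
      have h7 : |(q : ℤ × Fin k).1| ≤ (N : ℤ) := hq2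
      rw [abs_le] at h6 h7
      dsimp only at h6
      rw [hm] at h6
      push_cast at h6
      omega
    · intro x hx
      exact hF x fun hxF => Set.disjoint_left.mp hDF hx hxF
  filter_upwards [e1, e2, e3, ae_fst_S hp1 hc] with z z1 z2 z3 z4 z5
  have w2 := z2 z5
  rw [map_mul, evG_C'] at w2
  exact z4 ⟨z.2, z5, z1 z5, (mul_eq_zero.mp w2).resolve_left z3⟩

/-- The case `b = 0`. -/
theorem case_zero {v : Lau k} {M : ℝ} (h : GGood k 0 v M) (j : ℤ × Fin k) (hj : der j v ≠ 0) :
    ∃ μ : Measure ℝ, IsProbabilityMeasure μ ∧ μ (Set.Icc (-M) M)ᶜ = 0 ∧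
      (∀ n : ℕ, ((∫ x, x ^ n ∂μ : ℝ) : ℂ) = E (pw (sq 0) (sq v) n 0 0)) ∧
      ∃ F : Finset ℝ, (μ.restrict (F : Set ℝ)ᶜ).AbsolutelyContinuous volume := by
  classical
  obtain ⟨r, hr⟩ := exists_within v
  have hr0 : Within r (0 : Lau k) := by
    intro η hη
    simp at hη
  have hK := KI_g h hr0 hr j
  have hjr : |j.1| ≤ (r : ℤ) := by
    by_contra hcon
    push Not at hcon
    exact hj (der_of_within hr j hcon)
  have hP : ∀ n, (X - C (sq v n)) • P (sq (0 : Lau k)) (sq v) n = 0 := by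
    intro n
    rw [rel_P]
    have : ∀ n : ℤ, sq (0 : Lau k) n = 0 := fun n => map_zero _
    rw [this, this, map_zero, zero_smul, zero_smul, add_zero]
  set W : Finset ℤ := (Finset.Icc (j.1 - r) (j.1 + r)).erase 0 with hW
  have h0W : (0 : ℤ) ∈ Finset.Icc (j.1 - r) (j.1 + r) := by
    rw [abs_le] at hjr
    rw [Finset.mem_Icc]
    omega
  set κ : (Lau k)[X] := C (der j v) * ∏ n ∈ W, (X - C (sq v n)) with hκ
  have hκ1 : κ • P (sq (0 : Lau k)) (sq v) 0 ∈ AC k M := by
    have h1 : (∏ n ∈ W, (X - C (sq v n))) • DD 0 v r j = κ • P (sq (0 : Lau k)) (sq v) 0 := by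
      unfold DD
      rw [Finset.smul_sum, ← Finset.add_sum_erase _ _ h0W, Finset.sum_eq_zero, add_zero]
      · rw [map_zero]
        have : der j (0 : Lau k) = 0 := by simp [der]
        rw [this, map_zero, zero_smul, add_zero, hκ, sh_zero, mul_comm, mul_smul]
      · intro n hn
        rw [map_zero]
        have : der j (0 : Lau k) = 0 := by simp [der]
        rw [this, map_zero, zero_smul, add_zero, ← Finset.mul_prod_erase _ _ hn, mul_comm, mul_smul,
          smul_comm (X - C (sq v n)), hP, smul_zero, smul_zero]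
    rw [← h1]
    exact (AC k M).smul_mem _ hK
  have hκ0 : (X - C (sq v 0)) • P (sq (0 : Lau k)) (sq v) 0 ∈ AC k M := by
    rw [hP]
    exact (AC k M).zero_mem
  -- the window
  set s : Finset (ℤ × Fin k) := (vars_finite κ).toFinset ∪
    (Finset.Icc (j.1 - r) (j.1 + r)).biUnion (fun n => (der_finite (sq v n)).toFinset) ∪
      (der_finite (der j v)).toFinset with hs
  have hv : ∀ n ∈ Finset.Icc (j.1 - r) (j.1 + r), ∃ G : LauS s, embS s G = sq v n := by
    intro n hn
    apply exists_embS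
    intro l hl
    by_contra hne
    apply hl
    rw [hs, Finset.mem_union, Finset.mem_union, Finset.mem_biUnion]
    exact Or.inl (Or.inr ⟨n, hn, by rw [Set.Finite.mem_toFinset]; exact hne⟩)
  obtain ⟨V0, hV0⟩ := hv 0 h0W
  obtain ⟨U, hU⟩ := exists_embS s (der j v) (by
    intro l hl
    by_contra hne
    apply hl
    rw [hs, Finset.mem_union, Set.Finite.mem_toFinset]
    exact Or.inr hne)
  have hU' : U ≠ 0 := by
    rintro rfl
    rw [map_zero] at hU
    exact hj hU.symm
  choose! V hV using hv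
  have hVne : ∀ n ∈ W, V0 - V n ≠ 0 := by
    intro n hn h0
    rw [hW, Finset.mem_erase] at hn
    have h1 : sq v n = v := by
      rw [← hV n hn.2, ← sub_eq_zero.mp h0, hV0]
      exact sh_zero v
    exact hj (const_of_sh hn.1 h1 j)
  set G : (LauS s)[X] := C U * ∏ n ∈ W, (X - C (V n)) with hG
  have hG1 : embSX s G = κ := by
    rw [hG, hκ, map_mul, map_prod, embSX_C, hU]
    congr 1
    apply Finset.prod_congr rfl
    intro n hn
    rw [map_sub, embSX_X, embSX_C, hV n (Finset.mem_of_mem_erase hn)]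
  apply conclude h s ∅
  intro p hp0 hpM hp hp1 D hD hD0 _
  have e1 := ae_zero_of_mem_g s p hpM hp G (by rw [hG1]; exact hκ1) D hD hD0
  have e2 := ae_zero_of_mem_g s p hpM hp (X - C V0)
    (by rw [map_sub, embSX_X, embSX_C, hV0]; exact hκ0) D hD hD0
  have e3 := ae_fst_S hp1 (ae_ne_S hU')
  have e4 : ∀ᵐ z ∂p, ∀ n ∈ W, evP z.1 (V0 - V n) ≠ 0 := by
    rw [Filter.eventually_all_finset]
    intro n hn
    exact ae_fst_S hp1 (ae_ne_S (hVne n hn))
  filter_upwards [e1, e2, e3, e4] with z z1 z2 z3 z4 z5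
  have w1 := z1 z5
  have w2 := z2 z5
  rw [map_sub, evG_X', evG_C', sub_eq_zero] at w2
  rw [hG, map_mul, map_prod, evG_C'] at w1
  have w3 := (mul_eq_zero.mp w1).resolve_left z3
  rw [Finset.prod_eq_zero_iff] at w3
  obtain ⟨n, hn, hn'⟩ := w3
  rw [map_sub, evG_X', evG_C', w2] at hn'
  apply z4 n hn
  rw [map_sub]
  exact hn'

theorem ev_const (θ : ℤ × Fin k → ℝ) (c : ℂ) :
    ev θ (AddMonoidAlgebra.single (0 : (ℤ × Fin k) →₀ ℤ) c) = c := by
  have h : (AddMonoidAlgebra.single (0 : (ℤ × Fin k) →₀ ℤ) c : Lau k) = algebraMap ℂ (Lau k) c := rfl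
  rw [h, AlgHom.commutes]
  rfl

/-- Main theorem on the torus, general coefficients. -/
theorem main_torus_g {b v : Lau k} {M : ℝ} (h : GGood k b v M) :
    ∃ μ : Measure ℝ, IsProbabilityMeasure μ ∧ μ (Set.Icc (-M) M)ᶜ = 0 ∧
      (∀ n : ℕ, ((∫ x, x ^ n ∂μ : ℝ) : ℂ) = E (pw (sq b) (sq v) n 0 0)) ∧
      ∃ F : Finset ℝ, (μ.restrict (F : Set ℝ)ᶜ).AbsolutelyContinuous volume := by
  by_cases hconst : (∀ l, der l b = 0) ∧ (∀ l, der l v = 0)
  · have hβc := const_of_der hconst.1
    have hvc := const_of_der hconst.2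
    obtain ⟨hb, hv, a, c, ha, hc, hva, hbc, hM⟩ := h
    have e1 : ∀ θ, ev θ b = b.coeff 0 := fun θ => by
      conv_lhs => rw [hβc]
      exact ev_const θ _
    have e2 : ∀ θ, ev θ v = v.coeff 0 := fun θ => by
      conv_lhs => rw [hvc]
      exact ev_const θ _
    obtain ⟨b1, b2⟩ := hb 0
    have v1 := hv 0
    have v2 := hva 0
    have b3 := hbc 0
    rw [e1] at b1 b2 b3
    rw [e2] at v1 v2
    obtain ⟨μ, hμ1, hμM, hμ, F, hF⟩ := degen (b.coeff 0).re (v.coeff 0).re M b2 (by
      have : Real.sqrt (b.coeff 0).re ≤ c := by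
        rw [show c = Real.sqrt (c ^ 2) from (Real.sqrt_sq hc).symm]
        exact Real.sqrt_le_sqrt b3
      linarith)
    refine ⟨μ, hμ1, hμM, fun n => ?_, F, hF⟩
    rw [hμ n 0]
    have key : ∀ F : Lau k, F = AddMonoidAlgebra.single 0 (F.coeff 0) → (F.coeff 0).im = 0 →
        sq F = fun _ => (algebraMap ℝ (Lau k)) (F.coeff 0).re := by
      intro F hF hi
      funext l
      show sh l F = _
      conv_lhs => rw [hF]
      have h0 : (AddMonoidAlgebra.single (0 : (ℤ × Fin k) →₀ ℤ) (F.coeff 0) : Lau k) =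
        algebraMap ℂ (Lau k) (F.coeff 0) := rfl
      rw [h0, AlgHom.commutes, show F.coeff 0 = (((F.coeff 0).re : ℝ) : ℂ) from
        Complex.ext rfl (by simpa using hi)]
      rfl
    rw [key b hβc b1, key v hvc v1, ← map_pw]
    show _ = E (AddMonoidAlgebra.single 0 _)
    simp [E]
  · by_cases hb : b = 0
    · subst hb
      have h1 : ∃ l, der l v ≠ 0 := by
        by_contra hcon
        push Not at hcon
        exact hconst ⟨fun l => by simp [der], hcon⟩
      obtain ⟨j, hj⟩ := h1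
      exact case_zero h j hj
    · exact case_generic h hb hconst

end Pool.Agent.Wb5ab1b
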