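import Pool.Agent.W_b5ab1b_h80.GDefs

/-!
# Shifts, substitutions, windows: elementary lemmas (helper80)
-/

set_option autoImplicit false

noncomputable section

open scoped Polynomial
open Polynomial (X C)

namespace Pool.Agent.Wb5ab1b

variable {k : ℕ}

theorem shE_apply (n : ℤ) (η : (ℤ × Fin k) →₀ ℤ) (p : ℤ × Fin k) :
    shE n η p = η (p.1 - n, p.2) := by
  have h : shE n η p = η (-n + p.1, p.2) := rfl
  rw [h, neg_add_eq_sub]

theorem GSh_der_zero (j : ℤ × Fin k) : der j (0 : Lau k) = 0 := by
  unfold der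
  simp

theorem GSh_shE_shE (m n : ℤ) (η : (ℤ × Fin k) →₀ ℤ) : shE m (shE n η) = shE (m + n) η := by
  apply Finsupp.ext
  intro p
  rw [shE_apply, shE_apply, shE_apply, sub_sub]

theorem GSh_shE_zero (η : (ℤ × Fin k) →₀ ℤ) : shE 0 η = η := by
  apply Finsupp.ext
  intro p
  rw [shE_apply, sub_zero]

theorem sh_single (n : ℤ) (η : (ℤ × Fin k) →₀ ℤ) (c : ℂ) :
    sh n (AddMonoidAlgebra.single η c) = AddMonoidAlgebra.single (shE n η) c := by
  unfold sh
  simp

theorem sh_sh (m n : ℤ) (F : Lau k) : sh m (sh n F) = sh (m + n) F := by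
  induction F using AddMonoidAlgebra.induction_linear with
  | zero => rw [map_zero, map_zero, map_zero]
  | add F1 F2 h1 h2 => rw [map_add, map_add, h1, h2, map_add]
  | single η c => rw [sh_single, sh_single, sh_single, GSh_shE_shE]

theorem sh_zero (F : Lau k) : sh 0 F = F := by
  induction F using AddMonoidAlgebra.induction_linear with
  | zero => rw [map_zero]
  | add F1 F2 h1 h2 => rw [map_add, h1, h2]
  | single η c => rw [sh_single, GSh_shE_zero]

theorem sh_ne_zero (n : ℤ) {F : Lau k} (hF : F ≠ 0) : sh n F ≠ 0 := by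
  intro h
  apply hF
  have h1 := sh_sh (-n) n F
  rw [neg_add_cancel, sh_zero, h, map_zero] at h1
  exact h1.symm

theorem E_sh (n : ℤ) (F : Lau k) : E (sh n F) = E F := by
  induction F using AddMonoidAlgebra.induction_linear with
  | zero => rw [map_zero]
  | add F1 F2 h1 h2 => rw [map_add, E_add, E_add, h1, h2]
  | single η c =>
    rw [sh_single]
    unfold E
    rw [AddMonoidAlgebra.coeff_single, AddMonoidAlgebra.coeff_single]
    by_cases hη : η = 0
    · subst hη
      rw [map_zero (shE n)]
    · have h2 : shE n η ≠ 0 := by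
        intro h
        exact hη ((map_eq_zero_iff _ (shE n).injective).1 h)
      rw [Finsupp.single_eq_of_ne (Ne.symm h2), Finsupp.single_eq_of_ne (Ne.symm hη)]

theorem GSh_sum (n : ℤ) (θ : ℤ × Fin k → ℝ) (η : (ℤ × Fin k) →₀ ℤ) :
    ((shE n η).sum fun j e => (e : ℝ) * θ j) = η.sum fun j e => (e : ℝ) * θ (n + j.1, j.2) := by
  have h : shE n η = η.mapDomain ((Equiv.addLeft n).prodCongr (Equiv.refl (Fin k))) := by
    have h1 : shE n η =
      Finsupp.equivMapDomain ((Equiv.addLeft n).prodCongr (Equiv.refl (Fin k))) η := rfl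
    rw [h1, Finsupp.equivMapDomain_eq_mapDomain]
  rw [h, Finsupp.sum_mapDomain_index (by intro j; simp) (by intro j x y; push_cast; ring)]
  rfl

theorem ev_sh (n : ℤ) (θ : ℤ × Fin k → ℝ) (F : Lau k) :
    ev θ (sh n F) = ev (fun p => θ (n + p.1, p.2)) F := by
  induction F using AddMonoidAlgebra.induction_linear with
  | zero => rw [map_zero, map_zero, map_zero]
  | add F1 F2 h1 h2 => rw [map_add, map_add, h1, h2, map_add]
  | single η c => rw [sh_single, ev_single, ev_single, GSh_sum]

theorem der_sh (l : ℤ × Fin k) (n : ℤ) (F : Lau k) :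
    der l (sh n F) = sh n (der (l.1 - n, l.2) F) := by
  induction F using AddMonoidAlgebra.induction_linear with
  | zero => rw [map_zero, GSh_der_zero, GSh_der_zero, map_zero]
  | add F1 F2 h1 h2 => rw [map_add, der_add, h1, h2, der_add, map_add]
  | single η c => rw [sh_single, der_single, der_single, sh_single, shE_apply]

theorem GSh_der_coeff (l : ℤ × Fin k) (F : Lau k) (η : (ℤ × Fin k) →₀ ℤ) :
    (der l F).coeff η = 2 * Real.pi * Complex.I * (η l : ℂ) * F.coeff η := by
  classical
  induction F using AddMonoidAlgebra.induction_linear with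
  | zero => rw [GSh_der_zero]; simp
  | add F1 F2 h1 h2 =>
    rw [der_add, AddMonoidAlgebra.coeff_add, AddMonoidAlgebra.coeff_add, Finsupp.add_apply,
      Finsupp.add_apply, h1, h2, mul_add]
  | single ζ c =>
    rw [der_single, AddMonoidAlgebra.coeff_single, AddMonoidAlgebra.coeff_single,
      Finsupp.single_apply, Finsupp.single_apply]
    by_cases h : ζ = η
    · subst h
      rw [if_pos rfl, if_pos rfl]
    · rw [if_neg h, if_neg h, mul_zero]

theorem GSh_der_eq_zero (l : ℤ × Fin k) (F : Lau k) :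
    der l F = 0 ↔ ∀ η, F.coeff η ≠ 0 → η l = 0 := by
  have hpi : (2 * Real.pi * Complex.I : ℂ) ≠ 0 := by
    simp [Real.pi_ne_zero, Complex.I_ne_zero]
  constructor
  · intro h η hη
    have h1 := GSh_der_coeff l F η
    rw [h, AddMonoidAlgebra.coeff_zero, Finsupp.zero_apply] at h1
    have h2 := (mul_eq_zero.1 h1.symm).resolve_right hη
    have h3 := (mul_eq_zero.1 h2).resolve_left hpi
    exact_mod_cast h3
  · intro h
    apply AddMonoidAlgebra.coeff_injective
    apply Finsupp.ext
    intro η
    rw [GSh_der_coeff, AddMonoidAlgebra.coeff_zero, Finsupp.zero_apply]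
    by_cases hη : F.coeff η = 0
    · rw [hη, mul_zero]
    · rw [h η hη]
      simp

theorem der_of_within {r : ℕ} {F : Lau k} (h : Within r F) (l : ℤ × Fin k) (hl : (r : ℤ) < |l.1|) :
    der l F = 0 := by
  rw [GSh_der_eq_zero]
  intro η hη
  exact h η (Finsupp.mem_support_iff.2 hη) l hl

theorem exists_within (F : Lau k) : ∃ r, Within r F := by
  refine ⟨∑ η ∈ F.coeff.support, ∑ p ∈ η.support, p.1.natAbs, ?_⟩
  intro η hη p hp
  by_contra hne
  have h1 : p.1.natAbs ≤ ∑ p ∈ η.support, p.1.natAbs :=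
    Finset.single_le_sum (f := fun p : ℤ × Fin k => p.1.natAbs) (fun _ _ => Nat.zero_le _)
      (Finsupp.mem_support_iff.2 hne)
  have h2 : ∑ p ∈ η.support, p.1.natAbs ≤ ∑ η ∈ F.coeff.support, ∑ p ∈ η.support, p.1.natAbs :=
    Finset.single_le_sum (f := fun η : (ℤ × Fin k) →₀ ℤ => ∑ p ∈ η.support, p.1.natAbs)
      (fun _ _ => Nat.zero_le _) hη
  have h3 : |p.1| = (p.1.natAbs : ℤ) := Int.abs_eq_natAbs p.1
  rw [h3] at hp
  have h4 := Int.ofNat_lt.1 hp
  omega

theorem within_mono {r s : ℕ} {F : Lau k} (h : Within r F) (hrs : r ≤ s) : Within s F := by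
  intro η hη p hp
  exact h η hη p (by omega)

theorem sc_single (l : ℤ × Fin k) (η : (ℤ × Fin k) →₀ ℤ) (c : ℂ) :
    sc l (AddMonoidAlgebra.single η c) = AddMonoidAlgebra.single η (c * (2 : ℂ) ^ (η l)) := by
  unfold sc
  rw [AddMonoidAlgebra.lift_single]
  show c • AddMonoidAlgebra.single η ((2 : ℂ) ^ (η l)) = _
  rw [AddMonoidAlgebra.smul_single, smul_eq_mul]

theorem GSh_sc_coeff (l : ℤ × Fin k) (F : Lau k) (η : (ℤ × Fin k) →₀ ℤ) :
    (sc l F).coeff η = F.coeff η * (2 : ℂ) ^ (η l) := by
  classical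
  induction F using AddMonoidAlgebra.induction_linear with
  | zero => rw [map_zero]; simp
  | add F1 F2 h1 h2 =>
    rw [map_add, AddMonoidAlgebra.coeff_add, AddMonoidAlgebra.coeff_add, Finsupp.add_apply,
      Finsupp.add_apply, h1, h2, add_mul]
  | single ζ c =>
    rw [sc_single, AddMonoidAlgebra.coeff_single, AddMonoidAlgebra.coeff_single,
      Finsupp.single_apply, Finsupp.single_apply]
    by_cases h : ζ = η
    · subst h
      rw [if_pos rfl, if_pos rfl]
    · rw [if_neg h, if_neg h, zero_mul]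

theorem GSh_two_zpow {m : ℤ} (h : (2 : ℂ) ^ m = 1) : m = 0 := by
  have h1 : ((2 : ℝ) ^ m : ℝ) = (2 : ℝ) ^ (0 : ℤ) := by
    have h2 := congrArg (fun z : ℂ => ‖z‖) h
    simpa using h2
  exact zpow_right_injective₀ (by norm_num : (0 : ℝ) < 2) (by norm_num) h1

/-- `F` is fixed by the substitution if and only if it does not involve the variable `l`. -/
theorem sc_eq_iff (l : ℤ × Fin k) (F : Lau k) : sc l F = F ↔ der l F = 0 := by
  rw [GSh_der_eq_zero]
  constructor
  · intro h η hη
    have h1 := GSh_sc_coeff l F η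
    rw [h] at h1
    apply GSh_two_zpow
    exact (mul_left_cancel₀ hη (by rw [mul_one]; exact h1)).symm
  · intro h
    apply AddMonoidAlgebra.coeff_injective
    apply Finsupp.ext
    intro η
    rw [GSh_sc_coeff]
    by_cases hη : F.coeff η = 0
    · rw [hη, zero_mul]
    · rw [h η hη, zpow_zero, mul_one]

theorem sc_sh (l : ℤ × Fin k) (n : ℤ) (F : Lau k) : sc l (sh n F) = sh n (sc (l.1 - n, l.2) F) := by
  induction F using AddMonoidAlgebra.induction_linear with
  | zero => rw [map_zero, map_zero, map_zero, map_zero]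
  | add F1 F2 h1 h2 => rw [map_add, map_add, h1, h2, map_add, map_add]
  | single η c => rw [sh_single, sc_single, sc_single, sh_single, shE_apply]

theorem sc_ne_zero (l : ℤ × Fin k) {F : Lau k} (hF : F ≠ 0) : sc l F ≠ 0 := by
  intro h
  apply hF
  apply AddMonoidAlgebra.coeff_injective
  apply Finsupp.ext
  intro η
  have h1 := GSh_sc_coeff l F η
  rw [h, AddMonoidAlgebra.coeff_zero, Finsupp.zero_apply] at h1
  rw [AddMonoidAlgebra.coeff_zero, Finsupp.zero_apply]
  exact (mul_eq_zero.1 h1.symm).resolve_right (zpow_ne_zero _ (by norm_num))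

/-- Only finitely many variables occur in `F`. -/
theorem der_finite (F : Lau k) : {l | der l F ≠ 0}.Finite := by
  apply Set.Finite.subset (F.coeff.support.finite_toSet.biUnion
    (t := fun η => (η.support : Set (ℤ × Fin k))) (fun η _ => η.support.finite_toSet))
  intro l hl
  by_contra hne
  apply hl
  rw [GSh_der_eq_zero]
  intro η hη
  by_contra h0
  apply hne
  simp only [Set.mem_iUnion]
  exact ⟨η, Finset.mem_coe.2 (Finsupp.mem_support_iff.2 hη),
    Finset.mem_coe.2 (Finsupp.mem_support_iff.2 h0)⟩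

/-- If no variable occurs, the Laurent polynomial is constant. -/
theorem const_of_der {F : Lau k} (h : ∀ l, der l F = 0) :
    F = AddMonoidAlgebra.single 0 (F.coeff 0) := by
  apply AddMonoidAlgebra.coeff_injective
  apply Finsupp.ext
  intro η
  rw [AddMonoidAlgebra.coeff_single]
  by_cases hη : η = 0
  · subst hη
    rw [Finsupp.single_eq_same]
  · rw [Finsupp.single_eq_of_ne hη]
    by_contra hne
    apply hη
    apply Finsupp.ext
    intro l
    exact (GSh_der_eq_zero l F).1 (h l) η hne

/-- A Laurent polynomial which is equal to a nontrivial shift of itself is constant. -/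
theorem const_of_sh {F : Lau k} {n : ℤ} (hn : n ≠ 0) (h : sh n F = F) (l : ℤ × Fin k) :
    der l F = 0 := by
  by_contra hne
  have h1 : ∀ j : ℕ, der (l.1 - j * n, l.2) F ≠ 0 := by
    intro j
    induction j with
    | zero => simpa using hne
    | succ j ih =>
      intro h0
      apply ih
      have h2 := der_sh (l.1 - j * n, l.2) n F
      rw [h] at h2
      rw [h2]
      have h3 : (l.1 - (j : ℤ) * n - n, l.2) = (l.1 - ((j + 1 : ℕ) : ℤ) * n, l.2) := by
        congr 1
        push_cast
        ring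
      show sh n (der (l.1 - (j : ℤ) * n - n, l.2) F) = 0
      rw [h3, h0, map_zero]
  have hinj : Function.Injective (fun j : ℕ => ((l.1 - (j : ℤ) * n, l.2) : ℤ × Fin k)) := by
    intro i j hij
    simp only [Prod.mk.injEq, and_true] at hij
    have h4 : (i : ℤ) * n = (j : ℤ) * n := by linarith
    exact_mod_cast mul_right_cancel₀ hn h4
  exact Set.infinite_of_injective_forall_mem hinj h1 (der_finite F)

end Pool.Agent.Wb5ab1b
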