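import Pool.Agent.W_b5ab1b_h80.Jac0

/-!
# Entries of powers of banded operators: locality, homomorphisms, relations (helper80)
-/

set_option autoImplicit false

noncomputable section

open scoped Polynomial

namespace Pool.Agent.Wb5ab1b

variable {R : Type} [CommRing R]

/-- Locality: the entry `(m, n)` of the `j`-th power depends only on the coefficients at distance
`≤ j` from `m`. Induction with `pwg_succ`. -/
theorem pwg_congr (α β v α' β' v' : ℤ → R) (j : ℕ) (m n : ℤ)
    (hα : ∀ l, |l - m| ≤ j → α l = α' l) (hβ : ∀ l, |l - m| ≤ j → β l = β' l)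
    (hv : ∀ l, |l - m| ≤ j → v l = v' l) : pwg α β v j m n = pwg α' β' v' j m n := by
  induction j generalizing m with
  | zero => rw [pwg_zero, pwg_zero]
  | succ j ih =>
    have h0 : |m - m| ≤ ((j + 1 : ℕ) : ℤ) := by
      rw [sub_self, abs_zero]
      positivity
    have h1 : |m - 1 - m| ≤ ((j + 1 : ℕ) : ℤ) := by
      rw [abs_le]
      push_cast
      constructor <;> linarith [Int.natCast_nonneg j]
    have hp : ∀ l : ℤ, |l - (m + 1)| ≤ (j : ℤ) → |l - m| ≤ ((j + 1 : ℕ) : ℤ) := by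
      intro l hl
      rw [abs_le] at hl ⊢
      push_cast
      constructor <;> linarith [hl.1, hl.2]
    have hq : ∀ l : ℤ, |l - (m - 1)| ≤ (j : ℤ) → |l - m| ≤ ((j + 1 : ℕ) : ℤ) := by
      intro l hl
      rw [abs_le] at hl ⊢
      push_cast
      constructor <;> linarith [hl.1, hl.2]
    have hr : ∀ l : ℤ, |l - m| ≤ (j : ℤ) → |l - m| ≤ ((j + 1 : ℕ) : ℤ) := by
      intro l hl
      push_cast
      linarith
    rw [pwg_succ, pwg_succ, hα m h0, hv m h0, hβ (m - 1) h1,
      ih (m + 1) (fun l hl => hα l (hp l hl)) (fun l hl => hβ l (hp l hl))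
        (fun l hl => hv l (hp l hl)),
      ih (m - 1) (fun l hl => hα l (hq l hl)) (fun l hl => hβ l (hq l hl))
        (fun l hl => hv l (hq l hl)),
      ih m (fun l hl => hα l (hr l hl)) (fun l hl => hβ l (hr l hl))
        (fun l hl => hv l (hr l hl))]

/-- Ring homomorphisms commute with everything. -/
theorem map_pwg {R' : Type} [CommRing R'] (f : R →+* R') (α β v : ℤ → R) (j : ℕ) (m n : ℤ) :
    f (pwg α β v j m n) = pwg (fun l => f (α l)) (fun l => f (β l)) (fun l => f (v l)) j m n := by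
  induction j generalizing m with
  | zero =>
    rw [pwg_zero, pwg_zero]
    split_ifs <;> simp
  | succ j ih =>
    rw [pwg_succ, pwg_succ, map_add, map_add, map_mul, map_mul, map_mul, ih, ih, ih]

theorem map_pw {R' : Type} [CommRing R'] (f : R →+* R') (b v : ℤ → R) (j : ℕ) (m n : ℤ) :
    f (pw b v j m n) = pw (fun l => f (b l)) (fun l => f (v l)) j m n := by
  rw [pw_eq, pw_eq, map_pwg]
  simp only [map_one]

/-- Entries of polynomials. -/
theorem ent_eq_sum (b v : ℤ → R) (m n : ℤ) (g : R[X]) :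
    ent b v m n g = g.sum fun j c => c * pw b v j m n := by
  have h1 : ent b v m n g = (Polynomial.aeval (J b v) g : Module.End R (ℤ → R))
      (Pi.single n 1) m := rfl
  rw [h1, Polynomial.aeval_def, Polynomial.eval₂_eq_sum, Polynomial.sum, Polynomial.sum,
    LinearMap.sum_apply, Finset.sum_apply]
  rfl

theorem Jac1_ext {Φ Ψ : Fn R} (h : ∀ j : ℕ, Φ.app (Polynomial.X ^ j) = Ψ.app (Polynomial.X ^ j)) :
    Φ = Ψ := by
  refine Polynomial.lhom_ext' fun j => LinearMap.ext_ring ?_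
  have h1 := h j
  rw [Polynomial.X_pow_eq_monomial] at h1
  exact h1

theorem Jac1_app_C (c : R) (Φ : Fn R) (g : R[X]) :
    (Polynomial.C c • Φ).app g = c * Φ.app g := by
  rw [Fn.app_smul, Polynomial.C_mul']
  exact map_smul (show R[X] →ₗ[R] R from Φ) c g

theorem Jac1_app_sub (Φ Ψ : Fn R) (g : R[X]) : (Φ - Ψ).app g = Φ.app g - Ψ.app g := rfl

theorem Jac1_app_X (c : R) (Φ : Fn R) (j : ℕ) :
    ((Polynomial.X - Polynomial.C c) • Φ).app (Polynomial.X ^ j) =
      Φ.app (Polynomial.X ^ (j + 1)) - c * Φ.app (Polynomial.X ^ j) := by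
  rw [sub_smul, Jac1_app_sub, Jac1_app_C, Fn.app_smul, pow_succ']

theorem Jac1_ent (b v : ℤ → R) (m n : ℤ) (j : ℕ) :
    ent b v m n (Polynomial.X ^ j) = pw b v j m n := by
  have h1 : ent b v m n (Polynomial.X ^ j) =
      (Polynomial.aeval (J b v) (Polynomial.X ^ j : R[X]) : Module.End R (ℤ → R))
      (Pi.single n 1) m := rfl
  rw [h1, map_pow, Polynomial.aeval_X]
  rfl

theorem Jac1_P (b v : ℤ → R) (n : ℤ) (j : ℕ) :
    (P b v n).app (Polynomial.X ^ j) = pw b v j n n := Jac1_ent b v n n j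

theorem Jac1_S (b v : ℤ → R) (n : ℤ) (j : ℕ) :
    (S b v n).app (Polynomial.X ^ j) = pw b v j n (n + 1) := Jac1_ent b v n (n + 1) j

theorem Jac1_succ (b v : ℤ → R) (j : ℕ) (m n : ℤ) :
    pw b v (j + 1) m n = pw b v j (m + 1) n + v m * pw b v j m n +
      b (m - 1) * pw b v j (m - 1) n := by
  rw [pw_eq, pw_eq, pw_eq, pw_eq, pwg_succ, one_mul]

theorem Jac1_succ' (b v : ℤ → R) (j : ℕ) (m n : ℤ) :
    pw b v (j + 1) m n = pw b v j m (n - 1) + v n * pw b v j m n + b n * pw b v j m (n + 1) := by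
  rw [pw_eq, pw_eq, pw_eq, pw_eq, pwg_succ', one_mul]

/-- First relation, from `J^(j+1) = J J^j` and `pw_lower`: in the module `Fn R`,
`(X - v_n) P_n = b_n S_n + b_(n-1) S_(n-1)`. It is enough to check it on the polynomials `C c * X^j`
(`Polynomial.lhom_ext'` or induction), where it is `pwg_succ` together with `pw_lower`. -/
theorem rel_P (b v : ℤ → R) (n : ℤ) :
    (Polynomial.X - Polynomial.C (v n)) • P b v n =
      Polynomial.C (b n) • S b v n + Polynomial.C (b (n - 1)) • S b v (n - 1) := by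
  refine Jac1_ext fun j => ?_
  rw [Jac1_app_X, Fn.app_add, Jac1_app_C, Jac1_app_C, Jac1_P, Jac1_P, Jac1_S, Jac1_S,
    Jac1_succ, pw_lower, sub_add_cancel]
  ring

/-- Second relation. On `C c * X^j` (write `s_n = (J^j)_{n,n+1}`, `w_n = (J^j)_{n,n+2}`,
`p_n = (J^j)_{n,n}`): from `pwg_succ`, `(J^(j+1))_{n,n+1} = p_(n+1) + v_n s_n + b_(n-1) w_(n-1)`; from
`pwg_succ'`, `(J^(j+1))_{n-1,n} = p_(n-1) + v_n s_(n-1) + b_n w_(n-1)`. Multiply the first by `b_n`, the
second by `b_(n-1)` and subtract. -/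
theorem rel_S (b v : ℤ → R) (n : ℤ) :
    Polynomial.C (b n) • P b v (n + 1) - Polynomial.C (b (n - 1)) • P b v (n - 1) =
      (Polynomial.X - Polynomial.C (v n)) •
        (Polynomial.C (b n) • S b v n - Polynomial.C (b (n - 1)) • S b v (n - 1)) := by
  refine Jac1_ext fun j => ?_
  rw [Jac1_app_X, Jac1_app_sub, Jac1_app_sub, Jac1_app_sub, Jac1_app_C, Jac1_app_C, Jac1_app_C,
    Jac1_app_C, Jac1_app_C, Jac1_app_C, Jac1_P, Jac1_P, Jac1_S, Jac1_S, Jac1_S, Jac1_S,
    sub_add_cancel, Jac1_succ b v j n (n + 1), Jac1_succ' b v j (n - 1) n]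
  ring

end Pool.Agent.Wb5ab1b
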