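import Pool.Agent.W_b5ab1b_h80.GSh
import Pool.Agent.W_b5ab1b_h80.Jac1

/-!
# Shift invariance of AC (helper80)
-/

set_option autoImplicit false

noncomputable section

open scoped Polynomial
open Polynomial (X C)

namespace Pool.Agent.Wb5ab1b

variable {k : ℕ}

theorem GShAC_sq (m n : ℤ) (F : Lau k) : sh m (sq F n) = sq F (m + n) := sh_sh m n F

/-- Stationarity of the entries (`map_pwg`, `sh_sh`; the entries of the shifted sequences). -/
theorem pw_sh (b v : Lau k) (m : ℤ) (j : ℕ) (i n : ℤ) :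
    sh m (pw (sq b) (sq v) j i n) = pw (sq b) (sq v) j (m + i) (m + n) := by
  induction j generalizing i with
  | zero =>
    rw [pw_eq, pw_eq, pwg_zero, pwg_zero]
    by_cases h : i = n
    · subst h
      rw [if_pos rfl, if_pos rfl, map_one]
    · rw [if_neg h, if_neg (fun h1 => h (add_left_cancel h1)), map_zero]
  | succ j ih =>
    rw [Jac1_succ, Jac1_succ, map_add, map_add, map_mul, map_mul, ih, ih, ih, GShAC_sq, GShAC_sq,
      ← add_assoc m i 1, ← add_sub_assoc m i 1]

theorem GShAC_ent (b v : Lau k) (m i n : ℤ) (g : (Lau k)[X]) :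
    ent (sq b) (sq v) (m + i) (m + n) (shX m g) = sh m (ent (sq b) (sq v) i n g) := by
  induction g using Polynomial.induction_on' with
  | add p q hp hq => rw [map_add, map_add, map_add, map_add, hp, hq]
  | monomial j c =>
    have h1 : shX m (Polynomial.monomial j c) = (sh m c) • (X ^ j : (Lau k)[X]) := by
      rw [shX, Polynomial.coe_mapRingHom, Polynomial.map_monomial, Polynomial.smul_eq_C_mul,
        Polynomial.C_mul_X_pow_eq_monomial]
      rfl
    have h2 : (Polynomial.monomial j c : (Lau k)[X]) = c • (X ^ j : (Lau k)[X]) := by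
      rw [Polynomial.smul_eq_C_mul, Polynomial.C_mul_X_pow_eq_monomial]
    rw [h1, h2, map_smul, map_smul, Jac1_ent, Jac1_ent, smul_eq_mul, smul_eq_mul, map_mul, pw_sh]

/-- `P (n + m)` applied to the shifted polynomial is the shift of `P n` applied to the polynomial. -/
theorem P_shX (b v : Lau k) (m n : ℤ) (g : (Lau k)[X]) :
    (P (sq b) (sq v) (m + n)).app (shX m g) = sh m ((P (sq b) (sq v) n).app g) :=
  GShAC_ent b v m n n g

theorem S_shX (b v : Lau k) (m n : ℤ) (g : (Lau k)[X]) :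
    (S (sq b) (sq v) (m + n)).app (shX m g) = sh m ((S (sq b) (sq v) n).app g) := by
  have h := GShAC_ent b v m n (n + 1) g
  rw [← add_assoc] at h
  exact h

theorem GShAC_toL (m : ℤ) (q : ℝ[X]) : shX m (toL (k := k) q) = toL q := by
  unfold shX toL
  rw [Polynomial.coe_mapRingHom, Polynomial.map_map]
  congr 1
  ext r : 1
  show sh m (algebraMap ℝ (Lau k) r) = algebraMap ℝ (Lau k) r
  rw [IsScalarTower.algebraMap_apply ℝ ℂ (Lau k)]
  exact (sh (k := k) m).commutes _

/-- `E (W * (shX m κ • P (m+n)).app (toL q)) = E (sh (-m) W * (κ • P n).app (toL q))` (`E_sh`; `shX` fixes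
`toL q`). -/
theorem AC_shX_P {b v : Lau k} {M : ℝ} {κ : (Lau k)[X]} {n : ℤ}
    (h : κ • P (sq b) (sq v) n ∈ AC k M) (m : ℤ) :
    shX m κ • P (sq b) (sq v) (m + n) ∈ AC k M := by
  intro W
  obtain ⟨C, hC⟩ := h (sh (-m) W)
  refine ⟨C, fun q => ?_⟩
  have h1 : W * (shX m κ • P (sq b) (sq v) (m + n)).app (toL q) =
      sh m (sh (-m) W * (κ • P (sq b) (sq v) n).app (toL q)) := by
    rw [map_mul, sh_sh, add_neg_cancel, sh_zero, Fn.app_smul, Fn.app_smul, ← P_shX, map_mul,
      GShAC_toL]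
  rw [h1, E_sh]
  exact hC q

theorem AC_shX_S {b v : Lau k} {M : ℝ} {κ : (Lau k)[X]} {n : ℤ}
    (h : κ • S (sq b) (sq v) n ∈ AC k M) (m : ℤ) :
    shX m κ • S (sq b) (sq v) (m + n) ∈ AC k M := by
  intro W
  obtain ⟨C, hC⟩ := h (sh (-m) W)
  refine ⟨C, fun q => ?_⟩
  have h1 : W * (shX m κ • S (sq b) (sq v) (m + n)).app (toL q) =
      sh m (sh (-m) W * (κ • S (sq b) (sq v) n).app (toL q)) := by
    rw [map_mul, sh_sh, add_neg_cancel, sh_zero, Fn.app_smul, Fn.app_smul, ← S_shX, map_mul,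
      GShAC_toL]
  rw [h1, E_sh]
  exact hC q

end Pool.Agent.Wb5ab1b
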