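import Pool.Agent.W_b5ab1b_h80.Defs

/-!
# Entries of powers of banded operators: recursion, bandwidth, gauge (helper80)
-/

set_option autoImplicit false

noncomputable section

open scoped Polynomial

namespace Pool.Agent.Wb5ab1b

variable {R : Type} [CommRing R]

/-- `J^(j+1) = J J^j`: unfold `Jg`. -/
theorem pwg_succ (α β v : ℤ → R) (j : ℕ) (m n : ℤ) :
    pwg α β v (j + 1) m n =
      α m * pwg α β v j (m + 1) n + v m * pwg α β v j m n + β (m - 1) * pwg α β v j (m - 1) n := by
  unfold pwg
  rw [pow_succ', Module.End.mul_apply]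
  rfl

theorem Jac0_single (α β v : ℤ → R) (n : ℤ) :
    Jg α β v (Pi.single n 1) = α (n - 1) • (Pi.single (n - 1) 1 : ℤ → R) +
      v n • (Pi.single n 1 : ℤ → R) + β n • (Pi.single (n + 1) 1 : ℤ → R) := by
  funext m
  show α m * (Pi.single n 1 : ℤ → R) (m + 1) + v m * (Pi.single n 1 : ℤ → R) m +
    β (m - 1) * (Pi.single n 1 : ℤ → R) (m - 1) = _
  simp only [Pi.add_apply, Pi.smul_apply, Pi.single_apply, smul_eq_mul]
  by_cases h1 : m = n - 1
  · subst h1
    have e1 : ¬ (n - 1 = n) := by omega
    have e2 : ¬ (n - 1 - 1 = n) := by omega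
    have e3 : ¬ (n - 1 = n + 1) := by omega
    simp [e2, e3]
  · by_cases h2 : m = n
    · subst h2
      simp [h1]
    · by_cases h3 : m = n + 1
      · subst h3
        have e1 : ¬ (n + 1 + 1 = n) := by omega
        have e2 : ¬ (n + 1 = n - 1) := by omega
        simp [e1, e2]
      · have e1 : ¬ (m + 1 = n) := by omega
        have e2 : ¬ (m - 1 = n) := by omega
        simp [h1, h2, h3, e1, e2]

/-- `J^(j+1) = J^j J`: `J δ_n = α(n-1) δ_(n-1) + v(n) δ_n + β(n) δ_(n+1)`, then linearity. -/
theorem pwg_succ' (α β v : ℤ → R) (j : ℕ) (m n : ℤ) :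
    pwg α β v (j + 1) m n =
      α (n - 1) * pwg α β v j m (n - 1) + v n * pwg α β v j m n + β n * pwg α β v j m (n + 1) := by
  unfold pwg
  rw [pow_succ, Module.End.mul_apply, Jac0_single, map_add, map_add, map_smul, map_smul, map_smul]
  rfl

theorem pwg_zero (α β v : ℤ → R) (m n : ℤ) : pwg α β v 0 m n = if m = n then 1 else 0 := by
  unfold pwg
  rw [pow_zero, Module.End.one_apply, Pi.single_apply]

/-- Bandwidth. Induction with `pwg_succ`. -/
theorem pwg_eq_zero (α β v : ℤ → R) (j : ℕ) (m n : ℤ) (h : (j : ℤ) < |m - n|) :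
    pwg α β v j m n = 0 := by
  induction j generalizing m with
  | zero =>
    rw [pwg_zero, if_neg]
    rintro rfl
    simp at h
  | succ j ih =>
    push_cast at h
    have h0 := abs_le.1 (le_refl |m - n|)
    have e1 : (j : ℤ) < |m + 1 - n| := by
      rcases le_or_gt 0 (m - n) with hs | hs
      · rw [abs_of_nonneg hs] at h
        rw [abs_of_nonneg (by omega)]
        omega
      · rw [abs_of_neg hs] at h
        rw [abs_of_nonpos (by omega)]
        omega
    have e2 : (j : ℤ) < |m - n| := by omega
    have e3 : (j : ℤ) < |m - 1 - n| := by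
      rcases le_or_gt 0 (m - n) with hs | hs
      · rw [abs_of_nonneg hs] at h
        rw [abs_of_nonneg (by omega)]
        omega
      · rw [abs_of_neg hs] at h
        rw [abs_of_nonpos (by omega)]
        omega
    rw [pwg_succ, ih _ e1, ih _ e2, ih _ e3]
    ring

/-- `pw` is the case `α = 1`. -/
theorem pw_eq (b v : ℤ → R) (j : ℕ) (m n : ℤ) : pw b v j m n = pwg (fun _ => 1) b v j m n := rfl

theorem Jac0_prod_left (a : ℤ → R) {m n : ℤ} (h : m < n) :
    ∏ l ∈ Finset.Ico m n, a l = a m * ∏ l ∈ Finset.Ico (m + 1) n, a l := by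
  have h1 : Finset.Ico m n = insert m (Finset.Ico (m + 1) n) := by
    ext x
    simp only [Finset.mem_insert, Finset.mem_Ico]
    omega
  rw [h1, Finset.prod_insert (by simp)]

theorem Jac0_prod_left' (a : ℤ → R) {m n : ℤ} (h : m ≤ n) :
    ∏ l ∈ Finset.Ico (m - 1) n, a l = a (m - 1) * ∏ l ∈ Finset.Ico m n, a l := by
  have h1 := Jac0_prod_left a (m := m - 1) (n := n) (by omega)
  rw [sub_add_cancel] at h1
  exact h1

/-- Gauge invariance. Prove both parts together by induction on `j`, for all `m ≤ n`, using `pwg_succ`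
for both sides. Upper part, `m < n`: `α_m · Π_{[m+1,n)} α = Π_{[m,n)} α` and
`β_{m-1} Π_{[m-1,n)} α = α_{m-1} β_{m-1} Π_{[m,n)} α`. Case `m = n`: the term
`α_n (J^j)_{n+1,n}` is `α_n β_n (J^j)_{n,n+1}` for both operators, by the induction hypothesis (for the
right hand side use the case `α = 1` of the statement for `pw`). The lower part is the transposed
computation; use `pwg_succ'`. -/
theorem gauge (α β v : ℤ → R) (j : ℕ) (m n : ℤ) (hmn : m ≤ n) :
    pwg α β v j m n = (∏ l ∈ Finset.Ico m n, α l) * pw (fun l => α l * β l) v j m n ∧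
    pwg α β v j n m = (∏ l ∈ Finset.Ico m n, β l) * pw (fun l => α l * β l) v j m n := by
  induction j generalizing α β m n with
  | zero =>
    rw [pw_eq, pwg_zero, pwg_zero, pwg_zero]
    by_cases h : m = n
    · subst h
      simp
    · have h' : ¬ n = m := fun h1 => h h1.symm
      simp [h, h']
  | succ j ih =>
    have hpw : ∀ m n : ℤ, pw (fun l => α l * β l) v (j + 1) m n =
        pw (fun l => α l * β l) v j (m + 1) n + v m * pw (fun l => α l * β l) v j m n +
          α (m - 1) * β (m - 1) * pw (fun l => α l * β l) v j (m - 1) n := by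
      intro m n
      rw [pw_eq, pwg_succ, one_mul]
      rfl
    have hlow : pw (fun l => α l * β l) v j (n + 1) n =
        α n * β n * pw (fun l => α l * β l) v j n (n + 1) := by
      have h1 := (ih (fun _ => 1) (fun l => α l * β l) n (n + 1) (by omega)).2
      have h2 : Finset.Ico n (n + 1) = {n} := by
        ext x
        simp only [Finset.mem_Ico, Finset.mem_singleton]
        omega
      rw [h2, Finset.prod_singleton] at h1
      simp only [one_mul] at h1
      exact h1
    have hdiag : pwg α β v (j + 1) n n = pw (fun l => α l * β l) v (j + 1) n n := by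
      rw [pwg_succ, hpw]
      have h1 := (ih α β n (n + 1) (by omega)).2
      have h2 : Finset.Ico n (n + 1) = {n} := by
        ext x
        simp only [Finset.mem_Ico, Finset.mem_singleton]
        omega
      rw [h2, Finset.prod_singleton] at h1
      have h3 := (ih α β n n le_rfl).1
      rw [Finset.Ico_self, Finset.prod_empty, one_mul] at h3
      have h4 := (ih α β (n - 1) n (by omega)).1
      rw [Jac0_prod_left' α (le_refl n), Finset.Ico_self, Finset.prod_empty, mul_one] at h4
      rw [h1, h3, h4, hlow]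
      ring
    rcases lt_or_eq_of_le hmn with h | h
    · constructor
      · rw [pwg_succ, hpw, (ih α β (m + 1) n (by omega)).1, (ih α β m n hmn).1,
          (ih α β (m - 1) n (by omega)).1, Jac0_prod_left α h, Jac0_prod_left' α hmn,
          Jac0_prod_left α h]
        ring
      · rw [pwg_succ', hpw, (ih α β (m + 1) n (by omega)).2, (ih α β m n hmn).2,
          (ih α β (m - 1) n (by omega)).2, Jac0_prod_left β h, Jac0_prod_left' β hmn,
          Jac0_prod_left β h]
        ring
    · subst h
      rw [Finset.Ico_self, Finset.prod_empty, Finset.prod_empty, one_mul]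
      exact ⟨hdiag, hdiag⟩

/-- Special case `α = 1` of `gauge`: `(J^j)_{n+1,n} = b_n (J^j)_{n,n+1}`. -/
theorem pw_lower (b v : ℤ → R) (j : ℕ) (n : ℤ) : pw b v j (n + 1) n = b n * pw b v j n (n + 1) := by
  have h1 := (gauge (fun _ => 1) b v j n (n + 1) (by omega)).2
  have h2 : Finset.Ico n (n + 1) = {n} := by
    ext x
    simp only [Finset.mem_Ico, Finset.mem_singleton]
    omega
  rw [h2, Finset.prod_singleton] at h1
  simp only [one_mul] at h1
  exact h1

end Pool.Agent.Wb5ab1b
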