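import Pool.Agent.W_b5ab1b_h80.GKI
import Pool.Agent.W_b5ab1b_h80.AlgR
import Pool.Agent.W_b5ab1b_h80.AlgL
import Pool.Agent.W_b5ab1b_h80.AlgN
import Pool.Agent.W_b5ab1b_h80.AlgT
import Pool.Agent.W_b5ab1b_h80.GField
import Pool.Agent.W_b5ab1b_h80.GFunc
import Pool.Agent.W_b5ab1b_h80.GShAC

/-!
# Nonzero polynomials which carry the entries into `AC` (helper80)
-/

set_option autoImplicit false

noncomputable section

open scoped Polynomial
open Polynomial (X C)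

namespace Pool.Agent.Wb5ab1b

variable {k : ℕ}

/-- There is no nonzero solution of all the relations in a field with a degree. -/
theorem alg {𝕂 : Type} [Field 𝕂] (d : DegF k 𝕂) {b v : Lau k} {r : ℕ} (hbr : Within r b)
    (hvr : Within r v) (hb : b ≠ 0) (hnc : ¬ ((∀ l, der l b = 0) ∧ ∀ l, der l v = 0))
    {P S : ℤ → 𝕂} (h : Sol d b v P S) (h3 : Rel3 d b v r P S) (n : ℤ) : P n = 0 ∧ S n = 0 := by
  by_contra hcon
  have hne : ∃ n, P n ≠ 0 ∨ S n ≠ 0 := by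
    refine ⟨n, ?_⟩
    by_contra h2
    push Not at h2
    exact hcon h2
  obtain ⟨ε, hε⟩ := alg_struct d hb h
    (fun n e a1 a2 a3 a4 => alg_right d hbr hvr hb hnc h h3 n e a1 a2 a3 a4)
    (fun n e a1 a2 a3 a4 => alg_left d hbr hvr hb hnc h h3 n e a1 a2 a3 a4) hne
  exact alg_tau d hbr hvr hb hnc h ε hε

/-- A functional which vanishes on `AC` vanishes on all the entries. -/
theorem func_zero {𝕂 : Type} [Field 𝕂] (d : DegF k 𝕂) {b v : Lau k} {M : ℝ}
    (h : GGood k b v M) (hb : b ≠ 0) (hnc : ¬ ((∀ l, der l b = 0) ∧ ∀ l, der l v = 0))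
    (g : Fn (Lau k) →+ 𝕂)
    (hg : ∀ (a : (Lau k)[X]) (m : Fn (Lau k)), g (a • m) = Polynomial.eval₂RingHom d.ι d.x a * g m)
    (hN : ∀ m ∈ AC k M, g m = 0) (n : ℤ) :
    g (P (sq b) (sq v) n) = 0 ∧ g (S (sq b) (sq v) n) = 0 := by
  obtain ⟨r1, hr1⟩ := exists_within b
  obtain ⟨r2, hr2⟩ := exists_within v
  have hbr : Within (max r1 r2) b := within_mono hr1 (le_max_left _ _)
  have hvr : Within (max r1 r2) v := within_mono hr2 (le_max_right _ _)
  have hC : ∀ F : Lau k, Polynomial.eval₂RingHom d.ι d.x (C F) = d.ι F := fun F => by simp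
  have hX : Polynomial.eval₂RingHom d.ι d.x X = d.x := by simp
  have hsol : Sol d b v (fun n => g (P (sq b) (sq v) n)) (fun n => g (S (sq b) (sq v) n)) := by
    constructor
    · intro n
      have h1 := congrArg g (rel_P (sq b) (sq v) n)
      rw [hg, map_add, hg, hg, map_sub, hX, hC, hC, hC] at h1
      exact h1
    · intro n
      have h1 := congrArg g (rel_S (sq b) (sq v) n)
      rw [map_sub, hg, hg, hg, map_sub, map_sub, hg, hg, hX, hC, hC, hC] at h1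
      exact h1
  have hrel : Rel3 d b v (max r1 r2) (fun n => g (P (sq b) (sq v) n))
      (fun n => g (S (sq b) (sq v) n)) := by
    intro j
    have h1 := hN _ (KI_g h hbr hvr j)
    unfold DD at h1
    rw [map_sum] at h1
    rw [← h1]
    apply Finset.sum_congr rfl
    intro m _
    rw [map_add, hg, hg, hC, hC]
  exact alg d hbr hvr hb hnc hsol hrel n

theorem exists_kap_P {b v : Lau k} {M : ℝ} (h : GGood k b v M) (hb : b ≠ 0)
    (hnc : ¬ ((∀ l, der l b = 0) ∧ ∀ l, der l v = 0)) (n : ℤ) :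
    ∃ κ : (Lau k)[X], κ ≠ 0 ∧ κ • P (sq b) (sq v) n ∈ AC k M := by
  by_contra hcon
  push Not at hcon
  obtain ⟨𝕂, _, d, hinj⟩ := exists_degF k
  obtain ⟨g, hg, hN, hz⟩ := exists_functional (AC k M) (P (sq b) (sq v) n) hcon
    (Polynomial.eval₂RingHom d.ι d.x) hinj
  exact hz (func_zero d h hb hnc g hg hN n).1

theorem exists_kap_S {b v : Lau k} {M : ℝ} (h : GGood k b v M) (hb : b ≠ 0)
    (hnc : ¬ ((∀ l, der l b = 0) ∧ ∀ l, der l v = 0)) (n : ℤ) :
    ∃ κ : (Lau k)[X], κ ≠ 0 ∧ κ • S (sq b) (sq v) n ∈ AC k M := by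
  by_contra hcon
  push Not at hcon
  obtain ⟨𝕂, _, d, hinj⟩ := exists_degF k
  obtain ⟨g, hg, hN, hz⟩ := exists_functional (AC k M) (S (sq b) (sq v) n) hcon
    (Polynomial.eval₂RingHom d.ι d.x) hinj
  exact hz (func_zero d h hb hnc g hg hN n).2

/-- A nonzero polynomial which carries the entries at the origin into `AC`. -/
theorem exists_kap {b v : Lau k} {M : ℝ} (h : GGood k b v M) (hb : b ≠ 0)
    (hnc : ¬ ((∀ l, der l b = 0) ∧ ∀ l, der l v = 0)) :
    ∃ κ : (Lau k)[X], κ ≠ 0 ∧ κ • P (sq b) (sq v) 0 ∈ AC k M ∧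
      κ • P (sq b) (sq v) (0 + 1) ∈ AC k M ∧ κ • S (sq b) (sq v) 0 ∈ AC k M := by
  obtain ⟨κ1, h1, h1'⟩ := exists_kap_P h hb hnc 0
  obtain ⟨κ2, h2, h2'⟩ := exists_kap_P h hb hnc (0 + 1)
  obtain ⟨κ3, h3, h3'⟩ := exists_kap_S h hb hnc 0
  refine ⟨κ1 * κ2 * κ3, mul_ne_zero (mul_ne_zero h1 h2) h3, ?_, ?_, ?_⟩
  · rw [show κ1 * κ2 * κ3 = κ2 * κ3 * κ1 by ring, mul_smul]
    exact (AC k M).smul_mem _ h1'
  · rw [show κ1 * κ2 * κ3 = κ1 * κ3 * κ2 by ring, mul_smul]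
    exact (AC k M).smul_mem _ h2'
  · rw [mul_smul]
    exact (AC k M).smul_mem _ h3'

/-- Passage from the site `m` to the origin. -/
theorem descend {b v : Lau k} {M : ℝ} (hb : b ≠ 0) (m : ℕ) : ∀ κ : (Lau k)[X],
    κ • P (sq b) (sq v) m ∈ AC k M → κ • P (sq b) (sq v) (m + 1) ∈ AC k M →
      κ • S (sq b) (sq v) m ∈ AC k M →
        ∃ B : Lau k, B ≠ 0 ∧ (C B * κ) • P (sq b) (sq v) 0 ∈ AC k M := by
  induction m with
  | zero =>
    intro κ h0 _ _
    refine ⟨1, one_ne_zero, ?_⟩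
    rw [map_one, one_mul]
    exact h0
  | succ m ih =>
    intro κ h0 h1 h2
    have e1 : (((m + 1 : ℕ) : ℤ)) - 1 = (m : ℤ) := by push_cast; ring
    have r1 := rel_P (sq b) (sq v) ((m + 1 : ℕ) : ℤ)
    have r2 := rel_S (sq b) (sq v) ((m + 1 : ℕ) : ℤ)
    rw [e1] at r1 r2
    have a1 : (C (sq b m) * κ) • S (sq b) (sq v) m ∈ AC k M := by
      have e : (C (sq b m) * κ) • S (sq b) (sq v) m =
          (X - C (sq v ((m + 1 : ℕ) : ℤ))) • (κ • P (sq b) (sq v) ((m + 1 : ℕ) : ℤ)) -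
            C (sq b ((m + 1 : ℕ) : ℤ)) • (κ • S (sq b) (sq v) ((m + 1 : ℕ) : ℤ)) := by
        have : (X - C (sq v ((m + 1 : ℕ) : ℤ))) • (κ • P (sq b) (sq v) ((m + 1 : ℕ) : ℤ)) =
            κ • ((X - C (sq v ((m + 1 : ℕ) : ℤ))) • P (sq b) (sq v) ((m + 1 : ℕ) : ℤ)) := by
          rw [smul_comm]
        rw [this, r1]
        module
      rw [e]
      exact (AC k M).sub_mem ((AC k M).smul_mem _ h0) ((AC k M).smul_mem _ h2)
    have a2 : (C (sq b m) * κ) • P (sq b) (sq v) m ∈ AC k M := by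
      have e : (C (sq b m) * κ) • P (sq b) (sq v) m =
          C (sq b ((m + 1 : ℕ) : ℤ)) • (κ • P (sq b) (sq v) (((m + 1 : ℕ) : ℤ) + 1)) -
            (X - C (sq v ((m + 1 : ℕ) : ℤ))) •
              (C (sq b ((m + 1 : ℕ) : ℤ)) • (κ • S (sq b) (sq v) ((m + 1 : ℕ) : ℤ)) -
                (C (sq b m) * κ) • S (sq b) (sq v) m) := by
        have : C (sq b m) • P (sq b) (sq v) m =
            C (sq b ((m + 1 : ℕ) : ℤ)) • P (sq b) (sq v) (((m + 1 : ℕ) : ℤ) + 1) -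
              (X - C (sq v ((m + 1 : ℕ) : ℤ))) •
                (C (sq b ((m + 1 : ℕ) : ℤ)) • S (sq b) (sq v) ((m + 1 : ℕ) : ℤ) -
                  C (sq b m) • S (sq b) (sq v) m) := by
          rw [← r2]
          abel
        rw [mul_comm, mul_smul, this]
        module
      rw [e]
      exact (AC k M).sub_mem ((AC k M).smul_mem _ h1)
        ((AC k M).smul_mem _ ((AC k M).sub_mem ((AC k M).smul_mem _ h2) a1))
    have a3 : (C (sq b m) * κ) • P (sq b) (sq v) (m + 1) ∈ AC k M := by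
      rw [mul_smul]
      apply (AC k M).smul_mem
      have : ((m + 1 : ℕ) : ℤ) = (m : ℤ) + 1 := by push_cast; ring
      rw [← this]
      exact h0
    obtain ⟨B, hB, hB'⟩ := ih (C (sq b m) * κ) a2 a3 a1
    refine ⟨B * sq b m, mul_ne_zero hB (sh_ne_zero _ hb), ?_⟩
    rw [map_mul, mul_assoc]
    exact hB'

end Pool.Agent.Wb5ab1b
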