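import Pool.Agent.W_b5ab1b_h80.AcC
import Pool.Agent.W_b5ab1b_h80.Uniq
import Pool.Agent.W_b5ab1b_h80.Degen

/-!
# The averaged spectral measure has no singular continuous part (helper80)
-/

set_option autoImplicit false

noncomputable section

open scoped Polynomial
open Polynomial (X C)
open MeasureTheory

namespace Pool.Agent.Wb5ab1b

variable {k : ℕ}

/-! ### Evaluation -/

theorem evG_C {d : Type} [Fintype d] (z : UnitAddTorus d × ℝ) (F : AddMonoidAlgebra ℂ (d → ℤ)) :
    evG z (C F) = evP z.1 F := by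
  simp [evG]

theorem evG_X {d : Type} [Fintype d] (z : UnitAddTorus d × ℝ) :
    evG z (X : (AddMonoidAlgebra ℂ (d → ℤ))[X]) = (z.2 : ℂ) := by
  simp [evG]

theorem evP_site6 (y : UnitAddTorus (Fin 6 × Fin k)) (n : Fin 6) (F : Loc k) :
    evP y (site6 n F) = evP (fun i => y (n, i)) F := by
  induction F using AddMonoidAlgebra.induction_linear with
  | zero => simp
  | add f g hf hg => rw [map_add, map_add, map_add, hf, hg]
  | single a c =>
    rw [site6_single, evP_single, evP_single]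
    congr 1
    simp only [UnitAddTorus.mFourier, ContinuousMap.coe_mk]
    rw [Fintype.prod_prod_type, Finset.prod_eq_single n]
    · apply Finset.prod_congr rfl
      intro i _
      simp [siteHom6]
    · intro b _ hb
      apply Finset.prod_eq_one
      intro i _
      simp [siteHom6, hb]
    · simp

theorem siteHom6_injective (n : Fin 6) : Function.Injective (siteHom6 (k := k) n) := by
  intro a b h
  funext i
  have := congrFun h (n, i)
  simpa [siteHom6] using this

theorem site6_ne_zero (n : Fin 6) {F : Loc k} (hF : F ≠ 0) : site6 n F ≠ 0 := by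
  intro h
  apply hF
  have h1 : AddMonoidAlgebra.mapDomain (siteHom6 (k := k) n) F = 0 := h
  exact AddMonoidAlgebra.mapDomain_injective (siteHom6_injective n)
    (h1.trans (AddMonoidAlgebra.mapDomain_zero _).symm)

theorem ae_ne {F : Lau6 k} (hF : F ≠ 0) : ∀ᵐ y : UnitAddTorus (Fin 6 × Fin k), evP y F ≠ 0 := by
  rw [ae_iff]
  simpa using null_zero F hF

theorem ae_site6 (n : Fin 6) {F : Loc k} (hF : F ≠ 0) :
    ∀ᵐ y : UnitAddTorus (Fin 6 × Fin k), evP y (site6 n F) ≠ 0 :=
  ae_ne (site6_ne_zero n hF)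

theorem ae_fst {p : Measure (UnitAddTorus (Fin 6 × Fin k) × ℝ)} (hp : p.map Prod.fst = volume)
    {Q : UnitAddTorus (Fin 6 × Fin k) → Prop} (h : ∀ᵐ y, Q y) : ∀ᵐ z ∂p, Q z.1 := by
  rw [← hp] at h
  exact ae_of_ae_map measurable_fst.aemeasurable h

/-- One polynomial without roots outside of `F`. -/
theorem case_one {β v : Loc k} {M : ℝ}
    (p : Measure (UnitAddTorus (Fin 6 × Fin k) × ℝ)) [IsProbabilityMeasure p]
    (hM : p {z | z.2 ∉ Set.Icc (-M) M} = 0)
    (hp : ∀ G : (Lau6 k)[X], ∫ z, evG z G ∂p = E ((P (bb β) (bb v) 1).app (emb6X G)))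
    (hp1 : p.map Prod.fst = volume)
    (G : (Lau6 k)[X]) (hG : emb6X G • P (bb β) (bb v) 1 ∈ AC k M) (F : Finset ℝ)
    (hF : ∀ᵐ y : UnitAddTorus (Fin 6 × Fin k), ∀ x : ℝ, x ∉ F → evG (y, x) G ≠ 0)
    (D : Set ℝ) (hD : IsCompact D) (hD0 : volume D = 0) (hDF : Disjoint D (F : Set ℝ)) :
    p {z | z.2 ∈ D} = 0 := by
  have h1 := ae_zero_of_mem p hM hp G hG D hD hD0
  have h2 := ae_fst hp1 hF
  have h3 : ∀ᵐ z ∂p, z.2 ∉ D := by
    filter_upwards [h1, h2] with z hz1 hz2 hz3
    exact hz2 z.2 (fun hz4 => Set.disjoint_left.mp hDF hz3 hz4) (hz1 hz3)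
  rw [ae_iff] at h3
  simpa using h3

/-- The evaluation of the cubic. -/
theorem evG_cub6 (β v : Loc k) (i : Fin k) (a b c : Fin 6)
    (z : UnitAddTorus (Fin 6 × Fin k) × ℝ) :
    evG z (cub6 β v i a b c) =
      cubic (z.2 : ℂ) (evP z.1 (site6 b β)) (evP z.1 (site6 b v)) (evP z.1 (site6 c v))
        (evP z.1 (site6 c β)) (evP z.1 (site6 a (dl i β))) (evP z.1 (site6 b (dl i β)))
        (evP z.1 (site6 c (dl i β))) (evP z.1 (site6 a (dl i v))) (evP z.1 (site6 b (dl i v)))
        (evP z.1 (site6 c (dl i v))) := by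
  unfold cub6
  rw [map_cubic]
  simp only [evG_C, evG_X]

/-- The third difference of the cubic. -/
theorem cubic_diff {A : Type} [CommRing A] (b1 v1 v2 b2 b0' b1' b2' v0' v1' v2' : A) :
    cubic 3 b1 v1 v2 b2 b0' b1' b2' v0' v1' v2' - 3 * cubic 2 b1 v1 v2 b2 b0' b1' b2' v0' v1' v2'
      + 3 * cubic 1 b1 v1 v2 b2 b0' b1' b2' v0' v1' v2' - cubic 0 b1 v1 v2 b2 b0' b1' b2' v0' v1' v2'
      = -(6 * (v0' * b1' * b2')) := by
  unfold cubic
  ring

theorem cub6_ne (β v : Loc k) (i : Fin k) (a b c : Fin 6) (y : UnitAddTorus (Fin 6 × Fin k))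
    (ha : evP y (site6 a (dl i v)) ≠ 0) (hb : evP y (site6 b (dl i β)) ≠ 0)
    (hc : evP y (site6 c (dl i β)) ≠ 0) : ∃ x : ℝ, evG (y, x) (cub6 β v i a b c) ≠ 0 := by
  by_contra hcon
  push Not at hcon
  have h0 := hcon 0
  have h1 := hcon 1
  have h2 := hcon 2
  have h3 := hcon 3
  rw [evG_cub6] at h0 h1 h2 h3
  have hd := cubic_diff (evP y (site6 b β)) (evP y (site6 b v)) (evP y (site6 c v))
        (evP y (site6 c β)) (evP y (site6 a (dl i β))) (evP y (site6 b (dl i β)))
        (evP y (site6 c (dl i β))) (evP y (site6 a (dl i v))) (evP y (site6 b (dl i v)))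
        (evP y (site6 c (dl i v)))
  norm_num at h0 h1 h2 h3
  rw [h0, h1, h2, h3] at hd
  have : evP y (site6 a (dl i v)) * evP y (site6 b (dl i β)) * evP y (site6 c (dl i β)) = 0 := by
    linear_combination (1 / 6 : ℂ) * hd
  simp [ha, hb, hc] at this

theorem ae_cub6 {β v : Loc k} {i : Fin k} (hβ : dl i β ≠ 0) (hv : dl i v ≠ 0) (a b c : Fin 6) :
    ∀ᵐ y : UnitAddTorus (Fin 6 × Fin k), ∃ x : ℝ, evG (y, x) (cub6 β v i a b c) ≠ 0 := by
  filter_upwards [ae_site6 a hv, ae_site6 b hβ, ae_site6 c hβ] with y h1 h2 h3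
  exact cub6_ne β v i a b c y h1 h2 h3

theorem cub6_ne_zero {β v : Loc k} {i : Fin k} (hβ : dl i β ≠ 0) (hv : dl i v ≠ 0)
    (a b c : Fin 6) : cub6 β v i a b c ≠ 0 := by
  obtain ⟨y, x, hx⟩ := (ae_cub6 hβ hv a b c).exists
  intro h
  rw [h, map_zero] at hx
  exact hx rfl

/-- The exceptional energies. -/
theorem exists_exc {β v : Loc k} {i : Fin k} (hβ : dl i β ≠ 0) (hv : dl i v ≠ 0) (a b c : Fin 6) :
    ∃ F : Finset ℝ, ∀ x : ℝ, x ∉ F → (cub6 β v i a b c).eval
      (algebraMap ℂ (AddMonoidAlgebra ℂ (Fin 6 × Fin k → ℤ)) (x : ℂ)) ≠ 0 := by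
  obtain ⟨y, x0, hx0⟩ := (ae_cub6 hβ hv a b c).exists
  set q : ℂ[X] := (cub6 β v i a b c).map (evP y : Lau6 k →+* ℂ) with hq
  have hqe : ∀ x : ℝ, q.eval (x : ℂ) = evG (y, x) (cub6 β v i a b c) := by
    intro x
    rw [hq, Polynomial.eval_map]
    rfl
  have hq0 : q ≠ 0 := by
    intro h
    rw [← hqe, h, Polynomial.eval_zero] at hx0
    exact hx0 rfl
  have hfin : {x : ℝ | q.eval (x : ℂ) = 0}.Finite := by
    have h1 : {x : ℝ | q.eval (x : ℂ) = 0} ⊆ (fun x : ℝ => (x : ℂ)) ⁻¹' (q.roots.toFinset : Set ℂ) := by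
      intro x hx
      simp only [Set.mem_preimage, Finset.mem_coe, Multiset.mem_toFinset]
      exact (Polynomial.mem_roots hq0).mpr hx
    exact (Set.Finite.preimage Complex.ofReal_injective.injOn (Finset.finite_toSet _)).subset h1
  refine ⟨hfin.toFinset, fun x hx h => hx ?_⟩
  rw [Set.Finite.mem_toFinset]
  show q.eval (x : ℂ) = 0
  rw [hqe, evG_eq_evP, h, map_zero]

/-- The generic case. -/
theorem case_alpha {β v : Loc k} {M : ℝ} (h : Good k β v M)
    (p : Measure (UnitAddTorus (Fin 6 × Fin k) × ℝ)) [IsProbabilityMeasure p]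
    (hM : p {z | z.2 ∉ Set.Icc (-M) M} = 0)
    (hp : ∀ G : (Lau6 k)[X], ∫ z, evG z G ∂p = E ((P (bb β) (bb v) 1).app (emb6X G)))
    (hp1 : p.map Prod.fst = volume) (i : Fin k) (hβ : dl i β ≠ 0) (hv : dl i v ≠ 0)
    (F : Finset ℝ)
    (hF : ∀ x : ℝ, x ∉ F → (cub6 β v i 3 4 5).eval
      (algebraMap ℂ (AddMonoidAlgebra ℂ (Fin 6 × Fin k → ℤ)) (x : ℂ)) ≠ 0)
    (D : Set ℝ) (hD : IsCompact D) (hD0 : volume D = 0) (hDF : Disjoint D (F : Set ℝ)) :
    p {z | z.2 ∈ D} = 0 := by
  have hβ0 : β ≠ 0 := by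
    rintro rfl
    apply hβ
    simp [dl]
  have h1 := ae_zero_of_mem p hM hp _ (elimA h i) D hD hD0
  have h2 := ae_zero_of_mem p hM hp _ (elimB h i) D hD hD0
  have hk : ∀ᵐ y : UnitAddTorus (Fin 6 × Fin k), evP y (kap6 β v i) ≠ 0 := by
    filter_upwards [ae_site6 2 hβ, ae_site6 1 hβ0, ae_site6 1 hv, ae_site6 3 hβ, ae_site6 2 hβ0,
      ae_site6 2 hv, ae_site6 4 hβ, ae_site6 3 hβ0, ae_site6 3 hv] with y a1 a2 a3 a4 a5 a6 a7 a8 a9
    unfold kap6
    simp only [map_mul]
    simp [a1, a2, a3, a4, a5, a6, a7, a8, a9]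
  have hc : ∀ᵐ y : UnitAddTorus (Fin 6 × Fin k),
      ¬ ∃ x ∈ D, evG (y, x) (cub6 β v i 0 1 2) = 0 ∧ evG (y, x) (cub6 β v i 3 4 5) = 0 := by
    have := common_root {q : Fin 6 × Fin k | q.1 = 0 ∨ q.1 = 1 ∨ q.1 = 2}
      (cub6 β v i 0 1 2) (cub6 β v i 3 4 5) ?_ ?_ (cub6_ne_zero hβ hv 0 1 2) D hD ?_
    · rw [ae_iff]
      simpa using this
    · intro y y' hy x
      have e : ∀ (n : Fin 6) (G : Loc k), (n = 0 ∨ n = 1 ∨ n = 2) →
          evP y (site6 n G) = evP y' (site6 n G) := by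
        intro n G hn
        rw [evP_site6, evP_site6,
          show (fun j => y (n, j)) = fun j => y' (n, j) from funext fun j => hy (n, j) hn]
      rw [evG_cub6, evG_cub6]
      simp only [e 0 _ (by simp), e 1 _ (by simp), e 2 _ (by simp)]
    · intro y y' hy x
      have e : ∀ (n : Fin 6) (G : Loc k), ¬ (n = 0 ∨ n = 1 ∨ n = 2) →
          evP y (site6 n G) = evP y' (site6 n G) := by
        intro n G hn
        rw [evP_site6, evP_site6,
          show (fun j => y (n, j)) = fun j => y' (n, j) from funext fun j => hy (n, j) hn]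
      rw [evG_cub6, evG_cub6]
      simp only [e 3 _ (by decide), e 4 _ (by decide), e 5 _ (by decide)]
    · intro x hx
      exact hF x fun hxF => Set.disjoint_left.mp hDF hx hxF
  have h3 : ∀ᵐ z ∂p, z.2 ∉ D := by
    filter_upwards [h1, h2, ae_fst hp1 hk, ae_fst hp1 hc] with z z1 z2 z3 z4 z5
    have w2 := z2 z5
    rw [map_mul, evG_C] at w2
    exact z4 ⟨z.2, z5, z1 z5, (mul_eq_zero.mp w2).resolve_left z3⟩
  rw [ae_iff] at h3
  simpa using h3

/-- The coefficients of the derivative. -/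
theorem dl_coeff (i : Fin k) (F : Loc k) (a : Fin k → ℤ) :
    (dl i F).coeff a = 2 * Real.pi * Complex.I * (a i : ℂ) * F.coeff a := by
  classical
  induction F using AddMonoidAlgebra.induction_linear with
  | zero => simp [dl]
  | add f g hf hg =>
    rw [dl_add, AddMonoidAlgebra.coeff_add, AddMonoidAlgebra.coeff_add, Finsupp.add_apply,
      Finsupp.add_apply, hf, hg]
    ring
  | single b c =>
    rw [dl_single]
    by_cases h : b = a
    · subst h
      simp
    · simp [h]

/-- All derivatives vanish: the Laurent polynomial is constant. -/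
theorem eq_const {F : Loc k} (h : ∀ i, dl i F = 0) :
    F = AddMonoidAlgebra.single 0 (F.coeff 0) := by
  classical
  ext a
  by_cases ha : a = 0
  · subst ha
    simp
  · have h1 : ∃ i, a i ≠ 0 := by
      by_contra hcon
      push Not at hcon
      exact ha (funext hcon)
    obtain ⟨i, hi⟩ := h1
    have h2 := dl_coeff i F a
    rw [h i] at h2
    have h3 : F.coeff a = 0 := by
      have h4 : (2 * Real.pi * Complex.I * (a i : ℂ)) ≠ 0 := by
        simp [Real.pi_ne_zero, Complex.I_ne_zero, hi]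
      have h5 : (2 * Real.pi * Complex.I * (a i : ℂ)) * F.coeff a = 0 := by
        rw [← h2]; simp
      exact (mul_eq_zero.mp h5).resolve_left h4
    rw [h3]
    simp [Ne.symm ha]

theorem ev1_const (x : Fin k → ℝ) (c : ℂ) :
    ev1 x (AddMonoidAlgebra.single (0 : Fin k → ℤ) c) = c := by
  have h : (AddMonoidAlgebra.single (0 : Fin k → ℤ) c : Loc k) = algebraMap ℂ (Loc k) c := rfl
  rw [h, AlgHom.commutes]
  rfl

/-- A measure with the averaged moments: the second marginal of the joint law. -/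
theorem snd_moment {β v : Loc k}
    (p : Measure (UnitAddTorus (Fin 6 × Fin k) × ℝ)) [IsProbabilityMeasure p]
    (hp : ∀ G : (Lau6 k)[X], ∫ z, evG z G ∂p = E ((P (bb β) (bb v) 1).app (emb6X G))) (n : ℕ) :
    ((∫ x, x ^ n ∂(p.map Prod.snd) : ℝ) : ℂ) = E (pw (bb β) (bb v) n 1 1) := by
  have h1 := hp (X ^ n)
  rw [map_pow, emb6X_X, P_app] at h1
  have h2 : ent (bb β) (bb v) 1 1 (X ^ n) = pw (bb β) (bb v) n 1 1 := by
    simp [ent, pw]
  rw [h2] at h1
  rw [← h1, integral_map measurable_snd.aemeasurable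
    (by fun_prop), ← integral_complex_ofReal]
  congr 1
  funext z
  rw [map_pow, evG_X]
  push_cast
  rfl

/-- Main theorem on the torus (helper80). -/
theorem main_torus {β v : Loc k} {M : ℝ} (h : Good k β v M) :
    ∃ μ : Measure ℝ, IsProbabilityMeasure μ ∧ μ (Set.Icc (-M) M)ᶜ = 0 ∧
      (∀ n : ℕ, ((∫ x, x ^ n ∂μ : ℝ) : ℂ) = E (pw (bb β) (bb v) n 1 1)) ∧
      ∃ F : Finset ℝ, (μ.restrict (F : Set ℝ)ᶜ).AbsolutelyContinuous volume := by
  by_cases hconst : (∀ i, dl i β = 0) ∧ (∀ i, dl i v = 0)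
  · -- constant coefficients
    have hβc := eq_const hconst.1
    have hvc := eq_const hconst.2
    obtain ⟨hb, hv, a, c, ha, hc, hva, hbc, hM⟩ := h
    have e1 : ∀ x : Fin k → ℝ, ev1 x β = β.coeff 0 := fun x => by
      conv_lhs => rw [hβc]
      exact ev1_const x _
    have e2 : ∀ x : Fin k → ℝ, ev1 x v = v.coeff 0 := fun x => by
      conv_lhs => rw [hvc]
      exact ev1_const x _
    obtain ⟨b1, b2⟩ := hb 0
    have v1 := hv 0
    have v2 := hva 0
    have b3 := hbc 0
    rw [e1] at b1 b2 b3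
    rw [e2] at v1 v2
    obtain ⟨μ, hμ1, hμM, hμ, F, hF⟩ := degen (β.coeff 0).re (v.coeff 0).re M b2 (by
      have : Real.sqrt (β.coeff 0).re ≤ c := by
        rw [show c = Real.sqrt (c ^ 2) from (Real.sqrt_sq hc).symm]
        exact Real.sqrt_le_sqrt b3
      linarith)
    refine ⟨μ, hμ1, hμM, fun n => ?_, F, hF⟩
    rw [hμ n 1]
    have hbb : bb β = fun _ => (algebraMap ℝ (Lau k)) (β.coeff 0).re := by
      funext l
      show site l β = _
      conv_lhs => rw [hβc]
      have h0 : (AddMonoidAlgebra.single (0 : Fin k → ℤ) (β.coeff 0) : Loc k) =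
        algebraMap ℂ (Loc k) (β.coeff 0) := rfl
      rw [h0, AlgHom.commutes, show β.coeff 0 = (((β.coeff 0).re : ℝ) : ℂ) from
        Complex.ext rfl (by simpa using b1)]
      rfl
    have hvv : bb v = fun _ => (algebraMap ℝ (Lau k)) (v.coeff 0).re := by
      funext l
      show site l v = _
      conv_lhs => rw [hvc]
      have h0 : (AddMonoidAlgebra.single (0 : Fin k → ℤ) (v.coeff 0) : Loc k) =
        algebraMap ℂ (Loc k) (v.coeff 0) := rfl
      rw [h0, AlgHom.commutes, show v.coeff 0 = (((v.coeff 0).re : ℝ) : ℂ) from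
        Complex.ext rfl (by simpa using v1)]
      rfl
    rw [hbb, hvv, ← map_pw]
    show _ = E (AddMonoidAlgebra.single 0 _)
    simp [E]
  · -- at least one coefficient is not constant
    obtain ⟨p, hp0, hpM, hp, hp1⟩ := exists_joint h
    have hconc : ∀ F : Finset ℝ, (∀ D : Set ℝ, IsCompact D → volume D = 0 →
        Disjoint D (F : Set ℝ) → p {z | z.2 ∈ D} = 0) →
        ∃ μ : Measure ℝ, IsProbabilityMeasure μ ∧ μ (Set.Icc (-M) M)ᶜ = 0 ∧
        (∀ n : ℕ, ((∫ x, x ^ n ∂μ : ℝ) : ℂ) = E (pw (bb β) (bb v) n 1 1)) ∧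
        ∃ F : Finset ℝ, (μ.restrict (F : Set ℝ)ᶜ).AbsolutelyContinuous volume := by
      intro F hF
      have hpr : IsProbabilityMeasure (p.map Prod.snd) :=
        Measure.isProbabilityMeasure_map measurable_snd.aemeasurable
      refine ⟨p.map Prod.snd, hpr, ?_, snd_moment p hp, F, ?_⟩
      · rw [Measure.map_apply measurable_snd measurableSet_Icc.compl]
        exact hpM
      · apply ac_of_compact
        intro D hD hD0 hDF
        rw [Measure.map_apply measurable_snd hD.isClosed.measurableSet]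
        exact hF D hD hD0 hDF
    by_cases hv : ∀ i, dl i v = 0
    · -- `v` constant
      have hβ : ∃ i, dl i β ≠ 0 := by
        by_contra hcon
        push Not at hcon
        exact hconst ⟨hcon, hv⟩
      obtain ⟨i, hi⟩ := hβ
      have hvc := eq_const hv
      have v1 := h.2.1 0
      have e2 : ev1 (0 : Fin k → ℝ) v = v.coeff 0 := by
        conv_lhs => rw [hvc]
        exact ev1_const _ _
      rw [e2] at v1
      apply hconc {(v.coeff 0).re}
      apply case_one p hpM hp hp1 _ (elimC h i (hv i))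
      filter_upwards [ae_site6 0 hi, ae_site6 1 hi] with y y1 y2 x hx
      rw [map_mul, map_mul, map_sub, evG_C, evG_C, evG_C, evG_X]
      apply mul_ne_zero (mul_ne_zero y1 y2)
      have h0 : evP y (site6 1 v) = v.coeff 0 := by
        conv_lhs => rw [hvc]
        have h0 : (AddMonoidAlgebra.single (0 : Fin k → ℤ) (v.coeff 0) : Loc k) =
          algebraMap ℂ (Loc k) (v.coeff 0) := rfl
        rw [h0, AlgHom.commutes, AlgHom.commutes]
        rfl
      show (x : ℂ) - evP y (site6 1 v) ≠ 0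
      rw [h0, sub_ne_zero]
      intro hx1
      apply hx
      rw [Finset.mem_singleton]
      have := congrArg Complex.re hx1
      simpa using this
    · push Not at hv
      obtain ⟨i, hi⟩ := hv
      by_cases hβ : dl i β = 0
      · apply hconc ∅
        apply case_one p hpM hp hp1 _ (elimD h i hβ)
        filter_upwards [ae_site6 1 hi] with y y1 x _
        rw [evG_C]
        exact y1
      · obtain ⟨F, hF⟩ := exists_exc hβ hi 3 4 5
        exact hconc F (case_alpha h p hpM hp hp1 i hβ hi F hF)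

end Pool.Agent.Wb5ab1b
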