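import Pool.Agent.W_b5ab1b_h80.Defs

/-!
# The zero set of a Laurent polynomial on the torus (helper80)
-/

set_option autoImplicit false

noncomputable section

open scoped Polynomial
open MeasureTheory

namespace Pool.Agent.Wb5ab1b

theorem evP_single {d : Type} [Fintype d] (y : UnitAddTorus d) (a : d → ℤ) (c : ℂ) :
    evP y (AddMonoidAlgebra.single a c) = c * UnitAddTorus.mFourier a y := by
  show (evT (AddMonoidAlgebra.single a c)) y = _
  unfold evT
  rw [AddMonoidAlgebra.lift_single]
  rfl

theorem evP_eq_sum {d : Type} [Fintype d] (y : UnitAddTorus d) (F : AddMonoidAlgebra ℂ (d → ℤ)) :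
    evP y F = ∑ a ∈ F.coeff.support, F.coeff a * UnitAddTorus.mFourier a y := by
  show (evT F) y = _
  unfold evT
  rw [AddMonoidAlgebra.lift_apply]
  rw [Finsupp.sum]
  rw [ContinuousMap.sum_apply]
  rfl

/-- an integral vector separating a finite set of exponents -/
theorem exists_sep {d : Type} [Fintype d] (S : Finset (d → ℤ)) :
    ∃ w : d → ℤ, ∀ a ∈ S, ∀ b ∈ S, ∑ i, a i * w i = ∑ i, b i * w i → a = b := by
  classical
  let P : MvPolynomial d ℤ :=
    ∏ q ∈ S.offDiag, ∑ i, MvPolynomial.C (q.1 i - q.2 i) * MvPolynomial.X i
  have hP : P ≠ 0 := by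
    rw [Finset.prod_ne_zero_iff]
    intro q hq h0
    rw [Finset.mem_offDiag] at hq
    apply hq.2.2
    funext i
    have := congrArg (MvPolynomial.eval (Pi.single i (1 : ℤ))) h0
    simp [Pi.single_apply] at this
    linarith
  obtain ⟨w, hw⟩ : ∃ w, MvPolynomial.eval w P ≠ 0 := by
    by_contra h
    push Not at h
    exact hP (MvPolynomial.funext (by simpa using h))
  refine ⟨w, fun a ha b hb h => ?_⟩
  by_contra hab
  apply hw
  simp only [P, map_prod]
  apply Finset.prod_eq_zero (Finset.mem_offDiag.2 ⟨ha, hb, hab⟩ : (a, b) ∈ S.offDiag)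
  simp only [map_sum, map_mul, MvPolynomial.eval_C, MvPolynomial.eval_X, sub_mul,
    Finset.sum_sub_distrib]
  rw [h, sub_self]

/-- a nonzero exponential sum on the circle has finitely many zeros -/
theorem finite_zeros {α : Type} (S : Finset α) (hS : S.Nonempty) (c : α → ℂ) (n : α → ℤ)
    (hn : ∀ a ∈ S, ∀ b ∈ S, n a = n b → a = b) (hc : ∀ a ∈ S, c a ≠ 0) :
    {t : UnitAddCircle | ∑ a ∈ S, c a * fourier (n a) t = 0}.Finite := by
  classical
  obtain ⟨N, hN⟩ : ∃ N : ℕ, ∀ a ∈ S, 0 ≤ n a + N := by
    refine ⟨S.sup (fun a => (n a).natAbs), fun a ha => ?_⟩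
    have := Finset.le_sup (f := fun a => (n a).natAbs) ha
    omega
  let p : ℂ[X] := ∑ a ∈ S, Polynomial.C (c a) * Polynomial.X ^ ((n a + N).toNat)
  have hp : p ≠ 0 := by
    obtain ⟨a0, ha0⟩ := hS
    intro h0
    have h1 := congrArg (fun q => Polynomial.coeff q ((n a0 + N).toNat)) h0
    simp only [p, Polynomial.finsetSum_coeff, Polynomial.coeff_C_mul, Polynomial.coeff_X_pow,
      Polynomial.coeff_zero] at h1
    rw [Finset.sum_eq_single a0] at h1
    · simp at h1
      exact hc a0 ha0 h1
    · intro b hb hba
      rw [if_neg, mul_zero]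
      intro h2
      apply hba
      apply hn b hb a0 ha0
      have := hN b hb
      have := hN a0 ha0
      omega
    · intro h; exact absurd ha0 h
  have hinj : Function.Injective (fun t : UnitAddCircle => (fourier 1 t : ℂ)) := by
    intro s t h
    simp only [fourier_one] at h
    exact AddCircle.injective_toCircle one_ne_zero (Subtype.coe_inj.1 h)
  have hsub : {t : UnitAddCircle | ∑ a ∈ S, c a * fourier (n a) t = 0} ⊆
      (fun t : UnitAddCircle => (fourier 1 t : ℂ)) ⁻¹' (p.roots.toFinset : Set ℂ) := by
    intro t ht
    simp only [Set.mem_ofPred_eq] at ht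
    simp only [Set.mem_preimage, Finset.mem_coe, Multiset.mem_toFinset]
    rw [Polynomial.mem_roots hp, Polynomial.IsRoot.def]
    simp only [p, Polynomial.eval_finsetSum, Polynomial.eval_mul, Polynomial.eval_C,
      Polynomial.eval_pow, Polynomial.eval_X]
    have hpow : ∀ k : ℕ, (fourier 1 t : ℂ) ^ k = fourier (k : ℤ) t := by
      intro k
      induction k with
      | zero => simp
      | succ k ih =>
        rw [pow_succ, ih]
        push_cast
        rw [fourier_add]
    have h2 : ∀ a ∈ S, c a * (fourier 1 t : ℂ) ^ ((n a + N).toNat) =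
        (c a * fourier (n a) t) * fourier (N : ℤ) t := by
      intro a ha
      rw [hpow, Int.toNat_of_nonneg (hN a ha), fourier_add, mul_assoc]
    rw [Finset.sum_congr rfl h2, ← Finset.sum_mul, ht, zero_mul]
  exact (Set.Finite.preimage hinj.injOn p.roots.toFinset.finite_toSet).subset hsub

instance nontrivial_circle : Nontrivial UnitAddCircle := by
  refine ⟨⟨((1 / 2 : ℝ) : AddCircle (1 : ℝ)), 0, ?_⟩⟩
  intro h
  rw [AddCircle.coe_eq_zero_iff] at h
  obtain ⟨n, hn⟩ := h
  rw [zsmul_one] at hn
  have h2 : ((2 * n : ℤ) : ℝ) = ((1 : ℤ) : ℝ) := by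
    push_cast
    linarith
  have h3 : 2 * n = 1 := by exact_mod_cast h2
  omega

theorem null_of_finite {s : Set UnitAddCircle} (h : s.Finite) :
    (volume : Measure UnitAddCircle) s = 0 := by
  have : (nhdsWithin (0 : UnitAddCircle) {0}ᶜ).NeBot := inferInstance
  exact h.measure_zero _

theorem fourier_sum_mul {d : Type} [Fintype d] (m : d → ℤ) (t : UnitAddCircle) :
    (fourier (∑ i, m i) t : ℂ) = ∏ i, (fourier (m i) t : ℂ) := by
  classical
  have : ∀ s : Finset d, (fourier (∑ i ∈ s, m i) t : ℂ) = ∏ i ∈ s, (fourier (m i) t : ℂ) := by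
    intro s
    induction s using Finset.induction_on with
    | empty => simp
    | insert a s ha ih => rw [Finset.sum_insert ha, Finset.prod_insert ha, fourier_add, ih]
  exact this Finset.univ

/-- the zero set of a Laurent polynomial is closed -/
theorem isClosed_zero {d : Type} [Fintype d] (F : AddMonoidAlgebra ℂ (d → ℤ)) :
    IsClosed {y : UnitAddTorus d | evP y F = 0} :=
  isClosed_eq (evT F).continuous continuous_const

/-- The zero set of a nonzero Laurent polynomial is a null set. Proof by induction on the number of
variables (first for `d = Fin n`, with `MeasurableEquiv.piFinSuccAbove` and its measure preservation;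
then transport along `Fintype.equivFin d`, `volume_measurePreserving_piCongrLeft`). Write
`F = Σ_m z_0^m F_m`, some `F_m ≠ 0`; for almost every point of the remaining coordinates `F_m ≠ 0`, and
then the Laurent polynomial in `z_0` has finitely many zeros, which form a null set of the circle
(`fourier` is injective for the exponent `1`; multiply by a power of `z_0` and use
`Polynomial.card_roots'`); conclude with Fubini (`Measure.measure_prod_null`, the set is closed). -/
theorem null_zero {d : Type} [Fintype d] (F : AddMonoidAlgebra ℂ (d → ℤ)) (hF : F ≠ 0) :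
    volume {y : UnitAddTorus d | evP y F = 0} = 0 := by
  classical
  obtain ⟨w, hw⟩ := exists_sep F.coeff.support
  let φ : UnitAddCircle → UnitAddTorus d := fun t i => w i • t
  have hφ : Continuous φ := by
    apply continuous_pi
    intro i
    exact continuous_zsmul (w i)
  have hZ := isClosed_zero F
  set Z : Set (UnitAddTorus d) := {y | evP y F = 0} with hZdef
  let A : Set (UnitAddTorus d × UnitAddCircle) := {p | p.1 + φ p.2 ∈ Z}
  have hA : IsClosed A := hZ.preimage (by fun_prop)
  have hne : F.coeff.support.Nonempty := by
    rw [Finsupp.support_nonempty_iff]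
    intro h
    apply hF
    ext a
    rw [h]
    simp
  have h1 : ((volume : Measure (UnitAddTorus d)).prod (volume : Measure UnitAddCircle)) A = 0 := by
    rw [Measure.measure_prod_null hA.measurableSet]
    refine Filter.Eventually.of_forall fun y => ?_
    have hfin : (Prod.mk y ⁻¹' A).Finite := by
      have h3 := finite_zeros F.coeff.support hne
        (fun a => F.coeff a * UnitAddTorus.mFourier a y) (fun a => ∑ i, a i * w i) hw (by
          intro a ha
          refine mul_ne_zero (Finsupp.mem_support_iff.1 ha) ?_
          simp only [UnitAddTorus.mFourier, ContinuousMap.coe_mk]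
          rw [Finset.prod_ne_zero_iff]
          intro i _
          rw [fourier_apply]
          exact Circle.coe_ne_zero _)
      refine h3.subset ?_
      intro t ht
      simp only [A, Set.mem_preimage, Set.mem_ofPred_eq, hZdef] at ht
      rw [evP_eq_sum] at ht
      simp only [Set.mem_ofPred_eq]
      rw [← ht]
      apply Finset.sum_congr rfl
      intro a _
      rw [mul_assoc]
      congr 1
      simp only [UnitAddTorus.mFourier, ContinuousMap.coe_mk, Pi.add_apply, φ]
      rw [fourier_sum_mul, ← Finset.prod_mul_distrib]
      apply Finset.prod_congr rfl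
      intro i _
      rw [fourier_apply, fourier_apply, fourier_apply, smul_add, AddCircle.toCircle_add,
        Circle.coe_mul, smul_smul]
    exact null_of_finite hfin
  have h2 : ((volume : Measure (UnitAddTorus d)).prod (volume : Measure UnitAddCircle)) A =
      volume Z * (volume : Measure UnitAddCircle) Set.univ := by
    rw [Measure.prod_apply_symm hA.measurableSet]
    have : ∀ t, volume ((fun x => (x, t)) ⁻¹' A) = volume Z := by
      intro t
      exact measure_preimage_add_right volume (φ t) Z
    simp_rw [this]
    rw [lintegral_const]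
  rw [h1] at h2
  rcases mul_eq_zero.1 h2.symm with h | h
  · exact h
  · simp at h

end Pool.Agent.Wb5ab1b
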