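import Pool.Agent.W_b5ab1b_h80.GFinal
import Pool.Agent.W_b5ab1b_h80.GenA

set_option autoImplicit false

/-!
# Elements of first order of the group ring of A wr Z have no singular continuous part

`A` a torsion-free abelian group, `T` a self-adjoint element of `ℝ[A ≀ ℤ]` whose support lies over
`{-1, 0, 1}` in `ℤ`: the spectral measure of `T` is absolutely continuous outside of a finite set.
-/

namespace Pool.Agent.Wb5ab1b.OldFirst

open MeasureTheory Pool.Agent.Wb5ab1b

theorem result : ∀ (A : Type) [AddCommGroup A] [IsAddTorsionFree A],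
    (∀ (g : Wr A) (n : ℕ), n ≠ 0 → g ^ n = 1 → g = 1) ∧
    ∀ T : MonoidAlgebra ℝ (Wr A), (∀ g, T.coeff g⁻¹ = T.coeff g) →
      (∀ g, T.coeff g ≠ 0 → |Multiplicative.toAdd g.right| ≤ 1) →
      ∃ μ : Measure ℝ, IsSpectralMeasure T μ ∧
        (∀ ν : Measure ℝ, IsSpectralMeasure T ν → ν = μ) ∧
        ∃ F : Finset ℝ, (μ.restrict (F : Set ℝ)ᶜ).AbsolutelyContinuous volume := by
  intro A _ _
  exact ⟨torsionFree A, fun T hT hs => final_g A T hT hs⟩

end Pool.Agent.Wb5ab1b.OldFirst
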