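import Pool.Agent.W_b5ab1b_h80.Final

set_option autoImplicit false

/-!
# Jacobi elements of the group ring of A wr Z have no singular continuous part

`A` a torsion-free abelian group, `u, f ∈ ℝ[A]` with `f = f*`, `t` the generator of `ℤ` in the
restricted wreath product `A ≀ ℤ`: the spectral measure of `u t + t⁻¹ u* + f` is absolutely
continuous outside of a finite set.
-/

namespace Pool.Agent.Wb5ab1b.Old

open MeasureTheory Pool.Agent.Wb5ab1b

theorem result : ∀ (A : Type) [AddCommGroup A] [IsAddTorsionFree A] (u f : AddMonoidAlgebra ℝ A),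
    (∀ a, f.coeff (-a) = f.coeff a) →
    (∀ (g : Wr A) (n : ℕ), n ≠ 0 → g ^ n = 1 → g = 1) ∧
    (∀ g : Wr A, (jacobiElement u f).coeff g⁻¹ = (jacobiElement u f).coeff g) ∧
    ∃ μ : Measure ℝ, IsSpectralMeasure (jacobiElement u f) μ ∧
      (∀ ν : Measure ℝ, IsSpectralMeasure (jacobiElement u f) ν → ν = μ) ∧
      ∃ F : Finset ℝ, (μ.restrict (F : Set ℝ)ᶜ).AbsolutelyContinuous volume := by
  intro A _ _ u f hf
  exact ⟨torsionFree A, selfAdjoint u f hf, final A u f hf⟩

end Pool.Agent.Wb5ab1b.Old
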